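import Pool.Agent.FLX.TDefs

/-!
# FLX-BDefs: the blocks of the quantum Chevalley matrices

The cosets of `W_{l+1} / W_l` are numbered by `x : Fin (m + 2)`, `x` is the coset of `v_{m+1-x}`: the
last `x` is the coset of `1`. The classical edges lower `x`, the quantum edges raise `x`.
-/

set_option autoImplicit false

open scoped BigOperators

noncomputable section

namespace Pool.Agent.FLX

open Pool.Agent.FLG

variable {r : ℕ} (D : RS r)

/-- the classical edges from the coset `x` to the coset `x'` -/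
def lo (l : Fin r) (m : ℕ) (v : ℕ → D.W) (h : ℕ → ℂ) (x' x : Fin (m + 2)) :
    Matrix (PW D l.val) (PW D l.val) ℂ := fun u' u =>
  ∑ a ∈ D.Pos, if v (m + 1 - x'.val) * u'.1 = v (m + 1 - x.val) * u.1 * D.refl a ∧ a l ≠ 0 ∧
    D.len (v (m + 1 - x'.val) * u'.1) = D.len (v (m + 1 - x.val) * u.1) + 1 then wt D h a else 0

/-- the quantum edges from the coset `x` to the coset `x'`, without the factor `q_l` -/
def hi (l : Fin r) (m : ℕ) (v : ℕ → D.W) (q h : ℕ → ℂ) (x' x : Fin (m + 2)) :
    Matrix (PW D l.val) (PW D l.val) ℂ := fun u' u =>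
  ∑ a ∈ D.Pos, if v (m + 1 - x'.val) * u'.1 = v (m + 1 - x.val) * u.1 * D.refl a ∧ a l ≠ 0 ∧
    (D.len (v (m + 1 - x'.val) * u'.1) : ℤ) + 2 * cht D a =
      D.len (v (m + 1 - x.val) * u.1) + 1 then
        wt D h a * qp D (Function.update q l.val 1) a else 0

/-- the corner block of `ω_l`: `u ↦ q^{(u⁻¹ γ)^∨} / q_l · g u`, where `g = v_{m+1} s_γ` -/
def T (l : Fin r) (g : D.W) (γ : Fin r → ℤ) (q : ℕ → ℂ) : Matrix (PW D l.val) (PW D l.val) ℂ :=
  fun u' u => if u'.1 = g * u.1 then qp D (Function.update q l.val 1) (D.rt u.1⁻¹ γ) else 0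

/-- The components of the Dynkin diagram are intervals; `s k` is the first element of the component of
`k`; the component is of type `C` if `t k`, otherwise of type `A`. The simple roots of a component of
type `A` are in the usual order, those of a component of type `C` start with the long root. -/
structure IsAC (s : ℕ → ℕ) (t : ℕ → Prop) : Prop where
  s_le : ∀ k, s k ≤ k
  s_eq : ∀ j k, s k ≤ j → j ≤ k → s j = s k
  t_iff : ∀ j k, s k ≤ j → j ≤ k → (t j ↔ t k)
  zero : ∀ j k : Fin r, j.val < s k.val → D.co (RS.al j) k = 0 ∧ D.co (RS.al k) j = 0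
  zero' : ∀ j k : Fin r, j.val + 1 < k.val → D.co (RS.al j) k = 0 ∧ D.co (RS.al k) j = 0
  link : ∀ j k : Fin r, j.val + 1 = k.val → s k.val ≤ j.val →
    D.co (RS.al j) k = -1 ∧ (¬ (t k.val ∧ j.val = s k.val) → D.co (RS.al k) j = -1) ∧
      (t k.val ∧ j.val = s k.val → D.co (RS.al k) j = -2)

open Classical in
/-- the level `k` has `cc s t k + 2` cosets -/
def cc (s : ℕ → ℕ) (t : ℕ → Prop) (k : ℕ) : ℕ := if t k then 2 * (k - s k) else k - s k

end Pool.Agent.FLX
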