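import Pool.Agent.FLX.Defs
import Pool.Agent.FLO.MutK

/-!
# FLX-BoxX: the box of exponents and the lexicographic order
-/

set_option autoImplicit false

open scoped BigOperators

namespace Pool.Agent.FLX

open Pool.Agent.FLO

variable {c : ℕ → ℕ} {r : ℕ}

private theorem box_succ' (m : ℕ) : box c r (m + 1) =
    ((List.range (c (r - m - 1) + 2)).map (fun a : ℕ => (a : ℤ))).flatMap fun j : ℤ =>
      (box c r m).map fun μ => fun k => if k.val + m + 1 = r then j else μ k := by
  have h : ∀ l : List ℕ, (do let a ← l; pure (a : ℤ) : List ℤ) = l.map (fun a : ℕ => (a : ℤ)) := by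
    intro l
    show l.flatMap (fun a : ℕ => [(a : ℤ)]) = _
    induction l with
    | nil => rfl
    | cons a l ih => rw [List.flatMap_cons, ih]; rfl
  rw [← h]
  rfl

theorem mem_box {m : ℕ} (hm : m ≤ r) (μ : Fin r → ℤ) : μ ∈ box c r m ↔
    (∀ k, 0 ≤ μ k ∧ μ k ≤ (c k.val : ℤ) + 1) ∧ ∀ k : Fin r, k.val + m < r → μ k = 0 := by
  induction m generalizing μ with
  | zero =>
    show μ ∈ [0] ↔ _
    rw [List.mem_singleton]
    constructor
    · rintro rfl
      exact ⟨fun k => ⟨le_rfl, by rw [Pi.zero_apply]; positivity⟩, fun _ _ => rfl⟩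
    · rintro ⟨-, h⟩
      funext k
      exact h k (by have := k.isLt; omega)
  | succ m ih =>
    have hm' : m ≤ r := by omega
    rw [box_succ', List.mem_flatMap]
    let k₀ : Fin r := ⟨r - m - 1, by omega⟩
    have hk₀ : ∀ k : Fin r, k.val + m + 1 = r ↔ k = k₀ := by
      intro k
      constructor
      · intro h
        apply Fin.ext
        show k.val = r - m - 1
        omega
      · rintro rfl
        show r - m - 1 + m + 1 = r
        omega
    constructor
    · rintro ⟨j, hj, hμ⟩
      obtain ⟨j', hj', rfl⟩ := List.mem_map.1 hj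
      obtain ⟨ν, hν, rfl⟩ := List.mem_map.1 hμ
      obtain ⟨h1, h2⟩ := (ih hm' ν).1 hν
      have hj2 := List.mem_range.1 hj'
      constructor
      · intro k
        show 0 ≤ (if k.val + m + 1 = r then (j' : ℤ) else ν k) ∧
          (if k.val + m + 1 = r then (j' : ℤ) else ν k) ≤ _
        by_cases hk : k.val + m + 1 = r
        · rw [if_pos hk]
          have h3 : r - m - 1 = k.val := by omega
          rw [h3] at hj2
          constructor <;> omega
        · rw [if_neg hk]
          exact h1 k
      · intro k hk
        show (if k.val + m + 1 = r then (j' : ℤ) else ν k) = 0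
        rw [if_neg (by omega)]
        exact h2 k (by omega)
    · rintro ⟨h1, h2⟩
      refine ⟨μ k₀, ?_, ?_⟩
      · refine List.mem_map.2 ⟨(μ k₀).toNat, ?_, ?_⟩
        · rw [List.mem_range]
          have h3 := h1 k₀
          have h4 : k₀.val = r - m - 1 := rfl
          rw [h4] at h3
          omega
        · exact Int.toNat_of_nonneg (h1 k₀).1
      · refine List.mem_map.2 ⟨fun k => if k.val + m + 1 = r then 0 else μ k, ?_, ?_⟩
        · refine (ih hm' _).2 ⟨fun k => ?_, fun k hk => ?_⟩
          · show 0 ≤ (if k.val + m + 1 = r then (0 : ℤ) else μ k) ∧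
              (if k.val + m + 1 = r then (0 : ℤ) else μ k) ≤ _
            by_cases hk : k.val + m + 1 = r
            · rw [if_pos hk]
              constructor <;> omega
            · rw [if_neg hk]
              exact h1 k
          · show (if k.val + m + 1 = r then (0 : ℤ) else μ k) = 0
            by_cases hk' : k.val + m + 1 = r
            · rw [if_pos hk']
            · rw [if_neg hk']
              exact h2 k (by omega)
        · funext k
          show (if k.val + m + 1 = r then μ k₀ else
            if k.val + m + 1 = r then (0 : ℤ) else μ k) = μ k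
          by_cases hk : k.val + m + 1 = r
          · rw [if_pos hk, (hk₀ k).1 hk]
          · rw [if_neg hk, if_neg hk]

theorem box_head {m : ℕ} (hm : m ≤ r) : ∃ L, box c r m = 0 :: L ∧ ∀ μ ∈ L, μ ≠ 0 := by
  induction m with
  | zero => exact ⟨[], rfl, fun μ hμ => by simp at hμ⟩
  | succ m ih =>
    have hm' : m ≤ r := by omega
    obtain ⟨L, hL, hL0⟩ := ih hm'
    let k₀ : Fin r := ⟨r - m - 1, by omega⟩
    have hk₀ : k₀.val + m + 1 = r := by
      show r - m - 1 + m + 1 = r
      omega
    have hmem : ∀ μ ∈ box c r m, μ k₀ = 0 := fun μ hμ =>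
      ((mem_box hm' μ).1 hμ).2 k₀ (by omega)
    have h0 : ∀ μ ∈ box c r m,
        (fun k : Fin r => if k.val + m + 1 = r then (0 : ℤ) else μ k) = μ := by
      intro μ hμ
      funext k
      show (if k.val + m + 1 = r then (0 : ℤ) else μ k) = μ k
      by_cases hk : k.val + m + 1 = r
      · rw [if_pos hk]
        have h1 : k = k₀ := Fin.ext (by omega)
        rw [h1, hmem μ hμ]
      · rw [if_neg hk]
    rw [box_succ', List.range_succ_eq_map, List.map_cons, List.flatMap_cons]
    have h1 : (box c r m).map (fun μ => fun k : Fin r =>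
        if k.val + m + 1 = r then ((0 : ℕ) : ℤ) else μ k) = box c r m := by
      conv_rhs => rw [← List.map_id (box c r m)]
      exact List.map_congr_left fun μ hμ => h0 μ hμ
    rw [h1, hL, List.cons_append]
    refine ⟨_, rfl, ?_⟩
    intro μ hμ
    rcases List.mem_append.1 hμ with h | h
    · exact hL0 μ h
    · obtain ⟨j, hj, h2⟩ := List.mem_flatMap.1 h
      obtain ⟨j', hj', rfl⟩ := List.mem_map.1 hj
      obtain ⟨j'', -, rfl⟩ := List.mem_map.1 hj'
      obtain ⟨ν, -, rfl⟩ := List.mem_map.1 h2
      intro h3
      have h4 := congrFun h3 k₀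
      simp only [hk₀, if_true, Pi.zero_apply] at h4
      omega

theorem lex_trans {μ ν ξ : Fin r → ℤ} (h : Lex μ ν) (h' : Lex ν ξ) : Lex μ ξ := by
  obtain ⟨k, hk, hk'⟩ := h
  obtain ⟨l, hl, hl'⟩ := h'
  rcases lt_trichotomy k l with hkl | hkl | hkl
  · exact ⟨k, fun i hi => (hk i hi).trans (hl i (hi.trans hkl)), by rw [← hl k hkl]; exact hk'⟩
  · subst hkl
    exact ⟨k, fun i hi => (hk i hi).trans (hl i hi), hk'.trans hl'⟩
  · exact ⟨l, fun i hi => (hk i (hi.trans hkl)).trans (hl i hi), by rw [hk l hkl]; exact hl'⟩

theorem lex_irrefl (μ : Fin r → ℤ) : ¬ Lex μ μ := by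
  rintro ⟨k, -, hk⟩
  exact lt_irrefl _ hk

/-- the box is ordered lexicographically -/
theorem box_lex : ∀ m ≤ r, (box c r m).Pairwise Lex := by
  intro m
  induction m with
  | zero =>
    intro _
    exact List.pairwise_singleton _ _
  | succ m ih =>
    intro hm
    have hm' : m ≤ r := by omega
    have hmem : ∀ μ ∈ box c r m, ∀ k : Fin r, k.val + m < r → μ k = 0 := fun μ hμ =>
      ((mem_box hm' μ).1 hμ).2
    let k₀ : Fin r := ⟨r - m - 1, by omega⟩
    have hk₀ : ∀ k : Fin r, k.val + m + 1 = r ↔ k = k₀ := by
      intro k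
      constructor
      · intro h
        apply Fin.ext
        show k.val = r - m - 1
        omega
      · rintro rfl
        show r - m - 1 + m + 1 = r
        omega
    rw [box_succ', List.pairwise_flatMap]
    constructor
    · intro j _
      rw [List.pairwise_map]
      refine (ih hm').imp_of_mem fun {μ ν} hμ hν h => ?_
      obtain ⟨k, hk, hk'⟩ := h
      have hkk : ¬ k.val + m + 1 = r := by
        intro h1
        have h2 := hmem μ hμ k (by omega)
        have h3 := hmem ν hν k (by omega)
        rw [h2, h3] at hk'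
        exact lt_irrefl _ hk'
      refine ⟨k, fun i hi => ?_, ?_⟩
      · show (if i.val + m + 1 = r then j else μ i) = if i.val + m + 1 = r then j else ν i
        rw [hk i hi]
      · show (if k.val + m + 1 = r then j else μ k) < if k.val + m + 1 = r then j else ν k
        rw [if_neg hkk, if_neg hkk]
        exact hk'
    · rw [List.pairwise_map]
      refine List.pairwise_lt_range.imp fun {j j'} hjj => ?_
      intro x hx y hy
      obtain ⟨μ, hμ, rfl⟩ := List.mem_map.1 hx
      obtain ⟨ν, hν, rfl⟩ := List.mem_map.1 hy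
      refine ⟨k₀, fun i hi => ?_, ?_⟩
      · have hi' : ¬ i.val + m + 1 = r := by
          rw [hk₀]
          exact hi.ne
        have hi2 : i.val + m < r := by
          have h1 : i.val < r - m - 1 := hi
          omega
        show (if i.val + m + 1 = r then (j : ℤ) else μ i) =
          if i.val + m + 1 = r then (j' : ℤ) else ν i
        rw [if_neg hi', if_neg hi', hmem μ hμ i hi2, hmem ν hν i hi2]
      · show (if k₀.val + m + 1 = r then (j : ℤ) else μ k₀) <
          if k₀.val + m + 1 = r then (j' : ℤ) else ν k₀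
        rw [if_pos ((hk₀ k₀).2 rfl), if_pos ((hk₀ k₀).2 rfl)]
        exact_mod_cast hjj

/-- the box is determined by its elements and the lexicographic order -/
theorem eq_box {B : List (Fin r → ℤ)} (h1 : B.Pairwise Lex)
    (h2 : ∀ μ, μ ∈ B ↔ ∀ k, 0 ≤ μ k ∧ μ k ≤ (c k.val : ℤ) + 1) : B = box c r r := by
  have h3 := box_lex (c := c) (r := r) r le_rfl
  have hn : ∀ L : List (Fin r → ℤ), L.Pairwise Lex → L.Nodup := by
    intro L hL
    refine List.Pairwise.imp (R := Lex) (fun {a c} h => ?_) hL
    rintro rfl
    exact lex_irrefl _ h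
  have hp : B.Perm (box c r r) := (List.perm_ext_iff_of_nodup (hn _ h1) (hn _ h3)).2 fun μ => by
    rw [h2, mem_box le_rfl]
    constructor
    · intro h
      exact ⟨h, fun k hk => absurd hk (by omega)⟩
    · exact fun h => h.1
  refine hp.eq_of_pairwise (le := Lex) ?_ h1 h3
  intro a c _ _ hac hca
  exact absurd (lex_trans hac hca) (lex_irrefl a)

end Pool.Agent.FLX
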