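import Pool.Agent.FLX.TDefs
import Pool.Agent.FLX.MdlE
import Pool.Agent.FLO.GMat
import Pool.Agent.FLO.GInst

/-!
# FLX-Bri: the quantum Chevalley operators in terms of the model in coordinates
-/

set_option autoImplicit false
set_option linter.unusedSectionVars false

open scoped BigOperators

noncomputable section

namespace Pool.Agent.FLX.Br

open Pool.Agent.FLG Pool.Agent.FLG.Flag Pool.Agent.FLO Pool.Agent.FLX

/-- a function on `Fin r` as a function on `ℕ` -/
def xt {r : ℕ} (h : Fin r → ℂ) (k : ℕ) : ℂ := if hk : k < r then h ⟨k, hk⟩ else 0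

theorem xt_lt {r : ℕ} (h : Fin r → ℂ) (k : Fin r) : xt h k = h k := by
  unfold xt
  rw [dif_pos k.isLt]

variable {ι V V' : Type} [Fintype ι] [AddCommGroup V] [Module ℂ V] [AddCommGroup V'] [Module ℂ V']
  {P : RootPairing ι ℂ V V'} [P.IsCrystallographic] {b : P.Base} [P.IsRootSystem] [P.IsReduced]
  [Fintype P.weylGroup] [DecidableEq P.weylGroup]
  {r : ℕ} {e : Fin r ≃ b.support} {ω : Fin r → V}
  {D : RS r} (m : IsModel P b D) (hm : m.e = e) (hω : IsFund b e ω)

/-- the coefficients of the coroots in the simple coroots have the same sign -/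
theorem cof_sign (i : ι) : (∀ k, 0 ≤ D.cof (m.v i) k) ∨ ∀ k, D.cof (m.v i) k ≤ 0 := by
  obtain ⟨f, -, hf, hfs⟩ := b.flip.exists_root_eq_sum_int i
  have h4 : P.coroot i = ∑ j ∈ b.support, f j • P.coroot j := hfs
  have h5 : ∑ j ∈ b.support, f j • P.coroot j = ∑ k, f (m.e k) • P.coroot (m.e k) := by
    rw [← Finset.sum_coe_sort b.support (fun j => f j • P.coroot j)]
    exact (Equiv.sum_comp m.e (fun j : b.support => f j • P.coroot j)).symm
  have h6 : ∑ k, (D.cof (m.v i) k - f (m.e k)) • P.coroot (m.e k) = 0 := by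
    simp only [sub_smul]
    rw [Finset.sum_sub_distrib, ← m.cof i, h4, h5, sub_self]
  have h1 : LinearIndependent ℤ (fun i : b.support => P.coroot i) :=
    b.flip.linearIndepOn_root.restrict_scalars' ℤ
  rw [Fintype.linearIndependent_iff] at h1
  have h2 := h1 (fun j => D.cof (m.v i) (m.e.symm j) - f j) (by
    rw [← Equiv.sum_comp m.e, ← h6]
    exact Finset.sum_congr rfl fun k _ => by rw [Equiv.symm_apply_apply])
  have h3 : ∀ k, D.cof (m.v i) k = f (m.e k) := fun k => by
    have := h2 (m.e k)
    rw [Equiv.symm_apply_apply] at this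
    linarith
  rcases hf with h | h
  · exact Or.inl fun k => by rw [h3]; exact h.le _
  · exact Or.inr fun k => by rw [h3]; exact h.le _

theorem L_eq {a : Fin r → ℤ} (ha : a ∈ D.Φ) : D.L a = 2 * cht D a := by
  unfold RS.L cht
  rw [D.co_cof a ha]
  have h1 : dotProduct (∑ i, D.cof a i • D.co (Pi.single i 1)) D.tr =
      ∑ i, D.cof a i * D.L (RS.al i) := by
    rw [sum_dotProduct]
    refine Finset.sum_congr rfl fun i _ => ?_
    rw [smul_dotProduct, smul_eq_mul]
    rfl
  rw [h1, Finset.mul_sum]
  refine Finset.sum_congr rfl fun i _ => ?_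
  rw [RS.L_al, mul_comm]

include m in
theorem cof_nonneg {a : Fin r → ℤ} (ha : a ∈ D.Pos) (k : Fin r) : 0 ≤ D.cof a k := by
  have h1 : a ∈ D.Φ := (Finset.mem_filter.1 ha).1
  obtain ⟨i, rfl⟩ := (m.range_v a).1 h1
  rcases cof_sign m i with h | h
  · exact h k
  · exfalso
    have h2 := RS.two_le_L ha
    rw [L_eq h1] at h2
    unfold cht at h2
    have h3 : ∑ k, D.cof (m.v i) k ≤ 0 := Finset.sum_nonpos fun k _ => h k
    omega

include hm hω in
theorem co_tp (h : Fin r → ℂ) (i : ι) :
    P.coroot' i (tp ω h) = ∑ k, (D.cof (m.v i) k : ℂ) * h k := by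
  rw [RootPairing.coroot', m.cof i, LinearMap.flip_apply, map_sum]
  refine Finset.sum_congr rfl fun k _ => ?_
  have h2 : P.toLinearMap (tp ω h) (P.coroot (m.e k)) = h k := by
    have h3 : P.coroot' (e k) (tp ω h) = h k := by
      rw [tp_apply, map_sum, Finset.sum_eq_single k]
      · rw [map_smul, hω k k, if_pos rfl, smul_eq_mul, mul_one]
      · intro j _ hj
        rw [map_smul, hω k j, if_neg (Ne.symm hj), smul_zero]
      · intro hk
        exact absurd (Finset.mem_univ k) hk
    rw [hm]
    exact h3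
  rw [map_zsmul, h2, zsmul_eq_mul]

include hm hω in
/-- the bridge -/
theorem mul_MM (τ h : Fin r → ℂ) : mul b (tp ω τ) (tp ω h) =
    (MM D (xt fun k => Complex.exp (τ k)) (xt h)).submatrix m.f m.f := by
  have h0 : mul b (tp ω τ) (tp ω h) =
      (D.E (D.ch (m.s (tp ω h))) (m.s (tp ω τ))).submatrix m.f m.f := by
    rw [← m.mul_bk, m.bk_s, m.bk_s]
  have h1 : ∀ (g : Fin r → ℂ) {a : Fin r → ℤ}, a ∈ D.Φ →
      D.ch (m.s (tp ω g)) a = ∑ k, (D.cof a k : ℂ) * g k := by
    intro g a ha
    obtain ⟨i, rfl⟩ := (m.range_v a).1 ha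
    rw [m.ch_s, co_tp m hm hω]
  rw [h0]
  congr 1
  ext u w
  unfold RS.E MM
  rw [Matrix.of_apply]
  refine Finset.sum_congr rfl fun a ha => ?_
  have ha' : a ∈ D.Φ := (Finset.mem_filter.1 ha).1
  have h2 : D.ch (m.s (tp ω h)) a = wt D (xt h) a := by
    rw [h1 h ha']
    unfold wt
    exact Finset.sum_congr rfl fun k _ => by rw [xt_lt]
  have h3 : RS.qq (m.s (tp ω τ)) (D.co a) = qp D (xt fun k => Complex.exp (τ k)) a := by
    have h4 : RS.qq (m.s (tp ω τ)) (D.co a) = Complex.exp (D.ch (m.s (tp ω τ)) a) := rfl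
    rw [h4, h1 τ ha', Complex.exp_sum]
    unfold qp
    refine Finset.prod_congr rfl fun k _ => ?_
    rw [xt_lt, ← Complex.exp_nat_mul]
    congr 2
    have h5 := Int.toNat_of_nonneg (cof_nonneg m ha k)
    exact_mod_cast congrArg (Int.cast (R := ℂ)) h5.symm
  rw [h2, h3, L_eq ha']


include hm hω in
theorem c1_tp : c₁ b = tp ω fun _ => 2 := by
  have h1 : ∀ i, P.coroot' i (c₁ b - tp ω fun _ => 2) = 0 := by
    intro i
    rw [map_sub, m.ch_ctr', co_tp m hm hω, L_eq (m.v_mem i)]
    unfold cht
    push_cast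
    rw [Finset.mul_sum, ← Finset.sum_sub_distrib]
    exact Finset.sum_eq_zero fun k _ => by ring
  have h2 : P.toLinearMap (c₁ b - tp ω fun _ => 2) = 0 := by
    refine LinearMap.ext_on_range (v := P.coroot) RootPairing.IsRootSystem.span_coroot_eq_top
      fun i => ?_
    rw [LinearMap.zero_apply]
    exact h1 i
  have h3 : c₁ b - tp ω (fun _ => 2) = 0 := P.toPerfPair.injective (by rw [map_zero]; exact h2)
  exact sub_eq_zero.1 h3

theorem MM_congr (D : RS r) {q q' h h' : ℕ → ℂ} (hq : ∀ k < r, q k = q' k)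
    (hh : ∀ k < r, h k = h' k) : MM D q h = MM D q' h' := by
  funext u w
  unfold MM
  refine Finset.sum_congr rfl fun a _ => ?_
  have h1 : wt D h a = wt D h' a := by
    unfold wt
    exact Finset.sum_congr rfl fun k _ => by rw [hh k.val k.isLt]
  have h2 : qp D q a = qp D q' a := by
    unfold qp
    exact Finset.prod_congr rfl fun k _ => by rw [hq k.val k.isLt]
  rw [h1, h2]

private theorem MM_cont (D : RS r) (q h : ℕ → ℂ) (u w : D.W) :
    Continuous fun z : ℂ => MM D (fun k => q k + z) h u w := by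
  unfold MM
  refine continuous_finsetSum _ fun a _ => ?_
  by_cases h1 : u = w * D.refl a
  · simp only [if_pos h1]
    refine continuous_const.mul (continuous_const.add ?_)
    by_cases h2 : (D.len u : ℤ) + 2 * cht D a = D.len w + 1
    · simp only [if_pos h2]
      unfold qp
      exact continuous_finsetProd _ fun k _ => (continuous_const.add continuous_id).pow _
    · simp only [if_neg h2]
      exact continuous_const
  · simp only [if_neg h1]
    exact continuous_const

include m hm hω in
private theorem MM_comm_unit (q h h' : ℕ → ℂ) (hq : ∀ k < r, q k ≠ 0) :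
    MM D q h * MM D q h' = MM D q h' * MM D q h := by
  have key : ∀ g : ℕ → ℂ, (MM D q g).submatrix m.f m.f =
      mul b (tp ω fun k : Fin r => Complex.log (q k)) (tp ω fun k : Fin r => g k) := by
    intro g
    rw [mul_MM m hm hω]
    congr 1
    refine MM_congr D ?_ ?_
    · intro k hk
      rw [xt, dif_pos hk, Complex.exp_log (hq k hk)]
    · intro k hk
      rw [xt, dif_pos hk]
  have h1 : ∀ g g' : ℕ → ℂ, (MM D q g * MM D q g').submatrix m.f m.f =
      mul b (tp ω fun k : Fin r => Complex.log (q k)) (tp ω fun k : Fin r => g k) *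
      mul b (tp ω fun k : Fin r => Complex.log (q k)) (tp ω fun k : Fin r => g' k) := by
    intro g g'
    rw [← key g, ← key g']
    exact (Matrix.submatrix_mul_equiv _ _ m.f m.f.toEquiv m.f).symm
  have h2 : (MM D q h * MM D q h').submatrix m.f m.f =
      (MM D q h' * MM D q h).submatrix m.f m.f := by
    rw [h1, h1, Pool.Agent.FLO.mul_comm']
  ext u w
  have h3 := congrFun (congrFun h2 (m.f.symm u)) (m.f.symm w)
  simpa using h3

include m hm hω in
/-- the quantum Chevalley matrices commute -/
theorem MM_comm (q h h' : ℕ → ℂ) : MM D q h * MM D q h' = MM D q h' * MM D q h := by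
  have hd : Dense {z : ℂ | ∀ k < r, q k + z ≠ 0} := by
    have h1 : ((fun k : ℕ => - q k) '' (Finset.range r : Set ℕ)).Countable :=
      ((Finset.range r).finite_toSet.image _).countable
    refine (h1.dense_compl ℂ).mono ?_
    intro z hz k hk h0
    apply hz
    refine ⟨k, by simpa using hk, ?_⟩
    show - q k = z
    linear_combination - h0
  ext u w
  have hc : ∀ g g' : ℕ → ℂ, Continuous fun z : ℂ =>
      (MM D (fun k => q k + z) g * MM D (fun k => q k + z) g') u w := by
    intro g g'
    simp only [Matrix.mul_apply]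
    exact continuous_finsetSum _ fun v _ => (MM_cont D q g u v).mul (MM_cont D q g' v w)
  have h2 := Continuous.ext_on hd (hc h h') (hc h' h) (fun z hz => by
    show (MM D (fun k => q k + z) h * MM D (fun k => q k + z) h') u w =
      (MM D (fun k => q k + z) h' * MM D (fun k => q k + z) h) u w
    rw [MM_comm_unit m hm hω (fun k => q k + z) h h' hz])
  have h3 := congrFun h2 0
  simpa using h3

end Pool.Agent.FLX.Br
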