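import Pool.Agent.FLX.TDefs

/-!
# FLX-Cof: the coordinates of the coroots
-/

set_option autoImplicit false

open scoped BigOperators

noncomputable section

namespace Pool.Agent.FLX.Br

open Pool.Agent.FLG Pool.Agent.FLG.RS Pool.Agent.FLX

variable {r : ℕ} {D : RS r}

private theorem inv_of_co {x : Fin r → ℤ} (h : ∀ a ∈ D.Φ, dotProduct (D.co a) x = 0) (w : D.W) :
    D.rt w x = x := by
  have hw : w ∈ Subgroup.closure (Set.range fun i => D.refl (Pi.single i 1)) := by
    rw [D.gen]; trivial
  induction hw using Subgroup.closure_induction with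
  | mem y hy =>
    obtain ⟨i, rfl⟩ := hy
    show D.rt (D.refl (Pi.single i 1)) x = x
    rw [rt_refl (D.simple i), h _ (D.simple i), zero_smul, sub_zero]
  | one => exact D.rt_one x
  | mul y z _ _ hy hz => rw [D.rt_mul, hz, hy]
  | inv y _ hy =>
    have h1 := D.rt_inv_rt y x
    rw [hy] at h1
    exact h1

private theorem sum_al (i : Fin r) : ∑ w : D.W, D.rt w (al i) = 0 := by
  have h1 : ∑ w : D.W, D.rt w (al i) = ∑ w : D.W, D.rt (w * D.s i) (al i) :=
    (Equiv.sum_comp (Equiv.mulRight (D.s i)) fun w => D.rt w (al i)).symm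
  have h2 : ∀ w : D.W, D.rt (w * D.s i) (al i) = -D.rt w (al i) := fun w => by
    rw [D.rt_mul, rt_s_al, D.rt_neg]
  rw [Finset.sum_congr rfl fun w _ => h2 w, Finset.sum_neg_distrib] at h1
  funext k
  have h3 := congrFun h1 k
  rw [Pi.neg_apply] at h3
  rw [Pi.zero_apply]
  omega

theorem eq_zero_of_co {x : Fin r → ℤ} (h : ∀ a ∈ D.Φ, dotProduct (D.co a) x = 0) : x = 0 := by
  have h1 : ∑ w : D.W, D.rt w x = 0 := by
    have h2 : ∀ w : D.W, D.rt w x = ∑ i, x i • D.rt w (al i) := fun w => by
      conv_lhs => rw [eq_sum_al x]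
      rw [rt_sum]
      exact Finset.sum_congr rfl fun i _ => rt_smul _ _ _ _
    rw [Finset.sum_congr rfl fun w _ => h2 w, Finset.sum_comm]
    refine Finset.sum_eq_zero fun i _ => ?_
    rw [← Finset.smul_sum, sum_al, smul_zero]
  rw [Finset.sum_congr rfl fun w _ => inv_of_co h w, Finset.sum_const] at h1
  rcases smul_eq_zero.1 h1 with h2 | h2
  · exact absurd h2 (Finset.card_ne_zero_of_mem (Finset.mem_univ (1 : D.W)))
  · exact h2

theorem eq_zero_of_form {x : Fin r → ℤ} (h : D.form x x = 0) : x = 0 := by
  refine eq_zero_of_co (D := D) fun a ha => ?_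
  have h1 := (Finset.sum_eq_zero_iff_of_nonneg fun b _ =>
    mul_self_nonneg (dotProduct (D.co b) x)).1 h a ha
  exact mul_self_eq_zero.1 h1

theorem form_expand' (x a : Fin r → ℤ) : D.form x a = ∑ i, a i * D.form x (al i) := by
  unfold form
  simp only [Finset.mul_sum]
  rw [Finset.sum_comm]
  refine Finset.sum_congr rfl fun b _ => ?_
  have h1 : dotProduct (D.co b) a = ∑ i, D.co b i * a i := rfl
  rw [h1, Finset.mul_sum]
  refine Finset.sum_congr rfl fun i _ => ?_
  rw [dot_al]
  ring

/-- the simple coroots are linearly independent -/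
theorem co_indep {g : Fin r → ℤ} (h : ∑ i, g i • D.co (al i) = 0) : g = 0 := by
  classical
  set N : Fin r → ℤ := fun i => D.form (al i) (al i) with hN
  have hN4 : ∀ i, 4 ≤ N i := fun i => form_pos (D.al_mem i)
  set R : Fin r → ℤ := fun i => ∏ j ∈ Finset.univ.erase i, N j with hR
  have hR0 : ∀ i, R i ≠ 0 := fun i => Finset.prod_ne_zero_iff.2 fun j _ => by
    have := hN4 j
    omega
  have hNR : ∀ i, N i * R i = ∏ j, N j := fun i => Finset.mul_prod_erase _ _ (Finset.mem_univ i)
  have h1 : ∀ x, 2 * D.form x (fun i => g i * R i) = 0 := by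
    intro x
    rw [form_expand', Finset.mul_sum]
    have h2 : ∀ i, 2 * (g i * R i * D.form x (al i)) =
        (∏ j, N j) * (g i * dotProduct (D.co (al i)) x) := fun i => by
      have h3 := form_co (D.al_mem i) x
      rw [← hNR i]
      have h4 : 2 * (g i * R i * D.form x (al i)) = g i * R i * (2 * D.form x (al i)) := by ring
      rw [h4, h3]
      ring
    rw [Finset.sum_congr rfl fun i _ => h2 i, ← Finset.mul_sum]
    have h5 : ∑ i, g i * dotProduct (D.co (al i)) x =
        dotProduct (∑ i, g i • D.co (al i)) x := by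
      rw [sum_dotProduct]
      exact Finset.sum_congr rfl fun i _ => by rw [smul_dotProduct, smul_eq_mul]
    rw [h5, h, zero_dotProduct, mul_zero]
  have h2 := eq_zero_of_form (D := D) (x := fun i => g i * R i) (by
    have := h1 fun i => g i * R i
    omega)
  funext i
  have h3 := congrFun h2 i
  rw [Pi.zero_apply] at h3
  exact (mul_eq_zero.1 h3).resolve_right (hR0 i)

/-- uniqueness of the coordinates of a coroot -/
theorem cof_unique {a : Fin r → ℤ} (ha : a ∈ D.Φ) {f : Fin r → ℤ}
    (h : D.co a = ∑ i, f i • D.co (al i)) : D.cof a = f := by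
  have h1 : ∑ i, (D.cof a i - f i) • D.co (al i) = 0 := by
    simp only [sub_smul]
    rw [Finset.sum_sub_distrib, ← h, sub_eq_zero]
    exact (D.co_cof a ha).symm
  have h2 := co_indep (g := fun i => D.cof a i - f i) h1
  funext i
  have h3 := congrFun h2 i
  rw [Pi.zero_apply] at h3
  omega

theorem cof_al (i : Fin r) : D.cof (al i) = al i := by
  refine cof_unique (D.al_mem i) ?_
  rw [Finset.sum_eq_single i]
  · unfold al
    rw [Pi.single_eq_same, one_smul]
  · intro j _ hj
    unfold al
    rw [Pi.single_eq_of_ne hj, zero_smul]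
  · intro h
    exact absurd (Finset.mem_univ i) h

theorem cof_form {a : Fin r → ℤ} (ha : a ∈ D.Φ) (i : Fin r) :
    D.form a a * D.cof a i = a i * D.form (al i) (al i) := by
  have h1 : ∑ i, (D.form a a * D.cof a i - a i * D.form (al i) (al i)) • D.co (al i) = 0 := by
    funext k
    rw [Finset.sum_apply, Pi.zero_apply]
    have h2 : ∀ i, ((D.form a a * D.cof a i - a i * D.form (al i) (al i)) • D.co (al i)) k =
        D.form a a * (D.cof a i * D.co (al i) k) -
          a i * (D.co (al i) k * D.form (al i) (al i)) := fun i => by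
      rw [Pi.smul_apply, smul_eq_mul]
      ring
    rw [Finset.sum_congr rfl fun i _ => h2 i, Finset.sum_sub_distrib, ← Finset.mul_sum]
    have h3 : ∑ i, D.cof a i * D.co (al i) k = D.co a k := by
      conv_rhs => rw [D.co_cof a ha]
      rw [Finset.sum_apply]
      rfl
    have h4 : ∀ i, a i * (D.co (al i) k * D.form (al i) (al i)) =
        2 * (a i * D.form (al k) (al i)) := fun i => by
      have h5 := form_co (D.al_mem i) (al k)
      rw [dot_al] at h5
      rw [← h5]
      ring
    have h6 := form_co ha (al k)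
    rw [dot_al] at h6
    rw [h3, Finset.sum_congr rfl fun i _ => h4 i, ← Finset.mul_sum, ← form_expand', h6]
    ring
  have h2 := congrFun (co_indep h1) i
  rw [Pi.zero_apply] at h2
  omega

theorem cof_supp {a : Fin r → ℤ} (ha : a ∈ D.Φ) (i : Fin r) : D.cof a i = 0 ↔ a i = 0 := by
  have h1 := cof_form ha i
  have h2 := form_pos ha
  have h3 := form_pos (D.al_mem i)
  constructor
  · intro h
    rw [h, mul_zero] at h1
    exact (mul_eq_zero.1 h1.symm).resolve_right (by omega)
  · intro h
    rw [h, zero_mul] at h1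
    exact (mul_eq_zero.1 h1).resolve_left (by omega)

theorem cof_nonneg' {a : Fin r → ℤ} (ha : a ∈ D.Pos) (i : Fin r) : 0 ≤ D.cof a i := by
  have h1 := cof_form (mem_of_pos ha) i
  have h2 := form_pos (mem_of_pos ha)
  have h3 := form_pos (D.al_mem i)
  have h4 := (mem_Pos.1 ha).2 i
  have h5 : 0 ≤ D.form a a * D.cof a i := by
    rw [h1]
    exact mul_nonneg h4 (by omega)
  exact nonneg_of_mul_nonneg_right h5 (by omega)

/-- reflections of coroots -/
theorem cof_s {a : Fin r → ℤ} (ha : a ∈ D.Φ) (i : Fin r) :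
    D.cof (D.rt (D.s i) a) = D.cof a - D.co a i • al i := by
  refine cof_unique (D.rt_mem.2 ha) ?_
  have h1 : D.co (D.rt (D.s i) a) = D.co a - D.co a i • D.co (al i) := by
    funext k
    have h2 := D.co_act (D.s i) a ha (D.rt (D.s i) (al k))
    have h3 : D.rt (D.s i) (D.rt (D.s i) (al k)) = al k := by
      rw [← D.rt_mul, s_mul_self, D.rt_one]
    have h4 : dotProduct (D.co (D.rt (D.s i) a)) (al k) =
        dotProduct (D.co a) (D.rt (D.s i) (al k)) := by
      rw [← h2]
      show _ = dotProduct (D.co (D.rt (D.s i) a)) (D.rt (D.s i) (D.rt (D.s i) (al k)))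
      rw [h3]
    rw [dot_al] at h4
    have h5 : D.rt (D.s i) (al k) = al k - dotProduct (D.co (al i)) (al k) • al i :=
      rt_refl (D.al_mem i) _
    rw [h4, h5, dotProduct_sub, dotProduct_smul, dot_al, dot_al, dot_al, Pi.sub_apply,
      Pi.smul_apply, smul_eq_mul, smul_eq_mul]
    ring
  have h6 : ∑ j, (D.cof a - D.co a i • al i) j • D.co (al j) =
      ∑ j, D.cof a j • D.co (al j) - D.co a i • D.co (al i) := by
    have h7 : ∀ j, (D.cof a - D.co a i • al i) j • D.co (al j) =
        D.cof a j • D.co (al j) - (D.co a i * (al i : Fin r → ℤ) j) • D.co (al j) := fun j => by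
      rw [Pi.sub_apply, Pi.smul_apply, smul_eq_mul, sub_smul]
    rw [Finset.sum_congr rfl fun j _ => h7 j, Finset.sum_sub_distrib]
    congr 1
    rw [Finset.sum_eq_single i]
    · unfold al
      rw [Pi.single_eq_same, mul_one]
    · intro j _ hj
      unfold al
      rw [Pi.single_eq_of_ne hj, mul_zero, zero_smul]
    · intro h
      exact absurd (Finset.mem_univ i) h
  rw [h1, h6]
  congr 1
  exact D.co_cof a ha

theorem L_eq' {a : Fin r → ℤ} (ha : a ∈ D.Φ) : D.L a = 2 * cht D a := by
  unfold RS.L cht
  rw [D.co_cof a ha]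
  have h1 : dotProduct (∑ i, D.cof a i • D.co (Pi.single i 1)) D.tr =
      ∑ i, D.cof a i * D.L (RS.al i) := by
    rw [sum_dotProduct]
    refine Finset.sum_congr rfl fun i _ => ?_
    rw [smul_dotProduct, smul_eq_mul]
    rfl
  rw [h1, Finset.mul_sum]
  refine Finset.sum_congr rfl fun i _ => ?_
  rw [RS.L_al, mul_comm]

/-- reflections in parabolic subgroups -/
theorem refl_mem_PW {l : ℕ} {a : Fin r → ℤ} (ha : a ∈ D.Φ) :
    D.refl a ∈ PW D l ↔ ∀ k : Fin r, l ≤ k.val → a k = 0 := by
  constructor
  · intro h k hk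
    have h1 := h a k hk
    rw [rt_refl_self ha, Pi.neg_apply] at h1
    omega
  · intro h b k hk
    rw [rt_refl ha, Pi.sub_apply, Pi.smul_apply, h k hk, smul_zero, sub_zero]

private theorem qp_congr {q q' : ℕ → ℂ} {a : Fin r → ℤ}
    (h : ∀ k : Fin r, D.cof a k ≠ 0 → q k = q' k) : qp D q a = qp D q' a := by
  unfold qp
  refine Finset.prod_congr rfl fun k _ => ?_
  by_cases h1 : D.cof a k = 0
  · rw [h1]
    simp
  · rw [h k h1]

/-- the quantum Chevalley matrices of the parabolic subgroups commute -/
theorem M_comm (hc : ∀ q h h' : ℕ → ℂ, MM D q h * MM D q h' = MM D q h' * MM D q h) (l : ℕ)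
    (q h h' : ℕ → ℂ) : M D l q h * M D l q h' = M D l q h' * M D l q h := by
  classical
  set q0 : ℕ → ℂ := fun k => if k < l then q k else 0 with hq0
  -- the entries in the parabolic subgroup
  have e1 : ∀ (g : ℕ → ℂ) (u w : PW D l), M D l q g u w = MM D q0 g u.1 w.1 := by
    intro g u w
    unfold M MM
    refine Finset.sum_congr rfl fun a ha => ?_
    by_cases h1 : u.1 = w.1 * D.refl a
    · rw [if_pos h1, if_pos h1]
      have h2 : D.refl a ∈ PW D l := by
        have h3 : D.refl a = w.1⁻¹ * u.1 := by rw [h1]; group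
        rw [h3]
        exact (PW D l).mul_mem ((PW D l).inv_mem w.2) u.2
      rw [refl_mem_PW (mem_of_pos ha)] at h2
      rw [qp_congr (D := D) (q := q) (q' := q0) (a := a) fun k hk => ?_]
      have h4 : k.val < l := by
        by_contra h5
        exact hk ((cof_supp (mem_of_pos ha) k).2 (h2 k (by omega)))
      rw [hq0]
      simp only
      rw [if_pos h4]
    · rw [if_neg h1, if_neg h1]
  -- no path leaves the parabolic subgroup and returns
  have e2 : ∀ (g : ℕ → ℂ) (u : PW D l) (v : D.W), v ∉ PW D l → MM D q0 g u.1 v = 0 := by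
    intro g u v hv
    unfold MM
    refine Finset.sum_eq_zero fun a ha => ?_
    by_cases h1 : u.1 = v * D.refl a
    · rw [if_pos h1]
      have h3 : ¬ ∀ k : Fin r, l ≤ k.val → a k = 0 := by
        intro h4
        apply hv
        have h5 : v = u.1 * D.refl a := by
          rw [h1, mul_assoc, refl_mul_self (mem_of_pos ha), mul_one]
        rw [h5]
        exact (PW D l).mul_mem u.2 ((refl_mem_PW (mem_of_pos ha)).2 h4)
      push Not at h3
      obtain ⟨k, hk, hak⟩ := h3
      have h6 : ¬ D.len u.1 = D.len v + 1 := by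
        intro h7
        have h8 : D.rt v a ∈ D.Pos := by
          by_contra h9
          have h10 := len_lt_of_neg v ha h9
          rw [← h1] at h10
          omega
        have h11 : D.rt u.1 a = -D.rt v a := by
          rw [h1, D.rt_mul, rt_refl_self (mem_of_pos ha), D.rt_neg]
        have h12 := u.2 a k hk
        rw [h11, Pi.neg_apply] at h12
        have h13 := (mem_Pos.1 h8).2 k
        have h14 := (mem_Pos.1 ha).2 k
        omega
      have h7 : qp D q0 a = 0 := by
        unfold qp
        refine Finset.prod_eq_zero (Finset.mem_univ k) ?_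
        have h8 : q0 k.val = 0 := by
          rw [hq0]
          simp only
          rw [if_neg (by omega)]
        rw [h8]
        refine zero_pow ?_
        have h9 := cof_nonneg' ha k
        have h10 : D.cof a k ≠ 0 := fun h => hak ((cof_supp (mem_of_pos ha) k).1 h)
        omega
      rw [if_neg h6, h7, ite_self, add_zero, mul_zero]
    · rw [if_neg h1]
  have e3 : ∀ (g g' : ℕ → ℂ) (u w : PW D l), (M D l q g * M D l q g') u w =
      (MM D q0 g * MM D q0 g') u.1 w.1 := by
    intro g g' u w
    rw [Matrix.mul_apply, Matrix.mul_apply]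
    rw [← Finset.sum_subset (Finset.subset_univ (Finset.univ.map (Function.Embedding.subtype
      (· ∈ PW D l)))), Finset.sum_map]
    · refine Finset.sum_congr rfl fun v _ => ?_
      rw [e1, e1]
      rfl
    · intro v _ hv
      have h1 : v ∉ PW D l := by
        intro h2
        apply hv
        rw [Finset.mem_map]
        exact ⟨⟨v, h2⟩, Finset.mem_univ _, rfl⟩
      rw [e2 g u v h1, zero_mul]
  ext u w
  rw [e3, e3, hc]

end Pool.Agent.FLX.Br
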