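import Pool.Agent.FLO.DPh

/-!
# FLX-Defs: nested spectra with polygons of arbitrary sizes

The `k`-th polygon (`k < r`) has `c k + 2` vertices. For a component of type `A` which starts at `s`
we have `c k = k - s`, for a component of type `C` we have `c k = 2 (k - s)`.
-/

set_option autoImplicit false

open scoped BigOperators

namespace Pool.Agent.FLX

open Pool.Agent.FLO

/-- the exponents with `0 ≤ μ_k ≤ c_k + 1`, `k < r`, and `μ_k = 0` for `k + m < r`, in lexicographic
order (`μ_0` is the most significant one); `box c r r` is the whole box -/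
def box (c : ℕ → ℕ) (r : ℕ) : ℕ → List (Fin r → ℤ)
  | 0 => [0]
  | m + 1 => (List.range (c (r - m - 1) + 2)).flatMap fun j =>
      (box c r m).map fun μ => fun k => if k.val + m + 1 = r then (j : ℤ) else μ k

/-- the phases `arg q_k` in terms of the angles `θ_k`: `q_k = y_k ^ (c_k + 2) / y_{k - 1} ^ c_k`,
`θ_k = arg y_k` -/
noncomputable def ph (c : ℕ → ℕ) {r : ℕ} (θ : Fin r → ℝ) : Fin r → ℝ := fun k =>
  ((c k.val : ℝ) + 2) * θ k -
    c k.val * (if h : 0 < k.val then θ ⟨k.val - 1, lt_of_le_of_lt (Nat.sub_le _ _) k.isLt⟩ else 0)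

/-- the point of `H^2` with the logarithmic moduli `ρ` and the angles `θ` -/
noncomputable def pt (c : ℕ → ℕ) {r : ℕ} (ρ θ : Fin r → ℝ) : Fin r → ℂ := fun k =>
  ρ k + ph c θ k * Complex.I

/-- The spectrum is nested on the torus of the points with logarithmic moduli `ρ`: the canonical
coordinates are the values `U θ'` at the angles `θ'` with the same phases, and in first approximation
`U θ = ∑ (c_k + 2) R_k e^{i θ_k}`. -/
structure Nested (c : ℕ → ℕ) {r : ℕ} (spec : (Fin r → ℂ) → Finset ℂ) (N : ℕ) (δ : ℝ) where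
  ρ : Fin r → ℝ
  R : Fin r → ℝ
  R_pos : ∀ k, 0 < R k
  U : (Fin r → ℝ) → ℂ
  U_cont : Continuous U
  U_per : ∀ θ θ', (∀ k, IsPer (θ' k - θ k)) → U θ' = U θ
  card : ∀ θ, (spec (pt c ρ θ)).card = N
  mem : ∀ θ u, u ∈ spec (pt c ρ θ) ↔ ∃ θ', (∀ k, IsPer (ph c θ' k - ph c θ k)) ∧ U θ' = u
  approx : ∀ θ θ' k, (∀ i, IsPer (ph c θ' i - ph c θ i)) → (∀ i < k, IsPer (θ' i - θ i)) →
    ¬ IsPer (θ' k - θ k) →
    ‖U θ' - U θ - ((c k.val : ℝ) + 2) * R k *
      (Complex.exp (θ' k * Complex.I) - Complex.exp (θ k * Complex.I))‖ ≤ δ * R k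

end Pool.Agent.FLX
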