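import Pool.Agent.FLX.BDefs

/-!
# FLX-Sig: root systems with components of types `A` and `C` in tower order

The simple roots are indexed by `Σ s, Fin (n s)`, the Cartan matrix is block diagonal with blocks
`CartanMatrix.A (n s)` or `CartanMatrix.C (n s)`. The tower order is the reverse of the lexicographic
order of the indices.
-/

set_option autoImplicit false

open scoped BigOperators

noncomputable section

namespace Pool.Agent.FLX.Br

open Pool.Agent.FLG Pool.Agent.FLX

variable {m : ℕ} (n : Fin m → ℕ)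

/-- the reverse of the lexicographic enumeration -/
def rv : Fin (∑ s, n s) ≃ (Σ s, Fin (n s)) := Fin.revPerm.trans finSigmaFinEquiv.symm

/-- the first element of a block -/
def bs (s : Fin m) : ℕ := ∑ i : Fin (s : ℕ), n (Fin.castLE s.2.le i)

theorem gx (x : Σ s, Fin (n s)) : (finSigmaFinEquiv x : ℕ) = bs n x.1 + x.2 :=
  finSigmaFinEquiv_apply x

theorem bs_succ {s s' : Fin m} (h : s < s') : bs n s + n s ≤ bs n s' := by
  unfold bs
  have e : ∀ s : Fin m, ∑ i : Fin (s : ℕ), n (Fin.castLE s.2.le i) =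
      ∑ i ∈ Finset.range s.val, if hi : i < m then n ⟨i, hi⟩ else 0 := by
    intro s
    rw [Finset.sum_range]
    refine Finset.sum_congr rfl fun i _ => ?_
    rw [dif_pos (lt_trans i.2 s.2)]
    rfl
  rw [e, e]
  have h1 : ∑ i ∈ Finset.range s.val, (if hi : i < m then n ⟨i, hi⟩ else 0) + n s =
      ∑ i ∈ Finset.range (s.val + 1), if hi : i < m then n ⟨i, hi⟩ else 0 := by
    rw [Finset.sum_range_succ, dif_pos s.2]
  rw [h1]
  refine Finset.sum_le_sum_of_subset (fun i hi => ?_)
  rw [Finset.mem_range] at hi ⊢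
  have : s.val < s'.val := h
  omega

/-- the lexicographic order of the indices -/
def Bef (x y : Σ s, Fin (n s)) : Prop := x.1 < y.1 ∨ (x.1 = y.1 ∧ (x.2 : ℕ) < y.2)

theorem g_lt {x y : Σ s, Fin (n s)} (h : Bef n x y) :
    (finSigmaFinEquiv x : ℕ) < finSigmaFinEquiv y := by
  rw [gx, gx]
  rcases h with h | ⟨h, h'⟩
  · have h1 := bs_succ n h
    have h2 := x.2.2
    omega
  · obtain ⟨s, i⟩ := x
    obtain ⟨s', i'⟩ := y
    simp only at h h'
    subst h
    simp only
    omega

theorem bef_tri (x y : Σ s, Fin (n s)) : Bef n x y ∨ x = y ∨ Bef n y x := by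
  rcases lt_trichotomy x.1 y.1 with h | h | h
  · exact Or.inl (Or.inl h)
  · obtain ⟨s, i⟩ := x
    obtain ⟨s', i'⟩ := y
    simp only at h
    subst h
    rcases lt_trichotomy (i : ℕ) i' with h1 | h1 | h1
    · exact Or.inl (Or.inr ⟨rfl, h1⟩)
    · exact Or.inr (Or.inl (by rw [Fin.ext h1]))
    · exact Or.inr (Or.inr (Or.inr ⟨rfl, h1⟩))
  · exact Or.inr (Or.inr (Or.inl h))

theorem g_lt_iff (x y : Σ s, Fin (n s)) : Bef n x y ↔
    (finSigmaFinEquiv x : ℕ) < finSigmaFinEquiv y := by
  constructor
  · exact g_lt n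
  · intro h
    rcases bef_tri n x y with h1 | rfl | h1
    · exact h1
    · exact absurd h (lt_irrefl _)
    · exact absurd (g_lt n h1) (by omega)

theorem rv_val (k : Fin (∑ s, n s)) :
    (finSigmaFinEquiv (rv n k) : ℕ) + k.val + 1 = ∑ s, n s := by
  unfold rv
  rw [Equiv.trans_apply, Equiv.apply_symm_apply, Fin.revPerm_apply, Fin.val_rev]
  have := k.2
  omega

theorem rv_lt_iff (j k : Fin (∑ s, n s)) : j < k ↔ Bef n (rv n k) (rv n j) := by
  rw [g_lt_iff]
  have h1 := rv_val n j
  have h2 := rv_val n k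
  rw [Fin.lt_def]
  constructor <;> intro h <;> omega

/-- the distance to the end of the block -/
def dp (x : Σ s, Fin (n s)) : ℕ := n x.1 - 1 - x.2

/-- the element of the same block as `x` at the distance `d` after `x` -/
theorem rv_add {x : Σ s, Fin (n s)} {k : Fin (∑ s, n s)} (hk : rv n k = x) {d : ℕ}
    (hd : x.2 + d < n x.1) : ∃ hj : k.val - d < ∑ s, n s, d ≤ k.val ∧
      rv n ⟨k.val - d, hj⟩ = ⟨x.1, ⟨x.2 + d, hd⟩⟩ := by
  have h1 := rv_val n k
  rw [hk, gx] at h1
  obtain ⟨j, hj⟩ := (rv n).surjective ⟨x.1, ⟨x.2 + d, hd⟩⟩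
  have h2 := rv_val n j
  rw [hj, gx] at h2
  simp only at h2
  have h3 : j.val = k.val - d := by omega
  refine ⟨by omega, by omega, ?_⟩
  have h4 : (⟨k.val - d, by omega⟩ : Fin (∑ s, n s)) = j := Fin.ext h3.symm
  rw [h4, hj]

/-- elements of the same block -/
theorem rv_same {j k : Fin (∑ s, n s)} (h : (rv n j).1 = (rv n k).1) (hjk : j ≤ k) :
    ((rv n j).2 : ℕ) = (rv n k).2 + (k.val - j.val) := by
  have h1 := rv_val n j
  have h2 := rv_val n k
  rw [gx] at h1 h2
  have h3 : bs n (rv n j).1 = bs n (rv n k).1 := congrArg (bs n) h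
  rw [Fin.le_def] at hjk
  omega

open Classical in
/-- the beginning of the block in the tower order -/
def ss (k : ℕ) : ℕ := if h : k < ∑ s, n s then k - dp n (rv n ⟨k, h⟩) else k

/-- the type of the block in the tower order -/
def ts (ty : Fin m → Prop) (k : ℕ) : Prop := ∃ h : k < ∑ s, n s, ty (rv n ⟨k, h⟩).1

theorem ss_lt (k : Fin (∑ s, n s)) : ss n k.val = k.val - dp n (rv n k) := by
  unfold ss
  rw [dif_pos k.2]

theorem dp_le (k : Fin (∑ s, n s)) : dp n (rv n k) ≤ k.val := by
  have h1 : (rv n k).2 + dp n (rv n k) < n (rv n k).1 := by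
    have := (rv n k).2.2
    unfold dp
    omega
  obtain ⟨-, h2, -⟩ := rv_add n (x := rv n k) rfl h1
  exact h2

theorem same_of_ss {j k : Fin (∑ s, n s)} (h1 : ss n k.val ≤ j.val) (h2 : j ≤ k) :
    (rv n j).1 = (rv n k).1 := by
  rw [ss_lt] at h1
  rw [Fin.le_def] at h2
  have h3 := dp_le n k
  have h4 : (rv n k).2 + (k.val - j.val) < n (rv n k).1 := by
    have := (rv n k).2.2
    unfold dp at h1 h3
    omega
  obtain ⟨hj, -, h5⟩ := rv_add n (x := rv n k) rfl h4
  have h6 : (⟨k.val - (k.val - j.val), hj⟩ : Fin (∑ s, n s)) = j := Fin.ext (by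
    show k.val - (k.val - j.val) = j.val
    omega)
  rw [h6] at h5
  rw [h5]

theorem ss_of_same {j k : Fin (∑ s, n s)} (h : (rv n j).1 = (rv n k).1) (h2 : j ≤ k) :
    ss n k.val ≤ j.val ∧ ss n j.val = ss n k.val := by
  have h1 := rv_same n h h2
  have h3 := dp_le n k
  have h4 := dp_le n j
  rw [ss_lt, ss_lt]
  rw [Fin.le_def] at h2
  unfold dp at *
  have h5 := (rv n j).2.2
  have h6 : n (rv n j).1 = n (rv n k).1 := congrArg n h
  omega

variable {r : ℕ} {D : RS (∑ s, n s)} (ty : Fin m → Prop)

open Classical in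
/-- the Cartan matrix -/
def car : Matrix (Σ s, Fin (n s)) (Σ s, Fin (n s)) ℤ :=
  Matrix.blockDiagonal' fun s => if ty s then CartanMatrix.C (n s) else CartanMatrix.A (n s)

theorem car_ne {x y : Σ s, Fin (n s)} (h : x.1 ≠ y.1) : car n ty x y = 0 := by
  obtain ⟨s, i⟩ := x
  obtain ⟨s', i'⟩ := y
  exact Matrix.blockDiagonal'_apply_ne _ _ _ h

open Classical in
theorem car_eq {x y : Σ s, Fin (n s)} (h : x.1 = y.1) :
    car n ty x y = (if ty x.1 then CartanMatrix.C (n x.1) else CartanMatrix.A (n x.1)) x.2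
      (Fin.cast (by rw [h]) y.2) := by
  obtain ⟨s, i⟩ := x
  obtain ⟨s', i'⟩ := y
  simp only at h
  subst h
  exact Matrix.blockDiagonal'_apply_eq _ _ _ _

theorem isAC (hD : ∀ j k, D.co (RS.al j) k = car n ty (rv n k) (rv n j)) :
    IsAC D (ss n) (ts n ty) := by
  classical
  have key : ∀ j k : Fin (∑ s, n s), (rv n j).1 = (rv n k).1 → j < k →
      (j.val + 1 < k.val → car n ty (rv n j) (rv n k) = 0 ∧ car n ty (rv n k) (rv n j) = 0) ∧
      (j.val + 1 = k.val → car n ty (rv n k) (rv n j) = -1 ∧
        (ty (rv n k).1 ∧ j.val = ss n k.val → car n ty (rv n j) (rv n k) = -2) ∧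
        (¬ (ty (rv n k).1 ∧ j.val = ss n k.val) → car n ty (rv n j) (rv n k) = -1)) := by
    intro j k hs hjk
    have h1 := rv_same n hs hjk.le
    have h2 := ss_lt n k
    have h3 := dp_le n k
    have h4 := (rv n j).2.2
    have h5 := (rv n k).2.2
    rw [Fin.lt_def] at hjk
    rw [car_eq n ty hs, car_eq n ty hs.symm, h2]
    have hn : n (rv n j).1 = n (rv n k).1 := congrArg n hs
    unfold dp at h3
    constructor
    · intro hlt
      by_cases hty : ty (rv n k).1
      · have hty' : ty (rv n j).1 := by rw [hs]; exact hty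
        rw [if_pos hty, if_pos hty']
        unfold CartanMatrix.C
        simp only [Matrix.of_apply, Fin.ext_iff, Fin.val_cast]
        constructor
        · rw [if_neg (by omega), if_neg (by omega), if_neg (by omega)]
        · rw [if_neg (by omega), if_neg (by omega), if_neg (by omega)]
      · have hty' : ¬ ty (rv n j).1 := by rw [hs]; exact hty
        rw [if_neg hty, if_neg hty']
        unfold CartanMatrix.A
        simp only [Matrix.of_apply, Fin.ext_iff, Fin.val_cast]
        constructor
        · rw [if_neg (by omega), if_neg (by omega)]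
        · rw [if_neg (by omega), if_neg (by omega)]
    · intro heq
      by_cases hty : ty (rv n k).1
      · have hty' : ty (rv n j).1 := by rw [hs]; exact hty
        rw [if_pos hty, if_pos hty']
        unfold CartanMatrix.C
        simp only [Matrix.of_apply, Fin.ext_iff, Fin.val_cast]
        refine ⟨?_, ?_, ?_⟩
        · rw [if_neg (by omega), if_pos (by omega)]
        · rintro ⟨-, h6⟩
          unfold dp at h6
          rw [if_neg (by omega), if_neg (by omega), if_pos (by omega), if_pos (by omega)]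
        · intro h6
          rw [if_neg (by omega), if_neg (by omega), if_pos (by omega), if_neg]
          intro h7
          apply h6
          refine ⟨hty, ?_⟩
          unfold dp
          omega
      · have hty' : ¬ ty (rv n j).1 := by rw [hs]; exact hty
        rw [if_neg hty, if_neg hty']
        unfold CartanMatrix.A
        simp only [Matrix.of_apply, Fin.ext_iff, Fin.val_cast]
        refine ⟨?_, ?_, ?_⟩
        · rw [if_neg (by omega), if_pos (by omega)]
        · rintro ⟨h6, -⟩
          exact absurd h6 hty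
        · intro _
          rw [if_neg (by omega), if_pos (by omega)]
  constructor
  · intro k
    unfold ss
    split_ifs
    · exact Nat.sub_le _ _
    · exact le_rfl
  · intro j k h1 h2
    by_cases hk : k < ∑ s, n s
    · have hj : j < ∑ s, n s := lt_of_le_of_lt h2 hk
      have h3 := same_of_ss n (j := ⟨j, hj⟩) (k := ⟨k, hk⟩) h1 h2
      exact (ss_of_same n h3 h2).2
    · have h3 : ss n k = k := by
        unfold ss
        rw [dif_neg hk]
      rw [h3] at h1
      have : j = k := le_antisymm h2 h1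
      rw [this]
  · intro j k h1 h2
    by_cases hk : k < ∑ s, n s
    · have hj : j < ∑ s, n s := lt_of_le_of_lt h2 hk
      have h3 := same_of_ss n (j := ⟨j, hj⟩) (k := ⟨k, hk⟩) h1 h2
      unfold ts
      constructor
      · rintro ⟨_, h4⟩
        exact ⟨hk, by rw [← h3]; exact h4⟩
      · rintro ⟨_, h4⟩
        exact ⟨hj, by rw [h3]; exact h4⟩
    · have h3 : ss n k = k := by
        unfold ss
        rw [dif_neg hk]
      rw [h3] at h1
      have : j = k := le_antisymm h2 h1
      rw [this]
  · intro j k h1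
    have hne : (rv n j).1 ≠ (rv n k).1 := by
      intro h2
      have h3 : j ≤ k := by
        rw [Fin.le_def]
        have := ss_lt n k
        omega
      have := (ss_of_same n h2 h3).1
      omega
    rw [hD, hD]
    exact ⟨car_ne n ty hne.symm, car_ne n ty hne⟩
  · intro j k h1
    rw [hD, hD]
    by_cases hs : (rv n j).1 = (rv n k).1
    · have h2 := (key j k hs (by rw [Fin.lt_def]; omega)).1 h1
      exact ⟨h2.2, h2.1⟩
    · exact ⟨car_ne n ty (Ne.symm hs), car_ne n ty hs⟩
  · intro j k h1 h2
    have hs := same_of_ss n h2 (by rw [Fin.le_def]; omega)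
    have h3 := (key j k hs (by rw [Fin.lt_def]; omega)).2 h1
    have h4 : ts n ty k.val ↔ ty (rv n k).1 := by
      unfold ts
      constructor
      · rintro ⟨_, h5⟩
        exact h5
      · intro h5
        exact ⟨k.2, h5⟩
    rw [hD, hD, h4]
    exact ⟨h3.1, h3.2.2, h3.2.1⟩

end Pool.Agent.FLX.Br
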