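import Pool.Agent.FLX.RBlkB
import Pool.Agent.FLE.Bd

/-!
# FLX-RBnd: bounds and continuity

PLAN. `r_bd`: only roots `a` with `refl a ∈ PW D (l + 1)` occur (`H.v_mem`), so `cof a k = 0` for `k > l`
(`supp_of_refl_mem`, `cof_zero`) and `‖qp D (update q l 1) a‖ ≤ ∏ (max S 1) ^ (cof a k).toNat`; take for `b`
the sum over `D.Pos` of `‖wt D two a‖ * (1 + ∏ (max S 1) ^ (cof a k).toNat)`. `M_cont`, `hi_cont`,
`T_cont`: entries are finite sums and products of the `q x j`.
-/

set_option autoImplicit false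

open scoped BigOperators

noncomputable section

namespace Pool.Agent.FLX

open Pool.Agent.FLG Pool.Agent.FLE

variable {r : ℕ} {D : RS r} {l : Fin r} {m : ℕ} {i : ℕ → Fin r} {v : ℕ → D.W}

private theorem rbnd_qp (q : ℕ → ℂ) {S : ℝ} (hq : ∀ k < l.val, ‖q k‖ ≤ S) {a : Fin r → ℤ}
    (ha : a ∈ D.Φ) (h : ∀ k : Fin r, l.val + 1 ≤ k.val → a k = 0) :
    ‖qp D (Function.update q l.val 1) a‖ ≤ ∏ k : Fin r, (max S 1) ^ (D.cof a k).toNat := by
  unfold qp
  rw [norm_prod]
  refine Finset.prod_le_prod (fun k _ => norm_nonneg _) fun k _ => ?_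
  rw [norm_pow]
  rcases lt_trichotomy k.val l.val with hk | hk | hk
  · rw [Function.update_of_ne (by omega)]
    exact pow_le_pow_left₀ (norm_nonneg _) ((hq _ hk).trans (le_max_left _ _)) _
  · rw [hk, Function.update_self, norm_one, one_pow]
    exact one_le_pow₀ (le_max_right _ _)
  · rw [cof_zero ha (h k hk)]
    simp

private theorem rbnd_c (H : IsChain D l m i v) {x' x : Fin (m + 2)} {u' u : PW D l.val} {a : Fin r → ℤ}
    (ha : a ∈ D.Φ) (h : v (m + 1 - x'.val) * u'.1 = v (m + 1 - x.val) * u.1 * D.refl a) :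
    ∀ k : Fin r, l.val + 1 ≤ k.val → a k = 0 := by
  refine supp_of_refl_mem ha ?_
  have h1 : D.refl a = (v (m + 1 - x.val) * u.1)⁻¹ * (v (m + 1 - x'.val) * u'.1) := by
    rw [h, inv_mul_cancel_left]
  have h2 : ∀ (y : Fin (m + 2)) (w : PW D l.val), v (m + 1 - y.val) * w.1 ∈ PW D (l.val + 1) := fun y w =>
    (PW D (l.val + 1)).mul_mem (H.v_mem (Nat.sub_le _ _)) (PW_mono (Nat.le_succ _) w.2)
  rw [h1]
  exact (PW D (l.val + 1)).mul_mem ((PW D (l.val + 1)).inv_mem (h2 x u)) (h2 x' u')

private theorem rbnd_cont {X : Type} [TopologicalSpace X] {q : X → ℕ → ℂ}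
    (hq : ∀ j, Continuous fun x => q x j) (a : Fin r → ℤ) : Continuous fun x => qp D (q x) a := by
  unfold qp
  exact continuous_finsetProd _ fun k _ => (hq k.val).pow _

theorem r_bd (H : IsChain D l m i v) (S : ℝ) (hS : 0 ≤ S) : ∃ b : ℝ, 0 ≤ b ∧
    (∀ x' x, Bd (lo D l m v two x' x) b) ∧
    ∀ q : ℕ → ℂ, (∀ k < l.val, ‖q k‖ ≤ S) → ∀ x' x, Bd (hi D l m v q two x' x) b := by
  have hP : ∀ a : Fin r → ℤ, 0 ≤ ∏ k : Fin r, (max S 1) ^ (D.cof a k).toNat := fun a =>
    Finset.prod_nonneg fun k _ => pow_nonneg (le_trans zero_le_one (le_max_right _ _)) _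
  refine ⟨∑ a ∈ D.Pos, ‖wt D two a‖ * (1 + ∏ k : Fin r, (max S 1) ^ (D.cof a k).toNat), ?_, ?_, ?_⟩
  · exact Finset.sum_nonneg fun a _ => mul_nonneg (norm_nonneg _) (add_nonneg zero_le_one (hP a))
  · intro x' x u' u
    refine (norm_sum_le _ _).trans (Finset.sum_le_sum fun a _ => ?_)
    split_ifs
    · exact le_mul_of_one_le_right (norm_nonneg _) (le_add_of_nonneg_right (hP a))
    · rw [norm_zero]
      exact mul_nonneg (norm_nonneg _) (add_nonneg zero_le_one (hP a))
  · intro q hq x' x u' u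
    refine (norm_sum_le _ _).trans (Finset.sum_le_sum fun a ha => ?_)
    split_ifs with hc
    · rw [norm_mul]
      refine mul_le_mul_of_nonneg_left ?_ (norm_nonneg _)
      refine (rbnd_qp q hq (RS.mem_of_pos ha) (rbnd_c H (RS.mem_of_pos ha) hc.1)).trans ?_
      exact le_add_of_nonneg_left zero_le_one
    · rw [norm_zero]
      exact mul_nonneg (norm_nonneg _) (add_nonneg zero_le_one (hP a))

theorem M_cont {X : Type} [TopologicalSpace X] (k : ℕ) (h : ℕ → ℂ) {q : X → ℕ → ℂ}
    (hq : ∀ j, Continuous fun x => q x j) : Continuous fun x => M D k (q x) h := by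
  refine continuous_matrix fun u w => ?_
  unfold M MM
  refine continuous_finsetSum _ fun a _ => ?_
  split_ifs
  · exact continuous_const.mul (continuous_const.add (rbnd_cont hq a))
  · exact continuous_const
  · exact continuous_const.mul (continuous_const.add (rbnd_cont hq a))
  · exact continuous_const
  · exact continuous_const

theorem T_cont {X : Type} [TopologicalSpace X] (g : D.W) (γ : Fin r → ℤ) {q : X → ℕ → ℂ}
    (hq : ∀ j, Continuous fun x => q x j) : Continuous fun x => T D l g γ (q x) := by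
  refine continuous_matrix fun u' u => ?_
  unfold T
  split_ifs
  · refine rbnd_cont (fun j => ?_) _
    by_cases hj : j = l.val
    · subst hj
      simp only [Function.update_self]
      exact continuous_const
    · simp only [Function.update_of_ne hj]
      exact hq j
  · exact continuous_const

end Pool.Agent.FLX
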