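import Pool.Agent.FLX.Ph

/-!
# FLX-Out: the output of the asymptotic analysis and nested spectra
-/

set_option autoImplicit false

open scoped BigOperators

namespace Pool.Agent.FLX

open Pool.Agent.FLO

/-- the angles in terms of the phases: `(c_k + 2) θ_k = x_k + c_k θ_(k - 1)` -/
noncomputable def th (c : ℕ → ℕ) : ℕ → (ℕ → ℝ) → ℝ
  | 0, x => x 0 / ((c 0 : ℝ) + 2)
  | k + 1, x => (x (k + 1) + c (k + 1) * th c k x) / ((c (k + 1) : ℝ) + 2)

/-- There is a point of `H^2` with the moduli `s k` such that at the points with these moduli and the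
phases `x k` of the quantum parameters there is a canonical coordinate which is a sum of `r` terms of
decreasing sizes `ρ k`. -/
def Out (c : ℕ → ℕ) (r : ℕ) (spec : (Fin r → ℂ) → Finset ℂ) (δ : ℝ) : Prop :=
  ∃ ρ s : ℕ → ℝ, (∀ k, 0 < ρ k) ∧ (∀ k, 0 < s k) ∧ (∀ k, ρ (k + 1) ≤ δ * ρ k) ∧
    ∃ g : ℕ → (ℕ → ℝ) → ℂ, (∀ k, Continuous (g k)) ∧
      (∀ k x x', (∀ i ≤ k, IsPer (th c i x' - th c i x)) → g k x' = g k x) ∧
      (∀ k < r, ∀ x, ‖g k x - ((c k : ℂ) + 2) * ρ k * Complex.exp (Complex.I * th c k x)‖ ≤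
        δ * ρ k) ∧
      ∀ x : ℕ → ℝ, ∑ k ∈ Finset.range r, g k x ∈ spec fun k => Real.log (s k) + x k * Complex.I

variable {c : ℕ → ℕ} {r : ℕ}

/-- extension of a vector by `0` -/
noncomputable def xr (θ : Fin r → ℝ) (k : ℕ) : ℝ := if hk : k < r then θ ⟨k, hk⟩ else 0

private theorem xr_of_lt (θ : Fin r → ℝ) {n : ℕ} (hn : n < r) : xr θ n = θ ⟨n, hn⟩ :=
  dif_pos hn

private theorem ph_zero' (θ : Fin r → ℝ) (h : 0 < r) :
    ph c θ ⟨0, h⟩ = ((c 0 : ℝ) + 2) * θ ⟨0, h⟩ := by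
  unfold ph
  simp

private theorem ph_succ' (θ : Fin r → ℝ) (n : ℕ) (h : n + 1 < r) :
    ph c θ ⟨n + 1, h⟩ = ((c (n + 1) : ℝ) + 2) * θ ⟨n + 1, h⟩ -
      (c (n + 1) : ℝ) * θ ⟨n, by omega⟩ := by
  unfold ph
  rw [dif_pos (Nat.succ_pos n)]
  rfl

theorem th_xr (θ : Fin r → ℝ) (k : Fin r) : th c k.val (xr (ph c θ)) = θ k := by
  obtain ⟨k, hk⟩ := k
  induction k with
  | zero =>
    show xr (ph c θ) 0 / ((c 0 : ℝ) + 2) = _
    rw [xr_of_lt _ hk, ph_zero']
    field_simp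
  | succ k ih =>
    show (xr (ph c θ) (k + 1) + c (k + 1) * th c k (xr (ph c θ))) / ((c (k + 1) : ℝ) + 2) = _
    have h1 := ih (by omega)
    simp only at h1
    rw [xr_of_lt _ hk, ph_succ', h1]
    field_simp
    ring

private theorem ph_th (x : Fin r → ℝ) (k : Fin r) :
    ph c (fun j : Fin r => th c j.val (xr x)) k = x k := by
  obtain ⟨k, hk⟩ := k
  rcases k with _ | n
  · rw [ph_zero']
    show ((c 0 : ℝ) + 2) * (xr x 0 / ((c 0 : ℝ) + 2)) = _
    rw [xr_of_lt _ hk]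
    field_simp
  · rw [ph_succ']
    show ((c (n + 1) : ℝ) + 2) * ((xr x (n + 1) + c (n + 1) * th c n (xr x)) /
      ((c (n + 1) : ℝ) + 2)) - (c (n + 1) : ℝ) * th c n (xr x) = _
    rw [xr_of_lt _ hk]
    field_simp
    ring

theorem exists_shift (θ : Fin r → ℝ) (m : Fin r → ℤ) :
    ∃ θ' : Fin r → ℝ, ∀ k, ph c θ' k = ph c θ k + 2 * Real.pi * m k :=
  ⟨fun j => th c j.val (xr fun k => ph c θ k + 2 * Real.pi * m k), fun k => ph_th _ k⟩

private theorem eq_of_ph {θ₁ θ₂ : Fin r → ℝ} (k : Fin r)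
    (h : ∀ i ≤ k, ph c θ₁ i = ph c θ₂ i) : θ₁ k = θ₂ k := by
  obtain ⟨k, hk⟩ := k
  induction k with
  | zero =>
    have h1 := h ⟨0, hk⟩ le_rfl
    rw [ph_zero', ph_zero'] at h1
    exact mul_left_cancel₀ (by positivity) h1
  | succ k ih =>
    have h2 := ih (by omega) fun i hi => h i (hi.trans (by rw [Fin.le_def]; simp))
    have h1 := h ⟨k + 1, hk⟩ le_rfl
    rw [ph_succ', ph_succ', h2] at h1
    exact mul_left_cancel₀ (by positivity) (sub_left_injective h1)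

theorem first_diff {θ₁ θ₂ : Fin r → ℝ} {m₁ m₂ : (k : Fin r) → Fin (c k.val + 2)}
    (h : ∀ k, ph c θ₁ k - ph c θ₂ k = 2 * Real.pi * ((m₁ k : ℕ) - (m₂ k : ℕ) : ℤ)) (hne : m₁ ≠ m₂) :
    ∃ k, (∀ i < k, θ₁ i = θ₂ i) ∧ ∃ d : ℤ, d ≠ 0 ∧ |d| < (c k.val : ℤ) + 2 ∧
      ((c k.val : ℝ) + 2) * (θ₁ k - θ₂ k) = 2 * Real.pi * d := by
  by_contra hcon
  apply hne
  have key : ∀ n : ℕ, ∀ k : Fin r, k.val = n → m₁ k = m₂ k := by
    intro n
    induction n using Nat.strong_induction_on with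
    | _ n ih =>
      intro k hk
      by_contra hm
      apply hcon
      have hθ : ∀ i < k, θ₁ i = θ₂ i := by
        intro i hi
        refine eq_of_ph (c := c) i fun j hj => ?_
        have h1 := h j
        have hj2 : j.val < n := by
          have h3 := Fin.lt_def.1 (lt_of_le_of_lt hj hi)
          omega
        rw [ih j.val hj2 j rfl] at h1
        push_cast at h1
        have h2 : ph c θ₁ j - ph c θ₂ j = 0 := by rw [h1]; ring
        linarith
      refine ⟨k, hθ, ((m₁ k : ℕ) - (m₂ k : ℕ) : ℤ), ?_, ?_, ?_⟩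
      · intro h0
        apply hm
        apply Fin.ext
        omega
      · rw [abs_lt]
        have h1 := (m₁ k).isLt
        have h2 := (m₂ k).isLt
        constructor <;> omega
      · have h1 := h k
        rw [← h1]
        obtain ⟨k, hk'⟩ := k
        rcases k with _ | n'
        · rw [ph_zero', ph_zero']
          ring
        · rw [ph_succ', ph_succ', hθ ⟨n', by omega⟩ (by rw [Fin.lt_def]; simp)]
          ring
  funext k
  exact key k.val k rfl

private theorem exp_sub_pos {k : ℕ} {d : ℤ} (hd : d ≠ 0) (hdk : |d| < (k : ℤ) + 2) :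
    0 < ‖Complex.exp (((2 * Real.pi * d / ((k : ℝ) + 2) : ℝ) : ℂ) * Complex.I) - 1‖ := by
  rw [norm_pos_iff, sub_ne_zero]
  intro h
  rw [Complex.exp_eq_one_iff] at h
  obtain ⟨n, hn⟩ := h
  have h1 : ((2 * Real.pi * d / ((k : ℝ) + 2) : ℝ) : ℂ) = ((n * (2 * Real.pi) : ℝ) : ℂ) := by
    have h2 : ((2 * Real.pi * d / ((k : ℝ) + 2) : ℝ) : ℂ) * Complex.I =
        ((n * (2 * Real.pi) : ℝ) : ℂ) * Complex.I := by
      rw [hn]; push_cast; ring
    exact mul_right_cancel₀ Complex.I_ne_zero h2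
  have h3 : 2 * Real.pi * d / ((k : ℝ) + 2) = n * (2 * Real.pi) := by exact_mod_cast h1
  have hk : (0 : ℝ) < (k : ℝ) + 2 := by positivity
  rw [div_eq_iff hk.ne'] at h3
  have h4 : (d : ℝ) = n * ((k : ℝ) + 2) := by
    have hpi : (2 * Real.pi) ≠ 0 := by positivity
    apply mul_left_cancel₀ hpi
    rw [h3]; ring
  have h5 : d = n * ((k : ℤ) + 2) := by exact_mod_cast h4
  have hn0 : n ≠ 0 := by
    rintro rfl
    rw [zero_mul] at h5
    exact hd h5
  have h6 : 1 ≤ |n| := Int.one_le_abs hn0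
  rw [h5, abs_mul, abs_of_nonneg (show (0 : ℤ) ≤ (k : ℤ) + 2 by omega)] at hdk
  nlinarith

theorem exp_far (r : ℕ) : ∃ ε : ℝ, 0 < ε ∧ ∀ k < r, ∀ (d : ℤ) (α β : ℝ), d ≠ 0 →
    |d| < (k : ℤ) + 2 → ((k : ℝ) + 2) * (α - β) = 2 * Real.pi * d →
    ε ≤ ‖Complex.exp (α * Complex.I) - Complex.exp (β * Complex.I)‖ := by
  classical
  set S : Finset (ℕ × ℤ) := (Finset.range r ×ˢ Finset.Icc (-(r : ℤ) - 2) ((r : ℤ) + 2)).filter
    fun p => p.2 ≠ 0 ∧ |p.2| < (p.1 : ℤ) + 2 with hS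
  set f : ℕ × ℤ → ℝ := fun p =>
    ‖Complex.exp (((2 * Real.pi * p.2 / ((p.1 : ℝ) + 2) : ℝ) : ℂ) * Complex.I) - 1‖ with hf
  have hex : ∃ c : ℝ, 0 < c ∧ ∀ p ∈ S, c ≤ f p := by
    rcases S.eq_empty_or_nonempty with h0 | h0
    · exact ⟨1, one_pos, fun p hp => by rw [h0] at hp; exact absurd hp (Finset.notMem_empty p)⟩
    · obtain ⟨p, hp, hmin⟩ := Finset.exists_min_image S f h0
      rw [hS, Finset.mem_filter] at hp
      exact ⟨f p, exp_sub_pos hp.2.1 hp.2.2, hmin⟩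
  obtain ⟨c, hc, hc2⟩ := hex
  refine ⟨c, hc, fun k hk d α β hd hdk hαβ => ?_⟩
  have hmem : (k, d) ∈ S := by
    rw [hS, Finset.mem_filter, Finset.mem_product, Finset.mem_range, Finset.mem_Icc]
    have h1 := abs_lt.1 hdk
    refine ⟨⟨hk, ?_, ?_⟩, hd, hdk⟩ <;> simp only <;> omega
  have h1 := hc2 _ hmem
  refine h1.trans (le_of_eq ?_)
  have hk2 : (k : ℝ) + 2 ≠ 0 := by positivity
  have h2 : 2 * Real.pi * d / ((k : ℝ) + 2) = α - β := by
    rw [div_eq_iff hk2, ← hαβ]; ring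
  have h3 : Complex.exp (α * Complex.I) - Complex.exp (β * Complex.I) =
      Complex.exp (β * Complex.I) * (Complex.exp (((α - β : ℝ) : ℂ) * Complex.I) - 1) := by
    rw [mul_sub, mul_one, ← Complex.exp_add]
    congr 2
    push_cast
    ring
  rw [h3, norm_mul, Complex.norm_exp_ofReal_mul_I, one_mul, hf]
  simp only
  rw [h2]

/-- the branch as a function of the angles -/
noncomputable def uuG (c : ℕ → ℕ) (r : ℕ) (g : ℕ → (ℕ → ℝ) → ℂ) (θ : Fin r → ℝ) : ℂ :=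
  ∑ k ∈ Finset.range r, g k (xr (ph c θ))

variable {ρ s : ℕ → ℝ} {g : ℕ → (ℕ → ℝ) → ℂ} {δ : ℝ}

private theorem xr_ph_cont : Continuous fun θ : Fin r → ℝ => xr (ph c θ) := by
  refine continuous_pi fun k => ?_
  unfold xr
  by_cases hk : k < r
  · simp only [hk, dite_true]
    exact (continuous_apply _).comp continuous_ph
  · simp only [hk, dite_false]
    exact continuous_const

theorem uu_cont (hc : ∀ k, Continuous (g k)) : Continuous (uuG c r g) := by
  unfold uuG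
  exact continuous_finsetSum _ fun k _ => (hc k).comp xr_ph_cont

private theorem g_eq (hp : ∀ k x x', (∀ i ≤ k, IsPer (th c i x' - th c i x)) → g k x' = g k x)
    {θ θ' : Fin r → ℝ} {k : ℕ} (hk : k < r)
    (h : ∀ i : Fin r, i.val ≤ k → IsPer (θ' i - θ i)) :
    g k (xr (ph c θ')) = g k (xr (ph c θ)) := by
  refine hp k _ _ fun i hi => ?_
  have hi' : i < r := lt_of_le_of_lt hi hk
  have h1 := th_xr (c := c) θ' ⟨i, hi'⟩
  have h2 := th_xr (c := c) θ ⟨i, hi'⟩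
  simp only at h1 h2
  rw [h1, h2]
  exact h ⟨i, hi'⟩ hi

theorem uu_per (hp : ∀ k x x', (∀ i ≤ k, IsPer (th c i x' - th c i x)) → g k x' = g k x)
    {θ θ' : Fin r → ℝ} (h : ∀ k, IsPer (θ' k - θ k)) : uuG c r g θ' = uuG c r g θ := by
  unfold uuG
  exact Finset.sum_congr rfl fun k hk => g_eq hp (Finset.mem_range.1 hk) fun i _ => h i

private theorem sum_geo (hρ : ∀ k, 0 < ρ k) (hd : ∀ k, ρ (k + 1) ≤ 1 / 2 * ρ k) (a b : ℕ)
    (hab : a ≤ b) : ∑ i ∈ Finset.Ico a b, ρ i ≤ 2 * (ρ a - ρ b) := by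
  induction b, hab using Nat.le_induction with
  | base => simp
  | succ b hab ih =>
    rw [Finset.sum_Ico_succ_top hab]
    have h1 := hd b
    have h2 := hρ b
    linarith

private theorem norm_exp_I (x : ℝ) : ‖Complex.exp (Complex.I * x)‖ = 1 := by
  rw [mul_comm, Complex.norm_exp_ofReal_mul_I]

theorem uu_approx {C : ℕ} (hC : ∀ k < r, c k ≤ C) (hδ : 0 < δ) (hδ' : δ ≤ 1 / 2)
    (hρ : ∀ k, 0 < ρ k) (hd : ∀ k, ρ (k + 1) ≤ δ * ρ k)
    (hp : ∀ k x x', (∀ i ≤ k, IsPer (th c i x' - th c i x)) → g k x' = g k x)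
    (ha : ∀ k < r, ∀ x,
      ‖g k x - ((c k : ℂ) + 2) * ρ k * Complex.exp (Complex.I * th c k x)‖ ≤ δ * ρ k)
    {θ θ' : Fin r → ℝ} (k : Fin r) (h : ∀ i < k, IsPer (θ' i - θ i)) :
    ‖uuG c r g θ' - uuG c r g θ - ((c k.val : ℝ) + 2) * ρ k *
      (Complex.exp (θ' k * Complex.I) - Complex.exp (θ k * Complex.I))‖ ≤
        4 * ((C : ℝ) + 4) * δ * ρ k := by
  have hkr := k.isLt
  have hd2 : ∀ k, ρ (k + 1) ≤ 1 / 2 * ρ k := fun k => (hd k).trans
    (mul_le_mul_of_nonneg_right hδ' (hρ k).le)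
  have e1 : uuG c r g θ' - uuG c r g θ =
      ∑ i ∈ Finset.range r, (g i (xr (ph c θ')) - g i (xr (ph c θ))) := by
    unfold uuG
    rw [Finset.sum_sub_distrib]
  have e2 : ∑ i ∈ Finset.range r, (g i (xr (ph c θ')) - g i (xr (ph c θ))) =
      ∑ i ∈ Finset.Ico k.val r, (g i (xr (ph c θ')) - g i (xr (ph c θ))) := by
    rw [← Finset.sum_range_add_sum_Ico _ hkr.le]
    have : ∑ i ∈ Finset.range k.val, (g i (xr (ph c θ')) - g i (xr (ph c θ))) = 0 := by
      refine Finset.sum_eq_zero fun i hi => ?_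
      have hi' := Finset.mem_range.1 hi
      rw [g_eq hp (lt_trans hi' hkr) fun j hj => h j (by
        rw [Fin.lt_def]; omega), sub_self]
    rw [this, zero_add]
  rw [e1, e2, Finset.sum_eq_sum_Ico_succ_bot hkr]
  have hx' := ha k.val hkr (xr (ph c θ'))
  have hx := ha k.val hkr (xr (ph c θ))
  rw [th_xr] at hx hx'
  have hk1 : ‖g k.val (xr (ph c θ')) - g k.val (xr (ph c θ)) - ((c k.val : ℝ) + 2) * ρ k *
      (Complex.exp (θ' k * Complex.I) - Complex.exp (θ k * Complex.I))‖ ≤ 2 * δ * ρ k := by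
    have e : g k.val (xr (ph c θ')) - g k.val (xr (ph c θ)) - ((c k.val : ℝ) + 2) * ρ k *
        (Complex.exp (θ' k * Complex.I) - Complex.exp (θ k * Complex.I)) =
        (g k.val (xr (ph c θ')) - ((c k.val : ℂ) + 2) * ρ k * Complex.exp (Complex.I * θ' k)) -
          (g k.val (xr (ph c θ)) - ((c k.val : ℂ) + 2) * ρ k *
            Complex.exp (Complex.I * θ k)) := by
      rw [mul_comm Complex.I (θ' k : ℂ), mul_comm Complex.I (θ k : ℂ)]
      push_cast
      ring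
    rw [e]
    refine (norm_sub_le _ _).trans ?_
    linarith
  have hi1 : ∀ i ∈ Finset.Ico (k.val + 1) r, ‖g i (xr (ph c θ')) - g i (xr (ph c θ))‖ ≤
      2 * ((C : ℝ) + 3) * ρ i := by
    intro i hi
    have hi' := Finset.mem_Ico.1 hi
    have hb : ∀ x, ‖g i x‖ ≤ ((C : ℝ) + 3) * ρ i := by
      intro x
      have h1 := ha i hi'.2 x
      have h2 : ‖g i x‖ ≤ ‖g i x - ((c i : ℂ) + 2) * ρ i * Complex.exp (Complex.I * th c i x)‖ +
          ‖((c i : ℂ) + 2) * ρ i * Complex.exp (Complex.I * th c i x)‖ := by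
        have := norm_add_le (g i x - ((c i : ℂ) + 2) * ρ i * Complex.exp (Complex.I * th c i x))
          (((c i : ℂ) + 2) * ρ i * Complex.exp (Complex.I * th c i x))
        rwa [sub_add_cancel] at this
      have h3 : ‖((c i : ℂ) + 2) * ρ i * Complex.exp (Complex.I * th c i x)‖ =
          ((c i : ℝ) + 2) * ρ i := by
        rw [norm_mul, norm_mul, norm_exp_I, mul_one, Complex.norm_real, Real.norm_of_nonneg (hρ i).le]
        congr 1
        have : ((c i : ℂ) + 2) = (((c i : ℝ) + 2 : ℝ) : ℂ) := by push_cast; ring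
        rw [this, Complex.norm_real, Real.norm_of_nonneg (by positivity)]
      have h4 : (c i : ℝ) ≤ C := by exact_mod_cast hC i hi'.2
      have h5 := hρ i
      rw [h3] at h2
      nlinarith
    refine (norm_sub_le _ _).trans ?_
    linarith [hb (xr (ph c θ')), hb (xr (ph c θ))]
  have hs : ‖∑ i ∈ Finset.Ico (k.val + 1) r, (g i (xr (ph c θ')) - g i (xr (ph c θ)))‖ ≤
      4 * ((C : ℝ) + 3) * δ * ρ k := by
    refine (norm_sum_le_of_le _ hi1).trans ?_
    rw [← Finset.mul_sum]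
    have h1 := sum_geo hρ hd2 (k.val + 1) r hkr
    have h2 := hρ r
    have h3 := hd k.val
    have h4 : ∑ i ∈ Finset.Ico (k.val + 1) r, ρ i ≤ 2 * (δ * ρ k) := by linarith
    have h5 : (0 : ℝ) ≤ 2 * ((C : ℝ) + 3) := by positivity
    calc 2 * ((C : ℝ) + 3) * ∑ i ∈ Finset.Ico (k.val + 1) r, ρ i ≤
        2 * ((C : ℝ) + 3) * (2 * (δ * ρ k)) := mul_le_mul_of_nonneg_left h4 h5
      _ = 4 * ((C : ℝ) + 3) * δ * ρ k := by ring
  rw [add_sub_right_comm]
  refine (norm_add_le _ _).trans ?_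
  have h6 : 0 < δ * ρ k := mul_pos hδ (hρ k)
  nlinarith

private theorem uu_mem {spec : (Fin r → ℂ) → Finset ℂ}
    (htr : ∀ t μ, spec (tr t μ) = spec t)
    (he : ∀ x : ℕ → ℝ, ∑ k ∈ Finset.range r, g k x ∈
      spec fun k => Real.log (s k) + x k * Complex.I) {θ θ' : Fin r → ℝ}
    (h : ∀ k, IsPer (ph c θ' k - ph c θ k)) :
    uuG c r g θ' ∈ spec (pt c (fun k => Real.log (s k)) θ) := by
  choose m hm using h
  have h1 := he (xr (ph c θ'))
  rw [← htr (pt c (fun k => Real.log (s k)) θ) m]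
  have h2 : tr (pt c (fun k : Fin r => Real.log (s k)) θ) m =
      fun k : Fin r => Real.log (s k) + xr (ph c θ') k * Complex.I := by
    funext k
    have h3 : xr (ph c θ') k = ph c θ k + 2 * Real.pi * m k := by
      rw [xr_of_lt _ k.isLt, Fin.eta]
      linarith [hm k]
    rw [h3]
    unfold tr pt
    push_cast
    ring
  rw [h2]
  exact h1

/-- from the eigenvalue branch to the nested spectrum -/
theorem nested_of_out {N : ℕ} {spec : (Fin r → ℂ) → Finset ℂ}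
    (htr : ∀ t μ, spec (tr t μ) = spec t) (hle : ∀ t, (spec t).card ≤ N)
    (hN : ∏ k ∈ Finset.range r, (c k + 2) = N)
    (h : ∀ δ : ℝ, 0 < δ → Out c r spec δ) {δ : ℝ} (hδ : 0 < δ) :
    Nonempty (Nested c spec N δ) := by
  classical
  set C : ℕ := ∑ k ∈ Finset.range r, c k with hCdef
  have hC : ∀ k < r, c k ≤ C := fun k hk =>
    Finset.single_le_sum (f := c) (fun i _ => Nat.zero_le _) (Finset.mem_range.2 hk)
  obtain ⟨ε, hε, hfar⟩ := exp_far (C + 1)
  have hr4 : (0 : ℝ) < 4 * ((C : ℝ) + 4) := by positivity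
  obtain ⟨δ', h0, h12, hd1, hd2⟩ : ∃ δ' : ℝ, 0 < δ' ∧ δ' ≤ 1 / 2 ∧
      4 * ((C : ℝ) + 4) * δ' ≤ δ ∧ 4 * ((C : ℝ) + 4) * δ' < 2 * ε := by
    refine ⟨min (1 / 2) (min (δ / (4 * ((C : ℝ) + 4))) (ε / (4 * ((C : ℝ) + 4)))), ?_, ?_, ?_, ?_⟩
    · exact lt_min (by norm_num) (lt_min (div_pos hδ hr4) (div_pos hε hr4))
    · exact min_le_left _ _
    · have h1 : min (1 / 2) (min (δ / (4 * ((C : ℝ) + 4))) (ε / (4 * ((C : ℝ) + 4)))) ≤
          δ / (4 * ((C : ℝ) + 4)) := (min_le_right _ _).trans (min_le_left _ _)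
      calc _ ≤ 4 * ((C : ℝ) + 4) * (δ / (4 * ((C : ℝ) + 4))) :=
            mul_le_mul_of_nonneg_left h1 hr4.le
        _ = δ := by field_simp
    · have h1 : min (1 / 2) (min (δ / (4 * ((C : ℝ) + 4))) (ε / (4 * ((C : ℝ) + 4)))) ≤
          ε / (4 * ((C : ℝ) + 4)) := (min_le_right _ _).trans (min_le_right _ _)
      calc _ ≤ 4 * ((C : ℝ) + 4) * (ε / (4 * ((C : ℝ) + 4))) :=
            mul_le_mul_of_nonneg_left h1 hr4.le
        _ = ε := by field_simp
        _ < 2 * ε := by linarith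
  obtain ⟨ρ, s, hρ, hs, hdec, g, gc, gp, ga, ge⟩ := h δ' h0
  let L : Fin r → ℝ := fun k => Real.log (s k)
  -- the labels
  have hlab : ∀ θ : Fin r → ℝ, ∀ m : (k : Fin r) → Fin (c k.val + 2), ∃ θ' : Fin r → ℝ,
      ∀ k, ph c θ' k = ph c θ k + 2 * Real.pi * ((m k : ℕ) : ℤ) := fun θ m =>
    exists_shift θ fun k => ((m k : ℕ) : ℤ)
  choose lab hl using hlab
  have hper : ∀ θ m k, IsPer (ph c (lab θ m) k - ph c θ k) := fun θ m k =>
    ⟨((m k : ℕ) : ℤ), by rw [hl]; ring⟩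
  have hmem : ∀ θ m, uuG c r g (lab θ m) ∈ spec (pt c L θ) := fun θ m =>
    uu_mem htr ge (hper θ m)
  have hinj : ∀ θ, Function.Injective fun m => uuG c r g (lab θ m) := by
    intro θ m₁ m₂ he
    by_contra hne
    obtain ⟨k, hk1, d, hd0, hdl, hk2⟩ := first_diff (c := c) (θ₁ := lab θ m₁) (θ₂ := lab θ m₂)
      (m₁ := m₁) (m₂ := m₂) (fun k => by
        rw [hl, hl]
        push_cast
        ring) hne
    have h1 := uu_approx (g := g) hC h0 h12 hρ hdec gp ga (θ := lab θ m₂) (θ' := lab θ m₁) k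
      (fun i hi => ⟨0, by rw [hk1 i hi]; simp⟩)
    have he' : uuG c r g (lab θ m₁) - uuG c r g (lab θ m₂) = 0 := sub_eq_zero.2 he
    rw [he', zero_sub, norm_neg, norm_mul, norm_mul, Complex.norm_real] at h1
    have h2 := hfar (c k.val) (Nat.lt_succ_of_le (hC k.val k.isLt)) d _ _ hd0 hdl hk2
    have h3 : ‖(((c k.val : ℝ) : ℂ) + 2)‖ = (c k.val : ℝ) + 2 := by
      have : (((c k.val : ℝ) : ℂ) + 2) = (((c k.val : ℝ) + 2 : ℝ) : ℂ) := by push_cast; ring
      rw [this, Complex.norm_real, Real.norm_of_nonneg (by positivity)]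
    rw [h3, Real.norm_of_nonneg (hρ k).le] at h1
    have h4 : (2 : ℝ) ≤ (c k.val : ℝ) + 2 := by
      have : (0 : ℝ) ≤ (c k.val : ℝ) := Nat.cast_nonneg _
      linarith
    have h5 : 2 * ρ k * ε ≤ ((c k.val : ℝ) + 2) * ρ k *
        ‖Complex.exp (lab θ m₁ k * Complex.I) - Complex.exp (lab θ m₂ k * Complex.I)‖ :=
      mul_le_mul (mul_le_mul_of_nonneg_right h4 (hρ k).le) h2 hε.le
        (mul_nonneg (by linarith) (hρ k).le)
    have h6 : 4 * ((C : ℝ) + 4) * δ' * ρ k < 2 * ε * ρ k := mul_lt_mul_of_pos_right hd2 (hρ k)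
    nlinarith
  have hcb : Fintype.card ((k : Fin r) → Fin (c k.val + 2)) = N := by
    rw [Fintype.card_pi]
    simp only [Fintype.card_fin]
    rw [Fin.prod_univ_eq_prod_range (fun k => c k + 2) r, hN]
  have himg : ∀ θ, (Finset.univ.image fun m : (k : Fin r) → Fin (c k.val + 2) =>
      uuG c r g (lab θ m)) = spec (pt c L θ) := by
    intro θ
    refine Finset.eq_of_subset_of_card_le ?_ ?_
    · intro x hx
      obtain ⟨m, _, rfl⟩ := Finset.mem_image.1 hx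
      exact hmem θ m
    · rw [Finset.card_image_of_injective _ (hinj θ), Finset.card_univ, hcb]
      exact hle _
  refine ⟨{
    ρ := L
    R := fun k => ρ k
    R_pos := fun k => hρ k
    U := uuG c r g
    U_cont := uu_cont gc
    U_per := fun θ θ' hp => uu_per gp hp
    card := fun θ => ?_
    mem := fun θ u => ⟨fun hu => ?_, ?_⟩
    approx := fun θ θ' k _ hi _ => ?_ }⟩
  · rw [← himg θ, Finset.card_image_of_injective _ (hinj θ), Finset.card_univ, hcb]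
  · rw [← himg θ] at hu
    obtain ⟨m, _, rfl⟩ := Finset.mem_image.1 hu
    exact ⟨lab θ m, hper θ m, rfl⟩
  · rintro ⟨θ', hp, rfl⟩
    exact uu_mem htr ge hp
  · refine (uu_approx (g := g) hC h0 h12 hρ hdec gp ga k hi).trans ?_
    exact mul_le_mul_of_nonneg_right hd1 (hρ k).le

end Pool.Agent.FLX
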