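import Pool.Agent.FLG.LenS

/-!
# FLX-TDefs: quantum Chevalley matrices of parabolic subgroups, chains

`D : RS r` is a root system with a base `α_0, …, α_{r-1}`; `W_l` (`PW D l`) is the subgroup generated
by the first `l` simple reflections. The level `l` is the passage from `W_l` to `W_{l+1}`; it has a
chain `v_0 = 1`, `v_{j+1} = s_{i_j} v_j`, `j ≤ m`, of representatives of the cosets `W_{l+1} / W_l`,
where `m + 2` is their number.
-/

set_option autoImplicit false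

open scoped BigOperators

noncomputable section

namespace Pool.Agent.FLX

open Pool.Agent.FLG

variable {r : ℕ} (D : RS r)

/-- the height of the coroot of `a` -/
def cht (a : Fin r → ℤ) : ℤ := ∑ k, D.cof a k

/-- the value of the weight `∑ h_k ω_k` on the coroot of `a` -/
def wt (h : ℕ → ℂ) (a : Fin r → ℤ) : ℂ := ∑ k : Fin r, (D.cof a k : ℂ) * h k.val

/-- `q^{a^∨}` -/
def qp (q : ℕ → ℂ) (a : Fin r → ℤ) : ℂ := ∏ k : Fin r, q k.val ^ (D.cof a k).toNat

/-- the matrix of the quantum multiplication by `∑ h_k ω_k` -/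
def MM (q h : ℕ → ℂ) : Matrix D.W D.W ℂ := fun u w =>
  ∑ a ∈ D.Pos, if u = w * D.refl a then wt D h a *
    ((if D.len u = D.len w + 1 then 1 else 0) +
      (if (D.len u : ℤ) + 2 * cht D a = D.len w + 1 then qp D q a else 0)) else 0

/-- the elements of the Weyl group which fix the coordinates `≥ l` -/
def PW (l : ℕ) : Subgroup D.W where
  carrier := {w | ∀ b : Fin r → ℤ, ∀ i : Fin r, l ≤ i.val → D.rt w b i = b i}
  mul_mem' := by
    intro x y hx hy b i hi
    rw [D.rt_mul, hx _ i hi, hy _ i hi]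
  one_mem' := by
    intro b i _
    rw [D.rt_one]
  inv_mem' := by
    intro x hx b i hi
    have h := hx (D.rt x⁻¹ b) i hi
    rw [D.rt_rt_inv] at h
    exact h.symm

theorem mem_PW {l : ℕ} {w : D.W} :
    w ∈ PW D l ↔ ∀ b : Fin r → ℤ, ∀ i : Fin r, l ≤ i.val → D.rt w b i = b i := Iff.rfl

instance (l : ℕ) : Fintype (PW D l) := Fintype.ofFinite _

/-- the matrix of the quantum multiplication by `∑ h_k ω_k` for the parabolic subgroup `W_l` -/
def M (l : ℕ) (q h : ℕ → ℂ) : Matrix (PW D l) (PW D l) ℂ := fun u w => MM D q h u.1 w.1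

/-- the weight `c_1 = 2 ρ` -/
def two : ℕ → ℂ := fun _ => 2

/-- the fundamental weight `ω_l` -/
def ind (l : ℕ) : ℕ → ℂ := fun k => if k = l then 1 else 0

/-- The chain of level `l`: `v_0 = 1`, `v_{j+1} = s_{i_j} v_j` for `j ≤ m`, `β_j = v_j⁻¹ α_{i_j}`. -/
structure IsChain (l : Fin r) (m : ℕ) (i : ℕ → Fin r) (v : ℕ → D.W) : Prop where
  zero : v 0 = 1
  succ : ∀ j ≤ m, v (j + 1) = D.s (i j) * v j
  le : ∀ j ≤ m, i j ≤ l
  /-- the coefficient of `α_l` in `β_j` is positive -/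
  pos : ∀ j ≤ m, 0 < D.rt (v j)⁻¹ (RS.al (i j)) l
  /-- the other simple reflections `s_k`, `k ≤ l`, map the coset of `v_j` to itself -/
  fix : ∀ j ≤ m + 1, ∀ k ≤ l, (j ≤ m → k ≠ i j) → (0 < j → k ≠ i (j - 1)) →
    D.rt (v j)⁻¹ (RS.al k) l = 0
  /-- `⟨ω_l, β_j^∨⟩ = 1` -/
  one : ∀ j ≤ m, D.cof (D.rt (v j)⁻¹ (RS.al (i j))) l = 1
  /-- the coroot of `β_j` has the height `j + 1` -/
  ht : ∀ j ≤ m, cht D (D.rt (v j)⁻¹ (RS.al (i j))) = j + 1

/-- The corner of the level `l`: the root `γ` of `Φ_{l+1} ∖ Φ_l` with `v_{m+1} s_γ ∈ W_l`; all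
the edges from `v_{m+1} u` to `v_{m+1} s_γ u`, `u ∈ W_l`, are quantum edges. -/
structure IsCorner (l : Fin r) (m : ℕ) (v : ℕ → D.W) (γ : Fin r → ℤ) : Prop where
  mem : γ ∈ D.Pos
  supp : ∀ k, l < k → γ k = 0
  pos : 0 < γ l
  cor : v (m + 1) * D.refl γ ∈ PW D l.val
  len : ∀ u ∈ PW D l.val, (D.len (v (m + 1) * D.refl γ * u) : ℤ) + 2 * cht D (D.rt u⁻¹ γ) =
    D.len u + m + 2

end Pool.Agent.FLX
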