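import Pool.Agent.FLX.RTrA
import Pool.Agent.FLX.RBnd
import Pool.Agent.FLY.Com
import Pool.Agent.FLY.Out

/-!
# FLX-Tower: the tower of a root system whose components are of type A or C
-/

set_option autoImplicit false

open scoped BigOperators

noncomputable section

namespace Pool.Agent.FLX

open Pool.Agent.FLG Pool.Agent.FLY

variable {r : ℕ} {D : RS r} {s : ℕ → ℕ} {t : ℕ → Prop}

/-- the commuting blocks of the level `l` -/
theorem cb_AC (h : IsAC D s t)
    (hc : ∀ (l : ℕ) (q h h' : ℕ → ℂ), M D l q h * M D l q h' = M D l q h' * M D l q h)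
    (l : Fin r) (q : ℕ → ℂ) :
    CB (chain_AC h l).eqv (M D l.val q two)
      (fun z => M D (l.val + 1) (Function.update q l.val z) two)
      (fun z => M D (l.val + 1) (Function.update q l.val z) (ind l.val))
      (lo D l (cc s t l.val) (vx D l (s l.val)) two)
      (hi D l (cc s t l.val) (vx D l (s l.val)) q two)
      (lo D l (cc s t l.val) (vx D l (s l.val)) (ind l.val))
      (hi D l (cc s t l.val) (vx D l (s l.val)) q (ind l.val)) := by
  have hu : ∀ z : ℂ, ∀ j < l.val, Function.update q l.val z j = q j := fun z j hj =>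
    Function.update_of_ne (by omega) _ _
  refine ⟨?_, ?_, ?_, ?_, ?_, ?_, ?_, ?_, ?_⟩
  · intro z v' v u w
    rw [block (chain_AC h l), Function.update_self, M_congr (hu z) (fun _ _ => rfl),
      hi_congr (chain_AC h l) two (hu z)]
  · intro z v' v u w
    rw [block (chain_AC h l), Function.update_self, M_congr (hu z) (fun _ _ => rfl),
      hi_congr (chain_AC h l) (ind l.val) (hu z), M_ind, Matrix.zero_apply, ite_self, zero_add]
  · intro z
    exact hc _ _ _ _
  · intro v' v hv
    exact lo_eq_zero (chain_AC h l) two hv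
  · intro v' v hv
    exact hi_eq_zero (chain_AC h l) q two hv
  · intro v' v hv
    exact lo_eq_zero (chain_AC h l) _ hv
  · intro v' v hv
    exact hi_eq_zero (chain_AC h l) q _ hv
  · intro v
    exact lo_ind (chain_AC h l) v
  · exact lo_two_sum (chain_AC h l)

theorem hi_TT (h : IsAC D s t) (l : Fin r) (q : ℕ → ℂ) :
    hi D l (cc s t l.val) (vx D l (s l.val)) q (ind l.val) (Fin.last (cc s t l.val + 1)) 0 =
      TT D s t l q :=
  hi_ind (chain_AC h l) (corner_AC h l) q

private theorem one_eqv {m : ℕ} {W' W : Type} [DecidableEq W'] [DecidableEq W]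
    (e : Fin (m + 2) × W' ≃ W) (v' v : Fin (m + 2)) (u w : W') :
    (1 : Matrix W W ℂ) (e (v', u)) (e (v, w)) =
      if v' = v then (1 : Matrix W' W' ℂ) u w else 0 := by
  rw [Matrix.one_apply, Matrix.one_apply]
  by_cases h1 : v' = v
  · by_cases h2 : u = w
    · rw [if_pos (by rw [h1, h2]), if_pos h1, if_pos h2]
    · rw [if_neg, if_pos h1, if_neg h2]
      intro h3
      exact h2 (congrArg Prod.snd (e.injective h3))
  · rw [if_neg, if_neg h1]
    intro h3
    exact h1 (congrArg Prod.fst (e.injective h3))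

/-- the shape of the corner operators -/
theorem form_AC (h : IsAC D s t) (l : Fin r) (hl : l.val + 1 < r) (q : ℕ → ℂ) :
    TForm (cc s t l.val) (cc s t (l.val + 1)) (chain_AC h l).eqv (q l.val) (TT D s t l q)
      (TT D s t ⟨l.val + 1, hl⟩ q) := by
  have hs1 := h.s_le (l.val + 1)
  by_cases hst : s (l.val + 1) = l.val + 1
  · refine Or.inr (Or.inr ⟨?_, fun v' v u w => ?_⟩)
    · unfold cc
      rw [hst]
      simp
    · rw [T_start h ⟨l.val + 1, hl⟩ hst]
      exact one_eqv (chain_AC h l).eqv v' v u w
  · have hs2 : s (l.val + 1) ≤ l.val := by omega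
    have hsl : s l.val = s (l.val + 1) := h.s_eq l.val (l.val + 1) hs2 (by omega)
    have htl : t l.val ↔ t (l.val + 1) := h.t_iff l.val (l.val + 1) hs2 (by omega)
    by_cases ht : t (l.val + 1)
    · refine Or.inr (Or.inl ⟨?_, fun v' v u w => ?_⟩)
      · unfold cc
        rw [if_pos ht, if_pos (htl.2 ht), hsl]
        omega
      · rw [T_C h ⟨l.val + 1, hl⟩ ht, T_C h l (htl.2 ht), Matrix.smul_apply, Matrix.smul_apply,
          one_eqv (chain_AC h l).eqv v' v u w, smul_eq_mul, smul_eq_mul]
        have e1 : ∏ k ∈ Finset.Ico (s (l.val + 1)) (l.val + 1), q k =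
            (∏ k ∈ Finset.Ico (s (l.val + 1)) l.val, q k) * q l.val :=
          Finset.prod_Ico_succ_top hs2 _
        show (∏ k ∈ Finset.Ico (s (l.val + 1)) (l.val + 1), q k) * _ = _
        rw [e1, hsl]
        by_cases hv : v' = v
        · rw [if_pos hv, if_pos hv]
          ring
        · rw [if_neg hv, if_neg hv, mul_zero]
    · refine Or.inl ⟨?_, fun v' v u w => ?_⟩
      · unfold cc
        rw [if_neg ht, if_neg (fun h1 => ht (htl.1 h1)), hsl]
        omega
      · rw [T_A h l hl ht hs2 q (v', u) (v, w)]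
        congr 1
        rw [Matrix.one_apply]
        by_cases h1 : v = Fin.last (cc s t l.val + 1) ∧ v' = 0
        · by_cases h2 : u = w
          · rw [if_pos ⟨h1.1, h1.2, h2⟩, if_pos h1, if_pos h2]
          · rw [if_neg (fun h3 => h2 h3.2.2), if_pos h1, if_neg h2]
        · rw [if_neg (fun h3 => h1 ⟨h3.1, h3.2.1⟩), if_neg h1]

/-- the tower of the parabolic subgroups -/
def tow (h : IsAC D s t)
    (hc : ∀ (l : ℕ) (q h h' : ℕ → ℂ), M D l q h * M D l q h' = M D l q h' * M D l q h) :
    FLY.Tow r (cc s t) (fun l => PW D l) (fun l q => M D l q two) where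
  T := fun l q => TT D s t l q
  e := fun l => (chain_AC h l).eqv
  lo := fun l => lo D l (cc s t l.val) (vx D l (s l.val)) two
  hi := fun l q => hi D l (cc s t l.val) (vx D l (s l.val)) q two
  card_zero := by
    rw [Fintype.card_eq_one_iff]
    exact ⟨1, fun w => Subtype.ext (PW_zero w.2)⟩
  E_zero := by
    intro q
    ext u w
    show MM D q two u.1 w.1 = 0
    unfold MM
    refine Finset.sum_eq_zero fun a ha => if_neg fun h1 => ?_
    rw [PW_zero u.2, PW_zero w.2, one_mul] at h1
    have haΦ : a ∈ D.Φ := RS.mem_of_pos ha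
    have h2 : D.refl a ∈ PW D 0 := by
      rw [← h1]
      exact (PW D 0).one_mem
    have h3 : a = 0 := by
      funext i
      exact supp_of_refl_mem haΦ h2 i (Nat.zero_le _)
    have h4 := D.co_self a haΦ
    rw [h3] at h4
    simp at h4
  T_zero := by
    intro h0 q
    refine T_start h ⟨0, h0⟩ ?_ q
    have := h.s_le 0
    show s 0 = 0
    omega
  E_congr := fun l _ q q' hq => M_congr hq (fun _ _ => rfl)
  T_congr := by
    intro l q q' hq
    have hC := corner_AC h l
    exact T_congr (RS.mem_of_pos hC.mem) hC.supp hq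
  E_cont := fun l _ => M_cont l two (q := fun q => q) (fun j => continuous_apply j)
  hi_bd := by
    intro l S
    obtain ⟨b, _, _, hb⟩ := r_bd (chain_AC h l) (max S 0) (le_max_right _ _)
    exact ⟨b, fun q hq v' v u w => hb q (fun k hk => (hq k hk).trans (le_max_left _ _)) v' v u w⟩
  block := fun l q v' v u w => block (chain_AC h l) q two (v', u) (v, w)
  lo_zero := fun l v' v hv => lo_eq_zero (chain_AC h l) two hv
  hi_zero := fun l q v' v hv => hi_eq_zero (chain_AC h l) q two hv
  comm := by
    intro l q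
    have h1 := (cb_AC h hc l q).com1
    rw [hi_TT h l q] at h1
    exact h1
  cmp_lo := fun l q P P' z hP hE v J => (cb_AC h hc l q).cmp_lo hP hE v J
  cmp_hi := by
    intro l q P P' z a hP hE hT J
    refine (cb_AC h hc l q).cmp_hi hP hE ?_ J
    rw [hi_TT h l q]
    exact hT
  form := fun l hl q => form_AC h l hl q

/-- the asymptotic analysis for root systems with components of types A and C -/
theorem nout_AC (h : IsAC D s t)
    (hc : ∀ (l : ℕ) (q h h' : ℕ → ℂ), M D l q h * M D l q h' = M D l q h' * M D l q h) :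
    ∀ δ : ℝ, 0 < δ → FLY.NOut D (cc s t) δ :=
  FLY.nout (tow h hc)

end Pool.Agent.FLX
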