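import Pool.Agent.FLX.FinX
import Pool.Agent.FLX.Tower
import Pool.Agent.FLX.Sig

/-!
# FLX-FinS: the final theorem for root systems with components of types `A` and `C`
-/

set_option autoImplicit false
set_option linter.unusedSectionVars false

open scoped BigOperators

noncomputable section

namespace Pool.Agent.FLX.Br

open Pool.Agent.FLG Pool.Agent.FLG.Flag Pool.Agent.FLO Pool.Agent.FLX

variable {ι V V' : Type} [Fintype ι] [AddCommGroup V] [Module ℂ V] [AddCommGroup V'] [Module ℂ V']
  {P : RootPairing ι ℂ V V'} [P.IsCrystallographic] {b : P.Base} [P.IsRootSystem] [P.IsReduced]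
  [Fintype P.weylGroup] [DecidableEq P.weylGroup]
  {m : ℕ} (n : Fin m → ℕ) (ty : Fin m → Prop)

/-- Full exceptional collections and the monodromy data of the quantum cohomology of the flag
varieties of types `A` and `C`. -/
theorem final_sig (e : (Σ s, Fin (n s)) ≃ b.support)
    (he : ∀ x y, b.cartanMatrix (e x) (e y) = car n ty x y)
    (ω : (Σ s, Fin (n s)) → V) (hω : ∀ x y, P.coroot' (e x) (ω y) = if x = y then 1 else 0)
    {B : List ((Σ s, Fin (n s)) → ℤ)}
    (hB : B.Pairwise fun μ ν => ∃ x, (∀ y, Bef n x y → μ y = ν y) ∧ μ x < ν x)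
    (hB' : ∀ μ, μ ∈ B ↔ ∀ x, 0 ≤ μ x ∧ (ty x.1 → μ x ≤ 2 * ((n x.1 : ℤ) - (x.2 : ℕ)) - 1) ∧
      (¬ ty x.1 → μ x ≤ (n x.1 : ℤ) - (x.2 : ℕ)))
    (t₀ : V) (M : MonodromyData (small b t₀) (Fintype.card P.weylGroup)) :
    ∃ v : Fin (Fintype.card P.weylGroup) → KClass P,
      Mutated b (B.map fun μ => lineB (∑ x, (μ x : ℂ) • ω x)) (List.ofFn v) ∧
      IsExceptionalBasis b v ∧
      (∀ i j, M.S i j = euler b (v i) (v j)) ∧
      (∃ C' : Matrix P.weylGroup P.weylGroup ℂ,
        C' * (small b t₀).cup = (small b t₀).cup * C' ∧ C'.det ≠ 0 ∧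
        M.C = C' * (small b t₀).twist * chernMatrix b v ∧
        ∀ (x y : KClass P) (w : ℂ), flatPairing M w
          ((C' * (small b t₀).twist).mulVec (chern b x))
          ((C' * (small b t₀).twist).mulVec (chern b y)) = euler b x y) ∧
      ∀ Z, IsStandard (small b t₀) Z → ∀ w,
        M.Xminus w = (Complex.I / (Real.sqrt (2 * Real.pi) : ℂ)) ^ (pos b).card •
          (Z w * gammaOp b t₀ * (small b t₀).twist * chernMatrix b v) := by
  classical
  set e' : Fin (∑ s, n s) ≃ b.support := (rv n).trans e with he'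
  obtain ⟨D, mo, hm⟩ := exists_model_e P b e'
  have hω' : IsFund b e' (fun k => ω (rv n k)) := by
    intro i k
    have h1 := hω (rv n i) (rv n k)
    by_cases h : i = k
    · rw [if_pos (by rw [h])] at h1
      rw [if_pos h]
      exact h1
    · rw [if_neg (fun h2 => h ((rv n).injective h2))] at h1
      rw [if_neg h]
      exact h1
  have hAC : IsAC D (ss n) (ts n ty) := by
    refine isAC n ty fun j k => ?_
    rw [← mo.v_e, mo.co, hm, ← he]
    rfl
  have hout := nout_AC hAC (M_comm (MM_comm mo hm hω'))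
  have hL : B.map (fun μ => lineB (P := P) (∑ x, (μ x : ℂ) • ω x)) =
      (B.map fun μ => fun k => μ (rv n k)).map fun μ =>
        lineB (P := P) (∑ k, (μ k : ℂ) • ω (rv n k)) := by
    rw [List.map_map]
    refine List.map_congr_left fun μ _ => ?_
    show lineB (P := P) (∑ x, (μ x : ℂ) • ω x) =
      lineB (P := P) (∑ k, (μ (rv n k) : ℂ) • ω (rv n k))
    rw [Equiv.sum_comp (rv n) fun x => (μ x : ℂ) • ω x]
  rw [hL]
  refine final_ac mo hm hω' hAC hout t₀ M ?_ ?_
  · rw [List.pairwise_map]
    refine hB.imp ?_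
    rintro μ ν ⟨x, h1, h2⟩
    refine ⟨(rv n).symm x, fun i hi => ?_, ?_⟩
    · show μ (rv n i) = ν (rv n i)
      refine h1 _ ?_
      rw [rv_lt_iff, Equiv.apply_symm_apply] at hi
      exact hi
    · show μ (rv n ((rv n).symm x)) < ν (rv n ((rv n).symm x))
      rw [Equiv.apply_symm_apply]
      exact h2
  · intro μ
    have hcc : ∀ k : Fin (∑ s, n s), (cc (ss n) (ts n ty) k.val : ℤ) + 1 =
        if ty (rv n k).1 then 2 * ((n (rv n k).1 : ℤ) - ((rv n k).2 : ℕ)) - 1
          else (n (rv n k).1 : ℤ) - ((rv n k).2 : ℕ) := by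
      intro k
      have h1 := ss_lt n k
      have h2 := dp_le n k
      have h3 := (rv n k).2.2
      unfold cc ts
      unfold dp at h1 h2
      by_cases h4 : ty (rv n k).1
      · rw [if_pos ⟨k.2, h4⟩, if_pos h4]
        push_cast
        omega
      · rw [if_neg (fun h5 => h4 h5.choose_spec), if_neg h4]
        omega
    constructor
    · intro h k
      obtain ⟨ν, hν, rfl⟩ := List.mem_map.1 h
      have h1 := (hB' ν).1 hν (rv n k)
      rw [hcc]
      refine ⟨h1.1, ?_⟩
      show ν (rv n k) ≤ _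
      split_ifs with h4
      · exact h1.2.1 h4
      · exact h1.2.2 h4
    · intro h
      refine List.mem_map.2 ⟨fun x => μ ((rv n).symm x), ?_, ?_⟩
      · rw [hB']
        intro x
        have h1 := h ((rv n).symm x)
        rw [hcc, Equiv.apply_symm_apply] at h1
        refine ⟨h1.1, fun h4 => ?_, fun h4 => ?_⟩
        · rw [if_pos h4] at h1
          exact h1.2
        · rw [if_neg h4] at h1
          exact h1.2
      · funext k
        show μ ((rv n).symm (rv n k)) = μ k
        rw [Equiv.symm_apply_apply]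

end Pool.Agent.FLX.Br
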