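import Pool.Agent.FLO.MutK
import Pool.Agent.FLO.A1
import Pool.Agent.FLO.DMut

/-!
# FLX-LiftX: mutations of lists of classes and of their Chern characters

The text is the one of `FLO/Lift.lean` and of parts of `FLO/Fin.lean`.
-/

set_option autoImplicit false
set_option linter.unusedSectionVars false

open scoped BigOperators

namespace Pool.Agent.FLX.Br

open Pool.Agent.FLG Pool.Agent.FLG.Flag Pool.Agent.FLO

/-- mutations do not change the subgroup generated by a list -/
theorem mut_closure {K : Type} [AddCommGroup K] {χ : K →+ K →+ ℤ} {L M : List K}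
    (h : Mut χ L M) : AddSubgroup.closure {x | x ∈ L} ≤ AddSubgroup.closure {x | x ∈ M} := by
  induction h with
  | refl => exact le_rfl
  | sign l₁ l₂ x _ ih =>
    refine ih.trans ((AddSubgroup.closure_le _).2 fun y hy => ?_)
    have hy' : y ∈ l₁ ∨ y = x ∨ y ∈ l₂ := by simpa using hy
    have hin : ∀ z ∈ l₁ ++ (-x) :: l₂, z ∈ AddSubgroup.closure {x_1 | x_1 ∈ l₁ ++ (-x) :: l₂} :=
      fun z hz => AddSubgroup.subset_closure hz
    rcases hy' with h1 | rfl | h1
    · exact hin y (by simp [h1])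
    · have := (AddSubgroup.closure {x_1 | x_1 ∈ l₁ ++ (-y) :: l₂}).neg_mem (hin (-y) (by simp))
      simpa using this
    · exact hin y (by simp [h1])
  | right l₁ l₂ x y _ ih =>
    refine ih.trans ((AddSubgroup.closure_le _).2 fun z hz => ?_)
    have hz' : z ∈ l₁ ∨ z = x ∨ z = y ∨ z ∈ l₂ := by simpa using hz
    have hin : ∀ z ∈ l₁ ++ y :: (x - χ x y • y) :: l₂,
        z ∈ AddSubgroup.closure {x_1 | x_1 ∈ l₁ ++ y :: (x - χ x y • y) :: l₂} :=
      fun z hz => AddSubgroup.subset_closure hz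
    rcases hz' with h1 | h1 | h1 | h1
    · exact hin z (by simp [h1])
    · have h2 := AddSubgroup.add_mem _ (hin (x - χ x y • y) (by simp))
        (AddSubgroup.zsmul_mem _ (hin y (by simp)) (χ x y))
      rw [sub_add_cancel] at h2
      rw [h1]
      exact h2
    · rw [h1]
      exact hin y (by simp)
    · exact hin z (by simp [h1])
  | left l₁ l₂ x y _ ih =>
    refine ih.trans ((AddSubgroup.closure_le _).2 fun z hz => ?_)
    have hz' : z ∈ l₁ ∨ z = x ∨ z = y ∨ z ∈ l₂ := by simpa using hz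
    have hin : ∀ z ∈ l₁ ++ (y - χ x y • x) :: x :: l₂,
        z ∈ AddSubgroup.closure {x_1 | x_1 ∈ l₁ ++ (y - χ x y • x) :: x :: l₂} :=
      fun z hz => AddSubgroup.subset_closure hz
    rcases hz' with h1 | h1 | h1 | h1
    · exact hin z (by simp [h1])
    · rw [h1]
      exact hin x (by simp)
    · have h2 := AddSubgroup.add_mem _ (hin (y - χ x y • x) (by simp))
        (AddSubgroup.zsmul_mem _ (hin x (by simp)) (χ x y))
      rw [sub_add_cancel] at h2
      rw [h1]
      exact h2
    · exact hin z (by simp [h1])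

variable {ι V V' : Type} [Fintype ι] [AddCommGroup V] [Module ℂ V] [AddCommGroup V'] [Module ℂ V']
  {P : RootPairing ι ℂ V V'} [P.IsCrystallographic] (b : P.Base) [P.IsRootSystem] [P.IsReduced]
  [Fintype P.weylGroup] [DecidableEq P.weylGroup]
  {r : ℕ} {e : Fin r ≃ b.support} {ω : Fin r → V} (hω : IsFund b e ω)

private theorem toK_sub (x y : KClass P) : toK b (x - y) = toK b x - toK b y := by
  apply Subtype.ext
  exact (chHom b).map_sub x y

private theorem toK_neg (x : KClass P) : toK b (-x) = -toK b x := by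
  apply Subtype.ext
  exact (chHom b).map_neg x

private theorem toK_zsmul (m : ℤ) (x : KClass P) : toK b (m • x) = m • toK b x := by
  apply Subtype.ext
  exact (chHom b).map_zsmul m x

/-- mutations of Chern characters are Chern characters of mutations -/
theorem lift_mut {L : List (KClass P)} {M : List (Kc b)} (h : Mut (chiK b) (L.map (toK b)) M) :
    ∃ L', Mutated b L L' ∧ L'.map (toK b) = M := by
  induction h with
  | refl => exact ⟨L, Mutated.refl, rfl⟩
  | sign l₁ l₂ x _ ih =>
    obtain ⟨L', h1, h2⟩ := ih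
    obtain ⟨a, c, rfl, h3, h4⟩ := List.map_eq_append_iff.1 h2
    obtain ⟨x', c', rfl, h5, h6⟩ := List.map_eq_cons_iff.1 h4
    refine ⟨a ++ (-x') :: c', Mutated.shift a c' x' h1, ?_⟩
    rw [List.map_append, List.map_cons, h3, h6, toK_neg, h5]
  | right l₁ l₂ x y _ ih =>
    obtain ⟨L', h1, h2⟩ := ih
    obtain ⟨a, c, rfl, h3, h4⟩ := List.map_eq_append_iff.1 h2
    obtain ⟨x', c', rfl, h5, h6⟩ := List.map_eq_cons_iff.1 h4
    obtain ⟨y', c'', rfl, h7, h8⟩ := List.map_eq_cons_iff.1 h6
    have hm : euler b x' y' = (chiK b x y : ℤ) := by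
      rw [← h5, ← h7, chiK_toK]
    refine ⟨a ++ y' :: (x' - chiK b x y • y') :: c'', Mutated.right a c'' x' y' _ hm h1, ?_⟩
    rw [List.map_append, List.map_cons, List.map_cons, h3, h8, toK_sub, toK_zsmul, h5, h7]
  | left l₁ l₂ x y _ ih =>
    obtain ⟨L', h1, h2⟩ := ih
    obtain ⟨a, c, rfl, h3, h4⟩ := List.map_eq_append_iff.1 h2
    obtain ⟨x', c', rfl, h5, h6⟩ := List.map_eq_cons_iff.1 h4
    obtain ⟨y', c'', rfl, h7, h8⟩ := List.map_eq_cons_iff.1 h6
    have hm : euler b x' y' = (chiK b x y : ℤ) := by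
      rw [← h5, ← h7, chiK_toK]
    refine ⟨a ++ (y' - chiK b x y • x') :: x' :: c'', Mutated.left a c'' x' y' _ hm h1, ?_⟩
    rw [List.map_append, List.map_cons, List.map_cons, h3, h8, toK_sub, toK_zsmul, h5, h7]

theorem lineB_eq (μ : Fin r → ℤ) :
    toK b (lineB (P := P) (∑ k, (μ k : ℂ) • ω k)) = twK b hω μ (toK b oneK) := by
  classical
  have h1 : ∀ i, ∃ n : ℤ, P.coroot' i (∑ k, (μ k : ℂ) • ω k) = n := by
    intro i
    have := wt_tp b hω μ i
    rwa [tp_apply] at this
  rw [twK_toK]
  congr 1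
  unfold lineB oneK tws
  rw [dif_pos h1, Finsupp.mapDomain_single]
  congr 1
  apply Subtype.ext
  show ∑ k, (μ k : ℂ) • ω k = 0 + tp ω fun k => (μ k : ℂ)
  rw [zero_add, tp_apply]

theorem eq_zero_of_coroot {x : V} (h : ∀ j : b.support, P.coroot' j x = 0) : x = 0 := by
  have h1 : ∀ i, P.coroot' i x = 0 := by
    intro i
    obtain ⟨f, -, -, hf⟩ := b.flip.exists_root_eq_sum_int i
    have h4 : P.coroot i = ∑ j ∈ b.support, f j • P.coroot j := hf
    have h5 : P.coroot' i x = ∑ j ∈ b.support, (f j : ℂ) * P.coroot' j x := by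
      rw [RootPairing.coroot', h4]
      rw [LinearMap.flip_apply, map_sum]
      refine Finset.sum_congr rfl fun j _ => ?_
      rw [map_zsmul, zsmul_eq_mul]
      rfl
    rw [h5]
    exact Finset.sum_eq_zero fun j hj => by rw [h ⟨j, hj⟩, mul_zero]
  have h2 : P.toLinearMap x = 0 := by
    refine LinearMap.ext_on_range (v := P.coroot) RootPairing.IsRootSystem.span_coroot_eq_top
      fun i => ?_
    rw [LinearMap.zero_apply]
    exact h1 i
  exact P.toPerfPair.injective (by rw [map_zero]; exact h2)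

include hω in
theorem tp_surj (t : V) : ∃ τ, tp ω τ = t := by
  refine ⟨fun k => P.coroot' (e k) t, ?_⟩
  rw [← sub_eq_zero]
  refine eq_zero_of_coroot b fun j => ?_
  rw [map_sub, tp_apply, map_sum, sub_eq_zero]
  have h2 : ∀ k, P.coroot' (j : ι) (P.coroot' (e k) t • ω k) =
      if e.symm j = k then P.coroot' (e k) t else 0 := by
    intro k
    rw [map_smul]
    have h3 := hω (e.symm j) k
    rw [Equiv.apply_symm_apply] at h3
    rw [h3]
    by_cases h : e.symm j = k
    · simp [h]
    · simp [h]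
  rw [Finset.sum_congr rfl fun k _ => h2 k]
  simp

end Pool.Agent.FLX.Br
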