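import Pool.Agent.FLX.Half

/-!
# The induction step: from level `k + 1` to level `k`
-/

set_option autoImplicit false

open scoped BigOperators Topology

namespace Pool.Agent.FLX

open Pool.Agent.FLO

variable {c : ℕ → ℕ} {r N : ℕ} {K : Type} [AddCommGroup K] {S : Growth r N K} {δ : ℝ}
  {D : Nested c S.spec N δ}

/-- the labels of the upper half of the polygon -/
def CP (c : ℕ → ℕ) (k : Fin r) : Set (Lab c r) := {m | m ∈ CL c r k.val ∧ (m k).val ≤ (c k.val + 1) / 2}

/-- the labels of the lower half of the polygon -/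
def CN (c : ℕ → ℕ) (k : Fin r) : Set (Lab c r) := {m | m ∈ CL c r k.val ∧ (c k.val + 1) / 2 < (m k).val}

theorem win_single {k : Fin r} {x φ : ℝ} (h : |φ - Real.pi / 2| ≤ Real.pi / 2) :
    Win k.val (Pi.single k x : Fin r → ℝ) φ := by
  intro i hi
  have hne : i ≠ k := fun e => by rw [e] at hi; exact lt_irrefl _ hi
  rw [Pi.single_eq_of_ne hne, zero_sub, abs_neg]
  exact h

theorem noHit_P (hδ : IsSmall c r δ) (k : Fin r) {s φ : ℝ} (hs0 : 0 ≤ s) (hs : s ≤ Real.pi / 2)
    (hφ : |φ - Real.pi / 2| ≤ Real.pi / (4 * ((c k.val : ℝ) + 2))) {m m' : Lab c r} (hm : m ∈ CP c k)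
    (hm' : m' ∉ CP c k) :
    NoHit φ (uu D (Pi.single k (Real.pi / (2 * ((c k.val : ℝ) + 2)) - s)) m' -
      uu D (Pi.single k (Real.pi / (2 * ((c k.val : ℝ) + 2)) - s)) m) := by
  have hpi := Real.pi_pos
  have hk2 : (0 : ℝ) < (c k.val : ℝ) + 2 := by positivity
  set κ := Real.pi / (4 * ((c k.val : ℝ) + 2)) with hκdef
  have hκ : 0 < κ := by positivity
  have hκ2 : Real.pi / (2 * ((c k.val : ℝ) + 2)) = 2 * κ := by rw [hκdef]; field_simp; norm_num
  have hκk : κ * ((c k.val : ℝ) + 2) = Real.pi / 4 := by rw [hκdef]; field_simp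
  by_cases hc : m' ∈ CL c r k.val
  · have hb : (c k.val + 1) / 2 < (m' k).val := by
      by_contra h
      exact hm' ⟨hc, not_lt.1 h⟩
    obtain ⟨hm, hbm⟩ := hm
    have hne : m k ≠ m' k := fun e => by rw [e] at hbm; omega
    have hfirst : ∀ i < k, m i = m' i := fun i hi => by rw [hm i hi, hc i hi]
    have hM : 0 < ((c k.val : ℝ) + 2) * D.R k := mul_pos (by positivity) (D.R_pos k)
    refine noHit_of hM (uu_diff (D := D) hne hfirst) ?_
    have hang := angle_diff (θ := (Pi.single k (Real.pi / (2 * ((c k.val : ℝ) + 2)) - s) :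
      Fin r → ℝ)) hne hfirst
    rw [Pi.add_apply, Pi.add_apply, Pi.single_eq_same, lam_self hm, lam_self hc] at hang ⊢
    rw [hκ2] at hang ⊢
    rw [abs_le] at hφ
    have h2m : 2 * ((m k).val : ℝ) ≤ (c k.val : ℝ) + 1 := by
      have : 2 * (m k).val ≤ c k.val + 1 := by omega
      exact_mod_cast this
    have h2m' : (c k.val : ℝ) + 2 ≤ 2 * ((m' k).val : ℝ) := by
      have : c k.val + 2 ≤ 2 * (m' k).val := by omega
      exact_mod_cast this
    have h3m' : ((m' k).val : ℝ) ≤ (c k.val : ℝ) + 1 := by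
      have : (m' k).val ≤ c k.val + 1 := by have := (m' k).isLt; omega
      exact_mod_cast this
    have e1 : 0 ≤ 2 * Real.pi * (m k).val / ((c k.val : ℝ) + 2) := by positivity
    have e2 : 2 * Real.pi * (m k).val / ((c k.val : ℝ) + 2) ≤ Real.pi - 4 * κ := by
      rw [div_le_iff₀ hk2, sub_mul]
      nlinarith
    have e3 : Real.pi ≤ 2 * Real.pi * (m' k).val / ((c k.val : ℝ) + 2) := by
      rw [le_div_iff₀ hk2]; nlinarith
    have e4 : 2 * Real.pi * (m' k).val / ((c k.val : ℝ) + 2) ≤ 2 * Real.pi - 8 * κ := by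
      rw [div_le_iff₀ hk2, sub_mul]
      nlinarith
    have hβ : 2 * κ - s + 2 * Real.pi * (m' k).val / ((c k.val : ℝ) + 2) - (φ - Real.pi / 2) =
        (2 * κ - s + 2 * Real.pi * (m' k).val / ((c k.val : ℝ) + 2) - (φ - Real.pi / 2) -
          2 * Real.pi) + 2 * Real.pi := by ring
    rw [hβ, Real.sin_add_two_pi, Real.cos_add_two_pi]
    refine core_arc (κ := κ) (s := s) hκ hs0 hs (by linarith) (by linarith) (by linarith)
      (by linarith) ?_ (hδ.lt_sin k)
    have h4 := hδ.four k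
    rw [show 2 * κ - s + 2 * Real.pi * (m' k).val / ((c k.val : ℝ) + 2) - (φ - Real.pi / 2) -
      2 * Real.pi - (2 * κ - s + 2 * Real.pi * (m k).val / ((c k.val : ℝ) + 2) -
        (φ - Real.pi / 2)) = 2 * κ - s + 2 * Real.pi * (m' k).val / ((c k.val : ℝ) + 2) -
        (2 * κ - s + 2 * Real.pi * (m k).val / ((c k.val : ℝ) + 2)) - 2 * Real.pi by ring,
      Real.cos_sub_two_pi]
    linarith
  · refine win_noHit hδ (win_single (hφ.trans ?_)) hm.1 hc
    rw [hκdef]
    apply div_le_div_of_nonneg_left hpi.le two_pos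
    nlinarith [(Nat.cast_nonneg (c k.val) : (0 : ℝ) ≤ (c k.val : ℝ))]

theorem noHit_N (hδ : IsSmall c r δ) (k : Fin r) {s φ : ℝ} (hs0 : 0 ≤ s) (hs : s ≤ Real.pi / 2)
    (hφ : |φ - Real.pi / 2| ≤ Real.pi / (4 * ((c k.val : ℝ) + 2))) {m m' : Lab c r} (hm : m ∈ CN c k)
    (hm' : m' ∉ CN c k) :
    NoHit φ (uu D (Pi.single k (Real.pi / (2 * ((c k.val : ℝ) + 2)) + s)) m' -
      uu D (Pi.single k (Real.pi / (2 * ((c k.val : ℝ) + 2)) + s)) m) := by
  have hpi := Real.pi_pos
  have hk2 : (0 : ℝ) < (c k.val : ℝ) + 2 := by positivity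
  set κ := Real.pi / (4 * ((c k.val : ℝ) + 2)) with hκdef
  have hκ : 0 < κ := by positivity
  have hκ2 : Real.pi / (2 * ((c k.val : ℝ) + 2)) = 2 * κ := by rw [hκdef]; field_simp; norm_num
  have hκk : κ * ((c k.val : ℝ) + 2) = Real.pi / 4 := by rw [hκdef]; field_simp
  by_cases hc : m' ∈ CL c r k.val
  · have hb : (m' k).val ≤ (c k.val + 1) / 2 := by
      by_contra h
      exact hm' ⟨hc, not_le.1 h⟩
    obtain ⟨hm, hbm⟩ := hm
    have hne : m k ≠ m' k := fun e => by rw [e] at hbm; omega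
    have hfirst : ∀ i < k, m i = m' i := fun i hi => by rw [hm i hi, hc i hi]
    have hM : 0 < ((c k.val : ℝ) + 2) * D.R k := mul_pos (by positivity) (D.R_pos k)
    refine noHit_of hM (uu_diff (D := D) hne hfirst) ?_
    have hang := angle_diff (θ := (Pi.single k (Real.pi / (2 * ((c k.val : ℝ) + 2)) + s) :
      Fin r → ℝ)) hne hfirst
    rw [Pi.add_apply, Pi.add_apply, Pi.single_eq_same, lam_self hm, lam_self hc] at hang ⊢
    rw [hκ2] at hang ⊢
    rw [abs_le] at hφ
    have h2m : 2 * ((m' k).val : ℝ) ≤ (c k.val : ℝ) + 1 := by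
      have : 2 * (m' k).val ≤ c k.val + 1 := by omega
      exact_mod_cast this
    have h2m' : (c k.val : ℝ) + 2 ≤ 2 * ((m k).val : ℝ) := by
      have : c k.val + 2 ≤ 2 * (m k).val := by omega
      exact_mod_cast this
    have h3m' : ((m k).val : ℝ) ≤ (c k.val : ℝ) + 1 := by
      have : (m k).val ≤ c k.val + 1 := by have := (m k).isLt; omega
      exact_mod_cast this
    have e1 : 0 ≤ 2 * Real.pi * (m' k).val / ((c k.val : ℝ) + 2) := by positivity
    have e2 : 2 * Real.pi * (m' k).val / ((c k.val : ℝ) + 2) ≤ Real.pi - 4 * κ := by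
      rw [div_le_iff₀ hk2, sub_mul]
      nlinarith
    have e3 : Real.pi ≤ 2 * Real.pi * (m k).val / ((c k.val : ℝ) + 2) := by
      rw [le_div_iff₀ hk2]; nlinarith
    have e4 : 2 * Real.pi * (m k).val / ((c k.val : ℝ) + 2) ≤ 2 * Real.pi - 8 * κ := by
      rw [div_le_iff₀ hk2, sub_mul]
      nlinarith
    have hα : 2 * κ + s + 2 * Real.pi * (m k).val / ((c k.val : ℝ) + 2) - (φ - Real.pi / 2) =
        (2 * κ + s + 2 * Real.pi * (m k).val / ((c k.val : ℝ) + 2) - (φ - Real.pi / 2) -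
          2 * Real.pi) + 2 * Real.pi := by ring
    rw [hα, Real.sin_add_two_pi, Real.cos_add_two_pi]
    refine core_arc' (κ := κ) (s := s) hκ hs0 hs (by linarith) (by linarith) (by linarith)
      (by linarith) ?_ (hδ.lt_sin k)
    have h4 := hδ.four k
    rw [show 2 * κ + s + 2 * Real.pi * (m' k).val / ((c k.val : ℝ) + 2) - (φ - Real.pi / 2) -
      (2 * κ + s + 2 * Real.pi * (m k).val / ((c k.val : ℝ) + 2) -
        (φ - Real.pi / 2) - 2 * Real.pi) =
        2 * κ + s + 2 * Real.pi * (m' k).val / ((c k.val : ℝ) + 2) -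
        (2 * κ + s + 2 * Real.pi * (m k).val / ((c k.val : ℝ) + 2)) + 2 * Real.pi by ring,
      Real.cos_add_two_pi]
    linarith
  · refine win_noHit hδ (win_single (hφ.trans ?_)) hm.1 hc
    rw [hκdef]
    apply div_le_div_of_nonneg_left hpi.le two_pos
    nlinarith [(Nat.cast_nonneg (c k.val) : (0 : ℝ) ≤ (c k.val : ℝ))]

/-- at the starting position the lower half lies below the upper half -/
theorem ord_NP (hδ : IsSmall c r δ) (k : Fin r) {φ : ℝ}
    (hφ : |φ - Real.pi / 2| ≤ Real.pi / (4 * ((c k.val : ℝ) + 2))) {m m' : Lab c r} (hm : m ∈ CN c k)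
    (hm' : m' ∈ CP c k) :
    ht φ (uu D (Pi.single k (Real.pi / (2 * ((c k.val : ℝ) + 2)))) m) <
      ht φ (uu D (Pi.single k (Real.pi / (2 * ((c k.val : ℝ) + 2)))) m') := by
  have hpi := Real.pi_pos
  have hk2 : (0 : ℝ) < (c k.val : ℝ) + 2 := by positivity
  have hsin := hδ.lt_sin k
  set κ := Real.pi / (4 * ((c k.val : ℝ) + 2)) with hκdef
  have hκ : 0 < κ := by positivity
  have hκ2 : Real.pi / (2 * ((c k.val : ℝ) + 2)) = 2 * κ := by rw [hκdef]; field_simp; norm_num
  have hκk : κ * ((c k.val : ℝ) + 2) = Real.pi / 4 := by rw [hκdef]; field_simp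
  obtain ⟨hm, hbm⟩ := hm
  obtain ⟨hc, hb⟩ := hm'
  have hne : m k ≠ m' k := fun e => by rw [e] at hbm; omega
  have hfirst : ∀ i < k, m i = m' i := fun i hi => by rw [hm i hi, hc i hi]
  have hM : 0 < ((c k.val : ℝ) + 2) * D.R k := mul_pos (by positivity) (D.R_pos k)
  have h1 := ht_pos_of (φ := φ) hM (uu_diff (D := D)
    (θ := (Pi.single k (Real.pi / (2 * ((c k.val : ℝ) + 2))) : Fin r → ℝ)) hne hfirst) ?_
  · rw [ht_sub] at h1; linarith
  · rw [Pi.add_apply, Pi.add_apply, Pi.single_eq_same, lam_self hm, lam_self hc, hκ2]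
    rw [abs_le] at hφ
    have h2m : 2 * ((m' k).val : ℝ) ≤ (c k.val : ℝ) + 1 := by
      have : 2 * (m' k).val ≤ c k.val + 1 := by omega
      exact_mod_cast this
    have h2m' : (c k.val : ℝ) + 2 ≤ 2 * ((m k).val : ℝ) := by
      have : c k.val + 2 ≤ 2 * (m k).val := by omega
      exact_mod_cast this
    have h3m' : ((m k).val : ℝ) ≤ (c k.val : ℝ) + 1 := by
      have : (m k).val ≤ c k.val + 1 := by have := (m k).isLt; omega
      exact_mod_cast this
    have e1 : 0 ≤ 2 * Real.pi * (m' k).val / ((c k.val : ℝ) + 2) := by positivity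
    have e2 : 2 * Real.pi * (m' k).val / ((c k.val : ℝ) + 2) ≤ Real.pi - 4 * κ := by
      rw [div_le_iff₀ hk2, sub_mul]
      nlinarith
    have e3 : Real.pi ≤ 2 * Real.pi * (m k).val / ((c k.val : ℝ) + 2) := by
      rw [le_div_iff₀ hk2]; nlinarith
    have e4 : 2 * Real.pi * (m k).val / ((c k.val : ℝ) + 2) ≤ 2 * Real.pi - 8 * κ := by
      rw [div_le_iff₀ hk2, sub_mul]
      nlinarith
    have h5 : Real.sin κ ≤ Real.sin (2 * κ + 2 * Real.pi * (m' k).val / ((c k.val : ℝ) + 2) -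
        (φ - Real.pi / 2)) := sin_le_sin_of hκ.le (by linarith) (by linarith)
    have h6 : Real.sin κ ≤ Real.sin (2 * Real.pi - (2 * κ + 2 * Real.pi * (m k).val /
        ((c k.val : ℝ) + 2) - (φ - Real.pi / 2))) :=
      sin_le_sin_of hκ.le (by linarith) (by linarith)
    rw [Real.sin_two_pi_sub] at h6
    have h7 : 0 < Real.sin κ := Real.sin_pos_of_pos_of_lt_pi hκ (by nlinarith)
    have h8 := Real.sin_le_one κ
    nlinarith

theorem CP_iff (k : Fin r) (m : Lab c r) : m ∈ CP c k ↔ m ∈ CL c r k.val ∧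
    ∃ z ∈ (List.range ((c k.val + 1) / 2 + 1)).map (fun i : ℕ => (i : ℤ)),
      ∃ p : ℤ, z = (m k).val + p * (c k.val + 2) := by
  constructor
  · rintro ⟨h1, h2⟩
    refine ⟨h1, (m k).val, ?_, 0, by simp⟩
    rw [List.mem_map]
    exact ⟨(m k).val, List.mem_range.2 (by omega), rfl⟩
  · rintro ⟨h1, z, hz, p, hp⟩
    refine ⟨h1, ?_⟩
    rw [List.mem_map] at hz
    obtain ⟨i, hi, rfl⟩ := hz
    rw [List.mem_range] at hi
    have h3 := (m k).isLt
    have hp0 : p = 0 := by
      rcases lt_trichotomy p 0 with h | h | h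
      · nlinarith
      · exact h
      · have h4 : (i : ℤ) ≤ c k.val + 1 := by omega
        nlinarith
    rw [hp0, zero_mul, add_zero] at hp
    omega

theorem CN_iff (k : Fin r) (m : Lab c r) : m ∈ CN c k ↔ m ∈ CL c r k.val ∧
    ∃ z ∈ (List.range (c k.val + 1 - (c k.val + 1) / 2)).map
      (fun i : ℕ => (i : ℤ) - ((c k.val + 1 - (c k.val + 1) / 2 : ℕ) : ℤ)),
      ∃ p : ℤ, z = (m k).val + p * (c k.val + 2) := by
  constructor
  · rintro ⟨h1, h2⟩
    have h3 := (m k).isLt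
    refine ⟨h1, (m k).val - ((c k.val : ℤ) + 2), ?_, -1, by ring⟩
    rw [List.mem_map]
    refine ⟨(m k).val - ((c k.val + 1) / 2 + 1), List.mem_range.2 (by omega), by omega⟩
  · rintro ⟨h1, z, hz, p, hp⟩
    refine ⟨h1, ?_⟩
    rw [List.mem_map] at hz
    obtain ⟨i, hi, rfl⟩ := hz
    rw [List.mem_range] at hi
    have h3 := (m k).isLt
    have hp0 : p = -1 := by
      rcases lt_trichotomy p (-1) with h | h | h
      · have h4 : -((c k.val : ℤ) + 2) < (i : ℤ) - ((c k.val + 1 - (c k.val + 1) / 2 : ℕ) : ℤ) := by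
          omega
        have h5 : p + 2 ≤ 0 := by omega
        nlinarith
      · exact h
      · have h4 : (i : ℤ) - ((c k.val + 1 - (c k.val + 1) / 2 : ℕ) : ℤ) < 0 := by omega
        have h5 : 0 ≤ p := by omega
        nlinarith
    rw [hp0] at hp
    omega

theorem CNP (k : Fin r) : CL c r k.val = CN c k ∪ CP c k := by
  ext m
  constructor
  · intro h
    rcases le_or_gt (m k).val ((c k.val + 1) / 2) with h1 | h1
    · exact Or.inr ⟨h, h1⟩
    · exact Or.inl ⟨h, h1⟩
  · rintro (h | h)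
    · exact h.1
    · exact h.1

end Pool.Agent.FLX
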