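import Pool.Agent.FLO.DMain
import Pool.Agent.FLX.Step

/-!
# The main theorem of Part D
-/

set_option autoImplicit false

open scoped BigOperators Topology

namespace Pool.Agent.FLX

open Pool.Agent.FLO

variable {c : ℕ → ℕ} {r N : ℕ} {K : Type} [AddCommGroup K] {S : Growth r N K} {δ : ℝ}
  {D : Nested c S.spec N δ}

theorem exists_isSmall (c : ℕ → ℕ) (r : ℕ) : ∃ δ : ℝ, IsSmall c r δ := by
  have h0 : (0 : ℝ) ≤ ∑ k : Fin r, ((c k.val : ℝ) + 2) := Finset.sum_nonneg fun k _ => by positivity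
  refine ⟨1 / (8 * (∑ k : Fin r, ((c k.val : ℝ) + 2) + 1)), by positivity, fun k => ?_⟩
  rw [div_mul_eq_mul_div, one_mul, div_le_one (by positivity)]
  have h1 : (c k.val : ℝ) + 2 ≤ ∑ k : Fin r, ((c k.val : ℝ) + 2) :=
    Finset.single_le_sum (f := fun k : Fin r => (c k.val : ℝ) + 2) (fun k _ => by positivity)
      (Finset.mem_univ k)
  linarith

theorem CP_sub (k : Fin r) (θ : Fin r → ℝ) (C : Set (Lab c r)) :
    ∀ x ∈ uu D θ '' C, x ∈ S.spec (pt c D.ρ θ) := by
  rintro x ⟨m, _, rfl⟩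
  exact (mem_spec θ _).2 ⟨m, rfl⟩

/-- the upper half: from the starting position to the final position -/
theorem half_P (hS : S.Full) (hδ : IsSmall c r δ) (k : Fin r) {w : K} (hP : PP D (k.val + 1) w)
    {φ₀ : ℝ} (hφ₀ : |φ₀ - Real.pi / 2| ≤ Real.pi / (4 * ((c k.val : ℝ) + 2))) {v₀ : ℂ → K}
    (F₀ : Fr S (pt c D.ρ (Pi.single k (Real.pi / (2 * ((c k.val : ℝ) + 2))))) φ₀ v₀) {l : List ℂ}
    (hl : IsSorted φ₀ (uu D (Pi.single k (Real.pi / (2 * ((c k.val : ℝ) + 2)))) '' CP c k) l) :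
    Mut S.χ (l.map v₀) (((List.range ((c k.val + 1) / 2 + 1)).map (fun i : ℕ => (i : ℤ))).flatMap
      fun z => (bx c S (r - (k.val + 1)) w).map (S.tw (Pi.single k z))) ∧
    Mut S.χ (((List.range ((c k.val + 1) / 2 + 1)).map (fun i : ℕ => (i : ℤ))).flatMap
      fun z => (bx c S (r - (k.val + 1)) w).map (S.tw (Pi.single k z))) (l.map v₀) := by
  have hpi := Real.pi_pos
  have hk2 : (0 : ℝ) < (c k.val : ℝ) + 2 := by positivity
  set κ := Real.pi / (4 * ((c k.val : ℝ) + 2)) with hκdef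
  have hκ : 0 < κ := by positivity
  have hκ2 : Real.pi / (2 * ((c k.val : ℝ) + 2)) = 2 * κ := by rw [hκdef]; field_simp; norm_num
  have hκk : κ * ((c k.val : ℝ) + 2) = Real.pi / 4 := by rw [hκdef]; field_simp
  have hκ8 : κ ≤ Real.pi / 8 := by
    have : (0 : ℝ) ≤ k.val := Nat.cast_nonneg _
    nlinarith
  obtain ⟨φ₁, hφ₁, hadm⟩ := exists_adm_spec
    (S.spec (pt c D.ρ (Pi.single k (Real.pi / (2 * ((c k.val : ℝ) + 2)) - Real.pi / 2))))
    (Real.pi / 2) κ hκ
  obtain ⟨v₁, F₁⟩ := hS.exists_fr (D.card _) hadm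
  obtain ⟨l₁, hl₁⟩ := F₁.exists_sorted (CP_sub k _ (CP c k))
  have h1 := seg_transport hS hδ (C := CP c k) (θ₀ := Pi.single k (Real.pi / (2 * ((c k.val : ℝ) + 2))))
    (θ₁ := Pi.single k (Real.pi / (2 * ((c k.val : ℝ) + 2)) - Real.pi / 2)) (φ₀ := φ₀) (φ₁ := φ₁)
    (fun s hs m hm m' hm' => by
      have h2 : (1 - s) • (Pi.single k (Real.pi / (2 * ((c k.val : ℝ) + 2))) : Fin r → ℝ) +
          s • Pi.single k (Real.pi / (2 * ((c k.val : ℝ) + 2)) - Real.pi / 2) =
          Pi.single k (Real.pi / (2 * ((c k.val : ℝ) + 2)) - s * (Real.pi / 2)) := by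
        ext i
        rw [Pi.add_apply, Pi.smul_apply, Pi.smul_apply, smul_eq_mul, smul_eq_mul]
        by_cases hi : i = k
        · subst hi
          rw [Pi.single_eq_same, Pi.single_eq_same, Pi.single_eq_same]
          ring
        · rw [Pi.single_eq_of_ne hi, Pi.single_eq_of_ne hi, Pi.single_eq_of_ne hi]
          ring
      rw [h2]
      exact noHit_P hδ k (mul_nonneg hs.1 (by positivity))
        (by nlinarith [hs.2]) (abs_seg hφ₀ hφ₁.le hs) hm hm')
    F₀ F₁ hl hl₁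
  have h3 := half_end hδ k hP (θ := Pi.single k (Real.pi / (2 * ((c k.val : ℝ) + 2)) - Real.pi / 2))
    (φ := φ₁) (win_single (hφ₁.le.trans (by linarith))) (C := CP c k)
    (J := (List.range ((c k.val + 1) / 2 + 1)).map (fun i : ℕ => (i : ℤ)))
    (CP_iff k) (by
      rw [List.pairwise_map]
      exact List.pairwise_lt_range.imp fun h => by exact_mod_cast h) (by
      intro z hz
      rw [List.mem_map] at hz
      obtain ⟨i, hi, rfl⟩ := hz
      rw [List.mem_range] at hi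
      rw [Pi.single_eq_same, hκ2]
      have hφ' := abs_lt.1 hφ₁
      have h2i : 2 * (i : ℝ) ≤ (c k.val : ℝ) + 1 := by
        have : 2 * i ≤ c k.val + 1 := by omega
        exact_mod_cast this
      have e1 : 0 ≤ 2 * Real.pi * (i : ℝ) / ((c k.val : ℝ) + 2) := by positivity
      have e2 : 2 * Real.pi * (i : ℝ) / ((c k.val : ℝ) + 2) ≤ Real.pi - 4 * κ := by
        rw [div_le_iff₀ hk2, sub_mul]
        nlinarith
      push_cast
      rw [abs_le]
      constructor <;> linarith)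
    F₁ hl₁
  exact ⟨h1.1.trans h3.1, h3.2.trans h1.2⟩

/-- the lower half: from the starting position to the final position -/
theorem half_N (hS : S.Full) (hδ : IsSmall c r δ) (k : Fin r) {w : K} (hP : PP D (k.val + 1) w)
    {φ₀ : ℝ} (hφ₀ : |φ₀ - Real.pi / 2| ≤ Real.pi / (4 * ((c k.val : ℝ) + 2))) {v₀ : ℂ → K}
    (F₀ : Fr S (pt c D.ρ (Pi.single k (Real.pi / (2 * ((c k.val : ℝ) + 2))))) φ₀ v₀) {l : List ℂ}
    (hl : IsSorted φ₀ (uu D (Pi.single k (Real.pi / (2 * ((c k.val : ℝ) + 2)))) '' CN c k) l) :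
    Mut S.χ (l.map v₀) (((List.range (c k.val + 1 - (c k.val + 1) / 2)).map
      (fun i : ℕ => (i : ℤ) - ((c k.val + 1 - (c k.val + 1) / 2 : ℕ) : ℤ))).flatMap
      fun z => (bx c S (r - (k.val + 1)) w).map (S.tw (Pi.single k z))) ∧
    Mut S.χ (((List.range (c k.val + 1 - (c k.val + 1) / 2)).map
      (fun i : ℕ => (i : ℤ) - ((c k.val + 1 - (c k.val + 1) / 2 : ℕ) : ℤ))).flatMap
      fun z => (bx c S (r - (k.val + 1)) w).map (S.tw (Pi.single k z))) (l.map v₀) := by
  have hpi := Real.pi_pos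
  have hk2 : (0 : ℝ) < (c k.val : ℝ) + 2 := by positivity
  set κ := Real.pi / (4 * ((c k.val : ℝ) + 2)) with hκdef
  have hκ : 0 < κ := by positivity
  have hκ2 : Real.pi / (2 * ((c k.val : ℝ) + 2)) = 2 * κ := by rw [hκdef]; field_simp; norm_num
  have hκk : κ * ((c k.val : ℝ) + 2) = Real.pi / 4 := by rw [hκdef]; field_simp
  have hκ8 : κ ≤ Real.pi / 8 := by
    have : (0 : ℝ) ≤ k.val := Nat.cast_nonneg _
    nlinarith
  obtain ⟨φ₁, hφ₁, hadm⟩ := exists_adm_spec
    (S.spec (pt c D.ρ (Pi.single k (Real.pi / (2 * ((c k.val : ℝ) + 2)) + Real.pi / 2))))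
    (Real.pi / 2) κ hκ
  obtain ⟨v₁, F₁⟩ := hS.exists_fr (D.card _) hadm
  obtain ⟨l₁, hl₁⟩ := F₁.exists_sorted (CP_sub k _ (CN c k))
  have h1 := seg_transport hS hδ (C := CN c k) (θ₀ := Pi.single k (Real.pi / (2 * ((c k.val : ℝ) + 2))))
    (θ₁ := Pi.single k (Real.pi / (2 * ((c k.val : ℝ) + 2)) + Real.pi / 2)) (φ₀ := φ₀) (φ₁ := φ₁)
    (fun s hs m hm m' hm' => by
      have h2 : (1 - s) • (Pi.single k (Real.pi / (2 * ((c k.val : ℝ) + 2))) : Fin r → ℝ) +
          s • Pi.single k (Real.pi / (2 * ((c k.val : ℝ) + 2)) + Real.pi / 2) =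
          Pi.single k (Real.pi / (2 * ((c k.val : ℝ) + 2)) + s * (Real.pi / 2)) := by
        ext i
        rw [Pi.add_apply, Pi.smul_apply, Pi.smul_apply, smul_eq_mul, smul_eq_mul]
        by_cases hi : i = k
        · subst hi
          rw [Pi.single_eq_same, Pi.single_eq_same, Pi.single_eq_same]
          ring
        · rw [Pi.single_eq_of_ne hi, Pi.single_eq_of_ne hi, Pi.single_eq_of_ne hi]
          ring
      rw [h2]
      exact noHit_N hδ k (mul_nonneg hs.1 (by positivity))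
        (by nlinarith [hs.2]) (abs_seg hφ₀ hφ₁.le hs) hm hm')
    F₀ F₁ hl hl₁
  have h3 := half_end hδ k hP (θ := Pi.single k (Real.pi / (2 * ((c k.val : ℝ) + 2)) + Real.pi / 2))
    (φ := φ₁) (win_single (hφ₁.le.trans (by linarith))) (C := CN c k)
    (J := (List.range (c k.val + 1 - (c k.val + 1) / 2)).map
      (fun i : ℕ => (i : ℤ) - ((c k.val + 1 - (c k.val + 1) / 2 : ℕ) : ℤ)))
    (CN_iff k) (by
      rw [List.pairwise_map]
      exact List.pairwise_lt_range.imp fun {x y} h => by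
        have h' : (x : ℤ) < (y : ℤ) := by exact_mod_cast h
        linarith) (by
      intro z hz
      rw [List.mem_map] at hz
      obtain ⟨i, hi, rfl⟩ := hz
      rw [List.mem_range] at hi
      rw [Pi.single_eq_same, hκ2]
      have hφ' := abs_lt.1 hφ₁
      set a : ℕ := c k.val + 1 - (c k.val + 1) / 2 with ha
      have h2a : 2 * (a : ℝ) ≤ (c k.val : ℝ) + 2 := by
        have : 2 * a ≤ c k.val + 2 := by omega
        exact_mod_cast this
      have hia : (i : ℝ) + 1 ≤ a := by exact_mod_cast hi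
      have e1 : 2 * Real.pi * ((i : ℝ) - a) / ((c k.val : ℝ) + 2) ≤ - (8 * κ) := by
        rw [div_le_iff₀ hk2]
        nlinarith
      have e2 : -Real.pi ≤ 2 * Real.pi * ((i : ℝ) - a) / ((c k.val : ℝ) + 2) := by
        rw [le_div_iff₀ hk2]
        have : (0 : ℝ) ≤ i := Nat.cast_nonneg _
        nlinarith
      push_cast
      rw [abs_le]
      constructor <;> linarith)
    F₁ hl₁
  exact ⟨h1.1.trans h3.1, h3.2.trans h1.2⟩

/-- the induction step -/
theorem PP_step (hS : S.Full) (hδ : IsSmall c r δ) (k : Fin r) {w : K} (hP : PP D (k.val + 1) w) :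
    PP D k.val w := by
  intro θ φ hw v F l hl
  have hpi := Real.pi_pos
  have hk2 : (0 : ℝ) < (c k.val : ℝ) + 2 := by positivity
  have hκ : 0 < Real.pi / (4 * ((c k.val : ℝ) + 2)) := by positivity
  have hκ8 : Real.pi / (4 * ((c k.val : ℝ) + 2)) ≤ Real.pi / 2 := by
    apply div_le_div_of_nonneg_left hpi.le two_pos
    nlinarith [(Nat.cast_nonneg (c k.val) : (0 : ℝ) ≤ (c k.val : ℝ))]
  obtain ⟨φ₀, hφ₀, hadm⟩ := exists_adm_spec
    (S.spec (pt c D.ρ (Pi.single k (Real.pi / (2 * ((c k.val : ℝ) + 2)))))) (Real.pi / 2) _ hκ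
  obtain ⟨v₀, F₀⟩ := hS.exists_fr (D.card _) hadm
  obtain ⟨lN, hlN⟩ := F₀.exists_sorted (CP_sub k _ (CN c k))
  obtain ⟨lP, hlP⟩ := F₀.exists_sorted (CP_sub k _ (CP c k))
  have hN := half_N hS hδ k hP hφ₀.le F₀ hlN
  have hP' := half_P hS hδ k hP hφ₀.le F₀ hlP
  have hsort : IsSorted φ₀ (clu D k.val (Pi.single k (Real.pi / (2 * ((c k.val : ℝ) + 2)))))
      (lN ++ lP) := by
    rw [clu_eq, CNP, Set.image_union]
    refine hlN.append hlP ?_
    rintro x ⟨m, hm, rfl⟩ y ⟨m', hm', rfl⟩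
    exact ord_NP hδ k hφ₀.le hm hm'
  have hw₀ : Win k.val (Pi.single k (Real.pi / (2 * ((c k.val : ℝ) + 2))) : Fin r → ℝ) φ₀ :=
    win_single (hφ₀.le.trans hκ8)
  have h1 := win_transport hS hδ hw hw₀ F F₀ hl hsort
  -- the twist
  set a : ℕ := c k.val + 1 - (c k.val + 1) / 2 with ha
  have h2 := twist_inv hS hδ k hw₀ F₀ hsort a
  -- the whole list
  have h3 := hN.1.append hP'.1
  have h4 := hN.2.append hP'.2
  rw [← List.map_append] at h3 h4
  have hcat : (((List.range a).map (fun i : ℕ => (i : ℤ) - (a : ℤ))).flatMap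
      fun z => (bx c S (r - (k.val + 1)) w).map (S.tw (Pi.single k z))) ++
      (((List.range ((c k.val + 1) / 2 + 1)).map (fun i : ℕ => (i : ℤ))).flatMap
      fun z => (bx c S (r - (k.val + 1)) w).map (S.tw (Pi.single k z))) =
      ((List.range (c k.val + 2)).map (fun i : ℕ => (i : ℤ) - (a : ℤ))).flatMap
      fun z => (bx c S (r - (k.val + 1)) w).map (S.tw (Pi.single k z)) := by
    rw [← List.flatMap_append]
    congr 1
    have h5 : c k.val + 2 = a + ((c k.val + 1) / 2 + 1) := by omega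
    have h5' : List.range (c k.val + 2) =
        List.range a ++ (List.range ((c k.val + 1) / 2 + 1)).map (fun x => a + x) := by
      rw [h5]; exact List.range_add
    rw [h5', List.map_append, List.map_map]
    congr 1
    refine List.map_congr_left fun i _ => ?_
    simp
  rw [hcat] at h3 h4
  have h5 := h3.map (S.tw (Pi.single k (a : ℤ))) (S.tw_χ _)
  have h6 := h4.map (S.tw (Pi.single k (a : ℤ))) (S.tw_χ _)
  have h7 : (((List.range (c k.val + 2)).map (fun i : ℕ => (i : ℤ) - (a : ℤ))).flatMap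
      fun z => (bx c S (r - (k.val + 1)) w).map (S.tw (Pi.single k z))).map
        (S.tw (Pi.single k (a : ℤ))) = bx c S (r - k.val) w := by
    have h8 : r - k.val = (r - (k.val + 1)) + 1 := by have := k.isLt; omega
    rw [h8, bx_succ S k (by have := k.isLt; omega) w, List.map_flatMap, List.flatMap_map,
      List.flatMap_map]
    congr 1
    funext i
    rw [List.map_map]
    refine List.map_congr_left fun x _ => ?_
    rw [Function.comp_apply, ← S.tw_add, ← Pi.single_add]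
    congr 3
    ring
  rw [h7] at h5 h6
  exact ⟨(h1.1.trans h2.1).trans h5, h6.trans (h2.2.trans h1.2)⟩

/-- the class of the rightmost canonical coordinate -/
theorem PP_top (hS : S.Full) (hδ : IsSmall c r δ) {φ₀ : ℝ} (hφ₀ : |φ₀ - Real.pi / 2| ≤ Real.pi / 2)
    {v₀ : ℂ → K} (F₀ : Fr S (pt c D.ρ 0) φ₀ v₀) : PP D r (v₀ (D.U 0)) := by
  intro θ φ hw v F l hl
  have hw₀ : Win r (0 : Fin r → ℝ) φ₀ := by
    intro i _
    rw [Pi.zero_apply, zero_sub, abs_neg]
    exact hφ₀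
  have hl₀ : IsSorted φ₀ (clu D r (0 : Fin r → ℝ)) [D.U 0] := by
    rw [clu_top]
    exact ⟨List.pairwise_singleton _ _, by simp⟩
  have h1 := win_transport hS hδ hw hw₀ F F₀ hl hl₀
  rw [Nat.sub_self, bx_zero]
  exact h1

theorem PP_all (hS : S.Full) (hδ : IsSmall c r δ) {w : K} (h : PP D r w) :
    ∀ n k : ℕ, k + n = r → PP D k w := by
  intro n
  induction n with
  | zero => intro k hk; rw [add_zero] at hk; rw [hk]; exact h
  | succ n ih =>
    intro k hk
    exact PP_step hS hδ ⟨k, by omega⟩ (ih (k + 1) (by omega))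

/-- at the real point the rightmost canonical coordinate is `U 0` -/
theorem re_lt (hδ : IsSmall c r δ) {x : ℂ} (hx : x ∈ S.spec (pt c D.ρ 0)) (hne : x ≠ D.U 0) :
    x.re < (D.U 0).re := by
  obtain ⟨m', rfl⟩ := (mem_spec 0 x).1 hx
  have h0 : D.U 0 = uu D 0 (fun _ => 0) := by
    rw [uu]
    congr 1
    ext i
    rw [Pi.add_apply, lam_zero fun _ _ => rfl]
    simp
  rw [h0] at hne ⊢
  have hne' : (fun _ => 0 : Lab c r) ≠ m' := fun e => hne (by rw [e])
  obtain ⟨k, hk, hlt⟩ := exists_first hne'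
  have hM : 0 < ((c k.val : ℝ) + 2) * D.R k := mul_pos (by positivity) (D.R_pos k)
  have h1 := uu_diff (D := D) (θ := 0) hk hlt
  have h2 := angle_diff (θ := (0 : Fin r → ℝ)) hk hlt
  have hα : ((0 : Fin r → ℝ) + lam (fun _ => 0 : Lab c r)) k = 0 := by
    rw [Pi.add_apply, lam_zero fun _ _ => rfl]; simp
  rw [hα] at h1 h2
  rw [sub_zero] at h2
  have h3 := (abs_le.1 ((Complex.abs_re_le_norm _).trans h1)).2
  rw [Complex.sub_re, Complex.sub_re, Complex.re_ofReal_mul, Complex.sub_re,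
    Complex.exp_ofReal_mul_I_re, Complex.exp_ofReal_mul_I_re, Real.cos_zero] at h3
  have h4 := hδ.four k
  have h5 : 2 * (δ / ((c k.val : ℝ) + 2)) < 1 - Real.cos (((0 : Fin r → ℝ) + lam m') k) := by
    linarith
  have h6 : 0 < δ / ((c k.val : ℝ) + 2) := div_pos hδ.1 (by positivity)
  nlinarith

/-- MAIN of Part D -/
theorem main (hS : S.Full) (hN : ∀ δ : ℝ, 0 < δ → Nonempty (Nested c S.spec N δ))
    (hconn : IsPreconnected {t | (S.spec t).card = N}) :
    ∃ w : K, (S.dual w = w ∨ S.dual w = -w) ∧ ∀ t φ u a, IsAsym S t φ u a →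
      Mut S.χ ((box c r r).map fun μ => S.tw μ w) (List.ofFn a) ∧
      Mut S.χ (List.ofFn a) ((box c r r).map fun μ => S.tw μ w) := by
  have hpi := Real.pi_pos
  obtain ⟨δ, hδ⟩ := exists_isSmall c r
  obtain ⟨D⟩ := hN _ hδ.1
  obtain ⟨φ₀, hφ₀, hadm⟩ := exists_adm_spec (S.spec (pt c D.ρ 0)) (Real.pi / 2) (Real.pi / 2)
    (by positivity)
  obtain ⟨v₀, F₀⟩ := hS.exists_fr (D.card 0) hadm
  have h1 := PP_all hS hδ (PP_top hS hδ hφ₀.le F₀) r 0 (zero_add r)
  refine ⟨v₀ (D.U 0), ?_, ?_⟩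
  · -- duality
    have hU : D.U 0 ∈ S.spec (pt c D.ρ 0) := (mem_spec 0 _).2 ⟨fun _ => 0, by
      rw [uu]
      congr 1
      ext i
      rw [Pi.add_apply, lam_zero fun _ _ => rfl]
      simp⟩
    have hψ : Real.pi ∈ Set.Icc φ₀ (φ₀ + Real.pi) := by
      have := abs_lt.1 hφ₀
      exact Set.mem_Icc.2 ⟨by linarith, by linarith⟩
    have hre : ∀ x : ℂ, ht Real.pi x = - x.re := fun x => by
      rw [ht_eq, Real.cos_pi, Real.sin_pi]; ring
    have h2 : v₀ (D.U 0) ∈ S.G (pt c D.ρ 0) Real.pi (ht Real.pi (D.U 0)) :=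
      (F₀.mem_G hψ hU).2 le_rfl
    have him : ∀ k, (pt c D.ρ 0 k).im = 0 := by
      intro k
      simp [pt, ph_zero]
    have h3 := S.G_dual _ him _ _ h2
    obtain ⟨e, hc⟩ := F₀.gen (S.dual (v₀ (D.U 0)))
    rw [hc, F₀.growth _ hψ] at h3
    have h4 : ∀ x ∈ S.spec (pt c D.ρ 0), x ≠ D.U 0 → e x = 0 := by
      intro x hx hne
      by_contra h
      have h5 := h3 x hx h
      rw [hre, hre] at h5
      have h6 := re_lt hδ hx hne
      linarith
    rw [Finset.sum_eq_single (D.U 0) (fun x hx hne => by rw [h4 x hx hne, zero_smul])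
      (fun h => absurd hU h)] at hc
    have h5 := S.dual_dual (v₀ (D.U 0))
    rw [hc, map_zsmul, hc, smul_smul] at h5
    have h6 := F₀.diag _ hU
    have h7 : S.χ ((e (D.U 0) * e (D.U 0)) • v₀ (D.U 0)) (v₀ (D.U 0)) = 1 := by rw [h5]; exact h6
    rw [map_zsmul, AddMonoidHom.smul_apply, h6, smul_eq_mul, mul_one] at h7
    have h9 : IsUnit (e (D.U 0)) := IsUnit.of_mul_eq_one _ h7
    rcases Int.isUnit_iff.1 h9 with h | h
    · left; rw [hc, h, one_smul]
    · right; rw [hc, h, neg_smul, one_smul]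
  · intro t φ u a hA
    have hw₀ : Win 0 (0 : Fin r → ℝ) φ₀ := fun i hi => absurd hi (Nat.not_lt_zero _)
    obtain ⟨l₀, hl₀⟩ := F₀.exists_sorted (C := {x | x ∈ S.spec (pt c D.ρ 0)}) (fun x hx => hx)
    have h2 := h1 0 φ₀ hw₀ v₀ F₀ l₀ (by rw [clu_zero]; exact hl₀)
    have h3 := repAll_of_one hS F₀ hl₀ h2.1 h2.2
    have h4 := repAll_all hS hconn (D.card 0) hA.card_eq h3
    obtain ⟨v, F, hv⟩ := hA.exists_fr
    have h5 := h4 φ v F (List.ofFn u) ⟨by
      rw [List.pairwise_ofFn]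
      exact hA.mono, fun x => by
      rw [List.mem_ofFn]
      exact (hA.mem x).symm⟩
    have h6 : (List.ofFn u).map v = List.ofFn a := by
      rw [List.map_ofFn]
      congr 1
      funext j
      exact hv j
    rw [h6] at h5
    exact ⟨h5.2, h5.1⟩

end Pool.Agent.FLX
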