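import Pool.Agent.FLX.BDefs
import Pool.Agent.FLG.K.Fund

/-!
# FLX-RCof: the coordinates `cof a` of the coroots
-/

set_option autoImplicit false

open scoped BigOperators

namespace Pool.Agent.FLX

open Pool.Agent.FLG

variable {r : ℕ} {D : RS r}

theorem exists_fund (D : RS r) : ∃ om : Fin r → Fin r → ℂ, ∀ k i,
    D.ch (om k) (RS.al i) = if i = k then 1 else 0 := by
  choose om hom using fun k : Fin r => RS.exists_wt D fun i => if i = k then 1 else 0
  exact ⟨om, fun k i => hom k i⟩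

theorem cof_eq {om : Fin r → Fin r → ℂ}
    (hom : ∀ k i, D.ch (om k) (RS.al i) = if i = k then 1 else 0) {a : Fin r → ℤ} (ha : a ∈ D.Φ)
    (k : Fin r) : (D.cof a k : ℂ) = D.ch (om k) a := by
  have h2 : ∀ j, D.co a j = ∑ i, D.cof a i * D.co (RS.al i) j := by
    intro j
    have h3 := congrFun (D.co_cof a ha) j
    rw [Finset.sum_apply] at h3
    exact h3
  have h1 : D.ch (om k) a = ∑ i, (D.cof a i : ℂ) * D.ch (om k) (RS.al i) := by
    unfold RS.ch
    simp only [Finset.mul_sum]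
    rw [Finset.sum_comm]
    refine Finset.sum_congr rfl fun j _ => ?_
    rw [h2 j, Int.cast_sum, Finset.mul_sum]
    refine Finset.sum_congr rfl fun i _ => ?_
    push_cast
    ring
  rw [h1, Finset.sum_eq_single k]
  · rw [hom, if_pos rfl, mul_one]
  · intro i _ hi
    rw [hom, if_neg hi, mul_zero]
  · intro h
    exact absurd (Finset.mem_univ k) h

private theorem al_same (i : Fin r) : (RS.al i : Fin r → ℤ) i = 1 := by
  simp [RS.al]

private theorem al_ne {i j : Fin r} (h : j ≠ i) : (RS.al i : Fin r → ℤ) j = 0 := by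
  simp [RS.al, h]

theorem cof_al (i : Fin r) : D.cof (RS.al i) = RS.al i := by
  obtain ⟨om, hom⟩ := exists_fund D
  funext k
  have h := cof_eq hom (D.al_mem i) k
  rw [hom] at h
  by_cases h3 : i = k
  · subst h3
    rw [al_same]
    rw [if_pos rfl] at h
    exact_mod_cast h
  · rw [al_ne fun e => h3 e.symm]
    rw [if_neg h3] at h
    exact_mod_cast h

private theorem cof_lin {a b c : Fin r → ℤ} (ha : a ∈ D.Φ) (hb : b ∈ D.Φ) (hc : c ∈ D.Φ) (n : ℤ)
    (h : D.co a = D.co b - n • D.co c) : D.cof a = D.cof b - n • D.cof c := by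
  obtain ⟨om, hom⟩ := exists_fund D
  funext k
  have h1 := cof_eq hom ha k
  have h2 := cof_eq hom hb k
  have h3 := cof_eq hom hc k
  have h4 : D.ch (om k) a = D.ch (om k) b - (n : ℂ) * D.ch (om k) c := by
    unfold RS.ch
    rw [h, Finset.mul_sum, ← Finset.sum_sub_distrib]
    refine Finset.sum_congr rfl fun j _ => ?_
    rw [Pi.sub_apply, Pi.smul_apply, smul_eq_mul]
    push_cast
    ring
  rw [← h1, ← h2, ← h3] at h4
  rw [Pi.sub_apply, Pi.smul_apply, smul_eq_mul]
  exact_mod_cast h4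

theorem cof_neg {a : Fin r → ℤ} (ha : a ∈ D.Φ) : D.cof (-a) = -D.cof a := by
  have h := cof_lin (RS.neg_mem ha) ha ha 2 (by
    rw [RS.co_neg ha, two_smul]
    abel)
  rw [h, two_smul]
  abel

private theorem co_rt_refl (w : D.W) {a b : Fin r → ℤ} (ha : a ∈ D.Φ) (hb : b ∈ D.Φ) :
    D.co (D.rt w (D.rt (D.refl b) a)) =
      D.co (D.rt w a) - dotProduct (D.co a) b • D.co (D.rt w b) := by
  funext j
  rw [← RS.dot_al (D.co (D.rt w (D.rt (D.refl b) a))) j, RS.co_rt w (D.rt_mem.2 ha), RS.co_rt _ ha,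
    RS.refl_inv hb, RS.rt_refl hb, dotProduct_sub, dotProduct_smul, Pi.sub_apply, Pi.smul_apply,
    ← RS.dot_al (D.co (D.rt w a)) j, ← RS.dot_al (D.co (D.rt w b)) j, RS.co_rt w ha,
    RS.co_rt w hb, smul_eq_mul, smul_eq_mul]
  ring

theorem cof_rt_refl (w : D.W) {a b : Fin r → ℤ} (ha : a ∈ D.Φ) (hb : b ∈ D.Φ) :
    D.cof (D.rt w (D.rt (D.refl b) a)) =
      D.cof (D.rt w a) - dotProduct (D.co a) b • D.cof (D.rt w b) :=
  cof_lin (D.rt_mem.2 (D.rt_mem.2 ha)) (D.rt_mem.2 ha) (D.rt_mem.2 hb) _ (co_rt_refl w ha hb)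

/-- the version for simple roots: `co (al k) i = ⟨α_i, α_k^∨⟩` -/
theorem cof_rt_s (w : D.W) (k i : Fin r) : D.cof (D.rt w (D.rt (D.s i) (RS.al k))) =
    D.cof (D.rt w (RS.al k)) - D.co (RS.al k) i • D.cof (D.rt w (RS.al i)) := by
  have h := cof_rt_refl w (D.al_mem k) (D.al_mem i)
  rw [RS.dot_al] at h
  exact h

theorem rt_rt_s (w : D.W) (k i : Fin r) : D.rt w (D.rt (D.s i) (RS.al k)) =
    D.rt w (RS.al k) - D.co (RS.al i) k • D.rt w (RS.al i) := by
  have h : D.rt (D.s i) (RS.al k) = RS.al k - D.co (RS.al i) k • RS.al i := by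
    have h1 := RS.rt_refl (D.al_mem i) (RS.al k)
    rw [RS.dot_al] at h1
    exact h1
  rw [h, D.rt_sub, D.rt_smul]

private theorem co_pos_symm {a b : Fin r → ℤ} (ha : a ∈ D.Φ) (hb : b ∈ D.Φ)
    (h : 0 < dotProduct (D.co b) a) : 0 < dotProduct (D.co a) b := by
  have h1 := RS.form_co hb a
  have h2 := RS.form_co ha b
  have h3 : D.form b a = D.form a b := by
    unfold RS.form
    exact Finset.sum_congr rfl fun c _ => mul_comm _ _
  have h4 := RS.form_pos ha
  have h5 := RS.form_pos hb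
  have h6 : 0 < 2 * D.form a b := by
    rw [h1]
    exact mul_pos h (by linarith)
  rw [h3] at h2
  rw [h2] at h6
  by_contra hcon
  push Not at hcon
  have h7 := mul_nonpos_of_nonpos_of_nonneg hcon (show (0 : ℤ) ≤ D.form a a by linarith)
  linarith

private theorem cof_main : ∀ (n : ℕ) (a : Fin r → ℤ), a ∈ D.Pos → (∑ i, a i).toNat = n →
    (∀ k, 0 ≤ D.cof a k) ∧ ∀ k, a k = 0 → D.cof a k = 0 := by
  intro n
  induction n using Nat.strong_induction_on with
  | _ n ih =>
    intro a ha hn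
    have haΦ := RS.mem_of_pos ha
    obtain ⟨i, h1, h2⟩ := RS.exists_simple_pos ha
    by_cases h3 : a = RS.al i
    · rw [h3, cof_al]
      refine ⟨fun k => ?_, fun k hk => hk⟩
      by_cases hk : k = i
      · rw [hk, al_same]
        exact zero_le_one
      · rw [al_ne hk]
    · obtain ⟨h4, -⟩ := RS.s_perm i ha h3
      have hrt : D.rt (D.s i) a = a - dotProduct (D.co (RS.al i)) a • RS.al i :=
        RS.rt_refl (D.al_mem i) a
      have h5 : ∑ j, D.rt (D.s i) a j = ∑ j, a j - dotProduct (D.co (RS.al i)) a := by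
        rw [hrt]
        simp only [Pi.sub_apply, Pi.smul_apply, Finset.sum_sub_distrib, smul_eq_mul]
        rw [← Finset.mul_sum]
        have h6 : ∑ j, (RS.al i : Fin r → ℤ) j = 1 := by
          unfold RS.al
          rw [Finset.sum_pi_single']
          simp
        rw [h6, mul_one]
      have h6 : 0 ≤ ∑ j, D.rt (D.s i) a j := Finset.sum_nonneg fun j _ => (RS.mem_Pos.1 h4).2 j
      obtain ⟨h7, h8⟩ := ih (∑ j, D.rt (D.s i) a j).toNat (by omega) _ h4 rfl
      have h9 : D.rt 1 (D.rt (D.refl (RS.al i)) (D.rt (D.s i) a)) = a := by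
        rw [D.rt_one]
        have h10 : D.rt (D.s i) (D.rt (D.s i) a) = a := by
          rw [← D.rt_mul, RS.s_mul_self, D.rt_one]
        exact h10
      have h10 := cof_rt_refl (1 : D.W) (D.rt_mem.2 haΦ : D.rt (D.s i) a ∈ D.Φ) (D.al_mem i)
      rw [h9, D.rt_one, D.rt_one, cof_al, RS.co_rt _ haΦ, RS.s_inv, RS.rt_s_al,
        dotProduct_neg] at h10
      have h11 : 0 < dotProduct (D.co a) (RS.al i) := co_pos_symm haΦ (D.al_mem i) h2
      rw [h10]
      refine ⟨fun k => ?_, fun k hk => ?_⟩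
      · rw [Pi.sub_apply, Pi.smul_apply, smul_eq_mul]
        have h12 := h7 k
        by_cases hk : k = i
        · rw [hk] at h12 ⊢
          rw [al_same]
          linarith
        · rw [al_ne hk, mul_zero]
          linarith
      · have hki : k ≠ i := by
          rintro rfl
          omega
        rw [Pi.sub_apply, Pi.smul_apply, smul_eq_mul, al_ne hki, mul_zero, sub_zero]
        apply h8
        rw [hrt, Pi.sub_apply, Pi.smul_apply, al_ne hki, smul_zero, sub_zero, hk]

theorem cof_nonneg {a : Fin r → ℤ} (ha : a ∈ D.Pos) (k : Fin r) : 0 ≤ D.cof a k :=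
  (cof_main _ a ha rfl).1 k

theorem cof_zero {a : Fin r → ℤ} (ha : a ∈ D.Φ) {k : Fin r} (h : a k = 0) : D.cof a k = 0 := by
  rcases RS.pos_or_neg ha with h1 | h1
  · exact (cof_main _ a h1 rfl).2 k h
  · have h2 := (cof_main _ (-a) h1 rfl).2 k (by rw [Pi.neg_apply, h, neg_zero])
    rw [cof_neg ha, Pi.neg_apply] at h2
    omega

theorem cht_pos {a : Fin r → ℤ} (ha : a ∈ D.Pos) : 0 < cht D a := by
  have haΦ := RS.mem_of_pos ha
  unfold cht
  refine lt_of_le_of_ne (Finset.sum_nonneg fun k _ => cof_nonneg ha k) fun h => ?_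
  have h1 := (Finset.sum_eq_zero_iff_of_nonneg fun k _ => cof_nonneg ha k).1 h.symm
  have h2 : D.co a = 0 := by
    rw [D.co_cof a haΦ]
    exact Finset.sum_eq_zero fun k hk => by rw [h1 k hk, zero_smul]
  have h3 := D.co_self a haΦ
  rw [h2, zero_dotProduct] at h3
  omega

end Pool.Agent.FLX
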