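import Pool.Agent.FLX.RC
import Pool.Agent.FLX.RCof

/-!
# FLX-RPsi: the roots of `Φ_{l+1} ∖ Φ_l` are the roots `β_j` of the chain
-/

set_option autoImplicit false

open scoped BigOperators

namespace Pool.Agent.FLX

open Pool.Agent.FLG

variable {r : ℕ} {D : RS r} {l : Fin r} {m : ℕ} {i : ℕ → Fin r} {v : ℕ → D.W}

private theorem rpsi_s_s (k : Fin r) (a : Fin r → ℤ) : D.rt (D.s k) (D.rt (D.s k) a) = a := by
  rw [← D.rt_mul, RS.s_mul_self, D.rt_one]

private theorem rpsi_v_bt (k : ℕ) : D.rt (v k) (bt D i v k) = RS.al (i k) := by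
  unfold bt
  rw [D.rt_rt_inv]

private theorem rpsi_succ (H : IsChain D l m i v) {j : ℕ} (hj : j ≤ m) (a : Fin r → ℤ) :
    D.rt (v (j + 1)) a = D.rt (D.s (i j)) (D.rt (v j) a) := by
  rw [H.succ j hj, D.rt_mul]

private theorem rpsi_down (H : IsChain D l m i v) {k : ℕ} (hk : k ≤ m) :
    ∀ d j : ℕ, j + d = k → D.rt (v j) (bt D i v k) ∈ D.Pos := by
  intro d
  induction d with
  | zero =>
    intro j hj
    rw [show j = k by omega, rpsi_v_bt]
    exact RS.al_pos D _
  | succ d ih =>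
    intro j hj
    have h1 := ih (j + 1) (by omega)
    have h2 : D.rt (D.s (i j)) (D.rt (v (j + 1)) (bt D i v k)) = D.rt (v j) (bt D i v k) := by
      rw [rpsi_succ H (by omega), rpsi_s_s]
    by_cases h3 : D.rt (v (j + 1)) (bt D i v k) = RS.al (i j)
    · exfalso
      rw [h3, RS.rt_s_al] at h2
      have h4 : bt D i v k = -bt D i v j := by
        apply D.rt_inj (v j)
        rw [← h2, D.rt_neg, rpsi_v_bt]
      have h5 := H.bt_pos hk
      rw [h4] at h5
      exact RS.neg_not_pos (H.bt_pos (by omega)) h5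
    · rw [← h2]
      exact (RS.s_perm (i j) h1 h3).1

private theorem rpsi_up (H : IsChain D l m i v) {k : ℕ} (hk : k ≤ m) :
    ∀ d : ℕ, k + 1 + d ≤ m + 1 → -D.rt (v (k + 1 + d)) (bt D i v k) ∈ D.Pos := by
  intro d
  induction d with
  | zero =>
    intro _
    rw [Nat.add_zero, rpsi_succ H hk, rpsi_v_bt, RS.rt_s_al, neg_neg]
    exact RS.al_pos D _
  | succ d ih =>
    intro hd
    have h1 := ih (by omega)
    have h2 : -D.rt (v (k + 1 + (d + 1))) (bt D i v k) =
        D.rt (D.s (i (k + 1 + d))) (-D.rt (v (k + 1 + d)) (bt D i v k)) := by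
      rw [← Nat.add_assoc, rpsi_succ H (by omega), D.rt_neg]
    rw [h2]
    refine (RS.s_perm _ h1 ?_).1
    intro h3
    have h4 : bt D i v k = -bt D i v (k + 1 + d) := by
      apply D.rt_inj (v (k + 1 + d))
      rw [D.rt_neg, rpsi_v_bt, ← h3, neg_neg]
    have h5 := H.bt_pos hk
    rw [h4] at h5
    exact RS.neg_not_pos (H.bt_pos (by omega)) h5

theorem IsChain.v_bt_pos (H : IsChain D l m i v) {j k : ℕ} (hj : j ≤ m + 1) (hk : k ≤ m) :
    D.rt (v j) (bt D i v k) ∈ D.Pos ↔ j ≤ k := by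
  constructor
  · intro h
    by_contra hjk
    obtain ⟨d, hd⟩ : ∃ d, j = k + 1 + d := ⟨j - (k + 1), by omega⟩
    subst hd
    exact RS.neg_not_pos h (rpsi_up H hk d hj)
  · intro h
    exact rpsi_down H hk (k - j) j (by omega)

theorem IsChain.bt_inj (H : IsChain D l m i v) {j k : ℕ} (hj : j ≤ m) (hk : k ≤ m)
    (h : bt D i v j = bt D i v k) : j = k := by
  have h1 : j ≤ k := by
    rw [← H.v_bt_pos (by omega) hk, ← h, H.v_bt_pos (by omega) hj]
  have h2 : k ≤ j := by
    rw [← H.v_bt_pos (by omega) hj, h, H.v_bt_pos (by omega) hk]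
  omega

private theorem rpsi_last (H : IsChain D l m i v) {a : Fin r → ℤ} (ha : a ∈ D.Pos) (hl : a l ≠ 0)
    (hk : ∀ k, l < k → a k = 0) : D.rt (v (m + 1)) a ∉ D.Pos := by
  intro h
  have hc : ∀ k, 0 ≤ D.rt (v (m + 1)) a k := (RS.mem_Pos.1 h).2
  have h1 : a = ∑ k, D.rt (v (m + 1)) a k • D.rt (v (m + 1))⁻¹ (RS.al k) := by
    conv_lhs => rw [← D.rt_inv_rt (v (m + 1)) a, RS.eq_sum_al (D.rt (v (m + 1)) a)]
    rw [D.rt_sum]
    exact Finset.sum_congr rfl fun k _ => D.rt_smul _ _ _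
  have h2 : a l = ∑ k, D.rt (v (m + 1)) a k * D.rt (v (m + 1))⁻¹ (RS.al k) l := by
    conv_lhs => rw [h1]
    rw [Finset.sum_apply]
    exact Finset.sum_congr rfl fun k _ => by rw [Pi.smul_apply, smul_eq_mul]
  have h3 : ∑ k, D.rt (v (m + 1)) a k * D.rt (v (m + 1))⁻¹ (RS.al k) l ≤ 0 := by
    apply Finset.sum_nonpos
    intro k _
    by_cases hkl : l < k
    · have h4 : D.rt (v (m + 1)) a k = a k :=
        (mem_PW D).1 (H.v_mem (le_refl _)) a k (by
          have : l.val < k.val := hkl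
          omega)
      rw [h4, hk k hkl, zero_mul]
    · by_cases hki : k = i m
      · have h5 : D.rt (v (m + 1))⁻¹ (RS.al k) = -D.rt (v m)⁻¹ (RS.al (i m)) := by
          rw [H.succ m (le_refl _), mul_inv_rev, D.rt_mul, RS.s_inv, hki, RS.rt_s_al, D.rt_neg]
        have h6 := H.pos m (le_refl _)
        rw [h5, Pi.neg_apply]
        have h7 := hc k
        nlinarith
      · have h8 := H.fix (m + 1) (le_refl _) k (not_lt.1 hkl) (fun h => absurd h (by omega))
          (fun _ => by simpa using hki)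
        rw [h8, mul_zero]
  have h4 := (RS.mem_Pos.1 ha).2 l
  omega

theorem IsChain.psi_eq (H : IsChain D l m i v) {a : Fin r → ℤ} (ha : a ∈ D.Pos) (hl : a l ≠ 0)
    (hk : ∀ k, l < k → a k = 0) : ∃ j ≤ m, a = bt D i v j := by
  classical
  have hex : ∃ j, D.rt (v j) a ∉ D.Pos := ⟨m + 1, rpsi_last H ha hl hk⟩
  have h1 := Nat.find_spec hex
  have h2 : Nat.find hex ≤ m + 1 := Nat.find_min' hex (rpsi_last H ha hl hk)
  have h3 : Nat.find hex ≠ 0 := by
    intro h
    rw [h, H.zero, D.rt_one] at h1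
    exact h1 ha
  obtain ⟨j, hj⟩ := Nat.exists_eq_succ_of_ne_zero h3
  have h4 : D.rt (v j) a ∈ D.Pos := by
    by_contra h
    have := Nat.find_min' hex h
    omega
  have hjm : j ≤ m := by omega
  refine ⟨j, hjm, ?_⟩
  rw [hj] at h1
  rw [Nat.succ_eq_add_one, rpsi_succ H hjm] at h1
  by_contra hne
  apply h1
  refine (RS.s_perm (i j) h4 ?_).1
  intro h5
  apply hne
  apply D.rt_inj (v j)
  rw [rpsi_v_bt, h5]

theorem IsChain.cof_one (H : IsChain D l m i v) {a : Fin r → ℤ} (ha : a ∈ D.Pos) (hl : a l ≠ 0)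
    (hk : ∀ k, l < k → a k = 0) : D.cof a l = 1 := by
  obtain ⟨j, hj, rfl⟩ := H.psi_eq ha hl hk
  exact H.one j hj

private theorem rpsi_gauss (n : ℕ) : ∑ j ∈ Finset.range (n + 1), 2 * ((j : ℤ) + 1) =
    (n + 1) * (n + 2) := by
  induction n with
  | zero => simp
  | succ n ih =>
    rw [Finset.sum_range_succ, ih]
    push_cast
    ring

theorem IsChain.sum_cht (H : IsChain D l m i v) {u : D.W} (hu : u ∈ PW D l.val) :
    ∑ j ∈ Finset.range (m + 1), 2 * cht D (D.rt u⁻¹ (bt D i v j)) = (m + 1) * (m + 2) := by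
  classical
  obtain ⟨S, hS⟩ : ∃ S : Finset (Fin r → ℤ), S = D.Pos.filter fun a => a l ≠ 0 ∧
    ∀ k, l < k → a k = 0 := ⟨_, rfl⟩
  have hbt : ∀ j ≤ m, bt D i v j ∈ S := by
    intro j hj
    rw [hS, Finset.mem_filter]
    exact ⟨H.bt_pos hj, (H.pos j hj).ne', fun k hk => H.bt_supp hj hk⟩
  have hsum : ∀ f : (Fin r → ℤ) → ℤ,
      ∑ j ∈ Finset.range (m + 1), f (bt D i v j) = ∑ a ∈ S, f a := by
    intro f
    apply Finset.sum_nbij (bt D i v)
    · intro j hj
      exact hbt j (by rw [Finset.mem_range] at hj; omega)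
    · intro j hj k hk h
      rw [Finset.mem_coe, Finset.mem_range] at hj hk
      exact H.bt_inj (by omega) (by omega) h
    · intro a ha
      rw [Finset.mem_coe, hS, Finset.mem_filter] at ha
      obtain ⟨j, hj, hj'⟩ := H.psi_eq ha.1 ha.2.1 ha.2.2
      exact ⟨j, by rw [Finset.mem_coe, Finset.mem_range]; omega, hj'.symm⟩
    · intro j _
      rfl
  have hmap : ∀ w ∈ PW D l.val, ∀ a ∈ S, D.rt w a ∈ S := by
    intro w hw a ha
    rw [hS, Finset.mem_filter] at ha ⊢
    have h0 := (RS.mem_Pos.1 ha.1).2 l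
    refine ⟨rt_pos hw (RS.mem_of_pos ha.1) (le_refl _) (lt_of_le_of_ne h0 (Ne.symm ha.2.1)), ?_, ?_⟩
    · rw [(mem_PW D).1 hw a l (le_refl _)]
      exact ha.2.1
    · intro k hk
      have : l.val < k.val := hk
      rw [(mem_PW D).1 hw a k this.le]
      exact ha.2.2 k hk
  have h1 : ∑ a ∈ S, 2 * cht D (D.rt u⁻¹ a) = ∑ a ∈ S, 2 * cht D a := by
    apply Finset.sum_nbij (D.rt u⁻¹)
    · intro a ha
      exact hmap _ ((PW D l.val).inv_mem hu) a ha
    · intro a _ b _ h
      exact D.rt_inj _ h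
    · intro a ha
      exact ⟨D.rt u a, hmap _ hu a ha, D.rt_inv_rt u a⟩
    · intro a _
      rfl
  rw [hsum fun a => 2 * cht D (D.rt u⁻¹ a), h1, ← hsum fun a => 2 * cht D a, ← rpsi_gauss m]
  apply Finset.sum_congr rfl
  intro j hj
  rw [Finset.mem_range] at hj
  unfold bt
  rw [H.ht j (by omega)]

theorem refl_refl {a b : Fin r → ℤ} (ha : a ∈ D.Pos) (hb : b ∈ D.Pos) (hal : a l ≠ 0)
    (h : D.refl a * D.refl b ∈ PW D l.val) : a = b := by
  have haΦ := RS.mem_of_pos ha
  have hbΦ := RS.mem_of_pos hb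
  have key : ∀ x : Fin r → ℤ, dotProduct (D.co a) x * a l = dotProduct (D.co b) x * b l := by
    intro x
    have h1 := (mem_PW D).1 h (D.rt (D.refl b) x) l (le_refl _)
    rw [← D.rt_mul, mul_assoc, RS.refl_mul_self hbΦ, mul_one, RS.rt_refl haΦ, RS.rt_refl hbΦ,
      Pi.sub_apply, Pi.sub_apply, Pi.smul_apply, Pi.smul_apply, smul_eq_mul, smul_eq_mul] at h1
    linarith
  have h2 := key a
  have h3 := key b
  rw [D.co_self a haΦ] at h2
  rw [D.co_self b hbΦ] at h3
  have hbl : b l ≠ 0 := by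
    intro h0
    rw [h0, mul_zero] at h2
    omega
  obtain ⟨Z, hZ⟩ : ∃ Z : Fin r → ℤ, Z = b l • a - a l • b := ⟨_, rfl⟩
  have hZa : dotProduct (D.co a) Z = 0 := by
    rw [hZ, dotProduct_sub, dotProduct_smul, dotProduct_smul, D.co_self a haΦ, smul_eq_mul,
      smul_eq_mul]
    linarith
  have hZb : dotProduct (D.co b) Z = 0 := by
    rw [hZ, dotProduct_sub, dotProduct_smul, dotProduct_smul, D.co_self b hbΦ, smul_eq_mul,
      smul_eq_mul]
    linarith
  have huZ : D.rt (D.refl a * D.refl b) Z = Z := by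
    rw [D.rt_mul, RS.rt_refl hbΦ, hZb, zero_smul, sub_zero, RS.rt_refl haΦ, hZa, zero_smul,
      sub_zero]
  have hstep : ∀ x : Fin r → ℤ, b l • D.rt (D.refl a * D.refl b) x =
      b l • x + dotProduct (D.co a) x • Z := by
    intro x
    have hx := key x
    rw [D.rt_mul, RS.rt_refl hbΦ, RS.rt_refl haΦ, dotProduct_sub, dotProduct_smul, hZ]
    funext k
    simp only [Pi.smul_apply, Pi.sub_apply, Pi.add_apply, smul_eq_mul]
    linear_combination (-b k) * (-hx) + (dotProduct (D.co a) b * a k) * (-hx) +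
      (dotProduct (D.co a) x * a k) * h3
  have hpow : ∀ (n : ℕ) (x : Fin r → ℤ), b l • D.rt ((D.refl a * D.refl b) ^ n) x =
      b l • x + ((n : ℤ) * dotProduct (D.co a) x) • Z := by
    intro n x
    induction n with
    | zero => simp [D.rt_one]
    | succ n ih =>
      rw [pow_succ', D.rt_mul, ← D.rt_smul, ih, D.rt_add, D.rt_smul, D.rt_smul, huZ, hstep]
      rw [add_assoc, ← add_smul]
      congr 2
      push_cast
      ring
  have h4 := hpow (Fintype.card D.W) a
  rw [pow_card_eq_one, D.rt_one, D.co_self a haΦ] at h4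
  have h5 : ((Fintype.card D.W : ℤ) * 2) • Z = 0 := by
    have h6 := h4.symm
    rwa [add_eq_left] at h6
  have h6 : Z = 0 := by
    rcases smul_eq_zero.1 h5 with h7 | h7
    · exfalso
      have h8 : (0 : ℤ) < Fintype.card D.W := by
        exact_mod_cast Fintype.card_pos
      omega
    · exact h7
  rw [hZ, sub_eq_zero] at h6
  rcases D.reduced a haΦ b hbΦ (b l) (a l) hbl h6 with h7 | h7
  · exact h7
  · exfalso
    rw [h7] at ha
    exact RS.neg_not_pos hb ha

end Pool.Agent.FLX
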