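import Pool.Agent.FLX.RTabC
import Pool.Agent.FLX.RPsi

/-!
# FLX-RChn: the chains of types A and C

PLAN. `chain_AC`: fields from the tables `tab_cof`, `tab_root`, `tab_mid`, `tab_w`, by cases `j ≤ l - s₀`
(`β_j = Sv l (l - j)`, or `thv` for `t l`, `j = l - s₀`; coroot `Sv l (l - j)`, height `j + 1`) and
`j = l - s₀ + p`, `1 ≤ p ≤ l - s₀` (`t l`; `β_j = thv - Sv l (s₀+p)`, coroot `2 Sv l s₀ - Sv l (s₀+p)`, height
`2 (l - s₀ + 1) - (l - s₀ - p + 1) = j + 1`). The sum of the coordinates of `Sv l a` is `l - a + 1`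
(`sum_Sv`). `fix`: the entries of the tables for the other `k` are `al k` with `k < l` or `pre k` with
`0 < k ≤ l`; their `l`-th coordinate is `0`.
`exists_root` (for part A): `β_{n-1}` (`H.bt_pos`, `H.one`, `H.ht`, `H.bt_supp` with `cof_zero`).
-/

set_option autoImplicit false

open scoped BigOperators

noncomputable section

namespace Pool.Agent.FLX

open Pool.Agent.FLG

variable {r : ℕ} {D : RS r} {s : ℕ → ℕ} {t : ℕ → Prop}

theorem sum_Sv (l : Fin r) {a : ℕ} (ha : a ≤ l.val + 1) :
    ∑ k, Sv l a k = (l.val : ℤ) + 1 - a := by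
  have h1 : ∑ k, Sv l a k =
      ((Finset.univ.filter fun k : Fin r => a ≤ k.val ∧ k ≤ l).card : ℤ) := by
    simp only [Sv]
    rw [Finset.sum_boole]
  have h2 : (Finset.univ.filter fun k : Fin r => a ≤ k.val ∧ k ≤ l).card =
      (Finset.Icc a l.val).card := by
    refine Finset.card_bij (fun k _ => k.val) ?_ ?_ ?_
    · intro k hk
      rw [Finset.mem_filter] at hk
      rw [Finset.mem_Icc]
      exact hk.2
    · intro k _ k' _ h
      exact Fin.ext h
    · intro n hn
      rw [Finset.mem_Icc] at hn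
      refine ⟨⟨n, lt_of_le_of_lt hn.2 l.isLt⟩, ?_, rfl⟩
      rw [Finset.mem_filter]
      exact ⟨Finset.mem_univ _, hn⟩
  rw [h1, h2, Nat.card_Icc]
  push_cast [Nat.cast_sub ha]
  ring

private theorem ix_le (l : Fin r) (s₀ j : ℕ) : ix l s₀ j ≤ l := by
  change (ix l s₀ j).val ≤ l.val
  simp only [ix]
  split_ifs <;> omega

private theorem ix_first {l : Fin r} {s₀ j : ℕ} (hj : j ≤ l.val - s₀) :
    (ix l s₀ j).val = l.val - j := by
  simp only [ix]
  rw [if_pos hj]

private theorem ix_second {l : Fin r} {s₀ p : ℕ} (hs : s₀ ≤ l.val) (hp : 1 ≤ p)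
    (hp' : p ≤ l.val - s₀) : (ix l s₀ (l.val - s₀ + p)).val = s₀ + p := by
  simp only [ix]
  rw [if_neg (by omega)]
  omega

private theorem Sv_self {l : Fin r} {a : ℕ} (ha : a ≤ l.val) : Sv l a l = 1 := by
  simp only [Sv]
  rw [if_pos ⟨ha, le_rfl⟩]

private theorem al_zero {l k : Fin r} (h : k.val ≠ l.val) : (RS.al k : Fin r → ℤ) l = 0 := by
  unfold RS.al
  exact Pi.single_eq_of_ne (fun e => h (by rw [e])) _

private theorem beta_first (h : IsAC D s t) (l : Fin r) {j : ℕ} (hj : j ≤ l.val - s l.val)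
    (he : ¬ (t l.val ∧ j = l.val - s l.val)) :
    D.rt (vx D l (s l.val) j)⁻¹ (RS.al (ix l (s l.val) j)) = Sv l (l.val - j) := by
  have hs := h.s_le l.val
  have h1 := ix_first hj
  rw [tab_root h l (Or.inl hj) (ix_le l _ j) (fun e => he ⟨e.1, e.2.2⟩), tabv, if_neg (by omega),
    if_pos (by omega), h1]

private theorem cof_first (h : IsAC D s t) (l : Fin r) {j : ℕ} (hj : j ≤ l.val - s l.val) :
    D.cof (D.rt (vx D l (s l.val) j)⁻¹ (RS.al (ix l (s l.val) j))) = Sv l (l.val - j) := by
  have hs := h.s_le l.val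
  have h1 := ix_first hj
  rw [tab_cof h l (Or.inl hj) (ix_le l _ j), tabv, if_neg (by omega), if_pos (by omega), h1]

private theorem beta_mid (h : IsAC D s t) (l : Fin r) (ht : t l.val) :
    D.rt (vx D l (s l.val) (l.val - s l.val))⁻¹ (RS.al (ix l (s l.val) (l.val - s l.val))) =
      thv l (s l.val) := by
  have hs := h.s_le l.val
  exact tab_mid h l ht (by rw [ix_first le_rfl]; omega)

private theorem beta_second (h : IsAC D s t) (l : Fin r) (ht : t l.val) {p : ℕ} (hp : 1 ≤ p)
    (hp' : p ≤ l.val - s l.val) :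
    D.rt (vx D l (s l.val) (l.val - s l.val + p))⁻¹
      (RS.al (ix l (s l.val) (l.val - s l.val + p))) = thv l (s l.val) - Sv l (s l.val + p) ∧
    D.cof (D.rt (vx D l (s l.val) (l.val - s l.val + p))⁻¹
      (RS.al (ix l (s l.val) (l.val - s l.val + p)))) =
        2 • Sv l (s l.val) - Sv l (s l.val + p) := by
  have hs := h.s_le l.val
  have h1 := ix_second hs hp hp'
  obtain ⟨h2, h3⟩ := tab_w h l ht hp (by omega) (ix_le l (s l.val) (l.val - s l.val + p))
  refine ⟨?_, ?_⟩
  · rw [h2, tabw, if_neg (by omega), if_neg (by omega), if_pos h1, h1]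
  · rw [h3, tabc, if_neg (by omega), if_neg (by omega), if_pos h1, h1]

theorem chain_AC (h : IsAC D s t) (l : Fin r) :
    IsChain D l (cc s t l.val) (ix l (s l.val)) (vx D l (s l.val)) := by
  have hs := h.s_le l.val
  have hA : ¬ t l.val → cc s t l.val = l.val - s l.val := fun ht => by
    simp only [cc]; rw [if_neg ht]
  have hC : t l.val → cc s t l.val = 2 * (l.val - s l.val) := fun ht => by
    simp only [cc]; rw [if_pos ht]
  -- the three cases for the roots
  have hcase : ∀ j ≤ cc s t l.val, (j ≤ l.val - s l.val ∧ ¬ (t l.val ∧ j = l.val - s l.val)) ∨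
      (t l.val ∧ j = l.val - s l.val) ∨
      ∃ p, t l.val ∧ 1 ≤ p ∧ p ≤ l.val - s l.val ∧ j = l.val - s l.val + p := by
    intro j hj
    by_cases ht : t l.val
    · rw [hC ht] at hj
      rcases lt_trichotomy j (l.val - s l.val) with h1 | h1 | h1
      · exact Or.inl ⟨h1.le, fun e => by omega⟩
      · exact Or.inr (Or.inl ⟨ht, h1⟩)
      · exact Or.inr (Or.inr ⟨j - (l.val - s l.val), ht, by omega, by omega, by omega⟩)
    · rw [hA ht] at hj
      exact Or.inl ⟨hj, fun e => ht e.1⟩
  refine ⟨rfl, fun j _ => rfl, fun j _ => ix_le l _ j, ?_, ?_, ?_, ?_⟩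
  · -- pos
    intro j hj
    rcases hcase j hj with ⟨h1, h2⟩ | ⟨ht, rfl⟩ | ⟨p, ht, hp, hp', rfl⟩
    · rw [beta_first h l h1 h2, Sv_self (Nat.sub_le _ _)]
      exact one_pos
    · rw [beta_mid h l ht, thv, Pi.add_apply, Sv_self hs]
      simp only [Sv]
      split_ifs <;> omega
    · rw [(beta_second h l ht hp hp').1, thv, Pi.sub_apply, Pi.add_apply, Sv_self hs,
        Sv_self (by omega), Sv_self (by omega)]
      norm_num
  · -- fix
    intro j hj k hk h1 h2
    have hkl : k.val ≤ l.val := hk
    by_cases hf : j ≤ l.val - s l.val ∨ (¬ t l.val ∧ j ≤ l.val - s l.val + 1)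
    · have he : ¬ (t l.val ∧ k.val = s l.val ∧ j = l.val - s l.val) := by
        rintro ⟨ht, hks, hjs⟩
        have hjc : j ≤ cc s t l.val := by rw [hC ht]; omega
        apply h1 hjc
        apply Fin.ext
        rw [ix_first (by omega)]
        omega
      rw [tab_root h l hf hk he]
      simp only [tabv]
      split_ifs with c1 c2 c3
      · exact al_zero (by omega)
      · exfalso
        have hjs : j ≤ l.val - s l.val := by omega
        apply h1 (by
          by_cases ht : t l.val
          · rw [hC ht]; omega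
          · rw [hA ht]; omega)
        apply Fin.ext
        rw [ix_first hjs]
        omega
      · exfalso
        apply h2 (by omega)
        apply Fin.ext
        rw [ix_first (by omega)]
        omega
      · exact al_zero (by simp only; omega)
    · have ht : t l.val := by
        by_contra ht
        apply hf
        rw [hA ht] at hj
        exact Or.inr ⟨ht, hj⟩
      rw [hC ht] at hj h1
      obtain ⟨p, hp⟩ : ∃ p, j = l.val - s l.val + p := ⟨j - (l.val - s l.val), by omega⟩
      subst hp
      rw [(tab_w h l ht (by omega) (by omega) hk).1]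
      simp only [tabw]
      split_ifs with c1 c2 c3 c4
      · exact al_zero (by omega)
      · exfalso
        apply h2 (by omega)
        apply Fin.ext
        rw [ix_first (by omega)]
        omega
      · exfalso
        apply h2 (by omega)
        apply Fin.ext
        rw [show l.val - s l.val + p - 1 = l.val - s l.val + (p - 1) by omega,
          ix_second hs (by omega) (by omega)]
        omega
      · exfalso
        apply h1 (by omega)
        apply Fin.ext
        rw [ix_second hs (by omega) (by omega)]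
        omega
      · exact al_zero (by simp only; omega)
  · -- one
    intro j hj
    rcases hcase j hj with ⟨h1, h2⟩ | ⟨ht, rfl⟩ | ⟨p, ht, hp, hp', rfl⟩
    · rw [cof_first h l h1, Sv_self (Nat.sub_le _ _)]
    · rw [cof_first h l le_rfl, Sv_self (Nat.sub_le _ _)]
    · rw [(beta_second h l ht hp hp').2, Pi.sub_apply, Pi.smul_apply, Sv_self hs,
        Sv_self (by omega)]
      norm_num
  · -- ht
    intro j hj
    rcases hcase j hj with ⟨h1, h2⟩ | ⟨ht, rfl⟩ | ⟨p, ht, hp, hp', rfl⟩
    · rw [cht, cof_first h l h1, sum_Sv l (by omega)]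
      omega
    · rw [cht, cof_first h l le_rfl, sum_Sv l (by omega)]
      omega
    · rw [cht, (beta_second h l ht hp hp').2]
      simp only [Pi.sub_apply, Pi.smul_apply]
      rw [Finset.sum_sub_distrib, ← Finset.smul_sum, sum_Sv l (by omega), sum_Sv l (by omega)]
      push_cast [Nat.cast_sub hs]
      simp only [nsmul_eq_mul]
      push_cast
      ring

theorem exists_root (h : IsAC D s t) (l : Fin r) {n : ℕ} (hn : 1 ≤ n) (hn' : n ≤ cc s t l.val + 1) :
    ∃ a ∈ D.Pos, D.cof a l = 1 ∧ (∀ k, l < k → D.cof a k = 0) ∧ cht D a = n := by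
  have H := chain_AC h l
  refine ⟨bt D (ix l (s l.val)) (vx D l (s l.val)) (n - 1), H.bt_pos (by omega),
    H.one (n - 1) (by omega), fun k hk => ?_, ?_⟩
  · exact cof_zero (RS.mem_of_pos (H.bt_pos (by omega))) (H.bt_supp (by omega) hk)
  · have h1 := H.ht (n - 1) (by omega)
    unfold bt
    rw [h1]
    push_cast [Nat.cast_sub hn]
    ring

end Pool.Agent.FLX
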