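import Pool.Agent.FLO.A1
import Pool.Agent.FLO.A3T
import Pool.Agent.FLO.DMut

/-!
# FLX-UnitX: the class `w` is `± [O]`

The proof is the one of `FLO/A3M.lean`, `FLO/A3.lean` (helper37) for a list of exponents which starts
with `0` and whose other members have `χ(L_μ, O) = 0`.
-/

set_option autoImplicit false
set_option linter.unusedSectionVars false

open scoped BigOperators

namespace Pool.Agent.FLX

open Pool.Agent.FLG Pool.Agent.FLG.Flag Pool.Agent.FLO

variable {ι V V' : Type} [Fintype ι] [AddCommGroup V] [Module ℂ V] [AddCommGroup V'] [Module ℂ V']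
  {P : RootPairing ι ℂ V V'} [P.IsCrystallographic] (b : P.Base) [P.IsRootSystem] [P.IsReduced]
  [Fintype P.weylGroup] [DecidableEq P.weylGroup]
  {r : ℕ} {e : Fin r ≃ b.support} {ω : Fin r → V}
  (hω : IsFund b e ω)

theorem weyl_zero : weyl b (0 : V) = 1 := by
  obtain ⟨D, ⟨m⟩⟩ := exists_model P b
  unfold weyl
  refine Finset.prod_eq_one fun i hi => ?_
  rw [smul_zero, zero_add]
  refine div_self ?_
  rw [m.ch_ctr']
  have h1 := RS.two_le_L (m.mem_pos.1 hi)
  intro h2
  have h3 : D.L (m.v i) = 0 := by exact_mod_cast h2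
  omega

private theorem ch_mulK_comm (x y : KClass P) : chern b (mulK x y) = chern b (mulK y x) := by
  rw [ch_mulK, ch_mulK, ch_eq b x, ch_eq b y, Matrix.mulVec_mulVec, Matrix.mulVec_mulVec,
    mch_comm]

private theorem tws_one (ν : {μ : V // ∀ i, ∃ n : ℤ, P.coroot' i μ = n}) :
    tws ν (oneK : KClass P) = Finsupp.single ν 1 := by
  unfold tws oneK
  rw [Finsupp.mapDomain_single]
  congr 1
  apply Subtype.ext
  exact zero_add _

private theorem mch_tws_one (ν : {μ : V // ∀ i, ∃ n : ℤ, P.coroot' i μ = n}) :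
    mch b (tws ν (oneK : KClass P)) = NormedSpace.exp (cup b ν.1) := by
  rw [tws_one]
  unfold mch
  rw [Finsupp.sum_single_index (by simp)]
  simp

private theorem ch_mul_line (x : KClass P) (ν : {μ : V // ∀ i, ∃ n : ℤ, P.coroot' i μ = n}) :
    chern b (mulK x (tws ν oneK)) = chern b (tws ν x) := by
  rw [ch_mulK_comm, ch_mulK, mch_tws_one, ch_tws]

private theorem euler_line (ν : {μ : V // ∀ i, ∃ n : ℤ, P.coroot' i μ = n}) :
    euler b (tws ν oneK) (oneK : KClass P) = weyl b (-ν.1) := by
  rw [tws_one]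
  unfold euler oneK
  rw [Finsupp.sum_single_index (by simp), Finsupp.sum_single_index (by simp)]
  simp

private theorem tp_zero' : tp ω (fun k => (((0 : Fin r → ℤ) k : ℤ) : ℂ)) = 0 := by
  rw [tp_apply]
  simp

/-- `w^* w = 1` -/
private theorem ch_dl_mul {L : List (Fin r → ℤ)}
    (hL0 : ∀ μ ∈ L, weyl b (-tp ω fun k => (μ k : ℂ)) = 0) {w : Kc b}
    (hexc : Exc (chiK b) ((0 :: L).map fun μ => twK b hω μ w))
    (hgen : ∀ x : Kc b, x ∈ AddSubgroup.closure {y | y ∈ (0 :: L).map fun μ => twK b hω μ w}) :
    chern b (mulK (dlK (rep b w)) (rep b w)) = chern b oneK := by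
  classical
  have hw0 : twK b hω 0 w = w := (flg b hω).tw_zero w
  obtain ⟨Q, hQ⟩ := euler_ch b
  -- the values of the Euler form on the line bundles of the box
  have key : ∀ μ ∈ 0 :: L, euler b (tws (wt b hω μ) oneK) (mulK (dlK (rep b w)) (rep b w)) =
      euler b (tws (wt b hω μ) oneK) oneK := by
    intro μ hμ
    have h1 : euler b (tws (wt b hω μ) oneK) (mulK (dlK (rep b w)) (rep b w)) =
        ((chiK b (twK b hω μ w) w : ℤ) : ℂ) := by
      rw [← euler_adj, euler_congr b (ch_mul_line b (rep b w) (wt b hω μ)) rfl, ← chiK_toK,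
        ← twK_toK, toK_rep]
    have h2 : euler b (tws (wt b hω μ) oneK) oneK = weyl b (-tp ω fun k => (μ k : ℂ)) :=
      euler_line b _
    rw [h1, h2]
    rw [List.map_cons, exc_cons] at hexc
    obtain ⟨e1, -, e2⟩ := hexc
    rw [hw0] at e1 e2
    rcases List.mem_cons.1 hμ with h0 | hμL
    · subst h0
      rw [hw0, e1, tp_zero', neg_zero, weyl_zero, Int.cast_one]
    · rw [e2 _ (List.mem_map_of_mem hμL), hL0 μ hμL, Int.cast_zero]
  -- the classes of the line bundles of the box span
  set S : Submodule ℂ (P.weylGroup → ℂ) :=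
    Submodule.span ℂ {v | ∃ μ ∈ 0 :: L, v = chern b (tws (wt b hω μ) oneK)} with hS
  have hmap : Submodule.map (mch b (rep b w)).mulVecLin S = ⊤ := by
    rw [eq_top_iff, ← span_ch b, Submodule.span_le]
    rintro _ ⟨x, rfl⟩
    show chern b x ∈ Submodule.map (mch b (rep b w)).mulVecLin S
    have h1 : ∀ y : Kc b, y ∈ AddSubgroup.closure
        {y | y ∈ (0 :: L).map fun μ => twK b hω μ w} →
        (y : P.weylGroup → ℂ) ∈ Submodule.map (mch b (rep b w)).mulVecLin S := by
      intro y hy
      induction hy using AddSubgroup.closure_induction with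
      | mem y hy =>
        obtain ⟨μ, hμ, rfl⟩ := List.mem_map.1 hy
        refine ⟨chern b (tws (wt b hω μ) oneK), Submodule.subset_span ⟨μ, hμ, rfl⟩, ?_⟩
        rw [Matrix.mulVecLin_apply, ← ch_mulK, ch_mul_line, ch_tws, ch_rep]
        rfl
      | zero => exact Submodule.zero_mem _
      | add x y _ _ hx hy => exact Submodule.add_mem _ hx hy
      | neg x _ hx => exact Submodule.neg_mem _ hx
    exact h1 (toK b x) (hgen _)
  have hStop : S = ⊤ := by
    apply Submodule.eq_top_of_finrank_eq
    apply le_antisymm (Submodule.finrank_le S)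
    have h1 : Module.finrank ℂ (Submodule.map (mch b (rep b w)).mulVecLin S) ≤
        Module.finrank ℂ S := Submodule.finrank_map_le _ _
    rw [hmap, finrank_top] at h1
    exact h1
  -- the linear functional
  have hφ : ∀ v : P.weylGroup → ℂ, dotProduct v (Q.mulVec
      (chern b (mulK (dlK (rep b w)) (rep b w)) - chern b oneK)) = 0 := by
    intro v
    have hv : v ∈ S := by rw [hStop]; trivial
    induction hv using Submodule.span_induction with
    | mem v hv =>
      obtain ⟨μ, hμ, rfl⟩ := hv
      rw [Matrix.mulVec_sub, dotProduct_sub, ← hQ, ← hQ, key μ hμ, sub_self]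
    | zero => exact zero_dotProduct _
    | add x y _ _ hx hy => rw [add_dotProduct, hx, hy, add_zero]
    | smul a x _ hx => rw [smul_dotProduct, hx, smul_zero]
  have hsub : chern b (mulK (dlK (rep b w)) (rep b w) - oneK) =
      chern b (mulK (dlK (rep b w)) (rep b w)) - chern b oneK :=
    map_sub (chHom b) _ _
  have h0 : chern b (mulK (dlK (rep b w)) (rep b w) - oneK) = 0 := by
    apply euler_nondeg b
    intro y
    rw [hQ, hsub]
    exact hφ _
  rw [hsub] at h0
  exact sub_eq_zero.1 h0


theorem unit_of_list {L : List (Fin r → ℤ)}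
    (hL0 : ∀ μ ∈ L, weyl b (-tp ω fun k => (μ k : ℂ)) = 0) {w : Kc b}
    (hd : duK b w = w ∨ duK b w = -w)
    (hexc : Exc (chiK b) ((0 :: L).map fun μ => twK b hω μ w))
    (hgen : ∀ x : Kc b, x ∈ AddSubgroup.closure {y | y ∈ (0 :: L).map fun μ => twK b hω μ w}) :
    w = toK b oneK ∨ w = -toK b oneK := by
  have hp := ch_dl_mul b hω hL0 hexc hgen
  -- the dual
  obtain ⟨s, hs, hdual⟩ : ∃ s : ℂ, (s = 1 ∨ s = -1) ∧
      chern b (dlK (rep b w)) = s • chern b (rep b w) := by
    have h1 : (duK b w : P.weylGroup → ℂ) = chern b (dlK (rep b w)) := by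
      have h2 := duK_toK b (rep b w)
      rw [toK_rep] at h2
      exact congrArg Subtype.val h2
    rcases hd with h | h
    · refine ⟨1, Or.inl rfl, ?_⟩
      rw [← h1, h, one_smul, ch_rep]
    · refine ⟨-1, Or.inr rfl, ?_⟩
      rw [← h1, h, neg_one_smul, ch_rep]
      rfl
  have hss : s * s = 1 := by
    rcases hs with rfl | rfl <;> norm_num
  have he' : (mch b (rep b w) * mch b (rep b w)).mulVec (chern b oneK) = s • chern b oneK := by
    have h1 : chern b (mulK (dlK (rep b w)) (rep b w)) =
        s • (mch b (rep b w) * mch b (rep b w)).mulVec (chern b oneK) := by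
      rw [ch_mulK, ch_eq b (rep b w), Matrix.mulVec_mulVec, mch_comm, ← Matrix.mulVec_mulVec,
        ← ch_eq b (dlK (rep b w)), hdual, Matrix.mulVec_smul, ch_eq b (rep b w),
        Matrix.mulVec_mulVec]
    rw [hp] at h1
    calc (mch b (rep b w) * mch b (rep b w)).mulVec (chern b oneK)
        = (s * s) • (mch b (rep b w) * mch b (rep b w)).mulVec (chern b oneK) := by
          rw [hss, one_smul]
      _ = s • chern b oneK := by rw [mul_smul, ← h1]
  have hz : ∀ z : KClass P, (mch b (rep b w) * mch b (rep b w)).mulVec (chern b z) =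
      s • chern b z := by
    intro z
    have hc : mch b (rep b w) * mch b (rep b w) * mch b z =
        mch b z * (mch b (rep b w) * mch b (rep b w)) := by
      rw [mul_assoc, mch_comm b (rep b w) z, ← mul_assoc, mch_comm b (rep b w) z, mul_assoc]
    rw [ch_eq b z, Matrix.mulVec_mulVec, hc, ← Matrix.mulVec_mulVec, he', Matrix.mulVec_smul]
  have hall : ∀ v : P.weylGroup → ℂ, (mch b (rep b w) * mch b (rep b w)).mulVec v = s • v := by
    intro v
    have hv : v ∈ Submodule.span ℂ (Set.range fun x : KClass P => chern b x) := by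
      rw [span_ch]; trivial
    induction hv using Submodule.span_induction with
    | mem v hv =>
      obtain ⟨z, rfl⟩ := hv
      exact hz z
    | zero => rw [Matrix.mulVec_zero, smul_zero]
    | add x y _ _ hx hy => rw [Matrix.mulVec_add, hx, hy, smul_add]
    | smul a x _ hx => rw [Matrix.mulVec_smul, hx, smul_comm]
  have hM2 : mch b (rep b w) * mch b (rep b w) = s • (1 : Matrix P.weylGroup P.weylGroup ℂ) := by
    ext u v
    have h1 := congrFun (hall (Pi.single v 1)) u
    rw [Matrix.mulVec_single_one] at h1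
    rw [Matrix.smul_apply]
    simpa [Matrix.one_apply, Pi.single_apply] using h1
  obtain ⟨m, hm⟩ := mch_diag b (rep b w)
  have hchx : chern b (rep b w) = (mch b (rep b w)).mulVec (chern b oneK) := ch_eq b _
  have htri : mch b (rep b w) = 1 ∨ mch b (rep b w) = -1 :=
    tri_sq (len b) (M := mch b (rep b w)) (fun u v h => mch_tri b h) hm hs hM2
  rcases htri with h | h
  · left
    rw [h, Matrix.one_mulVec] at hchx
    rw [← toK_rep b w]
    exact Subtype.ext hchx
  · right
    rw [h, Matrix.neg_mulVec, Matrix.one_mulVec] at hchx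
    rw [← toK_rep b w]
    exact Subtype.ext hchx

end Pool.Agent.FLX
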