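import Pool.Agent.FLX.Bri
import Pool.Agent.FLX.Cof

/-!
# FLX-WeylX: the box of exponents and the dimension formula of Weyl
-/

set_option autoImplicit false
set_option linter.unusedSectionVars false

open scoped BigOperators

noncomputable section

namespace Pool.Agent.FLX.Br

open Pool.Agent.FLG Pool.Agent.FLG.Flag Pool.Agent.FLO Pool.Agent.FLX

variable {ι V V' : Type} [Fintype ι] [AddCommGroup V] [Module ℂ V] [AddCommGroup V'] [Module ℂ V']
  {P : RootPairing ι ℂ V V'} [P.IsCrystallographic] {b : P.Base} [P.IsRootSystem] [P.IsReduced]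
  [Fintype P.weylGroup] [DecidableEq P.weylGroup]
  {r : ℕ} {e : Fin r ≃ b.support} {ω : Fin r → V}
  {D : RS r} (m : IsModel P b D) (hm : m.e = e) (hω : IsFund b e ω)

include hm hω in
/-- the line bundles of the box are `χ`-orthogonal to the structure sheaf -/
theorem weyl_box {c : ℕ → ℕ}
    (hroot : ∀ k : Fin r, ∀ n : ℕ, 1 ≤ n → n ≤ c k.val + 1 → ∃ a ∈ D.Pos, D.cof a k = 1 ∧
      (∀ j, k < j → D.cof a j = 0) ∧ cht D a = n)
    {μ : Fin r → ℤ} (hμ : ∀ k, 0 ≤ μ k ∧ μ k ≤ (c k.val : ℤ) + 1) (h0 : μ ≠ 0) :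
    weyl b (-tp ω fun k => (μ k : ℂ)) = 0 := by
  obtain ⟨k, hk, hlt⟩ : ∃ k : Fin r, μ k ≠ 0 ∧ ∀ j < k, μ j = 0 := by
    have h1 : ∃ n : ℕ, ∃ hn : n < r, μ ⟨n, hn⟩ ≠ 0 := by
      by_contra hcon
      push Not at hcon
      exact h0 (funext fun k => hcon k.val k.isLt)
    classical
    obtain ⟨hn, hne⟩ := Nat.find_spec h1
    refine ⟨⟨Nat.find h1, hn⟩, hne, fun j hj => ?_⟩
    by_contra hj0
    exact Nat.find_min h1 hj ⟨j.isLt, hj0⟩
  obtain ⟨a, ha, ha1, ha2, ha3⟩ := hroot k (μ k).toNat (by have := hμ k; omega)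
    (by have := hμ k; omega)
  obtain ⟨i, rfl⟩ := (m.range_v a).1 (RS.mem_of_pos ha)
  unfold weyl
  refine Finset.prod_eq_zero (m.mem_pos.2 ha) ?_
  have h1 : P.coroot' i (2 • (-tp ω fun k => (μ k : ℂ)) + c₁ b) = 0 := by
    rw [map_add, map_nsmul, map_neg, co_tp m hm hω, m.ch_ctr', L_eq (m.v_mem i), ha3]
    have h2 : ∑ j, (D.cof (m.v i) j : ℂ) * (μ j : ℂ) = μ k := by
      rw [Finset.sum_eq_single k]
      · rw [ha1, Int.cast_one, one_mul]
      · intro j _ hj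
        rcases lt_or_gt_of_ne hj with h3 | h3
        · rw [hlt j h3, Int.cast_zero, mul_zero]
        · rw [ha2 j h3, Int.cast_zero, zero_mul]
      · intro h3
        exact absurd (Finset.mem_univ k) h3
    have h4 : (((μ k).toNat : ℤ) : ℂ) = μ k := by
      rw [Int.toNat_of_nonneg (hμ k).1]
    rw [h2]
    push_cast at h4 ⊢
    rw [h4, nsmul_eq_mul]
    push_cast
    ring
  rw [h1, zero_div]

end Pool.Agent.FLX.Br
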