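import Pool.Agent.FLO.GConn
import Pool.Agent.FLO.GFull
import Pool.Agent.FLX.Main
import Pool.Agent.FLX.WeylX
import Pool.Agent.FLX.UnitX
import Pool.Agent.FLX.BoxX
import Pool.Agent.FLX.LiftX
import Pool.Agent.FLX.RChn
import Pool.Agent.FLY.Out

/-!
# FLX-FinX: full exceptional collections and the quantum cohomology of the flag varieties of types
`A` and `C`
-/

set_option autoImplicit false
set_option linter.unusedSectionVars false

open scoped BigOperators

noncomputable section

namespace Pool.Agent.FLX.Br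

open Pool.Agent.FLG Pool.Agent.FLG.Flag Pool.Agent.FLO Pool.Agent.FLX

/-- the number of elements of the Weyl group -/
theorem card_W {r : ℕ} {D : RS r} {s : ℕ → ℕ} {t : ℕ → Prop} (h : IsAC D s t) :
    ∏ k ∈ Finset.range r, (cc s t k + 2) = Fintype.card D.W := by
  have h1 : ∀ l ≤ r, ∏ k ∈ Finset.range l, (cc s t k + 2) = Fintype.card (PW D l) := by
    intro l
    induction l with
    | zero =>
      intro _
      rw [Finset.range_zero, Finset.prod_empty]
      symm
      rw [Fintype.card_eq_one_iff]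
      refine ⟨1, fun w => ?_⟩
      apply Subtype.ext
      show w.1 = 1
      refine D.ext_rt fun i => ?_
      funext k
      rw [(mem_PW D).1 w.2 _ k (Nat.zero_le _), D.rt_one]
    | succ l ih =>
      intro hl
      have hlr : l < r := hl
      rw [Finset.prod_range_succ, ih hlr.le]
      have h2 := Fintype.card_congr (chain_AC h ⟨l, hlr⟩).eqv
      rw [Fintype.card_prod, Fintype.card_fin] at h2
      rw [mul_comm]
      exact h2
  rw [h1 r le_rfl]
  refine Fintype.card_congr ⟨Subtype.val, fun w => ⟨w, FLY.mem_PW_top D w⟩, fun _ => rfl,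
    fun _ => rfl⟩

variable {ι V V' : Type} [Fintype ι] [AddCommGroup V] [Module ℂ V] [AddCommGroup V'] [Module ℂ V']
  {P : RootPairing ι ℂ V V'} [P.IsCrystallographic] {b : P.Base} [P.IsRootSystem] [P.IsReduced]
  [Fintype P.weylGroup] [DecidableEq P.weylGroup]
  {r : ℕ} {e : Fin r ≃ b.support} {ω : Fin r → V}
  {D : RS r} (m : IsModel P b D) (hm : m.e = e) (hω : IsFund b e ω)

include m in
theorem card_eq : Fintype.card D.W = Fintype.card P.weylGroup :=
  (Fintype.card_congr m.f.toEquiv).symm

include hm hω in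
/-- eigenvalues of the quantum Chevalley matrix are canonical coordinates -/
theorem mem_spc {τ : Fin r → ℂ} {q : ℕ → ℂ} (hq : ∀ k : Fin r, q k = Complex.exp (τ k))
    {u : ℂ} {v : D.W → ℂ} (hv : v ≠ 0) (hE : (MM D q two).mulVec v = u • v) :
    u ∈ spc b ω τ := by
  have h1 : mul b (tp ω τ) (c₁ b) = (MM D q two).submatrix m.f m.f := by
    rw [c1_tp m hm hω, mul_MM m hm hω]
    congr 1
    refine MM_congr D (fun k hk => ?_) (fun k hk => ?_)
    · rw [xt, dif_pos hk]
      exact (hq ⟨k, hk⟩).symm
    · rw [xt, dif_pos hk]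
      rfl
  unfold spc
  rw [h1, Multiset.mem_toFinset, Polynomial.mem_roots (Matrix.charpoly_monic _).ne_zero,
    Polynomial.IsRoot.def, Matrix.eval_charpoly, ← Matrix.exists_mulVec_eq_zero_iff]
  refine ⟨fun w => v (m.f w), ?_, ?_⟩
  · intro h0
    apply hv
    funext w
    have h2 := congrFun h0 (m.f.symm w)
    simpa using h2
  · rw [Matrix.sub_mulVec, sub_eq_zero]
    have h3 : ((MM D q two).submatrix m.f m.f).mulVec (fun w => v (m.f w)) =
        fun w => (MM D q two).mulVec v (m.f w) := by
      funext w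
      show ∑ w', MM D q two (m.f w) (m.f w') * v (m.f w') = ∑ w', MM D q two (m.f w) w' * v w'
      exact Equiv.sum_comp m.f.toEquiv fun w' => MM D q two (m.f w) w' * v w'
    rw [h3, hE, Matrix.scalar_apply]
    ext w
    simp [Matrix.mulVec_diagonal]

variable {s : ℕ → ℕ} {t : ℕ → Prop} (hAC : IsAC D s t)
  (hout : ∀ δ : ℝ, 0 < δ → FLY.NOut D (cc s t) δ)

include hm hω hout in
theorem out_of_nout {δ : ℝ} (hδ : 0 < δ) : Out (cc s t) r (spc b ω) δ := by
  obtain ⟨ρ, σ, h1, h2, h3, g, h4, h5, h6, h7⟩ := hout δ hδ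
  refine ⟨ρ, σ, h1, h2, h3, g, h4, h5, h6, fun x => ?_⟩
  obtain ⟨v, hv, hE⟩ := h7 x
  refine mem_spc m hm hω (fun k => ?_) hv hE
  rw [Complex.exp_add, ← Complex.ofReal_exp, Real.exp_log (h2 k), mul_comm Complex.I]

include hm hω hout hAC in
theorem nested {δ : ℝ} (hδ : 0 < δ) :
    Nonempty (Nested (cc s t) (flg b hω).spec (Fintype.card P.weylGroup) δ) := by
  refine nested_of_out (flg b hω).spec_tr (flg b hω).card_le ?_
    (fun δ hδ => out_of_nout m hm hω hout hδ) hδ
  rw [card_W hAC, card_eq m]

include hm hout hAC in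
/-- every asymptotic basis is obtained by mutations from the line bundles of the box -/
theorem mut_all {τ : Fin r → ℂ} {φ : ℝ} {u : Fin (Fintype.card P.weylGroup) → ℂ}
    {a : Fin (Fintype.card P.weylGroup) → Kc b} (h : IsAsym (flg b hω) τ φ u a) :
    Mut (chiK b) ((box (cc s t) r r).map fun μ => twK b hω μ (toK b oneK)) (List.ofFn a) := by
  obtain ⟨w, hw, hall⟩ := FLX.main (flg_full b hω) (fun δ hδ => nested m hm hω hAC hout hδ)
    (flg_conn b hω)
  obtain ⟨h1, h2⟩ := hall τ φ u a h
  have hexc : Exc (chiK b) (List.ofFn a) := by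
    constructor
    · rw [List.pairwise_ofFn]
      intro i j hij
      exact h.lower j i hij
    · intro x hx
      obtain ⟨i, rfl⟩ := (List.mem_ofFn' _ _).1 hx
      exact h.diag i
  have hexc' := h2.exc hexc
  have hgen : ∀ x : Kc b, x ∈ AddSubgroup.closure
      {y | y ∈ (box (cc s t) r r).map fun μ => twK b hω μ w} := by
    intro x
    refine mut_closure h2 ?_
    obtain ⟨c, hc⟩ := h.gen x
    rw [hc]
    refine AddSubgroup.sum_mem _ fun j _ => AddSubgroup.zsmul_mem _ ?_ _
    exact AddSubgroup.subset_closure ((List.mem_ofFn' _ _).2 ⟨j, rfl⟩)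
  obtain ⟨L, hL, hL0⟩ := box_head (c := cc s t) (le_refl r)
  have hweyl : ∀ μ ∈ L, weyl b (-tp ω fun k => (μ k : ℂ)) = 0 := by
    intro μ hμ
    refine weyl_box m hm hω (c := cc s t) (fun k n hn hn' => ?_) ?_ (hL0 μ hμ)
    · obtain ⟨a, ha, h1, h2, h3⟩ := exists_root hAC k hn hn'
      exact ⟨a, ha, h1, fun j hj => h2 j hj, h3⟩
    · exact ((mem_box le_rfl μ).1 (by rw [hL]; exact List.mem_cons_of_mem _ hμ)).1
  have hunit : w = toK b oneK ∨ w = -toK b oneK := by
    rw [hL] at hexc' hgen
    exact FLX.unit_of_list b hω hweyl hw hexc' hgen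
  rcases hunit with rfl | rfl
  · exact h1
  · refine Mut.trans ?_ h1
    refine mut_of_signs (box (cc s t) r r) _ _ fun μ _ => Or.inr ?_
    show twK b hω μ (-toK b oneK) = -twK b hω μ (toK b oneK)
    rw [map_neg]

include hm hω hout hAC in
/-- Full exceptional collections and the monodromy data of the quantum cohomology of the flag
varieties of types `A` and `C`. -/
theorem final_ac (t₀ : V) (M : MonodromyData (small b t₀) (Fintype.card P.weylGroup))
    {B : List (Fin r → ℤ)} (hB : B.Pairwise Lex)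
    (hB' : ∀ μ, μ ∈ B ↔ ∀ k, 0 ≤ μ k ∧ μ k ≤ (cc s t k.val : ℤ) + 1) :
    ∃ v : Fin (Fintype.card P.weylGroup) → KClass P,
      Mutated b (B.map fun μ => lineB (∑ k, (μ k : ℂ) • ω k)) (List.ofFn v) ∧
      IsExceptionalBasis b v ∧
      (∀ i j, M.S i j = euler b (v i) (v j)) ∧
      (∃ C' : Matrix P.weylGroup P.weylGroup ℂ,
        C' * (small b t₀).cup = (small b t₀).cup * C' ∧ C'.det ≠ 0 ∧
        M.C = C' * (small b t₀).twist * chernMatrix b v ∧
        ∀ (x y : KClass P) (w : ℂ), flatPairing M w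
          ((C' * (small b t₀).twist).mulVec (chern b x))
          ((C' * (small b t₀).twist).mulVec (chern b y)) = euler b x y) ∧
      ∀ Z, IsStandard (small b t₀) Z → ∀ w,
        M.Xminus w = (Complex.I / (Real.sqrt (2 * Real.pi) : ℂ)) ^ (pos b).card •
          (Z w * gammaOp b t₀ * (small b t₀).twist * chernMatrix b v) := by
  obtain ⟨τ, rfl⟩ := tp_surj b hω t₀
  obtain ⟨v, hv, hS, hC, hX⟩ := final_flag b (tp ω τ) (Zs_std b (tp ω τ)) M
  have hasym := asym_of_data b hω τ M hv (const_ne _) hX
  have hmut := mut_all m hm hω hAC hout hasym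
  have hL : (box (cc s t) r r).map (fun μ => twK b hω μ (toK b oneK)) =
      ((box (cc s t) r r).map fun μ => lineB (P := P) (∑ k, (μ k : ℂ) • ω k)).map (toK b) := by
    rw [List.map_map]
    exact List.map_congr_left fun μ _ => (lineB_eq b hω μ).symm
  rw [hL] at hmut
  obtain ⟨L', h1, h2⟩ := lift_mut b hmut
  have hlen : L'.length = Fintype.card P.weylGroup := by
    have := congrArg List.length h2
    rwa [List.length_map, List.length_ofFn] at this
  let v' : Fin (Fintype.card P.weylGroup) → KClass P := fun j => L'.get (j.cast hlen.symm)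
  have hL' : List.ofFn v' = L' := by
    apply List.ext_get
    · rw [List.length_ofFn, hlen]
    · intro n h3 h4
      simp [v']
  have hch : ∀ j, chern b (v' j) = chern b (v j) := by
    intro j
    have h3 : (L'.map (toK b))[j.val]'(by rw [List.length_map, hlen]; exact j.isLt) =
        (List.ofFn fun j => toK b (v j))[j.val]'(by rw [List.length_ofFn]; exact j.isLt) := by
      simp only [h2]
    rw [List.getElem_map, List.getElem_ofFn] at h3
    exact congrArg Subtype.val h3
  have hcM : chernMatrix b v' = chernMatrix b v := by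
    ext u j
    exact congrFun (hch j) u
  have heu : ∀ i j, euler b (v' i) (v' j) = euler b (v i) (v j) := fun i j =>
    euler_congr b (hch i) (hch j)
  refine ⟨v', ?_, ⟨?_, ?_, ?_, ?_⟩, ?_, ?_, ?_⟩
  · rw [hL', eq_box hB hB']
    exact h1
  · intro x
    obtain ⟨c, hc⟩ := hv.generate x
    exact ⟨c, by rw [hc]; exact Finset.sum_congr rfl fun j _ => by rw [hch]⟩
  · have h3 : (fun j => chern b (v' j)) = fun j => chern b (v j) := funext hch
    rw [h3]
    exact hv.independent
  · intro i
    rw [heu]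
    exact hv.diag i
  · intro i j hij
    rw [heu]
    exact hv.lower i j hij
  · intro i j
    rw [heu]
    exact hS i j
  · rw [hcM]
    exact hC
  · intro Z hZ w
    rw [hcM, Zs_eq b _ hZ]
    exact hX w

end Pool.Agent.FLX.Br
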