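import Pool.Agent.FLO.DPath
import Pool.Agent.FLO.DTrig
import Pool.Agent.FLX.Ph

/-!
# Nested spectra: labels, clusters, transport
-/

set_option autoImplicit false

open scoped BigOperators Topology
open Filter

namespace Pool.Agent.FLX

open Pool.Agent.FLO

variable {c : ℕ → ℕ} {r N : ℕ} {K : Type} [AddCommGroup K] {S : Growth r N K} {δ : ℝ}

/-- the canonical coordinate with the label `m` -/
noncomputable def uu (D : Nested c S.spec N δ) (θ : Fin r → ℝ) (m : Lab c r) : ℂ := D.U (θ + lam m)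

/-- the labels with `m_i = 0` for `i < k` -/
def CL (c : ℕ → ℕ) (r k : ℕ) : Set (Lab c r) := {m | ∀ i, i.val < k → m i = 0}

/-- the cluster of level `k` -/
def clu (D : Nested c S.spec N δ) (k : ℕ) (θ : Fin r → ℝ) : Set ℂ :=
  {x | ∃ θ', (∀ i, IsPer (ph c θ' i - ph c θ i)) ∧ (∀ i : Fin r, i.val < k → IsPer (θ' i - θ i)) ∧
    D.U θ' = x}

variable {D : Nested c S.spec N δ}

theorem uu_diff {θ : Fin r → ℝ} {m m' : Lab c r} {k : Fin r} (hk : m k ≠ m' k)
    (hlt : ∀ i < k, m i = m' i) :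
    ‖uu D θ m' - uu D θ m - (((c k.val : ℝ) + 2) * D.R k : ℝ) *
      (Complex.exp (((θ + lam m') k : ℝ) * Complex.I) -
        Complex.exp (((θ + lam m) k : ℝ) * Complex.I))‖ ≤
      δ / ((c k.val : ℝ) + 2) * (((c k.val : ℝ) + 2) * D.R k) := by
  have h1 := D.approx (θ + lam m) (θ + lam m') k (fun i => ?_) (fun i hi => ?_) ?_
  · have h2 : δ / ((c k.val : ℝ) + 2) * (((c k.val : ℝ) + 2) * D.R k) = δ * D.R k := by
      field_simp
    rw [h2]
    push_cast
    exact h1
  · rw [ph_add, ph_add, Pi.add_apply, Pi.add_apply, ph_lam, ph_lam]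
    exact ⟨(m' i).val - (m i).val, by push_cast; ring⟩
  · rw [Pi.add_apply, Pi.add_apply, lam_congr (m := m') (m' := m)
      fun l hl => (hlt l (lt_of_le_of_lt hl hi)).symm, sub_self]
    exact IsPer.zero
  · rw [Pi.add_apply, Pi.add_apply, add_sub_add_left_eq_sub,
      lam_sub fun l hl => (hlt l hl).symm]
    have h3 := not_isPer_div (n := c k.val + 2) (by omega) (m' k).isLt (m k).isLt
      (fun e => hk (Fin.ext e.symm))
    push_cast at h3
    exact h3

/-- the angles of two labels at the first index where they differ -/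
theorem angle_diff {θ : Fin r → ℝ} {m m' : Lab c r} {k : Fin r} (hk : m k ≠ m' k)
    (hlt : ∀ i < k, m i = m' i) :
    16 / ((c k.val : ℝ) + 2) ^ 2 ≤ 2 - 2 * Real.cos ((θ + lam m') k - (θ + lam m) k) := by
  have h1 := lam_sub (m := m') (m' := m) (l := k) fun l hl => (hlt l hl).symm
  have h2 := chord (n := c k.val + 2) (by omega) (y := (θ + lam m') k - (θ + lam m) k) ?_ ?_
  · push_cast at h2
    exact h2
  · rw [Pi.add_apply, Pi.add_apply, add_sub_add_left_eq_sub, h1]
    refine ⟨(m' k).val - (m k).val, ?_⟩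
    push_cast
    have : (c k.val : ℝ) + 2 ≠ 0 := by positivity
    field_simp
  · rw [Pi.add_apply, Pi.add_apply, add_sub_add_left_eq_sub, h1]
    have h3 := not_isPer_div (n := c k.val + 2) (by omega) (m' k).isLt (m k).isLt
      (fun e => hk (Fin.ext e.symm))
    push_cast at h3
    exact h3

/-- `δ` is small -/
def IsSmall (c : ℕ → ℕ) (r : ℕ) (δ : ℝ) : Prop :=
  0 < δ ∧ ∀ k : Fin r, δ * (8 * ((c k.val : ℝ) + 2)) ≤ 1

theorem IsSmall.four (h : IsSmall c r δ) (k : Fin r) :
    4 * (δ / ((c k.val : ℝ) + 2)) < 16 / ((c k.val : ℝ) + 2) ^ 2 := by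
  obtain ⟨h0, h1'⟩ := h
  have h1 := h1' k
  have hc0 : (0 : ℝ) ≤ (c k.val : ℝ) := Nat.cast_nonneg _
  have hk0 : (0 : ℝ) < (c k.val : ℝ) + 2 := by positivity
  rw [show 4 * (δ / ((c k.val : ℝ) + 2)) = 4 * δ * ((c k.val : ℝ) + 2) / ((c k.val : ℝ) + 2) ^ 2 by
    field_simp]
  apply div_lt_div_of_pos_right _ (by positivity)
  nlinarith

theorem uu_inj (hδ : IsSmall c r δ) (θ : Fin r → ℝ) : Function.Injective (uu D θ) := by
  intro m m' h
  by_contra hne
  obtain ⟨k, hk, hlt⟩ := exists_first hne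
  have h1 := uu_diff (D := D) (θ := θ) hk hlt
  have h2 := angle_diff (θ := θ) hk hlt
  have h3 := hδ.four k
  have hM : 0 < ((c k.val : ℝ) + 2) * D.R k := mul_pos (by positivity) (D.R_pos k)
  rw [← norm_exp_sub_sq] at h2
  rw [h, sub_self, zero_sub, norm_neg, norm_mul, Complex.norm_real, Real.norm_of_nonneg hM.le,
    mul_comm] at h1
  have h4 := le_of_mul_le_mul_right h1 hM
  set y := ‖Complex.exp (((θ + lam m') k : ℝ) * Complex.I) -
        Complex.exp (((θ + lam m) k : ℝ) * Complex.I)‖ with hy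
  have hy0 : 0 ≤ y := norm_nonneg _
  have hc0 : (0 : ℝ) ≤ (c k.val : ℝ) := Nat.cast_nonneg _
  have h5 : δ / ((c k.val : ℝ) + 2) ≤ 1 := by
    rw [div_le_one (by positivity)]
    obtain ⟨h0, h1'⟩ := hδ
    have h1 := h1' k
    nlinarith
  have h6 : y ^ 2 ≤ y := by nlinarith
  have h7 : 0 ≤ δ / ((c k.val : ℝ) + 2) := hy0.trans h4
  linarith

theorem mem_spec (θ : Fin r → ℝ) (x : ℂ) : x ∈ S.spec (pt c D.ρ θ) ↔ ∃ m, uu D θ m = x := by
  rw [D.mem]
  constructor
  · rintro ⟨θ', h1, rfl⟩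
    obtain ⟨m, hm⟩ := exists_lab (θ' - θ) fun i => by
      rw [ph_sub]; exact h1 i
    refine ⟨m, D.U_per _ _ fun i => ?_⟩
    have h2 := (hm i).neg
    have h3 : (θ + lam m) i - θ' i = -((θ' - θ) i - lam m i) := by
      simp only [Pi.add_apply, Pi.sub_apply]; ring
    rw [h3]; exact h2
  · rintro ⟨m, rfl⟩
    refine ⟨θ + lam m, fun i => ?_, rfl⟩
    rw [ph_add, Pi.add_apply, ph_lam, add_sub_cancel_left]
    exact ⟨(m i).val, by push_cast; ring⟩

theorem clu_congr {k : ℕ} {θ θ' : Fin r → ℝ} (h1 : ∀ i, IsPer (ph c θ' i - ph c θ i))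
    (h2 : ∀ i : Fin r, i.val < k → IsPer (θ' i - θ i)) : clu D k θ' = clu D k θ := by
  ext x
  constructor
  · rintro ⟨θ'', h3, h4, rfl⟩
    refine ⟨θ'', fun i => ?_, fun i hi => ?_, rfl⟩
    · have := (h3 i).add (h1 i); rwa [sub_add_sub_cancel] at this
    · have := (h4 i hi).add (h2 i hi); rwa [sub_add_sub_cancel] at this
  · rintro ⟨θ'', h3, h4, rfl⟩
    refine ⟨θ'', fun i => ?_, fun i hi => ?_, rfl⟩
    · have := (h3 i).sub (h1 i); rwa [sub_sub_sub_cancel_right] at this
    · have := (h4 i hi).sub (h2 i hi); rwa [sub_sub_sub_cancel_right] at this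

/-- the labels of the values with `k` congruent angles -/
theorem lab_zero {k : ℕ} {θ θ' : Fin r → ℝ} {m : Lab c r}
    (h2 : ∀ i : Fin r, i.val < k → IsPer (θ' i - θ i))
    (hm : ∀ i, IsPer ((θ' - θ) i - lam m i)) : m ∈ CL c r k := by
  have key : ∀ n : ℕ, ∀ i : Fin r, i.val = n → i.val < k → m i = 0 := by
    intro n
    induction n using Nat.strong_induction_on with
    | _ n ih =>
      intro i hi hik
      have h3 : ∀ l < i, m l = 0 := fun l hl => ih l.val (by rw [← hi]; exact hl) l rfl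
        (lt_trans hl hik)
      have h4 : IsPer (lam m i) := by
        have := (h2 i hik).sub (hm i)
        simpa using this
      have h5 := lam_sub (m := m) (m' := fun _ => 0) (l := i) fun l hl => h3 l hl
      rw [lam_zero (m := fun _ => 0) fun _ _ => rfl, sub_zero] at h5
      by_contra hne
      have h6 := not_isPer_div (n := c i.val + 2) (by omega) (m i).isLt (b := 0) (by omega)
        (fun e => hne (Fin.ext e))
      apply h6
      push_cast
      rw [h5] at h4
      simpa using h4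
  exact fun i hi => key i.val i rfl hi

theorem clu_eq (k : ℕ) (θ : Fin r → ℝ) : clu D k θ = uu D θ '' CL c r k := by
  ext x
  constructor
  · rintro ⟨θ', h1, h2, rfl⟩
    obtain ⟨m, hm⟩ := exists_lab (θ' - θ) fun i => by
      rw [ph_sub]; exact h1 i
    refine ⟨m, lab_zero h2 hm, D.U_per _ _ fun i => ?_⟩
    have h3 : (θ + lam m) i - θ' i = -((θ' - θ) i - lam m i) := by
      simp only [Pi.add_apply, Pi.sub_apply]; ring
    rw [h3]; exact (hm i).neg
  · rintro ⟨m, hm, rfl⟩
    refine ⟨θ + lam m, fun i => ?_, fun i hi => ?_, rfl⟩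
    · rw [ph_add, Pi.add_apply, ph_lam, add_sub_cancel_left]
      exact ⟨(m i).val, by push_cast; ring⟩
    · rw [Pi.add_apply, add_sub_cancel_left,
        lam_zero fun l hl => hm l (lt_of_le_of_lt hl hi)]
      exact IsPer.zero

theorem clu_sub (k : ℕ) (θ : Fin r → ℝ) : ∀ x ∈ clu D k θ, x ∈ S.spec (pt c D.ρ θ) := by
  intro x hx
  rw [clu_eq] at hx
  obtain ⟨m, _, rfl⟩ := hx
  exact (mem_spec θ _).2 ⟨m, rfl⟩

theorem clu_zero (θ : Fin r → ℝ) : clu D 0 θ = {x | x ∈ S.spec (pt c D.ρ θ)} := by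
  ext x
  rw [clu_eq]
  constructor
  · rintro ⟨m, _, rfl⟩
    exact (mem_spec θ _).2 ⟨m, rfl⟩
  · intro hx
    obtain ⟨m, rfl⟩ := (mem_spec θ x).1 hx
    exact ⟨m, fun i hi => absurd hi (Nat.not_lt_zero _), rfl⟩

theorem clu_top (θ : Fin r → ℝ) : clu D r θ = {D.U θ} := by
  ext x
  constructor
  · rintro ⟨θ', _, h2, rfl⟩
    exact D.U_per _ _ fun i => h2 i i.isLt
  · rintro rfl
    exact ⟨θ, fun i => by rw [sub_self]; exact IsPer.zero,
      fun i _ => by rw [sub_self]; exact IsPer.zero, rfl⟩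

/-- the vertices of the polygon of level `k` -/
theorem clu_vertex (k : Fin r) (θ : Fin r → ℝ) (j : Fin (c k.val + 2)) (z : ℤ)
    (hz : ∃ p : ℤ, z = j.val + p * (c k.val + 2)) :
    uu D θ '' {m | m ∈ CL c r k.val ∧ m k = j} = clu D (k.val + 1) (θ + (2 * Real.pi * z) • dir c k) := by
  obtain ⟨p, hp⟩ := hz
  have hk2 : (c k.val : ℝ) + 2 ≠ 0 := by positivity
  ext x
  constructor
  · rintro ⟨m, ⟨hm, hmk⟩, rfl⟩
    refine ⟨θ + lam m, fun i => ?_, fun i hi => ?_, rfl⟩
    · rw [ph_add, ph_add_dir, Pi.add_apply, Pi.add_apply, ph_lam, add_sub_add_left_eq_sub]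
      by_cases hik : i = k
      · subst hik
        rw [Pi.single_eq_same]
        exact ⟨(m i).val - z, by push_cast; ring⟩
      · rw [Pi.single_eq_of_ne hik, sub_zero]
        exact ⟨(m i).val, by push_cast; ring⟩
    · rw [Pi.add_apply, Pi.add_apply, Pi.smul_apply, smul_eq_mul, add_sub_add_left_eq_sub]
      rcases Nat.lt_succ_iff_lt_or_eq.1 hi with h | h
      · rw [lam_zero fun l hl => hm l (lt_of_le_of_lt hl h), dir_lt h, mul_zero, sub_zero]
        exact IsPer.zero
      · have hik : i = k := Fin.ext h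
        rw [hik]
        have h5 := lam_sub (m := m) (m' := fun _ => 0) (l := k) fun l hl => hm l hl
        rw [lam_zero (m := fun _ => 0) fun _ _ => rfl, sub_zero, hmk] at h5
        rw [h5, dir_self, hp]
        refine ⟨-p, ?_⟩
        push_cast
        field_simp
        simp
  · rintro ⟨θ', h1, h2, rfl⟩
    have h1' : ∀ i, IsPer (ph c (θ' - θ) i) := by
      intro i
      have h3 := h1 i
      rw [ph_add_dir, Pi.add_apply] at h3
      rw [ph_sub, Pi.sub_apply]
      by_cases hik : i = k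
      · subst hik
        rw [Pi.single_eq_same] at h3
        have h4 := h3.add (⟨z, rfl⟩ : IsPer (2 * Real.pi * z))
        have h5 : ph c θ' i - (ph c θ i + 2 * Real.pi * z) + 2 * Real.pi * z = ph c θ' i - ph c θ i := by
          ring
        rwa [h5] at h4
      · rw [Pi.single_eq_of_ne hik, add_zero] at h3
        exact h3
    obtain ⟨m, hm⟩ := exists_lab (θ' - θ) h1'
    have h2' : ∀ i : Fin r, i.val < k.val → IsPer (θ' i - θ i) := by
      intro i hi
      have h3 := h2 i (Nat.lt_succ_of_lt hi)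
      rw [Pi.add_apply, Pi.smul_apply, dir_lt hi, smul_zero, add_zero] at h3
      exact h3
    have hmC := lab_zero h2' hm
    refine ⟨m, ⟨hmC, ?_⟩, D.U_per _ _ fun i => ?_⟩
    · have h3 := h2 k (Nat.lt_succ_self _)
      rw [Pi.add_apply, Pi.smul_apply, smul_eq_mul, dir_self] at h3
      have h4 := hm k
      have h5 := lam_sub (m := m) (m' := fun _ => 0) (l := k) fun l hl => hmC l hl
      rw [lam_zero (m := fun _ => 0) fun _ _ => rfl, sub_zero] at h5
      rw [Pi.sub_apply, h5] at h4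
      by_contra hne
      have h6 := not_isPer_div (n := c k.val + 2) (by omega) (m k).isLt j.isLt
        (fun e => hne (Fin.ext e))
      apply h6
      have h7 := (h3.sub h4).add (⟨p, rfl⟩ : IsPer (2 * Real.pi * p))
      have h8 : (θ' k - (θ k + 2 * Real.pi * z * (1 / ((c k.val : ℝ) + 2))) -
          (θ' k - θ k - 2 * Real.pi * ((m k).val - ((0 : Fin (c k.val + 2))).val) /
            ((c k.val : ℝ) + 2))) + 2 * Real.pi * p =
          2 * Real.pi * (((m k).val : ℝ) - j.val) / ((c k.val + 2 : ℕ) : ℝ) := by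
        rw [hp]
        push_cast
        field_simp
        simp
        ring
      rw [h8] at h7
      exact h7
    · have h3 : (θ + lam m) i - θ' i = -((θ' - θ) i - lam m i) := by
        simp only [Pi.add_apply, Pi.sub_apply]; ring
      rw [h3]; exact (hm i).neg

end Pool.Agent.FLX
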