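import Pool.Agent.FLO.DHalf
import Pool.Agent.FLX.Win

/-!
# The two halves of a polygon
-/

set_option autoImplicit false

open scoped BigOperators Topology

namespace Pool.Agent.FLX

open Pool.Agent.FLO

variable {c : ℕ → ℕ} {r N : ℕ} {K : Type} [AddCommGroup K] {S : Growth r N K} {δ : ℝ}
  {D : Nested c S.spec N δ}

/-- the twists of `w` by the elements of the box -/
noncomputable def bx (c : ℕ → ℕ) (S : Growth r N K) (m : ℕ) (w : K) : List K :=
  (box c r m).map fun μ => S.tw μ w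

theorem box_zero (m : ℕ) : ∀ μ ∈ box c r m, ∀ k : Fin r, k.val + m < r → μ k = 0 := by
  induction m with
  | zero =>
    intro μ hμ k _
    simp only [box, List.mem_singleton] at hμ
    rw [hμ]; rfl
  | succ m ih =>
    intro μ hμ k hk
    simp only [box, List.mem_flatMap, List.mem_map] at hμ
    obtain ⟨j, _, ν, hν, rfl⟩ := hμ
    have hne : ¬ (k.val + m + 1 = r) := by omega
    simp only [if_neg hne]
    exact ih ν hν k (by omega)

theorem bx_zero (S : Growth r N K) (w : K) : bx c S 0 w = [w] := by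
  simp [bx, box, S.tw_zero]

theorem bx_succ (S : Growth r N K) {m : ℕ} (k : Fin r) (hk : k.val + m + 1 = r) (w : K) :
    bx c S (m + 1) w = ((List.range (c k.val + 2)).map (fun i : ℕ => (i : ℤ))).flatMap fun z =>
      (bx c S m w).map (S.tw (Pi.single k z)) := by
  have hr : r - m - 1 = k.val := by omega
  rw [bx, box, lift_eq, List.map_flatMap, hr]
  congr 1
  funext j
  rw [bx, List.map_map, List.map_map]
  refine List.map_congr_left fun μ hμ => ?_
  simp only [Function.comp_apply]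
  rw [← S.tw_add]
  congr 2
  funext l
  rw [Pi.add_apply]
  by_cases hl : l = k
  · subst hl
    rw [if_pos hk, Pi.single_eq_same, box_zero m μ hμ l (by omega), add_zero]
  · have hl' : ¬ (l.val + m + 1 = r) := fun h => hl (Fin.ext (by omega))
    rw [if_neg hl', Pi.single_eq_of_ne hl, zero_add]

/-- the statement of level `k` -/
def PP (D : Nested c S.spec N δ) (k : ℕ) (w : K) : Prop :=
  ∀ θ φ, Win k θ φ → ∀ v, Fr S (pt c D.ρ θ) φ v → ∀ l, IsSorted φ (clu D k θ) l →
    Mut S.χ (l.map v) (bx c S (r - k) w) ∧ Mut S.χ (bx c S (r - k) w) (l.map v)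

theorem lam_self {k : Fin r} {m : Lab c r} (hm : m ∈ CL c r k.val) :
    lam m k = 2 * Real.pi * (m k).val / ((c k.val : ℝ) + 2) := by
  have h5 := lam_sub (m := m) (m' := fun _ => 0) (l := k) fun l hl => hm l hl
  rw [lam_zero (m := fun _ => 0) fun _ _ => rfl, sub_zero] at h5
  rw [h5]
  simp

theorem IsSmall.lt_ord (h : IsSmall c r δ) (k : Fin r) :
    δ / ((c k.val : ℝ) + 2) < 2 / ((c k.val : ℝ) + 2) ^ 2 := by
  obtain ⟨h0, h1'⟩ := h
  have h1 := h1' k
  have hc0 : (0 : ℝ) ≤ (c k.val : ℝ) := Nat.cast_nonneg _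
  rw [show δ / ((c k.val : ℝ) + 2) = δ * ((c k.val : ℝ) + 2) / ((c k.val : ℝ) + 2) ^ 2 by field_simp]
  apply div_lt_div_of_pos_right _ (by positivity)
  nlinarith

theorem IsSmall.lt_sin (h : IsSmall c r δ) (k : Fin r) :
    δ / ((c k.val : ℝ) + 2) < 2 * Real.sin (Real.pi / (4 * ((c k.val : ℝ) + 2))) ^ 2 := by
  obtain ⟨h0, h1'⟩ := h
  have h1 := h1' k
  have hc0 : (0 : ℝ) ≤ (c k.val : ℝ) := Nat.cast_nonneg _
  have h2 := sin_small (n := c k.val + 2) (by omega)
  push_cast at h2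
  have h3 : (1 / (2 * ((c k.val : ℝ) + 2))) ^ 2 ≤
      Real.sin (Real.pi / (4 * ((c k.val : ℝ) + 2))) ^ 2 := pow_le_pow_left₀ (by positivity) h2 2
  have h4 : δ / ((c k.val : ℝ) + 2) < 2 * (1 / (2 * ((c k.val : ℝ) + 2))) ^ 2 := by
    rw [show 2 * (1 / (2 * ((c k.val : ℝ) + 2))) ^ 2 = (1 / 2) / ((c k.val : ℝ) + 2) ^ 2 by
      field_simp,
      show δ / ((c k.val : ℝ) + 2) = δ * ((c k.val : ℝ) + 2) / ((c k.val : ℝ) + 2) ^ 2 by field_simp]
    apply div_lt_div_of_pos_right _ (by positivity)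
    nlinarith
  linarith

/-- the list of a half polygon in the final position -/
theorem half_end (hδ : IsSmall c r δ) (k : Fin r) {w : K} (hP : PP D (k.val + 1) w)
    {θ : Fin r → ℝ} {φ : ℝ} (hw : Win k.val θ φ) {C : Set (Lab c r)} {J : List ℤ}
    (hC : ∀ m, m ∈ C ↔ m ∈ CL c r k.val ∧ ∃ z ∈ J, ∃ p : ℤ, z = (m k).val + p * (c k.val + 2))
    (hJ : J.Pairwise (· < ·))
    (hang : ∀ z ∈ J, |θ k + 2 * Real.pi * z / ((c k.val : ℝ) + 2) - (φ - Real.pi / 2)| ≤
      Real.pi / 2 - Real.pi / (4 * ((c k.val : ℝ) + 2)))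
    {v : ℂ → K} (F : Fr S (pt c D.ρ θ) φ v) {l : List ℂ} (hl : IsSorted φ (uu D θ '' C) l) :
    Mut S.χ (l.map v)
      (J.flatMap fun z => (bx c S (r - (k.val + 1)) w).map (S.tw (Pi.single k z))) ∧
    Mut S.χ (J.flatMap fun z => (bx c S (r - (k.val + 1)) w).map (S.tw (Pi.single k z)))
      (l.map v) := by
  have hpi := Real.pi_pos
  have hk2 : (0 : ℝ) < (c k.val : ℝ) + 2 := by positivity
  let A : ℤ → Set ℂ := fun z => clu D (k.val + 1) (θ + (2 * Real.pi * z) • dir c k)
  have hA : ∀ z x, x ∈ A z ↔ ∃ m, m ∈ CL c r k.val ∧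
      (∃ p : ℤ, z = (m k).val + p * (c k.val + 2)) ∧ uu D θ m = x := by
    intro z x
    constructor
    · intro hx
      have hq0 : 0 ≤ z % ((c k.val : ℤ) + 2) := Int.emod_nonneg _ (by omega)
      have hq1 : z % ((c k.val : ℤ) + 2) < (c k.val : ℤ) + 2 := Int.emod_lt_of_pos _ (by omega)
      have hz : ∃ p : ℤ, z = ((⟨(z % ((c k.val : ℤ) + 2)).toNat, by omega⟩ : Fin (c k.val + 2))).val +
          p * (c k.val + 2) := by
        refine ⟨z / ((c k.val : ℤ) + 2), ?_⟩
        have h1 := Int.emod_add_mul_ediv z ((c k.val : ℤ) + 2)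
        simp only [Int.toNat_of_nonneg hq0]
        linarith
      simp only [A] at hx
      rw [← clu_vertex k θ _ z hz] at hx
      obtain ⟨m, ⟨hm, hmk⟩, rfl⟩ := hx
      refine ⟨m, hm, ?_, rfl⟩
      rw [hmk]; exact hz
    · rintro ⟨m, hm, hp, rfl⟩
      simp only [A]
      rw [← clu_vertex k θ (m k) z hp]
      exact ⟨m, ⟨hm, rfl⟩, rfl⟩
  have hsub : ∀ z, ∀ x ∈ A z, x ∈ S.spec (pt c D.ρ θ) := by
    intro z x hx
    obtain ⟨m, _, _, rfl⟩ := (hA z x).1 hx
    exact (mem_spec θ _).2 ⟨m, rfl⟩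
  choose L hL using fun z => F.exists_sorted (hsub z)
  have hord : ∀ z ∈ J, ∀ z' ∈ J, z < z' → ∀ x ∈ A z, ∀ y ∈ A z', ht φ x < ht φ y := by
    intro z hz z' hz' hlt x hx y hy
    obtain ⟨m, hm, ⟨p, hp⟩, rfl⟩ := (hA z x).1 hx
    obtain ⟨m', hm', ⟨p', hp'⟩, rfl⟩ := (hA z' y).1 hy
    have ha := hang z hz
    have hb := hang z' hz'
    have hzz : (z : ℝ) + 1 ≤ z' := by exact_mod_cast hlt
    have hzz' : (z' : ℝ) - z < (c k.val : ℝ) + 2 := by
      rw [abs_le] at ha hb
      have h1 : 2 * Real.pi * z' / ((c k.val : ℝ) + 2) - 2 * Real.pi * z / ((c k.val : ℝ) + 2) ≤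
          Real.pi := by
        have : 0 < Real.pi / (4 * ((c k.val : ℝ) + 2)) := by positivity
        linarith
      rw [← sub_div, div_le_iff₀ hk2, ← mul_sub] at h1
      nlinarith
    have hne : m k ≠ m' k := by
      intro e
      have h1 : z' - z = (p' - p) * (c k.val + 2) := by rw [hp, hp', e]; ring
      have h2 : (z' - z : ℤ) < c k.val + 2 := by exact_mod_cast hzz'
      have h3 : 0 < p' - p := by
        by_contra h
        push Not at h
        nlinarith
      nlinarith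
    have hfirst : ∀ i < k, m i = m' i := fun i hi => by rw [hm i hi, hm' i hi]
    have hM : 0 < ((c k.val : ℝ) + 2) * D.R k := mul_pos (by positivity) (D.R_pos k)
    have h1 := ht_pos_of (φ := φ) hM (uu_diff (D := D) (θ := θ) hne hfirst) ?_
    · rw [ht_sub] at h1; linarith
    · rw [Pi.add_apply, Pi.add_apply, lam_self hm, lam_self hm']
      have hα : θ k + 2 * Real.pi * (m k).val / ((c k.val : ℝ) + 2) - (φ - Real.pi / 2) =
          (θ k + 2 * Real.pi * z / ((c k.val : ℝ) + 2) - (φ - Real.pi / 2)) -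
            p * (2 * Real.pi) := by
        rw [hp]; push_cast; field_simp; ring
      have hβ : θ k + 2 * Real.pi * (m' k).val / ((c k.val : ℝ) + 2) - (φ - Real.pi / 2) =
          (θ k + 2 * Real.pi * z' / ((c k.val : ℝ) + 2) - (φ - Real.pi / 2)) -
            p' * (2 * Real.pi) := by
        rw [hp']; push_cast; field_simp; ring
      rw [hα, hβ, Real.sin_sub_int_mul_two_pi, Real.sin_sub_int_mul_two_pi]
      have h2 := order_sin (n := c k.val + 2) (by omega) (a := _) (b := _)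
        (by push_cast; exact ha) (by push_cast; exact hb) (by
          push_cast
          rw [div_le_iff₀ hk2]
          have : (θ k + 2 * Real.pi * z' / ((c k.val : ℝ) + 2) - (φ - Real.pi / 2) -
              (θ k + 2 * Real.pi * z / ((c k.val : ℝ) + 2) - (φ - Real.pi / 2))) *
              ((c k.val : ℝ) + 2) = 2 * Real.pi * (z' - z) := by field_simp; ring
          rw [this]
          nlinarith)
      push_cast at h2
      exact lt_of_lt_of_le (hδ.lt_ord k) h2
  have hflat : IsSorted φ {x | ∃ z ∈ J, x ∈ A z} (J.flatMap L) := by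
    refine IsSorted.flatMap (fun z _ => hL z) ?_
    refine hJ.imp_of_mem ?_
    intro z z' hz hz' hlt
    exact hord z hz z' hz' hlt
  have hset : uu D θ '' C = {x | ∃ z ∈ J, x ∈ A z} := by
    ext x
    constructor
    · rintro ⟨m, hm, rfl⟩
      obtain ⟨h1, z, hz, hp⟩ := (hC m).1 hm
      exact ⟨z, hz, (hA z _).2 ⟨m, h1, hp, rfl⟩⟩
    · rintro ⟨z, hz, hx⟩
      obtain ⟨m, h1, hp, rfl⟩ := (hA z x).1 hx
      exact ⟨m, (hC m).2 ⟨h1, z, hz, hp⟩, rfl⟩
  rw [hset] at hl
  have h1 := F.mut_same F (by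
    rintro x ⟨z, _, hx⟩
    exact hsub z x hx) hl hflat
  rw [List.map_flatMap] at h1
  have hinv : ∀ z : ℤ, ∀ x, S.tw (Pi.single k z) (S.tw (-Pi.single k z) x) = x := fun z x => by
    rw [← S.tw_add, add_neg_cancel, S.tw_zero]
  have h2 : ∀ z ∈ J, Mut S.χ ((L z).map v)
      ((bx c S (r - (k.val + 1)) w).map (S.tw (Pi.single k z))) ∧
      Mut S.χ ((bx c S (r - (k.val + 1)) w).map (S.tw (Pi.single k z))) ((L z).map v) := by
    intro z hz
    have F' := F.tr (Pi.single k z)
    rw [← pt_add_dir] at F'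
    have hw' : Win (k.val + 1) (θ + (2 * Real.pi * z) • dir c k) φ := by
      intro i hi
      rw [Pi.add_apply, Pi.smul_apply, smul_eq_mul]
      rcases Nat.lt_succ_iff_lt_or_eq.1 hi with h | h
      · rw [dir_lt h, mul_zero, add_zero]
        exact hw i h
      · have hik : i = k := Fin.ext h
        rw [hik, dir_self, mul_one_div]
        have h3 := hang z hz
        have : 0 < Real.pi / (4 * ((c k.val : ℝ) + 2)) := by positivity
        linarith
    have h3 := hP _ φ hw' _ F' (L z) (hL z)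
    have h4 := h3.1.map (S.tw (Pi.single k z)) (S.tw_χ _)
    have h5 := h3.2.map (S.tw (Pi.single k z)) (S.tw_χ _)
    have h6 : ((L z).map fun x => S.tw (-Pi.single k z) (v x)).map (S.tw (Pi.single k z)) =
        (L z).map v := by
      rw [List.map_map]
      exact List.map_congr_left fun x _ => hinv z (v x)
    rw [h6] at h4 h5
    exact ⟨h4, h5⟩
  exact ⟨h1.1.trans (Mut.flatMap fun z hz => (h2 z hz).1),
    (Mut.flatMap fun z hz => (h2 z hz).2).trans h1.2⟩

end Pool.Agent.FLX
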