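import Pool.Agent.FLX.RMon

/-!
# FLX-RBlk: the block form of `M D (l + 1)`

Termwise in the sum over the positive roots `a`: the roots with `a l = 0` give the diagonal blocks, the
classical edges with `a l ≠ 0` give `lo`, the quantum edges give `q l * hi`.
-/

set_option autoImplicit false

open scoped BigOperators

noncomputable section

namespace Pool.Agent.FLX

open Pool.Agent.FLG

variable {r : ℕ} {D : RS r} {l : Fin r} {m : ℕ} {i : ℕ → Fin r} {v : ℕ → D.W}

private theorem qp_upd (q : ℕ → ℂ) {a : Fin r → ℤ} (h : D.cof a l = 1) :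
    qp D q a = q l.val * qp D (Function.update q l.val 1) a := by
  unfold qp
  rw [Finset.prod_eq_mul_prod_sdiff_singleton_of_mem (Finset.mem_univ l),
    Finset.prod_eq_mul_prod_sdiff_singleton_of_mem (Finset.mem_univ l)
      (fun k : Fin r => Function.update q l.val 1 k.val ^ (D.cof a k).toNat)]
  rw [h, Function.update_self]
  have h1 : ∏ k ∈ Finset.univ \ {l}, q k.val ^ (D.cof a k).toNat =
      ∏ k ∈ Finset.univ \ {l}, Function.update q l.val 1 k.val ^ (D.cof a k).toNat := by
    refine Finset.prod_congr rfl fun k hk => ?_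
    rw [Finset.mem_sdiff, Finset.mem_singleton] at hk
    rw [Function.update_of_ne fun h2 => hk.2 (Fin.ext h2)]
  rw [h1]
  simp

theorem block (H : IsChain D l m i v) (q h : ℕ → ℂ) (p p' : Fin (m + 2) × PW D l.val) :
    M D (l.val + 1) q h (H.eqv p) (H.eqv p') =
      (if p.1 = p'.1 then M D l.val q h p.2 p'.2 else 0) + lo D l m v h p.1 p'.1 p.2 p'.2 +
        q l.val * hi D l m v q h p.1 p'.1 p.2 p'.2 := by
  obtain ⟨x, u⟩ := p
  obtain ⟨x', u'⟩ := p'
  have hx := x.2
  have hx' := x'.2
  have hj : m + 1 - x.val ≤ m + 1 := Nat.sub_le _ _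
  have hj' : m + 1 - x'.val ≤ m + 1 := Nat.sub_le _ _
  have hD : (if x = x' then M D l.val q h u u' else 0) = ∑ a ∈ D.Pos,
      if x = x' ∧ u.1 = u'.1 * D.refl a then wt D h a *
        ((if D.len u.1 = D.len u'.1 + 1 then 1 else 0) +
          (if (D.len u.1 : ℤ) + 2 * cht D a = D.len u'.1 + 1 then qp D q a else 0)) else 0 := by
    by_cases hxx : x = x'
    · rw [if_pos hxx]
      unfold M MM
      refine Finset.sum_congr rfl fun a _ => ?_
      have c2 : (x = x') = True := eq_true hxx
      simp only [c2, true_and]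
    · rw [if_neg hxx]
      symm
      refine Finset.sum_eq_zero fun a _ => ?_
      rw [if_neg fun h1 => hxx h1.1]
  show MM D q h (H.eqv (x, u)).1 (H.eqv (x', u')).1 = (if x = x' then M D l.val q h u u' else 0) +
    lo D l m v h x x' u u' + q l.val * hi D l m v q h x x' u u'
  rw [hD, H.eqv_apply, H.eqv_apply]
  show MM D q h (v (m + 1 - x.val) * u.1) (v (m + 1 - x'.val) * u'.1) = _
  unfold MM lo hi
  rw [Finset.mul_sum, ← Finset.sum_add_distrib, ← Finset.sum_add_distrib]
  refine Finset.sum_congr rfl fun a ha => ?_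
  have haΦ := RS.mem_of_pos ha
  by_cases hU : v (m + 1 - x.val) * u.1 = v (m + 1 - x'.val) * u'.1 * D.refl a
  · have hr : D.refl a ∈ PW D (l.val + 1) := by
      have e : D.refl a = (v (m + 1 - x'.val) * u'.1)⁻¹ * (v (m + 1 - x.val) * u.1) := by
        rw [hU, inv_mul_cancel_left]
      rw [e]
      exact (PW D (l.val + 1)).mul_mem ((PW D (l.val + 1)).inv_mem
        ((PW D (l.val + 1)).mul_mem (H.v_mem hj') (PW_mono (Nat.le_succ _) u'.2)))
        ((PW D (l.val + 1)).mul_mem (H.v_mem hj) (PW_mono (Nat.le_succ _) u.2))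
    have hs := supp_of_refl_mem haΦ hr
    have c0 : (v (m + 1 - x.val) * u.1 = v (m + 1 - x'.val) * u'.1 * D.refl a) = True := eq_true hU
    by_cases hal : a l = 0
    · have hr' : D.refl a ∈ PW D l.val := by
        refine refl_mem_PW haΦ fun k hk => ?_
        rcases Nat.eq_or_lt_of_le hk with h1 | h1
        · rw [← Fin.ext h1]
          exact hal
        · exact hs k h1
      obtain ⟨h1, h2⟩ := H.coset_unique hj hj' u.2 ((PW D l.val).mul_mem u'.2 hr')
        (hU.trans (mul_assoc _ _ _))
      have hxx : x = x' := Fin.ext (by omega)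
      have c1 : (a l ≠ 0) = False := eq_false fun h3 => h3 hal
      have c2 : (x = x' ∧ u.1 = u'.1 * D.refl a) = True := eq_true ⟨hxx, h2⟩
      simp only [c0, c1, c2, false_and, and_false, if_true, if_false, mul_zero, add_zero]
      rw [H.len_v_mul hj u.2, H.len_v_mul hj' u'.2, h1]
      have e1 : (m + 1 - x'.val + D.len u.1 = m + 1 - x'.val + D.len u'.1 + 1) ↔
          (D.len u.1 = D.len u'.1 + 1) := by omega
      have e2 : (((m + 1 - x'.val + D.len u.1 : ℕ) : ℤ) + 2 * cht D a =
          ((m + 1 - x'.val + D.len u'.1 : ℕ) : ℤ) + 1) ↔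
          ((D.len u.1 : ℤ) + 2 * cht D a = D.len u'.1 + 1) := by
        push_cast
        constructor
        · intro h3
          linarith
        · intro h3
          linarith
      rw [if_congr e1 rfl rfl, if_congr e2 rfl rfl]
    · have h1 : ¬ (x = x' ∧ u.1 = u'.1 * D.refl a) := by
        rintro ⟨_, h2⟩
        apply hal
        refine supp_of_refl_mem haΦ (l := l.val) ?_ l (le_refl _)
        have e : D.refl a = (u'.1)⁻¹ * u.1 := by
          rw [h2, inv_mul_cancel_left]
        rw [e]
        exact (PW D l.val).mul_mem ((PW D l.val).inv_mem u'.2) u.2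
      have c1 : (a l ≠ 0) = True := eq_true hal
      have c2 : (x = x' ∧ u.1 = u'.1 * D.refl a) = False := eq_false h1
      simp only [c0, c1, c2, true_and, if_true, if_false, zero_add]
      rw [qp_upd (l := l) q (H.cof_one ha hal fun k hk => hs k hk)]
      split_ifs <;> ring
  · have c0 : (v (m + 1 - x.val) * u.1 = v (m + 1 - x'.val) * u'.1 * D.refl a) = False :=
      eq_false hU
    have c2 : (x = x' ∧ u.1 = u'.1 * D.refl a) = False := eq_false (by
      rintro ⟨h1, h2⟩
      apply hU
      rw [h1, h2, mul_assoc])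
    simp only [c0, c2, false_and, if_false, mul_zero, add_zero]

theorem lo_eq_zero (H : IsChain D l m i v) (h : ℕ → ℂ) {x' x : Fin (m + 2)} (hx : x ≤ x') :
    lo D l m v h x' x = 0 := by
  funext u' u
  unfold lo
  refine Finset.sum_eq_zero fun a ha => if_neg ?_
  rintro ⟨h1, h2, h3⟩
  have h4 : D.rt (v (m + 1 - x.val) * u.1) a ∈ D.Pos := by
    by_contra h5
    have h6 := RS.len_lt_of_neg (v (m + 1 - x.val) * u.1) ha h5
    rw [← h1] at h6
    omega
  have h7 := H.mono_up (Nat.sub_le _ _) (Nat.sub_le _ _) u.2 u'.2 ha h2 h1 h4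
  have h8 : x.val ≤ x'.val := hx
  omega

theorem hi_eq_zero (H : IsChain D l m i v) (q h : ℕ → ℂ) {x' x : Fin (m + 2)} (hx : x' ≤ x) :
    hi D l m v q h x' x = 0 := by
  funext u' u
  unfold hi
  refine Finset.sum_eq_zero fun a ha => if_neg ?_
  rintro ⟨h1, h2, h3⟩
  have h0 := cht_pos ha
  have h4 : D.rt (v (m + 1 - x.val) * u.1) a ∉ D.Pos := by
    intro h5
    have h6 := RS.len_lt_of_pos (v (m + 1 - x.val) * u.1) ha h5
    rw [← h1] at h6
    omega
  have h7 := H.mono_down (Nat.sub_le _ _) (Nat.sub_le _ _) u.2 u'.2 ha h2 h1 h4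
  have h8 : x'.val ≤ x.val := hx
  omega

end Pool.Agent.FLX
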