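import Pool.Agent.FLX.RBlk

/-!
# FLX-RBlkB: the blocks next to the diagonal and the corner

PLAN. `lo_succ`: `x.succ` is the coset of `v j`, `j = m - x`, and `x.castSucc` the one of `v (j + 1)`;
`step_one` gives `u' = u` and `a = rt u⁻¹ β_j`, and this root occurs (`v_succ'`, `RS.refl_rt`, the lengths
are right by `len_v_mul`; it is positive with `l`-th coordinate `≠ 0`). `lo_ind`: `wt D (ind l) a = cof a l = 1`
(`cof_one`). `lo_two_sum`: `sum_cht` (reindex `x ↦ m - x`, `Fin.sum_univ_eq_sum_range`,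
`Finset.sum_range_reflect`). `hi_corner`: `IsCorner.unique`; the root `rt u⁻¹ γ` occurs by `C.len`
(`len (v (m+1) u) = m + 1 + len u`). `hi_ind`: `cof (rt u⁻¹ γ) l = 1`. `M_ind`: `cof a l = 0` for `a` in the
support of `M D l` (`cof_zero`). `M_congr`, `hi_congr`, `T_congr`: `qp D q a` only depends on `q k` with
`a k ≠ 0` (`cof_zero`).
-/

set_option autoImplicit false

open scoped BigOperators

noncomputable section

namespace Pool.Agent.FLX

open Pool.Agent.FLG

variable {r : ℕ} {D : RS r} {l : Fin r} {m : ℕ} {i : ℕ → Fin r} {v : ℕ → D.W} {γ : Fin r → ℤ}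

private theorem bb_inv {k : ℕ} {u : D.W} (hu : u ∈ PW D k) (b : Fin r → ℤ) {j : Fin r} (hj : k ≤ j.val) :
    D.rt u⁻¹ b j = b j := (mem_PW D).1 ((PW D k).inv_mem hu) b j hj

private theorem bb_wt_ind (l : Fin r) (a : Fin r → ℤ) : wt D (ind l.val) a = (D.cof a l : ℂ) := by
  unfold wt ind
  rw [Finset.sum_eq_single l]
  · simp
  · intro k _ hk
    rw [if_neg (fun h => hk (Fin.ext h)), mul_zero]
  · intro h
    exact absurd (Finset.mem_univ _) h

private theorem bb_two (a : Fin r → ℤ) : wt D two a = ((2 * cht D a : ℤ) : ℂ) := by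
  unfold wt two cht
  push_cast
  rw [← Finset.sum_mul, mul_comm]

private theorem bb_qp {q q' : ℕ → ℂ} {a : Fin r → ℤ} (h : ∀ k : Fin r, D.cof a k ≠ 0 → q k.val = q' k.val) :
    qp D q a = qp D q' a := by
  unfold qp
  refine Finset.prod_congr rfl fun k _ => ?_
  by_cases h1 : D.cof a k = 0
  · rw [h1]
    simp
  · rw [h k h1]

private theorem bb_wt {h h' : ℕ → ℂ} {a : Fin r → ℤ} (hh : ∀ k : Fin r, D.cof a k ≠ 0 → h k.val = h' k.val) :
    wt D h a = wt D h' a := by
  unfold wt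
  refine Finset.sum_congr rfl fun k _ => ?_
  by_cases h1 : D.cof a k = 0
  · rw [h1]
    simp
  · rw [hh k h1]

theorem lo_succ (H : IsChain D l m i v) (h : ℕ → ℂ) (x : Fin (m + 1)) (u' u : PW D l.val) :
    lo D l m v h x.castSucc x.succ u' u =
      if u' = u then wt D h (D.rt u.1⁻¹ (bt D i v (m - x.val))) else 0 := by
  have hx : x.val ≤ m := Nat.lt_succ_iff.1 x.2
  have e1 : m + 1 - x.castSucc.val = (m - x.val) + 1 := by
    rw [Fin.val_castSucc]; omega
  have e2 : m + 1 - x.succ.val = m - x.val := by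
    rw [Fin.val_succ]; omega
  unfold lo
  rw [e1, e2]
  generalize hjd : m - x.val = j
  have hj : j ≤ m := by omega
  by_cases huu : u' = u
  · rw [if_pos huu, huu]
    have hb := H.bt_pos hj
    have hbl : 0 < bt D i v j l := H.pos j hj
    have ha0 : D.rt u.1⁻¹ (bt D i v j) ∈ D.Pos :=
      rt_pos ((PW D l.val).inv_mem u.2) (RS.mem_of_pos hb) (le_refl _) hbl
    rw [Finset.sum_eq_single (D.rt u.1⁻¹ (bt D i v j))]
    · rw [if_pos]
      refine ⟨?_, ?_, ?_⟩
      · rw [RS.refl_rt _ (RS.mem_of_pos hb), H.v_succ' hj, inv_inv]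
        group
      · rw [bb_inv u.2 _ (le_refl _)]
        exact hbl.ne'
      · rw [H.len_v_mul (by omega) u.2, H.len_v_mul (by omega) u.2]
        omega
    · intro a ha hne
      rw [if_neg]
      rintro ⟨h1, h2, -⟩
      exact hne (H.step_one hj u.2 u.2 ha h2 h1).2
    · intro h'
      exact absurd ha0 h'
  · rw [if_neg huu]
    refine Finset.sum_eq_zero fun a ha => ?_
    rw [if_neg]
    rintro ⟨h1, h2, -⟩
    exact huu (Subtype.ext (H.step_one hj u.2 u'.2 ha h2 h1).1)

private theorem bb_cof_bt (H : IsChain D l m i v) {j : ℕ} (hj : j ≤ m) {u : D.W} (hu : u ∈ PW D l.val) :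
    D.cof (D.rt u⁻¹ (bt D i v j)) l = 1 := by
  have hb := H.bt_pos hj
  have hbl : 0 < bt D i v j l := H.pos j hj
  have ha0 : D.rt u⁻¹ (bt D i v j) ∈ D.Pos :=
    rt_pos ((PW D l.val).inv_mem hu) (RS.mem_of_pos hb) (le_refl _) hbl
  refine H.cof_one ha0 ?_ ?_
  · rw [bb_inv hu _ (le_refl _)]
    exact hbl.ne'
  · intro k hk
    rw [bb_inv hu _ (le_of_lt hk)]
    exact H.bt_supp hj hk

theorem lo_ind (H : IsChain D l m i v) (x : Fin (m + 1)) :
    lo D l m v (ind l.val) x.castSucc x.succ = 1 := by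
  ext u' u
  rw [lo_succ H, Matrix.one_apply]
  by_cases h : u' = u
  · rw [if_pos h, if_pos h, bb_wt_ind, bb_cof_bt H (Nat.sub_le _ _) u.2]
    simp
  · rw [if_neg h, if_neg h]

theorem lo_two_sum (H : IsChain D l m i v) :
    ∑ x : Fin (m + 1), lo D l m v two x.castSucc x.succ = (((m : ℂ) + 1) * ((m : ℂ) + 2)) • 1 := by
  ext u' u
  rw [Matrix.sum_apply, Matrix.smul_apply, Matrix.one_apply]
  simp only [lo_succ H]
  by_cases h : u' = u
  · simp only [if_pos h]
    have h1 := H.sum_cht u.2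
    have h2 : (∑ x : Fin (m + 1), wt D two (D.rt u.1⁻¹ (bt D i v (m - x.val)))) =
        ∑ j ∈ Finset.range (m + 1), ((2 * cht D (D.rt u.1⁻¹ (bt D i v j)) : ℤ) : ℂ) := by
      rw [Fin.sum_univ_eq_sum_range (fun x => wt D two (D.rt u.1⁻¹ (bt D i v (m - x)))) (m + 1)]
      rw [← Finset.sum_range_reflect]
      refine Finset.sum_congr rfl fun j hj => ?_
      have hj' := Finset.mem_range.1 hj
      rw [bb_two]
      have e : m - (m + 1 - 1 - j) = j := by omega
      rw [e]
    rw [h2, ← Int.cast_sum, h1]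
    push_cast
    simp
  · simp only [if_neg h]
    simp

theorem hi_ind (H : IsChain D l m i v) (C : IsCorner D l m v γ) (q : ℕ → ℂ) :
    hi D l m v q (ind l.val) (Fin.last (m + 1)) 0 = T D l (v (m + 1) * D.refl γ) γ q := by
  ext u' u
  unfold hi T
  have e1 : m + 1 - (Fin.last (m + 1)).val = 0 := by rw [Fin.val_last]; omega
  have e2 : m + 1 - (0 : Fin (m + 2)).val = m + 1 := by simp
  rw [e1, e2, H.zero, one_mul]
  have ha0 : D.rt u.1⁻¹ γ ∈ D.Pos := rt_pos ((PW D l.val).inv_mem u.2) (RS.mem_of_pos C.mem) (le_refl _) C.pos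
  have hal : D.rt u.1⁻¹ γ l ≠ 0 := by
    rw [bb_inv u.2 _ (le_refl _)]
    exact C.pos.ne'
  by_cases huu : u'.1 = v (m + 1) * D.refl γ * u.1
  · rw [if_pos huu]
    rw [Finset.sum_eq_single (D.rt u.1⁻¹ γ)]
    · rw [if_pos]
      · rw [bb_wt_ind, H.cof_one ha0 hal]
        · simp
        · intro k hk
          rw [bb_inv u.2 _ (le_of_lt hk)]
          exact C.supp k hk
      · refine ⟨?_, hal, ?_⟩
        · rw [RS.refl_rt _ (RS.mem_of_pos C.mem), inv_inv, huu]
          group
        · rw [huu, C.len u.1 u.2, H.len_v_mul (le_refl _) u.2]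
          push_cast
          ring
    · intro a ha hne
      rw [if_neg]
      rintro ⟨h1, h2, -⟩
      exact hne (IsCorner.unique H C u.2 u'.2 ha h2 h1).2
    · intro h'
      exact absurd ha0 h'
  · rw [if_neg huu]
    refine Finset.sum_eq_zero fun a ha => ?_
    rw [if_neg]
    rintro ⟨h1, h2, -⟩
    exact huu (IsCorner.unique H C u.2 u'.2 ha h2 h1).1

private theorem bb_supp {k : ℕ} {u' u : PW D k} {a : Fin r → ℤ} (ha : a ∈ D.Pos) (h : u'.1 = u.1 * D.refl a)
    {j : Fin r} (hj : k ≤ j.val) : D.cof a j = 0 := by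
  refine cof_zero (RS.mem_of_pos ha) (supp_of_refl_mem (RS.mem_of_pos ha) ?_ j hj)
  have h1 : D.refl a = u.1⁻¹ * u'.1 := by rw [h]; group
  rw [h1]
  exact (PW D k).mul_mem ((PW D k).inv_mem u.2) u'.2

theorem M_ind (q : ℕ → ℂ) : M D l.val q (ind l.val) = 0 := by
  ext u' u
  unfold M MM
  rw [Matrix.zero_apply]
  refine Finset.sum_eq_zero fun a ha => ?_
  by_cases h : u'.1 = u.1 * D.refl a
  · rw [if_pos h, bb_wt_ind, bb_supp ha h (le_refl _), Int.cast_zero, zero_mul]
  · rw [if_neg h]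

theorem M_congr {k : ℕ} {q q' h h' : ℕ → ℂ} (hq : ∀ j < k, q j = q' j) (hh : ∀ j < k, h j = h' j) :
    M D k q h = M D k q' h' := by
  ext u' u
  unfold M MM
  refine Finset.sum_congr rfl fun a ha => ?_
  by_cases h1 : u'.1 = u.1 * D.refl a
  · rw [if_pos h1, if_pos h1]
    have h2 : ∀ j : Fin r, D.cof a j ≠ 0 → j.val < k := by
      intro j hj
      by_contra h3
      exact hj (bb_supp ha h1 (not_lt.1 h3))
    rw [bb_wt (h := h) (h' := h') (fun j hj => hh _ (h2 j hj)), bb_qp (q := q) (q' := q') (fun j hj => hq _ (h2 j hj))]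
  · rw [if_neg h1, if_neg h1]

theorem hi_congr (H : IsChain D l m i v) {q q' : ℕ → ℂ} (h : ℕ → ℂ) (hq : ∀ j < l.val, q j = q' j)
    (x' x : Fin (m + 2)) : hi D l m v q h x' x = hi D l m v q' h x' x := by
  ext u' u
  unfold hi
  refine Finset.sum_congr rfl fun a ha => ?_
  split_ifs with h1
  · congr 1
    refine bb_qp fun k hk => ?_
    have h2 : k.val < l.val + 1 := by
      by_contra h3
      refine hk (bb_supp (k := l.val + 1)
        (u' := ⟨v (m + 1 - x'.val) * u'.1, (PW D (l.val + 1)).mul_mem (H.v_mem (Nat.sub_le _ _))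
          (PW_mono (Nat.le_succ _) u'.2)⟩)
        (u := ⟨v (m + 1 - x.val) * u.1, (PW D (l.val + 1)).mul_mem (H.v_mem (Nat.sub_le _ _))
          (PW_mono (Nat.le_succ _) u.2)⟩) ha h1.1 (not_lt.1 h3))
    by_cases h4 : k.val = l.val
    · rw [h4, Function.update_self, Function.update_self]
    · rw [Function.update_of_ne h4, Function.update_of_ne h4]
      exact hq _ (by omega)
  · rfl

theorem T_congr {g : D.W} {q q' : ℕ → ℂ} (hγ : γ ∈ D.Φ) (hs : ∀ k, l < k → γ k = 0)
    (hq : ∀ j < l.val, q j = q' j) : T D l g γ q = T D l g γ q' := by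
  ext u' u
  unfold T
  split_ifs with h1
  · refine bb_qp fun k hk => ?_
    by_cases h4 : k.val = l.val
    · rw [h4, Function.update_self, Function.update_self]
    · rw [Function.update_of_ne h4, Function.update_of_ne h4]
      refine hq _ ?_
      by_contra h3
      have h5 : l < k := Fin.lt_def.2 (by omega)
      refine hk (cof_zero (D.rt_mem.2 hγ) ?_)
      rw [bb_inv u.2 _ (le_of_lt h5)]
      exact hs k h5
  · rfl

end Pool.Agent.FLX
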