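import Pool.Agent.FLX.RP

/-!
# FLX-RC: the cosets of a chain

`bt D i v j = β_j = v_j⁻¹ α_{i_j}`.

PLAN. `v_mem`: induction, `s_mem_PW`, `PW_mono`. `bt_pos`: `H.pos`, `pos_of_coord`. `bt_supp`:
`(v j)⁻¹ ∈ PW (l + 1)` and `al (i j) k = 0` for `k > l ≥ i j`. `v_succ'`: `RS.refl_rt`:
`refl (rt v⁻¹ α) = v⁻¹ s v`. `len_v_mul`: induction on `j`: `(v j * u)⁻¹ α_{i j} = u⁻¹ β_j` is positive
(`rt_pos`), `RS.len_s_mul_of_pos`. `exists_coset`: `pw_induction`; if `w = v j * u` and `k ≤ l`, then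
`s_k v_j` is `v (j + 1)` (`k = i j`, `j ≤ m`), or `v (j - 1)` (`k = i (j - 1)`, `0 < j`), or
`v j * refl (rt (v j)⁻¹ (al k))` with the reflection in `PW D l` by `H.fix` and the support
(coordinates `> l` vanish as in `bt_supp`, the coordinate `l` by `fix`): `refl_mem_PW`.
`coset_unique`: if `v j * u = v j' * u'` then `v j = v j' * (u' * u⁻¹)`, so `j = j' + len (u' u⁻¹)` by
`len_v_mul` (with `v j = v j * 1`), and symmetrically, so `j = j'`.
-/

set_option autoImplicit false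

open scoped BigOperators

noncomputable section

namespace Pool.Agent.FLX

open Pool.Agent.FLG

variable {r : ℕ} {D : RS r}

/-- `β_j` -/
def bt (D : RS r) (i : ℕ → Fin r) (v : ℕ → D.W) (j : ℕ) : Fin r → ℤ := D.rt (v j)⁻¹ (RS.al (i j))

variable {l : Fin r} {m : ℕ} {i : ℕ → Fin r} {v : ℕ → D.W}

private theorem al_zero {j k : Fin r} (h : j.val < k.val) : (RS.al j : Fin r → ℤ) k = 0 := by
  unfold RS.al
  rw [Pi.single_apply, if_neg]
  intro h1
  rw [h1] at h
  exact lt_irrefl _ h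

theorem IsChain.v_mem (H : IsChain D l m i v) {j : ℕ} (hj : j ≤ m + 1) : v j ∈ PW D (l.val + 1) := by
  induction j with
  | zero =>
    rw [H.zero]
    exact (PW D (l.val + 1)).one_mem
  | succ j ih =>
    rw [H.succ j (by omega)]
    have h1 := H.le j (by omega)
    rw [Fin.le_def] at h1
    exact (PW D (l.val + 1)).mul_mem (s_mem_PW (by omega)) (ih (by omega))

theorem IsChain.bt_pos (H : IsChain D l m i v) {j : ℕ} (hj : j ≤ m) : bt D i v j ∈ D.Pos := by
  exact pos_of_coord (D.rt_mem.2 (D.al_mem _)) (H.pos j hj)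

theorem IsChain.bt_supp (H : IsChain D l m i v) {j : ℕ} (hj : j ≤ m) {k : Fin r} (hk : l < k) :
    bt D i v j k = 0 := by
  have h1 := H.le j hj
  have h2 := (PW D (l.val + 1)).inv_mem (H.v_mem (j := j) (by omega))
  unfold bt
  rw [Fin.le_def] at h1
  rw [Fin.lt_def] at hk
  rw [(mem_PW D).1 h2 _ k (by omega), al_zero (by omega)]

theorem IsChain.v_succ' (H : IsChain D l m i v) {j : ℕ} (hj : j ≤ m) :
    v (j + 1) = v j * D.refl (bt D i v j) := by
  rw [H.succ j hj, bt, RS.refl_rt _ (D.al_mem _), inv_inv, mul_assoc, mul_inv_cancel_left]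
  rfl

theorem IsChain.len_v_mul (H : IsChain D l m i v) {j : ℕ} (hj : j ≤ m + 1) {u : D.W}
    (hu : u ∈ PW D l.val) : D.len (v j * u) = j + D.len u := by
  induction j with
  | zero =>
    rw [H.zero, one_mul, zero_add]
  | succ j ih =>
    rw [H.succ j (by omega), mul_assoc, RS.len_s_mul_of_pos, ih (by omega)]
    · omega
    · rw [mul_inv_rev, D.rt_mul]
      exact rt_pos ((PW D l.val).inv_mem hu) (D.rt_mem.2 (D.al_mem _)) (le_refl _)
        (H.pos j (by omega))

theorem IsChain.exists_coset (H : IsChain D l m i v) {w : D.W} (hw : w ∈ PW D (l.val + 1)) :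
    ∃ j ≤ m + 1, ∃ u ∈ PW D l.val, w = v j * u := by
  refine pw_induction (p := fun w => ∃ j ≤ m + 1, ∃ u ∈ PW D l.val, w = v j * u) ?_ ?_ w hw
  · exact ⟨0, by omega, 1, (PW D l.val).one_mem, by rw [H.zero, one_mul]⟩
  · rintro k w hk - ⟨j, hj, u, hu, rfl⟩
    by_cases h1 : j ≤ m ∧ k = i j
    · refine ⟨j + 1, by omega, u, hu, ?_⟩
      rw [H.succ j h1.1, h1.2, mul_assoc]
    · by_cases h2 : 0 < j ∧ k = i (j - 1)
      · obtain ⟨j', rfl⟩ : ∃ j', j = j' + 1 := ⟨j - 1, by omega⟩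
        refine ⟨j', by omega, u, hu, ?_⟩
        rw [h2.2, Nat.add_sub_cancel, H.succ j' (by omega), mul_assoc, ← mul_assoc (D.s (i j')),
          RS.s_mul_self, one_mul]
      · have h3 : D.rt (v j)⁻¹ (RS.al k) l = 0 := by
          refine H.fix j hj k (by rw [Fin.le_def]; omega) (fun h4 h5 => h1 ⟨h4, h5⟩)
            (fun h4 h5 => h2 ⟨h4, h5⟩)
        have h4 : D.s k * v j = v j * D.refl (D.rt (v j)⁻¹ (RS.al k)) := by
          rw [RS.refl_rt _ (D.al_mem _), inv_inv, mul_assoc, mul_inv_cancel_left]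
          rfl
        refine ⟨j, hj, D.refl (D.rt (v j)⁻¹ (RS.al k)) * u, (PW D l.val).mul_mem
          (refl_mem_PW (D.rt_mem.2 (D.al_mem _)) fun x hx => ?_) hu, ?_⟩
        · by_cases h5 : x = l
          · rw [h5, h3]
          · have h6 : l.val ≠ x.val := fun h => h5 (Fin.ext h.symm)
            have h7 := (PW D (l.val + 1)).inv_mem (H.v_mem hj)
            rw [(mem_PW D).1 h7 _ x (by omega), al_zero (by omega)]
        · rw [← mul_assoc, ← mul_assoc, h4]

theorem IsChain.coset_unique (H : IsChain D l m i v) {j j' : ℕ} (hj : j ≤ m + 1) (hj' : j' ≤ m + 1)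
    {u u' : D.W} (hu : u ∈ PW D l.val) (hu' : u' ∈ PW D l.val) (h : v j * u = v j' * u') :
    j = j' ∧ u = u' := by
  have h1 := H.len_v_mul hj (PW D l.val).one_mem
  have h2 := H.len_v_mul hj' (PW D l.val).one_mem
  have h3 := H.len_v_mul hj' ((PW D l.val).mul_mem hu' ((PW D l.val).inv_mem hu))
  have h4 := H.len_v_mul hj ((PW D l.val).mul_mem hu ((PW D l.val).inv_mem hu'))
  have h5 : v j' * (u' * u⁻¹) = v j := by rw [← mul_assoc, ← h, mul_inv_cancel_right]
  have h6 : v j * (u * u'⁻¹) = v j' := by rw [← mul_assoc, h, mul_inv_cancel_right]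
  rw [mul_one, RS.len_one] at h1 h2
  rw [h5, h1] at h3
  rw [h6, h2] at h4
  have h7 : j = j' := by omega
  refine ⟨h7, ?_⟩
  rw [h7] at h
  exact mul_left_cancel h

/-- the bijection `(x, u) ↦ v_{m + 1 - x} u` -/
def IsChain.eqv (H : IsChain D l m i v) : Fin (m + 2) × PW D l.val ≃ PW D (l.val + 1) :=
  Equiv.ofBijective (fun p => ⟨v (m + 1 - p.1.val) * p.2.1,
    (PW D (l.val + 1)).mul_mem (H.v_mem (Nat.sub_le _ _)) (PW_mono (Nat.le_succ _) p.2.2)⟩) (by
      constructor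
      · rintro ⟨x, u⟩ ⟨x', u'⟩ h
        have h1 : v (m + 1 - x.val) * u.1 = v (m + 1 - x'.val) * u'.1 := congrArg Subtype.val h
        obtain ⟨h2, h3⟩ := H.coset_unique (Nat.sub_le _ _) (Nat.sub_le _ _) u.2 u'.2 h1
        have h4 : x.val = x'.val := by omega
        rw [Prod.mk.injEq]
        exact ⟨Fin.ext h4, Subtype.ext h3⟩
      · rintro ⟨w, hw⟩
        obtain ⟨j, hj, u, hu, h⟩ := H.exists_coset hw
        refine ⟨(⟨m + 1 - j, by omega⟩, ⟨u, hu⟩), Subtype.ext ?_⟩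
        show v (m + 1 - (m + 1 - j)) * u = w
        rw [h, Nat.sub_sub_self hj])

theorem IsChain.eqv_apply (H : IsChain D l m i v) (p : Fin (m + 2) × PW D l.val) :
    (H.eqv p).1 = v (m + 1 - p.1.val) * p.2.1 := rfl

end Pool.Agent.FLX
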