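import Pool.Agent.FLX.BDefs

/-!
# FLX-RCom: consequences of the commutation of two block matrices (abstract)

`blk A L B t` is the block matrix with the diagonal blocks `A`, the blocks `L` above the diagonal and the
blocks `t B` below the diagonal. If `blk A L B t` and `blk 0 L' B' t` commute for all `t`, compare the
coefficients of `t^0` and `t^1` (values at `t = 0, 1, -1`).

PLAN: as in Pool/Agent/FLE/ComT.lean (com_const, com_lin), ComA.lean, ComB.lean, Cmp.lean (there `l` is
`m`; `Perm (Fin (l+1))` is an arbitrary type `U` here). `com1` (coefficient of `t`, block `(last, 0)`: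
`A B'_(last,0) = B'_(last,0) A`, all other terms vanish or cancel); `com2` (coefficient of `1`, block
`(x, x + 2)`): `A L'_(x,x+2) + L_(x,x+1) = L_(x+1,x+2) + L'_(x,x+2) A`; `com3` (coefficient of `t`, blocks
`(last, 1)` or `(last - 1, 0)`) as in ComB. `cmp_lo`: the diagonal entries of `P' L_(x,x+1) P` do not depend
on `x` by `com2`, and their sum is `(m + 1) (m + 2)`. `cmp_hi`: from `com3`, `cmp_lo`.
-/

set_option autoImplicit false

open scoped BigOperators

noncomputable section

namespace Pool.Agent.FLX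

variable {U : Type} [Fintype U] [DecidableEq U] {m : ℕ}

/-- a block matrix -/
def blk (A : Matrix U U ℂ) (L B : Fin (m + 2) → Fin (m + 2) → Matrix U U ℂ) (t : ℂ) :
    Matrix (Fin (m + 2) × U) (Fin (m + 2) × U) ℂ := fun p r =>
  (if p.1 = r.1 then A p.2 r.2 else 0) + L p.1 r.1 p.2 r.2 + t * B p.1 r.1 p.2 r.2

/-- the hypotheses -/
structure BlkCom (A : Matrix U U ℂ) (L B L' B' : Fin (m + 2) → Fin (m + 2) → Matrix U U ℂ) :
    Prop where
  comm : ∀ t : ℂ, blk A L B t * blk 0 L' B' t = blk 0 L' B' t * blk A L B t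
  L_zero : ∀ x' x, x ≤ x' → L x' x = 0
  L'_zero : ∀ x' x, x ≤ x' → L' x' x = 0
  B_zero : ∀ x' x, x' ≤ x → B x' x = 0
  B'_zero : ∀ x' x, x' ≤ x → B' x' x = 0
  L'_one : ∀ x : Fin (m + 1), L' x.castSucc x.succ = 1
  L_sum : ∑ x : Fin (m + 1), L x.castSucc x.succ = (((m : ℂ) + 1) * ((m : ℂ) + 2)) • 1

variable {A : Matrix U U ℂ} {L B L' B' : Fin (m + 2) → Fin (m + 2) → Matrix U U ℂ}

private theorem mulL (x' x : Fin (m + 2)) (i j : U) (t : ℂ) :
    (blk A L B t * blk 0 L' B' t) (x', i) (x, j) =
      (A * L' x' x + ∑ y, L x' y * L' y x) i j +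
      t * (A * B' x' x + ∑ y, (L x' y * B' y x + B x' y * L' y x)) i j +
      t ^ 2 * (∑ y, B x' y * B' y x) i j := by
  simp only [Matrix.mul_apply, Matrix.add_apply, Matrix.sum_apply, Fintype.sum_prod_type, blk]
  have h1 : ∀ y : Fin (m + 2), (∑ k, ((if x' = y then A i k else 0) + L x' y i k + t * B x' y i k) *
      ((if y = x then (0 : Matrix U U ℂ) k j else 0) + L' y x k j + t * B' y x k j)) =
      (if x' = y then (∑ k, A i k * L' y x k j) + t * ∑ k, A i k * B' y x k j else 0) +
      ((∑ k, L x' y i k * L' y x k j) + t * ((∑ k, L x' y i k * B' y x k j) +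
        ∑ k, B x' y i k * L' y x k j) + t ^ 2 * ∑ k, B x' y i k * B' y x k j) := by
    intro y
    split_ifs
    all_goals
      simp only [Matrix.zero_apply, zero_add, Finset.mul_sum, ← Finset.sum_add_distrib]
      apply Finset.sum_congr rfl
      intro k _
      ring
  rw [Finset.sum_congr rfl (fun y _ => h1 y)]
  simp only [Finset.sum_add_distrib, Finset.sum_ite_eq, Finset.mem_univ, if_true,
    ← Finset.mul_sum]
  ring

private theorem mulR (x' x : Fin (m + 2)) (i j : U) (t : ℂ) :
    (blk 0 L' B' t * blk A L B t) (x', i) (x, j) =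
      (L' x' x * A + ∑ y, L' x' y * L y x) i j +
      t * (B' x' x * A + ∑ y, (L' x' y * B y x + B' x' y * L y x)) i j +
      t ^ 2 * (∑ y, B' x' y * B y x) i j := by
  simp only [Matrix.mul_apply, Matrix.add_apply, Matrix.sum_apply, Fintype.sum_prod_type, blk]
  have h1 : ∀ y : Fin (m + 2), (∑ k, ((if x' = y then (0 : Matrix U U ℂ) i k else 0) + L' x' y i k +
      t * B' x' y i k) * ((if y = x then A k j else 0) + L y x k j + t * B y x k j)) =
      (if y = x then (∑ k, L' x' y i k * A k j) + t * ∑ k, B' x' y i k * A k j else 0) +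
      ((∑ k, L' x' y i k * L y x k j) + t * ((∑ k, L' x' y i k * B y x k j) +
        ∑ k, B' x' y i k * L y x k j) + t ^ 2 * ∑ k, B' x' y i k * B y x k j) := by
    intro y
    split_ifs
    all_goals
      simp only [Matrix.zero_apply, zero_add, Finset.mul_sum, ← Finset.sum_add_distrib]
      apply Finset.sum_congr rfl
      intro k _
      ring
  rw [Finset.sum_congr rfl (fun y _ => h1 y)]
  simp only [Finset.sum_add_distrib, Finset.sum_ite_eq', Finset.mem_univ, if_true,
    ← Finset.mul_sum]
  ring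

private theorem coef (h : BlkCom A L B L' B') (x' x : Fin (m + 2)) :
    A * L' x' x + ∑ y, L x' y * L' y x = L' x' x * A + ∑ y, L' x' y * L y x ∧
    A * B' x' x + ∑ y, (L x' y * B' y x + B x' y * L' y x) =
      B' x' x * A + ∑ y, (L' x' y * B y x + B' x' y * L y x) := by
  have key : ∀ (i j : U) (t : ℂ), _ := fun i j t => congrFun (congrFun (h.comm t) (x', i)) (x, j)
  simp only [mulL, mulR] at key
  constructor
  · ext i j
    have h0 := key i j 0
    linear_combination h0
  · ext i j
    have h1 := key i j 1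
    have h2 := key i j (-1)
    linear_combination (h1 - h2) / 2

theorem BlkCom.com1 (h : BlkCom A L B L' B') :
    A * B' (Fin.last (m + 1)) 0 = B' (Fin.last (m + 1)) 0 * A := by
  have h1 := (coef h (Fin.last (m + 1)) 0).2
  have e1 : ∑ y, (L (Fin.last (m + 1)) y * B' y 0 + B (Fin.last (m + 1)) y * L' y 0) = 0 := by
    apply Finset.sum_eq_zero
    intro y _
    rw [h.L_zero _ _ (Fin.le_last y), h.L'_zero _ _ (Fin.zero_le y), zero_mul, mul_zero, add_zero]
  have e2 : ∑ y, (L' (Fin.last (m + 1)) y * B y 0 + B' (Fin.last (m + 1)) y * L y 0) = 0 := by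
    apply Finset.sum_eq_zero
    intro y _
    rw [h.L'_zero _ _ (Fin.le_last y), h.L_zero _ _ (Fin.zero_le y), zero_mul, mul_zero, add_zero]
  rw [e1, e2, add_zero, add_zero] at h1
  exact h1

private theorem com2 (h : BlkCom A L B L' B') (x : Fin m) :
    L x.castSucc.castSucc x.castSucc.succ - L x.castSucc.succ x.succ.succ =
      L' x.castSucc.castSucc x.succ.succ * A - A * L' x.castSucc.castSucc x.succ.succ := by
  have h1 := (coef h x.castSucc.castSucc x.succ.succ).1
  have e1 : ∑ y, L x.castSucc.castSucc y * L' y x.succ.succ =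
      L x.castSucc.castSucc x.castSucc.succ := by
    rw [Finset.sum_eq_single x.castSucc.succ]
    · have h2 := h.L'_one x.succ
      rw [← Fin.succ_castSucc] at h2
      rw [h2, mul_one]
    · intro y _ hy
      rcases le_or_gt y x.castSucc.castSucc with h3 | h3
      · rw [h.L_zero _ _ h3, zero_mul]
      · rw [h.L'_zero _ _, mul_zero]
        have h4 : y ≠ x.castSucc.succ := hy
        rw [Fin.le_def]
        rw [Fin.lt_def] at h3
        rw [ne_eq, Fin.ext_iff] at h4
        simp only [Fin.val_succ, Fin.val_castSucc] at h3 h4 ⊢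
        omega
    · intro h5
      exact absurd (Finset.mem_univ _) h5
  have e2 : ∑ y, L' x.castSucc.castSucc y * L y x.succ.succ = L x.castSucc.succ x.succ.succ := by
    rw [Finset.sum_eq_single x.castSucc.succ]
    · rw [h.L'_one x.castSucc, one_mul]
    · intro y _ hy
      rcases le_or_gt y x.castSucc.castSucc with h3 | h3
      · rw [h.L'_zero _ _ h3, zero_mul]
      · rw [h.L_zero _ _, mul_zero]
        have h4 : y ≠ x.castSucc.succ := hy
        rw [Fin.le_def]
        rw [Fin.lt_def] at h3
        rw [ne_eq, Fin.ext_iff] at h4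
        simp only [Fin.val_succ, Fin.val_castSucc] at h3 h4 ⊢
        omega
    · intro h5
      exact absurd (Finset.mem_univ _) h5
  rw [e1, e2] at h1
  rw [sub_eq_sub_iff_add_eq_add, add_comm, h1, add_comm]

private theorem com3 (h : BlkCom A L B L' B') :
    B (Fin.last (m + 1)) 0 = B' (Fin.last (m + 1)) 0 * L 0 1 +
      (B' (Fin.last (m + 1)) 1 * A - A * B' (Fin.last (m + 1)) 1) := by
  have h1 := (coef h (Fin.last (m + 1)) 1).2
  have e1 : ∑ y, (L (Fin.last (m + 1)) y * B' y 1 + B (Fin.last (m + 1)) y * L' y 1) =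
      B (Fin.last (m + 1)) 0 := by
    rw [Finset.sum_eq_single 0]
    · have h2 := h.L'_one 0
      rw [Fin.castSucc_zero, Fin.succ_zero_eq_one] at h2
      rw [h.L_zero _ _ (Fin.zero_le _), h2, zero_mul, mul_one, zero_add]
    · intro y _ hy
      rw [h.L_zero _ _ (Fin.le_last y), h.L'_zero y 1 (Fin.one_le_of_ne_zero hy), zero_mul,
        mul_zero, add_zero]
    · intro h5
      exact absurd (Finset.mem_univ _) h5
  have e2 : ∑ y, (L' (Fin.last (m + 1)) y * B y 1 + B' (Fin.last (m + 1)) y * L y 1) =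
      B' (Fin.last (m + 1)) 0 * L 0 1 := by
    rw [Finset.sum_eq_single 0]
    · rw [h.L'_zero _ _ (Fin.zero_le _), zero_mul, zero_add]
    · intro y _ hy
      rw [h.L'_zero _ _ (Fin.le_last y), h.L_zero y 1 (Fin.one_le_of_ne_zero hy), zero_mul,
        mul_zero, add_zero]
    · intro h5
      exact absurd (Finset.mem_univ _) h5
  rw [e1, e2] at h1
  have h2 : B (Fin.last (m + 1)) 0 = A * B' (Fin.last (m + 1)) 1 + B (Fin.last (m + 1)) 0 -
      A * B' (Fin.last (m + 1)) 1 := by abel
  rw [h2, h1]
  abel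

private theorem diag_comm {P P' X : Matrix U U ℂ} {c : U → ℂ} (hP : P' * P = 1)
    (hA : P' * A * P = Matrix.diagonal c) (J : U) : (P' * (X * A - A * X) * P) J J = 0 := by
  have hP' : P * P' = 1 := mul_eq_one_comm.1 hP
  have h1 : P' * (X * A - A * X) * P =
      (P' * X * P) * Matrix.diagonal c - Matrix.diagonal c * (P' * X * P) := by
    rw [← hA, mul_sub, sub_mul]
    congr 1
    · calc P' * (X * A) * P = P' * X * 1 * A * P := by simp only [mul_one, mul_assoc]
        _ = P' * X * (P * P') * A * P := by rw [hP']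
        _ = P' * X * P * (P' * A * P) := by simp only [mul_assoc]
    · calc P' * (A * X) * P = P' * A * 1 * X * P := by simp only [mul_one, mul_assoc]
        _ = P' * A * (P * P') * X * P := by rw [hP']
        _ = P' * A * P * (P' * X * P) := by simp only [mul_assoc]
  rw [h1, Matrix.sub_apply, Matrix.mul_diagonal, Matrix.diagonal_mul]
  ring

theorem BlkCom.cmp_lo (h : BlkCom A L B L' B') {P P' : Matrix U U ℂ} {c : U → ℂ} (hP : P' * P = 1)
    (hA : P' * A * P = Matrix.diagonal c) (x : Fin (m + 1)) (J : U) :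
    (P' * L x.castSucc x.succ * P) J J = m + 2 := by
  have hstep : ∀ y : Fin m, (P' * L y.castSucc.castSucc y.castSucc.succ * P) J J =
      (P' * L y.succ.castSucc y.succ.succ * P) J J := by
    intro y
    have h1 := diag_comm (X := L' y.castSucc.castSucc y.succ.succ) hP hA J
    rw [← com2 h y, mul_sub, sub_mul, Matrix.sub_apply, sub_eq_zero] at h1
    rw [h1, Fin.succ_castSucc]
  have hall : ∀ y : Fin (m + 1), (P' * L y.castSucc y.succ * P) J J =
      (P' * L (0 : Fin (m + 1)).castSucc (0 : Fin (m + 1)).succ * P) J J := by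
    intro y
    induction y using Fin.induction with
    | zero => rfl
    | succ y ih =>
      rw [← ih]
      exact (hstep y).symm
  have hsum : ∑ y : Fin (m + 1), (P' * L y.castSucc y.succ * P) J J =
      ((m : ℂ) + 1) * ((m : ℂ) + 2) := by
    have h1 : P' * (∑ y : Fin (m + 1), L y.castSucc y.succ) * P =
        ∑ y : Fin (m + 1), P' * L y.castSucc y.succ * P := by
      rw [Finset.mul_sum, Finset.sum_mul]
    have h2 := congrFun (congrFun h1 J) J
    rw [h.L_sum, Matrix.sum_apply] at h2
    rw [← h2, mul_smul_comm, mul_one, smul_mul_assoc, hP]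
    simp
  rw [Finset.sum_congr rfl (fun y _ => hall y), Finset.sum_const, Finset.card_univ,
    Fintype.card_fin, nsmul_eq_mul] at hsum
  have hm : ((m : ℂ) + 1) ≠ 0 := Nat.cast_add_one_ne_zero m
  rw [hall x]
  push_cast at hsum
  exact mul_left_cancel₀ hm hsum

theorem BlkCom.cmp_hi (h : BlkCom A L B L' B') {P P' : Matrix U U ℂ} {c a : U → ℂ} (hP : P' * P = 1)
    (hA : P' * A * P = Matrix.diagonal c)
    (hT : P' * B' (Fin.last (m + 1)) 0 * P = Matrix.diagonal a) (J : U) :
    (P' * B (Fin.last (m + 1)) 0 * P) J J = (m + 2) * a J := by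
  have hP' : P * P' = 1 := mul_eq_one_comm.1 hP
  have h0 := h.cmp_lo hP hA 0 J
  rw [Fin.castSucc_zero, Fin.succ_zero_eq_one] at h0
  rw [com3 h, mul_add, add_mul, Matrix.add_apply, diag_comm hP hA J, add_zero]
  have h1 : P' * (B' (Fin.last (m + 1)) 0 * L 0 1) * P =
      Matrix.diagonal a * (P' * L 0 1 * P) := by
    rw [← hT]
    calc P' * (B' (Fin.last (m + 1)) 0 * L 0 1) * P =
        P' * B' (Fin.last (m + 1)) 0 * 1 * L 0 1 * P := by simp only [mul_one, mul_assoc]
      _ = P' * B' (Fin.last (m + 1)) 0 * (P * P') * L 0 1 * P := by rw [hP']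
      _ = P' * B' (Fin.last (m + 1)) 0 * P * (P' * L 0 1 * P) := by simp only [mul_assoc]
  rw [h1, Matrix.diagonal_mul, h0]
  ring

end Pool.Agent.FLX
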