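import Pool.Agent.FLX.RChn

/-!
# FLX-RCor: the corners of types A and C, preparations

PLAN. `vx_pred` (for `s₀ ≤ l' `, `l = l' + 1`, `j ≤ l' - s₀ + 1`): `vx l (j + 1) = vx l' j * s_l` by induction
(the letters agree: `l - (j + 1) = l' - j`).
`corner_of`: the condition `len` of `IsCorner` by `pw_induction_right`: for `u' = u s_k`, `d = rt u (al k)`
(a root with support `< l`): `cht (u'⁻¹ γ) = cht (u⁻¹ γ) - ⟨α_k, (u⁻¹ γ)^∨⟩` (`cof_rt_refl` with `w = 1`,
`cof_al`) and `⟨α_k, (u⁻¹ γ)^∨⟩ = ⟨d, γ^∨⟩` (`RS.co_rt`); `len u' = len u ± 1` by the sign of `d`,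
`len (g u') = len (g u) ± 1` by the sign of `g d` (`RS.len_mul_s_of_pos`, `RS.len_mul_s_of_neg`); use `hd`
for `d` or `-d`.
`vx_C`: `vx l (l - s₀ + 1 + p) = U p * vx l (l - s₀ + 1)`, `U p = s_{s₀+p} … s_{s₀+1}`, `p ≤ l - s₀`, and
`U (l - s₀) = (vx l j)⁻¹ * U (l - s₀ - j)` for `j ≤ l - s₀`, so `U (l - s₀) = (vx l (l - s₀))⁻¹` and
`v_{m+1} = v⁻¹ s_{s₀} v = refl (v⁻¹ α_{s₀}) = refl thv`, `v = vx l (l - s₀)` (`RS.refl_rt`, `tab_mid`).
-/

set_option autoImplicit false

open scoped BigOperators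

noncomputable section

namespace Pool.Agent.FLX

open Pool.Agent.FLG

variable {r : ℕ} {D : RS r} {s : ℕ → ℕ} {t : ℕ → Prop}

open Classical in
/-- the root of the corner -/
def gam (s : ℕ → ℕ) (t : ℕ → Prop) (l : Fin r) : Fin r → ℤ :=
  if t l.val then thv l (s l.val) else RS.al l

private theorem ix_lo (l : Fin r) {s₀ j : ℕ} (hj : j ≤ l.val - s₀) :
    (ix l s₀ j).val = l.val - j := by
  unfold ix
  simp only [if_pos hj]

private theorem ix_hi (l : Fin r) {s₀ j : ℕ} (hj : ¬ j ≤ l.val - s₀) :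
    (ix l s₀ j).val = min (2 * s₀ + j - l.val) l.val := by
  unfold ix
  simp only [if_neg hj]

theorem vx_pred (l l' : Fin r) (hl : l'.val + 1 = l.val) {s₀ : ℕ} (hs : s₀ ≤ l'.val) {j : ℕ}
    (hj : j ≤ l'.val - s₀ + 1) : vx D l s₀ (j + 1) = vx D l' s₀ j * D.s l := by
  induction j with
  | zero =>
    have e : ix l s₀ 0 = l := by
      apply Fin.ext
      rw [ix_lo l (Nat.zero_le _), Nat.sub_zero]
    show D.s (ix l s₀ 0) * 1 = 1 * D.s l
    rw [e, mul_one, one_mul]
  | succ j ih =>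
    have e : ix l s₀ (j + 1) = ix l' s₀ j := by
      apply Fin.ext
      rw [ix_lo l (by omega), ix_lo l' (by omega)]
      omega
    show D.s (ix l s₀ (j + 1)) * vx D l s₀ (j + 1) = D.s (ix l' s₀ j) * vx D l' s₀ j * D.s l
    rw [ih (by omega), e, mul_assoc]

private theorem cht_al (k : Fin r) : ∑ j, D.cof (RS.al k) j = 1 := by
  rw [cof_al]
  unfold RS.al
  rw [Finset.sum_pi_single']
  simp

private theorem cht_s {a : Fin r → ℤ} (ha : a ∈ D.Φ) (k : Fin r) :
    cht D (D.rt (D.s k) a) = cht D a - dotProduct (D.co a) (RS.al k) := by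
  have h1 := cof_rt_refl (D := D) 1 ha (D.al_mem k)
  rw [D.rt_one, D.rt_one, D.rt_one] at h1
  unfold cht
  have h2 : D.cof (D.rt (D.s k) a) = D.cof a - dotProduct (D.co a) (RS.al k) • D.cof (RS.al k) := h1
  rw [h2]
  simp only [Pi.sub_apply, Pi.smul_apply, smul_eq_mul]
  rw [Finset.sum_sub_distrib, ← Finset.mul_sum, cht_al, mul_one]

theorem corner_of {l : Fin r} {m : ℕ} {v : ℕ → D.W} {γ : Fin r → ℤ} (hγ : γ ∈ D.Pos)
    (hs : ∀ k, l < k → γ k = 0) (hp : 0 < γ l) (hg : v (m + 1) * D.refl γ ∈ PW D l.val)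
    (h0 : (D.len (v (m + 1) * D.refl γ) : ℤ) + 2 * cht D γ = m + 2)
    (hd : ∀ d ∈ D.Pos, (∀ k : Fin r, l ≤ k → d k = 0) →
      (D.rt (v (m + 1) * D.refl γ) d ∈ D.Pos ∧ dotProduct (D.co γ) d = 0) ∨
      (D.rt (v (m + 1) * D.refl γ) d ∉ D.Pos ∧ dotProduct (D.co γ) d = -1)) :
    IsCorner D l m v γ := by
  refine ⟨hγ, hs, hp, hg, ?_⟩
  generalize v (m + 1) * D.refl γ = g at hg h0 hd
  have hγΦ := RS.mem_of_pos hγ
  refine pw_induction_right (p := fun u => (D.len (g * u) : ℤ) + 2 * cht D (D.rt u⁻¹ γ) =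
    D.len u + m + 2) ?_ ?_
  · rw [mul_one, inv_one, D.rt_one, RS.len_one, h0]
    push_cast
    ring
  · intro k u hk hu ih
    have hdΦ : D.rt u (RS.al k) ∈ D.Φ := D.rt_mem.2 (D.al_mem k)
    have hsup : ∀ j : Fin r, l ≤ j → D.rt u (RS.al k) j = 0 := by
      intro j hj
      rw [Fin.le_def] at hj
      rw [(mem_PW D).1 hu _ j hj]
      unfold RS.al
      rw [Pi.single_apply, if_neg]
      intro h1
      rw [h1] at hj
      omega
    have e1 : cht D (D.rt (u * D.s k)⁻¹ γ) = cht D (D.rt u⁻¹ γ) -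
        dotProduct (D.co γ) (D.rt u (RS.al k)) := by
      rw [mul_inv_rev, RS.s_inv, D.rt_mul, cht_s (D.rt_mem.2 hγΦ), RS.co_rt u⁻¹ hγΦ, inv_inv]
    have e2 : g * (u * D.s k) = g * u * D.s k := (mul_assoc _ _ _).symm
    have e3 : D.rt (g * u) (RS.al k) = D.rt g (D.rt u (RS.al k)) := D.rt_mul _ _ _
    show (D.len (g * (u * D.s k)) : ℤ) + 2 * cht D (D.rt (u * D.s k)⁻¹ γ) =
      D.len (u * D.s k) + m + 2
    rw [e1, e2]
    by_cases hpos : D.rt u (RS.al k) ∈ D.Pos
    · have l1 := RS.len_mul_s_of_pos k u hpos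
      rcases hd _ hpos hsup with ⟨h1, h2⟩ | ⟨h1, h2⟩
      · have l2 := RS.len_mul_s_of_pos k (g * u) (by rw [e3]; exact h1)
        rw [l1, l2, h2]
        push_cast
        linarith
      · have l2 := RS.len_mul_s_of_neg k (g * u) (by rw [e3]; exact h1)
        rw [l1, h2]
        have l3 : (D.len (g * u * D.s k) : ℤ) + 1 = D.len (g * u) := by exact_mod_cast l2
        push_cast
        linarith
    · have hneg : -D.rt u (RS.al k) ∈ D.Pos := (RS.not_pos_iff hdΦ).1 hpos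
      have l1 := RS.len_mul_s_of_neg k u hpos
      have l3 : (D.len (u * D.s k) : ℤ) + 1 = D.len u := by exact_mod_cast l1
      have hgΦ : D.rt g (D.rt u (RS.al k)) ∈ D.Φ := D.rt_mem.2 hdΦ
      rcases hd _ hneg (fun j hj => by rw [Pi.neg_apply, hsup j hj, neg_zero]) with
        ⟨h1, h2⟩ | ⟨h1, h2⟩
      · rw [dotProduct_neg] at h2
        rw [D.rt_neg] at h1
        have l2 := RS.len_mul_s_of_neg k (g * u) (by rw [e3]; exact (RS.not_pos_iff hgΦ).2 h1)
        have l4 : (D.len (g * u * D.s k) : ℤ) + 1 = D.len (g * u) := by exact_mod_cast l2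
        linarith
      · rw [dotProduct_neg] at h2
        rw [D.rt_neg] at h1
        have h3 : D.rt g (D.rt u (RS.al k)) ∈ D.Pos := by
          rcases RS.pos_or_neg hgΦ with h4 | h4
          · exact h4
          · exact absurd h4 h1
        have l2 := RS.len_mul_s_of_pos k (g * u) (by rw [e3]; exact h3)
        rw [l2]
        push_cast
        linarith

theorem vx_C (h : IsAC D s t) (l : Fin r) (ht : t l.val) :
    vx D l (s l.val) (cc s t l.val + 1) * D.refl (thv l (s l.val)) = 1 := by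
  have hsl := h.s_le l.val
  obtain ⟨n, hn⟩ : ∃ n, l.val = s l.val + n := ⟨l.val - s l.val, by omega⟩
  have hn' : l.val - s l.val = n := by omega
  have hcc : cc s t l.val = 2 * n := by
    unfold cc
    rw [if_pos ht, hn']
  have hk : s l.val < r := lt_of_le_of_lt hsl l.isLt
  have hmid := tab_mid h l ht (k := ⟨s l.val, hk⟩) rfl
  rw [hn'] at hmid
  have hU : ∀ p ≤ n, vx D l (s l.val) (n + 1 + p) =
      vx D l (s l.val) (n - p) * (vx D l (s l.val) n)⁻¹ * vx D l (s l.val) (n + 1) := by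
    intro p
    induction p with
    | zero =>
      intro _
      rw [Nat.sub_zero, mul_inv_cancel, one_mul, add_zero]
    | succ p ih =>
      intro hp
      have e1 : vx D l (s l.val) (n + 1 + (p + 1)) =
          D.s (ix l (s l.val) (n + 1 + p)) * vx D l (s l.val) (n + 1 + p) := rfl
      have e2 : vx D l (s l.val) (n - p) =
          D.s (ix l (s l.val) (n - (p + 1))) * vx D l (s l.val) (n - (p + 1)) := by
        have e3 : n - p = n - (p + 1) + 1 := by omega
        rw [e3]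
        rfl
      have e4 : ix l (s l.val) (n + 1 + p) = ix l (s l.val) (n - (p + 1)) := by
        apply Fin.ext
        rw [ix_hi l (by omega), ix_lo l (by omega), min_eq_left (by omega)]
        omega
      rw [e1, ih (by omega), e2, e4]
      simp only [← mul_assoc]
      rw [RS.s_mul_self, one_mul]
  have h1 := hU n le_rfl
  rw [Nat.sub_self] at h1
  have h2 : vx D l (s l.val) 0 = 1 := rfl
  have h3 : vx D l (s l.val) (n + 1) = D.s (ix l (s l.val) n) * vx D l (s l.val) n := rfl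
  have h4 : ix l (s l.val) n = ⟨s l.val, hk⟩ := by
    apply Fin.ext
    rw [ix_lo l (by omega)]
    show l.val - n = s l.val
    omega
  have h5 : 2 * n + 1 = n + 1 + n := by omega
  rw [hcc, h5, h1, h2, h3, h4, ← hmid, RS.refl_rt _ (D.al_mem _), one_mul, inv_inv]
  have h6 : D.refl (RS.al ⟨s l.val, hk⟩) = D.s ⟨s l.val, hk⟩ := rfl
  rw [h6]
  generalize vx D l (s l.val) n = x
  have h7 := RS.s_mul_self (D := D) ⟨s l.val, hk⟩
  calc x⁻¹ * (D.s ⟨s l.val, hk⟩ * x) * (x⁻¹ * D.s ⟨s l.val, hk⟩ * x) =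
      x⁻¹ * (D.s ⟨s l.val, hk⟩ * (x * x⁻¹) * D.s ⟨s l.val, hk⟩) * x := by
        simp only [mul_assoc]
    _ = 1 := by
        rw [mul_inv_cancel, mul_one, h7, mul_one, inv_mul_cancel]

end Pool.Agent.FLX
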