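import Pool.Agent.FLX.RCor

/-!
# FLX-RCorB: the corners of types A and C

`gam = α_l` and `v_{m+1} s_γ = s_{s₀} … s_{l-1}` in type A; `gam = thv` and `v_{m+1} s_γ = 1` in type C.

PLAN. `corner_of`. Type C: `thv` is positive (`tab_mid`), `g = 1` (`vx_C`); for `d` with support `< l`:
`⟨α_k, thv^∨⟩ = 0` for `k < l` (`co thv = ∑ co (al k)` over `s₀ ≤ k ≤ l`, from `D.co_cof` and
`cof thv = Sv l s₀` (`tab_cof`, `tab_mid`), and the Cartan integers), `2 cht thv = 2 (l - s₀ + 1) = m + 2`.
Type A: if `s₀ = l` then `g = s_l s_l = 1`, `⟨α_k, α_l^∨⟩ = 0` for `k < l`, `cht = 1`. If `s₀ < l`: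
`g = vx l' (l' - s₀ + 1)` by `vx_pred`, `l' = l - 1`; a positive root `d` with support `< l` has either
`d l' = 0`, then `g d` is positive (`(chain_AC h l').len_v_mul` for `u = refl d ∈ PW D l'` gives
`len g < len (g * refl d)`, use `RS.len_lt_of_neg`) and `⟨d, α_l^∨⟩ = 0`; or `d l' ≠ 0`, then `d = β_j` of the
chain of `l'` (`psi_eq`), `g d` is not positive (`v_bt_pos`) and `⟨d, α_l^∨⟩ = - d l' = -1` (`d l' = 1` by
`tab_root`: `β_j = Sv l' (l' - j)`). The base: `len g = l - s₀` (`len_v_mul` with `u = 1`), `2 cht α_l = 2`.
-/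

set_option autoImplicit false

open scoped BigOperators

noncomputable section

namespace Pool.Agent.FLX

open Pool.Agent.FLG

variable {r : ℕ} {D : RS r} {s : ℕ → ℕ} {t : ℕ → Prop}

private theorem cb_Sv_zero {l : Fin r} {a : ℕ} {k : Fin r} (h : l < k) : Sv l a k = 0 := by
  unfold Sv
  rw [if_neg]
  rintro ⟨-, h1⟩
  exact absurd h1 (not_le.2 h)

private theorem cb_al {j k : Fin r} (h : j ≠ k) : (RS.al j : Fin r → ℤ) k = 0 := by
  unfold RS.al
  rw [Pi.single_apply, if_neg (Ne.symm h)]

private theorem cb_al_self (j : Fin r) : (RS.al j : Fin r → ℤ) j = 1 := by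
  unfold RS.al
  rw [Pi.single_apply, if_pos rfl]

private theorem cb_self (k : Fin r) : D.co (RS.al k) k = 2 := by
  have h := D.co_self _ (D.al_mem k)
  rwa [RS.dot_al] at h

private theorem cb_C (h : IsAC D s t) (l : Fin r) (ht : t l.val) :
    IsCorner D l (cc s t l.val) (vx D l (s l.val)) (thv l (s l.val)) := by
  have hs := h.s_le l.val
  obtain ⟨k₀, hk₀⟩ : ∃ k : Fin r, k.val = s l.val := ⟨⟨s l.val, lt_of_le_of_lt hs l.isLt⟩, rfl⟩
  have hk₀l : k₀ ≤ l := by rw [Fin.le_def]; omega
  have h1 := tab_mid h l ht hk₀
  have h2 := tab_cof h l (j := l.val - s l.val) (Or.inl le_rfl) hk₀l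
  have h3 : tabv l (s l.val) (l.val - s l.val) k₀ = Sv l (s l.val) := by
    unfold tabv
    rw [if_neg (by omega), if_pos (by omega), hk₀]
  rw [h1, h3] at h2
  have hΦ : thv l (s l.val) ∈ D.Φ := by
    rw [← h1]
    exact D.rt_mem.2 (D.al_mem _)
  have hl : 0 < thv l (s l.val) l := by
    show 0 < Sv l (s l.val) l + Sv l (s l.val + 1) l
    unfold Sv
    rw [if_pos ⟨hs, le_rfl⟩]
    split_ifs <;> norm_num
  have hPos := pos_of_coord hΦ hl
  have hvC := vx_C h l ht
  refine corner_of hPos ?_ hl ?_ ?_ ?_
  · intro k hk
    show Sv l (s l.val) k + Sv l (s l.val + 1) k = 0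
    rw [cb_Sv_zero hk, cb_Sv_zero hk, add_zero]
  · rw [hvC]
    exact (PW D l.val).one_mem
  · rw [hvC, RS.len_one]
    unfold cht
    rw [h2, sum_Sv l (by omega)]
    unfold cc
    rw [if_pos ht]
    push_cast [Nat.cast_sub hs]
    ring
  · intro d hd hd0
    left
    rw [hvC, D.rt_one]
    refine ⟨hd, ?_⟩
    -- the Cartan integers
    have h4 : ∀ k : Fin r, k < l → D.co (thv l (s l.val)) k = 0 := by
      intro k hk
      rw [Fin.lt_def] at hk
      rw [D.co_cof _ hΦ, h2, Finset.sum_apply]
      have h5 : ∀ i : Fin r, (Sv l (s l.val) i • D.co (Pi.single i 1)) k =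
          if s l.val ≤ i.val ∧ i ≤ l then D.co (RS.al i) k else 0 := by
        intro i
        rw [Pi.smul_apply]
        unfold Sv
        split_ifs
        · rw [one_smul]; rfl
        · rw [zero_smul]
      rw [Finset.sum_congr rfl fun i _ => h5 i]
      by_cases hks : k.val < s l.val
      · refine Finset.sum_eq_zero fun i _ => ?_
        split_ifs with h6
        · obtain ⟨h7, h8⟩ := h6
          rw [Fin.le_def] at h8
          refine (h.zero k i ?_).2
          rw [h.s_eq i.val l.val h7 h8]
          exact hks
        · rfl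
      · -- `s₀ ≤ k < l`
        obtain ⟨k1, hk1⟩ : ∃ k1 : Fin r, k1.val = k.val + 1 := ⟨⟨k.val + 1, by omega⟩, rfl⟩
        have hsk1 : s k1.val = s l.val := h.s_eq _ _ (by omega) (by omega)
        have htk1 : t k1.val := (h.t_iff _ _ (by omega) (by omega)).2 ht
        have hlink := h.link k k1 hk1.symm (by omega)
        have hz : ∀ i : Fin r, i ≠ k → i ≠ k1 → (k.val ≤ i.val + 1 → k.val = s l.val ∨ i.val + 1 ≠ k.val) →
            (if s l.val ≤ i.val ∧ i ≤ l then D.co (RS.al i) k else 0) = 0 := by
          intro i hi1 hi2 hi3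
          split_ifs with h6
          · obtain ⟨h7, h8⟩ := h6
            rw [Fin.le_def] at h8
            have h9 : i.val ≠ k.val := fun e => hi1 (Fin.ext e)
            have h10 : i.val ≠ k1.val := fun e => hi2 (Fin.ext e)
            rcases Nat.lt_or_ge i.val k.val with h11 | h11
            · have h12 : i.val + 1 ≠ k.val := by
                intro e
                rcases hi3 (by omega) with h13 | h13
                · omega
                · exact h13 e
              exact (h.zero' i k (by omega)).1
            · exact (h.zero' k i (by omega)).2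
          · rfl
        by_cases hk0 : k.val = s l.val
        · rw [Finset.sum_eq_add k k1 (fun e => by rw [← e] at hk1; omega) (fun i _ hi => hz i hi.1 hi.2 (fun _ => Or.inl hk0))
            (fun e => absurd (Finset.mem_univ _) e) (fun e => absurd (Finset.mem_univ _) e),
            if_pos ⟨by omega, by rw [Fin.le_def]; omega⟩, if_pos ⟨by omega, by rw [Fin.le_def]; omega⟩,
            cb_self, hlink.2.2 ⟨htk1, by omega⟩]
          norm_num
        · obtain ⟨k2, hk2⟩ : ∃ k2 : Fin r, k2.val + 1 = k.val := ⟨⟨k.val - 1, by omega⟩, by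
            show k.val - 1 + 1 = k.val; omega⟩
          have hsk : s k.val = s l.val := h.s_eq _ _ (by omega) (by omega)
          have hlink2 := h.link k2 k hk2 (by omega)
          have hk12 : k2 ≠ k := fun e => by rw [e] at hk2; omega
          have hk13 : k2 ≠ k1 := fun e => by rw [e] at hk2; omega
          have hk23 : k ≠ k1 := fun e => by rw [← e] at hk1; omega
          have h6 : ∑ i, (if s l.val ≤ i.val ∧ i ≤ l then D.co (RS.al i) k else 0) =
              ∑ i ∈ {k2, k, k1}, (if s l.val ≤ i.val ∧ i ≤ l then D.co (RS.al i) k else 0) := by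
            symm
            refine Finset.sum_subset (Finset.subset_univ _) fun i _ hi => ?_
            simp only [Finset.mem_insert, Finset.mem_singleton, not_or] at hi
            refine hz i hi.2.1 hi.2.2 fun _ => Or.inr fun e => hi.1 (Fin.ext (by omega))
          rw [h6, Finset.sum_insert (by simp [hk12, hk13]), Finset.sum_insert (by simp [hk23]),
            Finset.sum_singleton, if_pos ⟨by omega, by rw [Fin.le_def]; omega⟩,
            if_pos ⟨by omega, by rw [Fin.le_def]; omega⟩, if_pos ⟨by omega, by rw [Fin.le_def]; omega⟩,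
            cb_self, hlink2.1, hlink.2.1 (fun e => by omega)]
          norm_num
    show ∑ k, D.co (thv l (s l.val)) k * d k = 0
    refine Finset.sum_eq_zero fun k _ => ?_
    by_cases hk : k < l
    · rw [h4 k hk, zero_mul]
    · rw [hd0 k (not_lt.1 hk), mul_zero]

private theorem cb_A (h : IsAC D s t) (l : Fin r) (ht : ¬ t l.val) :
    IsCorner D l (cc s t l.val) (vx D l (s l.val)) (RS.al l) := by
  have hs := h.s_le l.val
  have hm : cc s t l.val = l.val - s l.val := by unfold cc; rw [if_neg ht]
  have hcht : cht D (RS.al l) = 1 := by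
    unfold cht
    rw [cof_al]
    simp [RS.al]
  rw [hm]
  by_cases hsl : s l.val = l.val
  · -- the start of the component
    have hg : vx D l (s l.val) (l.val - s l.val + 1) * D.refl (RS.al l) = 1 := by
      have h1 : l.val - s l.val = 0 := by omega
      rw [h1]
      show D.s (ix l (s l.val) 0) * 1 * D.refl (RS.al l) = 1
      have h2 : ix l (s l.val) 0 = l := by
        unfold ix
        apply Fin.ext
        simp
      rw [h2, mul_one]
      exact RS.s_mul_self l
    refine corner_of (D.al_pos l) (fun k hk => cb_al (ne_of_lt hk)) (by rw [cb_al_self]; norm_num) ?_ ?_ ?_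
    · rw [hg]
      exact (PW D l.val).one_mem
    · rw [hg, RS.len_one, hcht, hsl]
      simp
    · intro d hd hd0
      left
      rw [hg, D.rt_one]
      refine ⟨hd, ?_⟩
      show ∑ k, D.co (RS.al l) k * d k = 0
      refine Finset.sum_eq_zero fun k _ => ?_
      by_cases hk : k < l
      · rw [Fin.lt_def] at hk
        rw [(h.zero k l (by omega)).2, zero_mul]
      · rw [hd0 k (not_lt.1 hk), mul_zero]
  · obtain ⟨l', hl'⟩ : ∃ l' : Fin r, l'.val + 1 = l.val := ⟨⟨l.val - 1, by omega⟩, by
      show l.val - 1 + 1 = l.val; omega⟩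
    have hsl' : s l'.val = s l.val := h.s_eq _ _ (by omega) (by omega)
    have htl' : ¬ t l'.val := fun e => ht ((h.t_iff _ _ (by omega) (by omega)).1 e)
    have hm' : cc s t l'.val = l'.val - s l.val := by unfold cc; rw [if_neg htl', hsl']
    have H := chain_AC h l'
    rw [hm', hsl'] at H
    have h1 : l.val - s l.val = l'.val - s l.val + 1 := by omega
    have hg : vx D l (s l.val) (l.val - s l.val + 1) * D.refl (RS.al l) =
        vx D l' (s l.val) (l'.val - s l.val + 1) := by
      rw [h1, vx_pred l l' hl' (by omega) le_rfl, mul_assoc]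
      show _ * (D.s l * D.s l) = _
      rw [RS.s_mul_self, mul_one]
    have hlen : D.len (vx D l' (s l.val) (l'.val - s l.val + 1)) = l'.val - s l.val + 1 := by
      have h2 := H.len_v_mul le_rfl (PW D l'.val).one_mem
      rwa [mul_one, RS.len_one, add_zero] at h2
    refine corner_of (D.al_pos l) (fun k hk => cb_al (ne_of_lt hk)) (by rw [cb_al_self]; norm_num) ?_ ?_ ?_
    · rw [hg]
      have h2 := H.v_mem (j := l'.val - s l.val + 1) le_rfl
      rwa [hl'] at h2
    · rw [hg, hlen, hcht, h1]
      push_cast
      ring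
    · intro d hd hd0
      rw [hg]
      have hdot : dotProduct (D.co (RS.al l)) d = - d l' := by
        show ∑ k, D.co (RS.al l) k * d k = - d l'
        rw [Finset.sum_eq_single l']
        · rw [(h.link l' l hl' (by omega)).2.1 (fun e => ht e.1)]
          ring
        · intro k _ hk
          have hk2 : k.val ≠ l'.val := fun e => hk (Fin.ext e)
          by_cases hkl : k < l
          · rw [Fin.lt_def] at hkl
            rw [(h.zero' k l (by omega)).2, zero_mul]
          · rw [hd0 k (not_lt.1 hkl), mul_zero]
        · exact fun e => absurd (Finset.mem_univ _) e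
      have hdk : ∀ k : Fin r, l' < k → d k = 0 := by
        intro k hk
        rw [Fin.lt_def] at hk
        refine hd0 k ?_
        rw [Fin.le_def]
        omega
      by_cases hdl : d l' = 0
      · left
        refine ⟨?_, by rw [hdot, hdl, neg_zero]⟩
        by_contra hneg
        have h2 := RS.len_lt_of_neg (vx D l' (s l.val) (l'.val - s l.val + 1)) hd hneg
        have h3 : D.refl d ∈ PW D l'.val := by
          refine refl_mem_PW (RS.mem_of_pos hd) fun i hi => ?_
          by_cases e : i = l'
          · rw [e, hdl]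
          · refine hdk i ?_
            rw [Fin.lt_def]
            have : i.val ≠ l'.val := fun e' => e (Fin.ext e')
            omega
        rw [H.len_v_mul le_rfl h3, hlen] at h2
        omega
      · right
        obtain ⟨j, hj, hdj⟩ := H.psi_eq hd hdl hdk
        constructor
        · intro hpos
          rw [hdj, H.v_bt_pos le_rfl hj] at hpos
          omega
        · rw [hdot, hdj]
          have h2 := tab_root h l' (j := j) (k := ix l' (s l.val) j) (Or.inl (by rw [hsl']; exact hj))
            (H.le j hj) (fun e => htl' e.1)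
          rw [hsl'] at h2
          have h3 : (ix l' (s l.val) j).val = l'.val - j := by
            unfold ix
            show (if j ≤ l'.val - s l.val then l'.val - j else _) = _
            rw [if_pos hj]
          have h4 : bt D (ix l' (s l.val)) (vx D l' (s l.val)) j l' = 1 := by
            unfold bt
            rw [h2]
            unfold tabv
            rw [if_neg (by omega), if_pos (by omega)]
            unfold Sv
            rw [if_pos ⟨by omega, le_rfl⟩]
          rw [h4]

theorem corner_AC (h : IsAC D s t) (l : Fin r) :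
    IsCorner D l (cc s t l.val) (vx D l (s l.val)) (gam s t l) := by
  unfold gam
  by_cases ht : t l.val
  · rw [if_pos ht]
    exact cb_C h l ht
  · rw [if_neg ht]
    exact cb_A h l ht

end Pool.Agent.FLX
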