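import Pool.Agent.FLX.RPsi

/-!
# FLX-RMon: classical edges raise `j`, quantum edges lower `j`
-/

set_option autoImplicit false

open scoped BigOperators

namespace Pool.Agent.FLX

open Pool.Agent.FLG

variable {r : ℕ} {D : RS r} {l : Fin r} {m : ℕ} {i : ℕ → Fin r} {v : ℕ → D.W}

private theorem rm_pos {a : Fin r → ℤ} (ha : a ∈ D.Pos) {k : Fin r} (hk : a k ≠ 0) : 0 < a k :=
  lt_of_le_of_ne ((RS.mem_Pos.1 ha).2 k) hk.symm

/-- the positive roots of `Φ_{l+1} ∖ Φ_l` which become negative -/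
private def NN (D : RS r) (l : Fin r) (x : D.W) : Finset (Fin r → ℤ) :=
  open Classical in D.Pos.filter fun b => b l ≠ 0 ∧ (∀ k, l < k → b k = 0) ∧ D.rt x b ∉ D.Pos

private theorem mem_NN {x : D.W} {b : Fin r → ℤ} :
    b ∈ NN D l x ↔ b ∈ D.Pos ∧ b l ≠ 0 ∧ (∀ k, l < k → b k = 0) ∧ D.rt x b ∉ D.Pos := by
  unfold NN
  rw [Finset.mem_filter]

private theorem IsChain.card_NN (H : IsChain D l m i v) {j : ℕ} (hj : j ≤ m + 1) {u : D.W}
    (hu : u ∈ PW D l.val) : (NN D l (v j * u)).card = j := by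
  have hu' : u⁻¹ ∈ PW D l.val := (PW D l.val).inv_mem hu
  have h1 : (Finset.range j).card = (NN D l (v j * u)).card := by
    refine Finset.card_bij (fun k _ => D.rt u⁻¹ (bt D i v k)) ?_ ?_ ?_
    · intro k hk
      rw [Finset.mem_range] at hk
      have hk' : k ≤ m := by omega
      have h2 : ∀ n : Fin r, l.val ≤ n.val → D.rt u⁻¹ (bt D i v k) n = bt D i v k n :=
        fun n hn => hu' _ n hn
      refine mem_NN.2 ⟨rt_pos hu' (RS.mem_of_pos (H.bt_pos hk')) le_rfl (H.pos k hk'), ?_, ?_, ?_⟩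
      · rw [h2 l le_rfl]
        exact (H.pos k hk').ne'
      · intro n hn
        rw [h2 n (le_of_lt hn), H.bt_supp hk' hn]
      · rw [D.rt_mul, D.rt_rt_inv, H.v_bt_pos hj hk']
        omega
    · intro k hk k' hk' h
      rw [Finset.mem_range] at hk hk'
      exact H.bt_inj (by omega) (by omega) (D.rt_inj _ h)
    · intro b hb
      obtain ⟨h2, h3, h4, h5⟩ := mem_NN.1 hb
      have h6 : D.rt u b ∈ D.Pos := rt_pos hu (RS.mem_of_pos h2) le_rfl (rm_pos h2 h3)
      obtain ⟨k, hk, hkb⟩ := H.psi_eq h6 (by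
        rw [hu b l le_rfl]
        exact h3) (fun n hn => by
        rw [hu b n (le_of_lt hn)]
        exact h4 n hn)
      rw [D.rt_mul, hkb, H.v_bt_pos hj hk] at h5
      refine ⟨k, Finset.mem_range.2 (by omega), ?_⟩
      rw [← hkb, D.rt_inv_rt]
  rw [← h1, Finset.card_range]

private theorem form_symm (D : RS r) (x y : Fin r → ℤ) : D.form x y = D.form y x := by
  unfold RS.form
  exact Finset.sum_congr rfl fun _ _ => mul_comm _ _

/-- the roots `b` of `Φ_{l+1} ∖ Φ_l` have nonnegative products with `a` -/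
private theorem IsChain.co_nonneg (H : IsChain D l m i v) {a b : Fin r → ℤ} (ha : a ∈ D.Pos)
    (hal : a l ≠ 0) (hak : ∀ k, l < k → a k = 0) (hb : b ∈ D.Pos) (hbl : b l ≠ 0)
    (hbk : ∀ k, l < k → b k = 0) : 0 ≤ dotProduct (D.co a) b := by
  by_contra hc
  rw [not_le] at hc
  have haΦ := RS.mem_of_pos ha
  have hbΦ := RS.mem_of_pos hb
  have e1 : D.rt (D.refl a) b = b - dotProduct (D.co a) b • a := RS.rt_refl haΦ b
  have e2 : ∀ k, D.rt (D.refl a) b k = b k - dotProduct (D.co a) b * a k := by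
    intro k
    rw [e1]
    rfl
  have h1 : 0 < D.rt (D.refl a) b l := by
    rw [e2]
    have h2 := rm_pos ha hal
    have h3 := rm_pos hb hbl
    nlinarith
  have h2 : D.rt (D.refl a) b ∈ D.Pos := pos_of_coord (D.rt_mem.2 hbΦ) h1
  have h3 := H.cof_one h2 h1.ne' (fun k hk => by
    rw [e2, hak k hk, hbk k hk]
    ring)
  have h4 := cof_rt_refl (1 : D.W) hbΦ haΦ
  rw [D.rt_one, D.rt_one, D.rt_one] at h4
  have h5 := congrFun h4 l
  rw [h3, Pi.sub_apply, Pi.smul_apply, smul_eq_mul, H.cof_one hb hbl hbk, H.cof_one ha hal hak] at h5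
  have h6 := RS.form_co haΦ b
  have h7 := RS.form_co hbΦ a
  have h8 := RS.form_pos haΦ
  have h9 : dotProduct (D.co b) a = 0 := by linarith
  rw [h9, zero_mul, form_symm D a b] at h7
  nlinarith

theorem IsChain.mono_up (H : IsChain D l m i v) {j j' : ℕ} (hj : j ≤ m + 1) (hj' : j' ≤ m + 1)
    {u u' : D.W} (hu : u ∈ PW D l.val) (hu' : u' ∈ PW D l.val) {a : Fin r → ℤ} (ha : a ∈ D.Pos)
    (hal : a l ≠ 0) (h : v j' * u' = v j * u * D.refl a) (hpos : D.rt (v j * u) a ∈ D.Pos) :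
    j < j' := by
  have haΦ := RS.mem_of_pos ha
  have hmem : D.refl a ∈ PW D (l.val + 1) := by
    have h1 : D.refl a = (v j * u)⁻¹ * (v j' * u') := by rw [h, inv_mul_cancel_left]
    rw [h1]
    exact (PW D (l.val + 1)).mul_mem
      ((PW D (l.val + 1)).inv_mem ((PW D (l.val + 1)).mul_mem (H.v_mem hj) (PW_mono (Nat.le_succ _) hu)))
      ((PW D (l.val + 1)).mul_mem (H.v_mem hj') (PW_mono (Nat.le_succ _) hu'))
  have hak : ∀ k, l < k → a k = 0 := fun k hk => supp_of_refl_mem haΦ hmem k hk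
  have e1 : ∀ b, D.rt (v j' * u') b = D.rt (v j * u) b - dotProduct (D.co a) b • D.rt (v j * u) a := by
    intro b
    rw [h, D.rt_mul, RS.rt_refl haΦ, D.rt_sub, D.rt_smul]
  have h1 : NN D l (v j * u) ⊂ NN D l (v j' * u') := by
    rw [Finset.ssubset_iff_of_subset]
    · refine ⟨a, mem_NN.2 ⟨ha, hal, hak, ?_⟩, fun h2 => (mem_NN.1 h2).2.2.2 hpos⟩
      rw [h, D.rt_mul, RS.rt_refl_self haΦ, D.rt_neg]
      exact RS.neg_not_pos hpos
    · intro b hb
      obtain ⟨h2, h3, h4, h5⟩ := mem_NN.1 hb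
      refine mem_NN.2 ⟨h2, h3, h4, fun h6 => h5 ?_⟩
      have hc := H.co_nonneg ha hal hak h2 h3 h4
      refine RS.mem_Pos.2 ⟨D.rt_mem.2 (RS.mem_of_pos h2), fun k => ?_⟩
      have h7 := (RS.mem_Pos.1 h6).2 k
      have h8 := (RS.mem_Pos.1 hpos).2 k
      rw [e1, Pi.sub_apply, Pi.smul_apply, smul_eq_mul] at h7
      have h9 := mul_nonneg hc h8
      linarith
  have h2 := Finset.card_lt_card h1
  rw [H.card_NN hj hu, H.card_NN hj' hu'] at h2
  exact h2

theorem IsChain.mono_down (H : IsChain D l m i v) {j j' : ℕ} (hj : j ≤ m + 1) (hj' : j' ≤ m + 1)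
    {u u' : D.W} (hu : u ∈ PW D l.val) (hu' : u' ∈ PW D l.val) {a : Fin r → ℤ} (ha : a ∈ D.Pos)
    (hal : a l ≠ 0) (h : v j' * u' = v j * u * D.refl a) (hneg : D.rt (v j * u) a ∉ D.Pos) :
    j' < j := by
  have haΦ := RS.mem_of_pos ha
  refine H.mono_up hj' hj hu' hu ha hal ?_ ?_
  · rw [h, mul_assoc, RS.refl_mul_self haΦ, mul_one]
  · rw [h, D.rt_mul, RS.rt_refl_self haΦ, D.rt_neg]
    exact (RS.not_pos_iff (D.rt_mem.2 haΦ)).1 hneg

theorem IsChain.step_one (H : IsChain D l m i v) {j : ℕ} (hj : j ≤ m)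
    {u u' : D.W} (hu : u ∈ PW D l.val) (hu' : u' ∈ PW D l.val) {a : Fin r → ℤ} (ha : a ∈ D.Pos)
    (hal : a l ≠ 0) (h : v (j + 1) * u' = v j * u * D.refl a) :
    u' = u ∧ a = D.rt u⁻¹ (bt D i v j) := by
  have haΦ := RS.mem_of_pos ha
  have hb := H.bt_pos hj
  have hua : D.rt u a ∈ D.Pos := rt_pos hu haΦ le_rfl (rm_pos ha hal)
  have e1 : D.refl (D.rt u a) * u = u * D.refl a := by
    rw [RS.refl_rt u haΦ, inv_mul_cancel_right]
  have e2 : D.refl (bt D i v j) * u' = D.refl (D.rt u a) * u := by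
    rw [H.v_succ' hj, mul_assoc, mul_assoc] at h
    rw [e1]
    exact mul_left_cancel h
  have e3 : u' = D.refl (bt D i v j) * D.refl (D.rt u a) * u := by
    rw [mul_assoc, ← e2, ← mul_assoc, RS.refl_mul_self (RS.mem_of_pos hb), one_mul]
  have e4 : D.refl (bt D i v j) * D.refl (D.rt u a) ∈ PW D l.val := by
    have e5 : D.refl (bt D i v j) * D.refl (D.rt u a) = u' * u⁻¹ := by
      rw [e3, mul_inv_cancel_right]
    rw [e5]
    exact (PW D l.val).mul_mem hu' ((PW D l.val).inv_mem hu)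
  have e5 : bt D i v j = D.rt u a := refl_refl hb hua (H.pos j hj).ne' e4
  refine ⟨?_, by rw [e5, D.rt_inv_rt]⟩
  rw [e3, ← e5, RS.refl_mul_self (RS.mem_of_pos hb), one_mul]

/-- the corner: the edges from the last coset to the first one -/
theorem IsCorner.unique {γ : Fin r → ℤ} (H : IsChain D l m i v) (C : IsCorner D l m v γ)
    {u u' : D.W} (hu : u ∈ PW D l.val) (hu' : u' ∈ PW D l.val) {a : Fin r → ℤ} (ha : a ∈ D.Pos)
    (hal : a l ≠ 0) (h : u' = v (m + 1) * u * D.refl a) :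
    u' = v (m + 1) * D.refl γ * u ∧ a = D.rt u⁻¹ γ := by
  have haΦ := RS.mem_of_pos ha
  have hua : D.rt u a ∈ D.Pos := rt_pos hu haΦ le_rfl (rm_pos ha hal)
  have e1 : D.refl (D.rt u a) * u = u * D.refl a := by
    rw [RS.refl_rt u haΦ, inv_mul_cancel_right]
  have e2 : v (m + 1) * D.refl (D.rt u a) = u' * u⁻¹ := by
    rw [eq_mul_inv_iff_mul_eq, mul_assoc, e1, ← mul_assoc]
    exact h.symm
  have e3 : D.refl γ * D.refl (D.rt u a) ∈ PW D l.val := by
    have e4 : D.refl γ * D.refl (D.rt u a) =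
        (v (m + 1) * D.refl γ)⁻¹ * (v (m + 1) * D.refl (D.rt u a)) := by
      rw [mul_inv_rev, RS.refl_inv (RS.mem_of_pos C.mem), mul_assoc, inv_mul_cancel_left]
    rw [e4, e2]
    exact (PW D l.val).mul_mem ((PW D l.val).inv_mem C.cor)
      ((PW D l.val).mul_mem hu' ((PW D l.val).inv_mem hu))
  have e5 : γ = D.rt u a := refl_refl C.mem hua C.pos.ne' e3
  refine ⟨?_, by rw [e5, D.rt_inv_rt]⟩
  rw [e5, mul_assoc, e1, ← mul_assoc]
  exact h

end Pool.Agent.FLX
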