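import Pool.Agent.FLX.BDefs

/-!
# FLX-RP: the parabolic subgroups `PW D l`
-/

set_option autoImplicit false

open scoped BigOperators

namespace Pool.Agent.FLX

open Pool.Agent.FLG

variable {r : ℕ} {D : RS r}

theorem pos_of_coord {a : Fin r → ℤ} (ha : a ∈ D.Φ) {i : Fin r} (h : 0 < a i) : a ∈ D.Pos := by
  rcases RS.pos_or_neg ha with h1 | h1
  · exact h1
  · have h2 := (RS.mem_Pos.1 h1).2 i
    rw [Pi.neg_apply] at h2
    omega

theorem refl_mem_PW {l : ℕ} {a : Fin r → ℤ} (ha : a ∈ D.Φ) (h : ∀ i : Fin r, l ≤ i.val → a i = 0) :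
    D.refl a ∈ PW D l := by
  intro b i hi
  rw [RS.rt_refl ha, Pi.sub_apply, Pi.smul_apply, h i hi, smul_zero, sub_zero]

theorem supp_of_refl_mem {l : ℕ} {a : Fin r → ℤ} (ha : a ∈ D.Φ) (h : D.refl a ∈ PW D l) :
    ∀ i : Fin r, l ≤ i.val → a i = 0 := by
  intro i hi
  have h1 := h a i hi
  rw [RS.rt_refl_self ha, Pi.neg_apply] at h1
  omega

theorem PW_mono {l l' : ℕ} (h : l ≤ l') : PW D l ≤ PW D l' :=
  fun _ hw b i hi => hw b i (le_trans h hi)

theorem PW_zero {w : D.W} (h : w ∈ PW D 0) : w = 1 := by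
  apply D.ext_rt
  intro i
  rw [D.rt_one]
  funext j
  exact h _ j (Nat.zero_le _)

theorem PW_top {l : ℕ} (h : r ≤ l) (w : D.W) : w ∈ PW D l :=
  fun _ i hi => absurd i.isLt (not_lt.2 (le_trans h hi))

private theorem al_same (i : Fin r) : (RS.al i : Fin r → ℤ) i = 1 := by
  simp [RS.al]

private theorem al_ne {i j : Fin r} (h : j ≠ i) : (RS.al i : Fin r → ℤ) j = 0 := by
  simp [RS.al, h]

theorem s_mem_PW {l : ℕ} {k : Fin r} (h : k.val < l) : D.s k ∈ PW D l := by
  refine refl_mem_PW (D.al_mem k) fun i hi => al_ne ?_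
  rintro rfl
  omega

theorem rt_pos {l : ℕ} {u : D.W} (hu : u ∈ PW D l) {a : Fin r → ℤ} (ha : a ∈ D.Φ) {i : Fin r}
    (hi : l ≤ i.val) (h : 0 < a i) : D.rt u a ∈ D.Pos := by
  refine pos_of_coord (D.rt_mem.2 ha) (i := i) ?_
  rw [hu a i hi]
  exact h

theorem pw_induction {l : ℕ} {p : D.W → Prop} (h1 : p 1)
    (hs : ∀ (k : Fin r) (w : D.W), k.val < l → w ∈ PW D l → p w → p (D.s k * w)) :
    ∀ w ∈ PW D l, p w := by
  have key : ∀ (n : ℕ) (w : D.W), w ∈ PW D l → D.len w = n → p w := by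
    intro n
    induction n using Nat.strong_induction_on with
    | _ n ih =>
      intro w hw hn
      by_cases h : w = 1
      · rw [h]
        exact h1
      · obtain ⟨k, hk⟩ := RS.exists_descent h
        have hkl : k.val < l := by
          by_contra hcon
          push Not at hcon
          have h2 : D.rt w⁻¹ (RS.al k) ∈ D.Pos :=
            rt_pos (inv_mem hw) (D.al_mem k) hcon (by rw [al_same]; exact one_pos)
          have h3 := RS.len_s_mul_of_pos k w h2
          omega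
        have h4 : D.s k * w ∈ PW D l := mul_mem (s_mem_PW hkl) hw
        have h5 := hs k (D.s k * w) hkl h4 (ih (D.len (D.s k * w)) (by omega) _ h4 rfl)
        rwa [← mul_assoc, RS.s_mul_self, one_mul] at h5
  exact fun w hw => key _ w hw rfl

theorem pw_induction_right {l : ℕ} {p : D.W → Prop} (h1 : p 1)
    (hs : ∀ (k : Fin r) (w : D.W), k.val < l → w ∈ PW D l → p w → p (w * D.s k)) :
    ∀ w ∈ PW D l, p w := by
  intro w hw
  have h := pw_induction (l := l) (p := fun w => p w⁻¹) (by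
      show p (1 : D.W)⁻¹
      rw [inv_one]
      exact h1)
    (fun k w hk hw hp => by
      show p (D.s k * w)⁻¹
      rw [mul_inv_rev, RS.s_inv]
      exact hs k w⁻¹ hk (inv_mem hw) hp) w⁻¹ (inv_mem hw)
  have h2 : p w⁻¹⁻¹ := h
  rwa [inv_inv] at h2

end Pool.Agent.FLX
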