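import Pool.Agent.FLX.RCof

/-!
# FLX-RTab: the words of the chains of types A and C, the roots `v_j⁻¹ α_k`

Let `s₀ = s l` be the start of the component of `l`. The word is `l, l - 1, …, s₀` (type A),
`l, l - 1, …, s₀, s₀ + 1, …, l` (type C). `Sv l a = α_a + … + α_l`, `thv l s₀ = α_{s₀} + 2 (α_{s₀+1} + … + α_l)`.

The tables: `v_j⁻¹ α_k` for `k ≤ l`, in the first half (`j ≤ l - s₀`, for type A also `j = l - s₀ + 1`):
`tabv l s₀ j k`, except that in type C `v_{l-s₀}⁻¹ α_{s₀} = thv l s₀`; its coroot is always `tabv l s₀ j k`.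
In the second half (type C, `j = l - s₀ + p`, `1 ≤ p ≤ l - s₀ + 1`) the root is `tabw l s₀ p k`, its coroot
`tabc l s₀ p k`.

PLAN (this file): induction on `j` with `rt_rt_s`, `cof_rt_s`:
`v_{j+1}⁻¹ α_k = v_j⁻¹ (s_i α_k) = v_j⁻¹ α_k - co (al i) k • v_j⁻¹ α_i` with `i = i_j = l - j`, and for the
coroots `- co (al k) i • cof (v_j⁻¹ α_i)`; here `v_j⁻¹ α_i = Sv l i`; only `k = i - 1, i, i + 1` change
(`IsAC.zero'`), and for `i - 1 < s₀` nothing changes (`IsAC.zero`, with `s i = s l`, `IsAC.s_eq`):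
`α_{i-1} + Sv l i = Sv l (i-1)`; `Sv l i - 2 Sv l i = - Sv l i` (`co (al i) i = 2`, `co_self`);
`- Sv l (i+1) + Sv l i = α_i`. In type C the step from `j = l - s₀ - 1`, `i = s₀ + 1`, gives
`α_{s₀} + 2 Sv l (s₀ + 1) = thv l s₀`. Do the computation coordinatewise (`funext`, `split_ifs`, `omega`).
-/

set_option autoImplicit false

open scoped BigOperators

noncomputable section

namespace Pool.Agent.FLX

open Pool.Agent.FLG

variable {r : ℕ}

/-- the letter number `j` of the word -/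
def ix (l : Fin r) (s₀ j : ℕ) : Fin r :=
  ⟨if j ≤ l.val - s₀ then l.val - j else min (2 * s₀ + j - l.val) l.val, by
    split_ifs
    · exact lt_of_le_of_lt (Nat.sub_le _ _) l.isLt
    · exact lt_of_le_of_lt (min_le_right _ _) l.isLt⟩

/-- the chain -/
def vx (D : RS r) (l : Fin r) (s₀ : ℕ) : ℕ → D.W
  | 0 => 1
  | j + 1 => D.s (ix l s₀ j) * vx D l s₀ j

/-- `α_a + … + α_l` -/
def Sv (l : Fin r) (a : ℕ) : Fin r → ℤ := fun k => if a ≤ k.val ∧ k ≤ l then 1 else 0

/-- `α_{s₀} + 2 (α_{s₀+1} + … + α_l)` -/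
def thv (l : Fin r) (s₀ : ℕ) : Fin r → ℤ := Sv l s₀ + Sv l (s₀ + 1)

/-- `α_{k-1}` -/
def pre (k : Fin r) : Fin r → ℤ := RS.al ⟨k.val - 1, lt_of_le_of_lt (Nat.sub_le _ _) k.isLt⟩

/-- the table of the first half -/
def tabv (l : Fin r) (s₀ j : ℕ) (k : Fin r) : Fin r → ℤ :=
  if k.val < s₀ ∨ k.val + j < l.val then RS.al k else if k.val + j = l.val then Sv l k.val
  else if k.val + j = l.val + 1 then -Sv l k.val else pre k

/-- the table of the second half, roots -/
def tabw (l : Fin r) (s₀ p : ℕ) (k : Fin r) : Fin r → ℤ :=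
  if k.val + 1 < s₀ + p then RS.al k
  else if k.val + 1 = s₀ + p then (if k.val = s₀ then -thv l s₀ else Sv l k.val - thv l s₀)
  else if k.val = s₀ + p then thv l s₀ - Sv l k.val else pre k

/-- the table of the second half, coroots -/
def tabc (l : Fin r) (s₀ p : ℕ) (k : Fin r) : Fin r → ℤ :=
  if k.val + 1 < s₀ + p then RS.al k
  else if k.val + 1 = s₀ + p then (if k.val = s₀ then -Sv l s₀ else Sv l k.val - 2 • Sv l s₀)
  else if k.val = s₀ + p then 2 • Sv l s₀ - Sv l k.val else pre k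

variable {D : RS r} {s : ℕ → ℕ} {t : ℕ → Prop}

private theorem ix_val (l : Fin r) {s₀ j : ℕ} (hj : j ≤ l.val - s₀) : (ix l s₀ j).val = l.val - j :=
  if_pos hj

private theorem al_app (k x : Fin r) : (RS.al k : Fin r → ℤ) x = if x.val = k.val then 1 else 0 := by
  unfold RS.al
  rw [Pi.single_apply]
  by_cases h : x = k
  · rw [if_pos h, if_pos (by rw [h])]
  · rw [if_neg h, if_neg (fun h1 => h (Fin.ext h1))]

private theorem Sv_app (l : Fin r) (a : ℕ) (x : Fin r) :
    Sv l a x = if a ≤ x.val ∧ x.val ≤ l.val then 1 else 0 := rfl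

private theorem pre_app (k x : Fin r) : (pre k : Fin r → ℤ) x = if x.val = k.val - 1 then 1 else 0 := by
  unfold pre
  rw [al_app]

/-- the coefficients of the step -/
private def cst (l : Fin r) (s₀ j : ℕ) (k : Fin r) : ℤ :=
  if k.val < s₀ ∨ k.val + 1 + j < l.val ∨ l.val + 1 < k.val + j then 0 else
    if k.val + j = l.val then 2 else -1

private theorem tabv_a {l k : Fin r} {s₀ j : ℕ} (h : k.val < s₀ ∨ k.val + j < l.val) :
    tabv l s₀ j k = RS.al k := if_pos h

private theorem tabv_b {l k : Fin r} {s₀ j : ℕ} (h : s₀ ≤ k.val) (h' : k.val + j = l.val) :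
    tabv l s₀ j k = Sv l k.val := by
  unfold tabv
  rw [if_neg (show ¬ (k.val < s₀ ∨ k.val + j < l.val) by omega), if_pos h']

private theorem tabv_c {l k : Fin r} {s₀ j : ℕ} (h : s₀ ≤ k.val) (h' : k.val + j = l.val + 1) :
    tabv l s₀ j k = -Sv l k.val := by
  unfold tabv
  rw [if_neg (show ¬ (k.val < s₀ ∨ k.val + j < l.val) by omega),
    if_neg (show ¬ (k.val + j = l.val) by omega), if_pos h']

private theorem tabv_d {l k : Fin r} {s₀ j : ℕ} (h : s₀ ≤ k.val) (h' : l.val + 1 < k.val + j) :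
    tabv l s₀ j k = pre k := by
  unfold tabv
  rw [if_neg (show ¬ (k.val < s₀ ∨ k.val + j < l.val) by omega),
    if_neg (show ¬ (k.val + j = l.val) by omega), if_neg (show ¬ (k.val + j = l.val + 1) by omega)]

private theorem cst_a {l k : Fin r} {s₀ j : ℕ}
    (h : k.val < s₀ ∨ k.val + 1 + j < l.val ∨ l.val + 1 < k.val + j) : cst l s₀ j k = 0 := if_pos h

private theorem cst_b {l k : Fin r} {s₀ j : ℕ} (h : s₀ ≤ k.val) (h' : k.val + j = l.val) :
    cst l s₀ j k = 2 := by
  unfold cst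
  rw [if_neg (show ¬ (k.val < s₀ ∨ k.val + 1 + j < l.val ∨ l.val + 1 < k.val + j) by omega), if_pos h']

private theorem cst_c {l k : Fin r} {s₀ j : ℕ} (h : s₀ ≤ k.val)
    (h' : k.val + j = l.val + 1 ∨ k.val + 1 + j = l.val) : cst l s₀ j k = -1 := by
  unfold cst
  rw [if_neg (show ¬ (k.val < s₀ ∨ k.val + 1 + j < l.val ∨ l.val + 1 < k.val + j) by omega),
    if_neg (show ¬ (k.val + j = l.val) by omega)]

private theorem step_tab (l : Fin r) {s₀ j : ℕ} (hs : s₀ ≤ l.val) (hj : j ≤ l.val - s₀) {k : Fin r}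
    (hk : k ≤ l) : tabv l s₀ j k - cst l s₀ j k • Sv l (l.val - j) = tabv l s₀ (j + 1) k := by
  rw [Fin.le_def] at hk
  by_cases h1 : k.val < s₀
  · rw [tabv_a (Or.inl h1), cst_a (Or.inl h1), tabv_a (Or.inl h1), zero_smul, sub_zero]
  · rw [not_lt] at h1
    by_cases h2 : k.val + 1 + j < l.val
    · rw [tabv_a (by omega), cst_a (Or.inr (Or.inl h2)), tabv_a (by omega), zero_smul, sub_zero]
    · by_cases h3 : k.val + 1 + j = l.val
      · rw [tabv_a (by omega), cst_c h1 (Or.inr h3), tabv_b h1 (by omega)]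
        funext x
        rw [Pi.sub_apply, Pi.smul_apply, smul_eq_mul, al_app, Sv_app, Sv_app]
        split_ifs <;> omega
      · by_cases h4 : k.val + j = l.val
        · rw [tabv_b h1 h4, cst_b h1 h4, tabv_c h1 (by omega)]
          funext x
          rw [Pi.sub_apply, Pi.smul_apply, smul_eq_mul, Pi.neg_apply, Sv_app, Sv_app]
          split_ifs <;> omega
        · by_cases h5 : k.val + j = l.val + 1
          · rw [tabv_c h1 h5, cst_c h1 (Or.inl h5), tabv_d h1 (by omega)]
            funext x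
            rw [Pi.sub_apply, Pi.smul_apply, smul_eq_mul, Pi.neg_apply, Sv_app, Sv_app, pre_app]
            split_ifs <;> omega
          · rw [tabv_d h1 (by omega), cst_a (by omega), tabv_d h1 (by omega), zero_smul, sub_zero]

private theorem co_al_self (D : RS r) (i : Fin r) : D.co (RS.al i) i = 2 := by
  rw [← RS.dot_al (D.co (RS.al i)) i]
  exact D.co_self _ (D.al_mem i)

private theorem coefs (h : IsAC D s t) (l : Fin r) {j : ℕ} (hj : j ≤ l.val - s l.val) {k : Fin r}
    (hk : k ≤ l) :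
    (¬ (t l.val ∧ k.val + j = l.val + 1 ∧ l.val - j = s l.val) →
      D.co (RS.al k) (ix l (s l.val) j) = cst l (s l.val) j k) ∧
    (¬ (t l.val ∧ k.val + 1 + j = l.val ∧ k.val = s l.val) →
      D.co (RS.al (ix l (s l.val) j)) k = cst l (s l.val) j k) := by
  rw [Fin.le_def] at hk
  have hs := h.s_le l.val
  obtain ⟨i, hi⟩ : ∃ i, i = ix l (s l.val) j := ⟨_, rfl⟩
  have hiv : i.val = l.val - j := by rw [hi, ix_val l hj]
  rw [← hi]
  have hsi : s i.val = s l.val := h.s_eq _ _ (by omega) (by omega)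
  have hti : t i.val ↔ t l.val := h.t_iff _ _ (by omega) (by omega)
  by_cases h1 : k.val < s l.val
  · rw [cst_a (Or.inl h1)]
    obtain ⟨h2, h3⟩ := h.zero k i (by omega)
    exact ⟨fun _ => h2, fun _ => h3⟩
  · have hsk : s k.val = s l.val := h.s_eq _ _ (by omega) (by omega)
    have htk : t k.val ↔ t l.val := h.t_iff _ _ (by omega) (by omega)
    by_cases h2 : k.val + 1 + j < l.val
    · rw [cst_a (Or.inr (Or.inl h2))]
      obtain ⟨h3, h4⟩ := h.zero' k i (by omega)
      exact ⟨fun _ => h3, fun _ => h4⟩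
    · by_cases h3 : l.val + 1 < k.val + j
      · rw [cst_a (Or.inr (Or.inr h3))]
        obtain ⟨h4, h5⟩ := h.zero' i k (by omega)
        exact ⟨fun _ => h5, fun _ => h4⟩
      · by_cases h4 : k.val + j = l.val
        · rw [cst_b (by omega) h4]
          have h5 : k = i := Fin.ext (by omega)
          rw [h5]
          exact ⟨fun _ => co_al_self D i, fun _ => co_al_self D i⟩
        · rw [cst_c (by omega) (by omega)]
          by_cases h5 : k.val + 1 = i.val
          · obtain ⟨h6, h7, -⟩ := h.link k i h5 (by omega)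
            refine ⟨fun _ => h6, fun h8 => h7 fun h9 => h8 ⟨hti.1 h9.1, by omega, by omega⟩⟩
          · have h6 : i.val + 1 = k.val := by omega
            obtain ⟨h7, h8, -⟩ := h.link i k h6 (by omega)
            refine ⟨fun h9 => h8 fun h10 => h9 ⟨htk.1 h10.1, by omega, by omega⟩, fun _ => h7⟩

private theorem vx_inv (D : RS r) (l : Fin r) (s₀ j : ℕ) (a : Fin r → ℤ) :
    D.rt (vx D l s₀ (j + 1))⁻¹ a = D.rt (vx D l s₀ j)⁻¹ (D.rt (D.s (ix l s₀ j)) a) := by
  rw [← D.rt_mul]
  congr 1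
  show (D.s (ix l s₀ j) * vx D l s₀ j)⁻¹ = _
  rw [mul_inv_rev, RS.s_inv]

private theorem tab_ix (l : Fin r) {s₀ j : ℕ} (hs : s₀ ≤ l.val) (hj : j ≤ l.val - s₀) :
    tabv l s₀ j (ix l s₀ j) = Sv l (l.val - j) := by
  have h1 := ix_val l hj
  rw [tabv_b (by omega) (by omega), h1]

private theorem tab_zero (l : Fin r) {s₀ : ℕ} (hs : s₀ ≤ l.val) {k : Fin r} (hk : k ≤ l) :
    tabv l s₀ 0 k = RS.al k := by
  rw [Fin.le_def] at hk
  by_cases h1 : k.val = l.val
  · rw [tabv_b (by omega) (by omega)]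
    funext x
    rw [al_app, Sv_app]
    split_ifs <;> omega
  · rw [tabv_a (by omega)]

private theorem ix_le (l : Fin r) {s₀ j : ℕ} (hj : j ≤ l.val - s₀) : ix l s₀ j ≤ l := by
  rw [Fin.le_def, ix_val l hj]
  omega

theorem tab_cof (h : IsAC D s t) (l : Fin r) {j : ℕ}
    (hj : j ≤ l.val - s l.val ∨ (¬ t l.val ∧ j ≤ l.val - s l.val + 1)) {k : Fin r} (hk : k ≤ l) :
    D.cof (D.rt (vx D l (s l.val) j)⁻¹ (RS.al k)) = tabv l (s l.val) j k := by
  have hs := h.s_le l.val
  induction j generalizing k with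
  | zero =>
    show D.cof (D.rt (1 : D.W)⁻¹ (RS.al k)) = _
    rw [inv_one, D.rt_one, cof_al, tab_zero l hs hk]
  | succ j ih =>
    have hj' : j ≤ l.val - s l.val := by omega
    rw [vx_inv, cof_rt_s, ih (Or.inl hj') hk, ih (Or.inl hj') (ix_le l hj'), tab_ix l hs hj',
      (coefs h l hj' hk).1, step_tab l hs hj' hk]
    rintro ⟨h1, h2, h3⟩
    rcases hj with h4 | h4
    · omega
    · exact h4.1 h1

theorem tab_root (h : IsAC D s t) (l : Fin r) {j : ℕ}
    (hj : j ≤ l.val - s l.val ∨ (¬ t l.val ∧ j ≤ l.val - s l.val + 1)) {k : Fin r} (hk : k ≤ l)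
    (he : ¬ (t l.val ∧ k.val = s l.val ∧ j = l.val - s l.val)) :
    D.rt (vx D l (s l.val) j)⁻¹ (RS.al k) = tabv l (s l.val) j k := by
  have hs := h.s_le l.val
  induction j generalizing k with
  | zero =>
    show D.rt (1 : D.W)⁻¹ (RS.al k) = _
    rw [inv_one, D.rt_one, tab_zero l hs hk]
  | succ j ih =>
    have hj' : j ≤ l.val - s l.val := by omega
    have hne : ∀ k' : Fin r, ¬ (t l.val ∧ k'.val = s l.val ∧ j = l.val - s l.val) := by
      rintro k' ⟨h1, h2, h3⟩
      rcases hj with h4 | h4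
      · omega
      · exact h4.1 h1
    rw [vx_inv, rt_rt_s, ih (Or.inl hj') hk (hne _), ih (Or.inl hj') (ix_le l hj') (hne _),
      tab_ix l hs hj', (coefs h l hj' hk).2, step_tab l hs hj' hk]
    rintro ⟨h1, h2, h3⟩
    exact he ⟨h1, h3, by omega⟩

theorem tab_mid (h : IsAC D s t) (l : Fin r) (ht : t l.val) {k : Fin r} (hk : k.val = s l.val) :
    D.rt (vx D l (s l.val) (l.val - s l.val))⁻¹ (RS.al k) = thv l (s l.val) := by
  have hs := h.s_le l.val
  have hkl : k ≤ l := by rw [Fin.le_def]; omega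
  rcases Nat.eq_zero_or_pos (l.val - s l.val) with h0 | h0
  · rw [h0]
    show D.rt (1 : D.W)⁻¹ (RS.al k) = _
    rw [inv_one, D.rt_one]
    funext x
    unfold thv
    rw [Pi.add_apply, al_app, Sv_app, Sv_app]
    split_ifs <;> omega
  · obtain ⟨j, hj⟩ : ∃ j, l.val - s l.val = j + 1 := ⟨l.val - s l.val - 1, by omega⟩
    have hj' : j ≤ l.val - s l.val := by omega
    have hiv := ix_val l hj'
    rw [hj, vx_inv, rt_rt_s, tab_root h l (Or.inl hj') hkl (by omega),
      tab_root h l (Or.inl hj') (ix_le l hj') (by omega), tab_ix l hs hj']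
    have h1 : D.co (RS.al (ix l (s l.val) j)) k = -2 := by
      have hsi : s (ix l (s l.val) j).val = s l.val := h.s_eq _ _ (by omega) (by omega)
      have hti : t (ix l (s l.val) j).val ↔ t l.val := h.t_iff _ _ (by omega) (by omega)
      exact (h.link k (ix l (s l.val) j) (by omega) (by omega)).2.2 ⟨hti.2 ht, by omega⟩
    rw [h1, tabv_a (by omega)]
    funext x
    unfold thv
    rw [Pi.sub_apply, Pi.smul_apply, Pi.add_apply, smul_eq_mul, al_app, Sv_app, Sv_app, Sv_app]
    split_ifs <;> omega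

end Pool.Agent.FLX
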