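import Pool.Agent.FLX.RTab

/-!
# FLX-RTabC: the tables of the second half (type C)
-/

set_option autoImplicit false

open scoped BigOperators

noncomputable section

namespace Pool.Agent.FLX

open Pool.Agent.FLG

variable {r : ℕ} {D : RS r} {s : ℕ → ℕ} {t : ℕ → Prop}

private theorem vx_step (D : RS r) (l : Fin r) (s₀ j : ℕ) (k : Fin r) :
    D.rt (vx D l s₀ (j + 1))⁻¹ (RS.al k) = D.rt (vx D l s₀ j)⁻¹ (RS.al k) -
      D.co (RS.al (ix l s₀ j)) k • D.rt (vx D l s₀ j)⁻¹ (RS.al (ix l s₀ j)) ∧
    D.cof (D.rt (vx D l s₀ (j + 1))⁻¹ (RS.al k)) = D.cof (D.rt (vx D l s₀ j)⁻¹ (RS.al k)) -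
      D.co (RS.al k) (ix l s₀ j) • D.cof (D.rt (vx D l s₀ j)⁻¹ (RS.al (ix l s₀ j))) := by
  have h1 : (vx D l s₀ (j + 1))⁻¹ = (vx D l s₀ j)⁻¹ * D.s (ix l s₀ j) := by
    show (D.s (ix l s₀ j) * vx D l s₀ j)⁻¹ = _
    rw [mul_inv_rev, RS.s_inv]
  rw [h1, D.rt_mul]
  exact ⟨rt_rt_s _ _ _, cof_rt_s _ _ _⟩

private theorem co_al_self (D : RS r) (i : Fin r) : D.co (RS.al i) i = 2 := by
  rw [← RS.dot_al (D.co (RS.al i)) i]
  exact D.co_self _ (D.al_mem i)

private theorem Sv_al {l k : Fin r} (hk : k ≤ l) : Sv l k.val = RS.al k + Sv l (k.val + 1) := by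
  funext n
  simp only [Sv, RS.al, Pi.add_apply, Pi.single_apply]
  by_cases h1 : n = k
  · rw [h1, if_pos ⟨le_rfl, hk⟩, if_pos rfl, if_neg (by omega), add_zero]
  · rw [if_neg h1, zero_add]
    have h2 : n.val ≠ k.val := fun e => h1 (Fin.ext e)
    by_cases h3 : k.val ≤ n.val ∧ n ≤ l
    · rw [if_pos h3, if_pos ⟨by omega, h3.2⟩]
    · rw [if_neg h3, if_neg fun h4 => h3 ⟨by omega, h4.2⟩]

private theorem pre_eq {k k' : Fin r} (h : k'.val + 1 = k.val) : pre k = RS.al k' := by
  unfold pre
  congr 1
  exact Fin.ext (by simp; omega)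

private theorem tab_w_aux (h : IsAC D s t) (l : Fin r) (ht : t l.val) (p : ℕ) (hp : 1 ≤ p) :
    p ≤ l.val - s l.val + 1 → ∀ k : Fin r, k ≤ l →
    D.rt (vx D l (s l.val) (l.val - s l.val + p))⁻¹ (RS.al k) = tabw l (s l.val) p k ∧
      D.cof (D.rt (vx D l (s l.val) (l.val - s l.val + p))⁻¹ (RS.al k)) = tabc l (s l.val) p k := by
  have hs := h.s_le l.val
  have hss : ∀ j, s l.val ≤ j → j ≤ l.val → s j = s l.val := fun j h1 h2 => h.s_eq j l.val h1 h2
  have htt : ∀ j, s l.val ≤ j → j ≤ l.val → t j := fun j h1 h2 => (h.t_iff j l.val h1 h2).2 ht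
  have hmid := fun k hk => tab_mid h l ht (k := k) hk
  have hroot := fun k hk he => tab_root h l (j := l.val - s l.val) (Or.inl le_rfl) (k := k) hk he
  have hcof := fun k hk => tab_cof h l (j := l.val - s l.val) (Or.inl le_rfl) (k := k) hk
  generalize s l.val = s₀ at hs hss htt hmid hroot hcof ⊢
  induction p, hp using Nat.le_induction with
  | base =>
    intro _ k hk
    have hkl : k.val ≤ l.val := hk
    obtain ⟨e1, e2⟩ := vx_step D l s₀ (l.val - s₀) k
    have hi : (ix l s₀ (l.val - s₀)).val = s₀ := by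
      simp only [ix, le_refl, if_true]
      omega
    generalize ix l s₀ (l.val - s₀) = i at hi e1 e2
    have hil : i ≤ l := by
      show i.val ≤ l.val
      omega
    have hsi : s i.val = s₀ := by rw [hi]; exact hss s₀ le_rfl hs
    have e3 : tabv l s₀ (l.val - s₀) i = Sv l s₀ := by
      unfold tabv
      rw [if_neg (by omega), if_pos (by omega), hi]
    rw [hmid i hi] at e1
    rw [hcof i hil, hcof k hk, e3] at e2
    rw [e2, e1]
    rcases lt_trichotomy k.val s₀ with h1 | h1 | h1
    · obtain ⟨z1, z2⟩ := h.zero k i (by omega)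
      rw [hroot k hk (by omega), z1, z2, zero_smul, zero_smul, sub_zero]
      unfold tabv tabw tabc
      rw [if_pos (by omega), if_pos (by omega), if_pos (by omega)]
      exact ⟨rfl, rfl⟩
    · have hki : k = i := Fin.ext (by omega)
      rw [hki] at h1 ⊢
      rw [hmid i hi, e3, co_al_self, two_smul, two_smul]
      unfold tabw tabc
      rw [if_neg (by omega), if_pos (by omega), if_pos h1, if_neg (by omega), if_pos (by omega), if_pos h1]
      constructor <;> abel
    · rw [hroot k hk (by omega)]
      by_cases h2 : k.val = s₀ + 1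
      · obtain ⟨z1, -, z3⟩ := h.link i k (by omega) (by rw [hss k.val (by omega) hkl]; omega)
        have z4 := z3 ⟨htt k.val (by omega) hkl, by rw [hss k.val (by omega) hkl]; omega⟩
        have e4 : tabv l s₀ (l.val - s₀) k = -Sv l k.val := by
          unfold tabv
          rw [if_neg (by omega), if_neg (by omega), if_pos (by omega)]
        rw [z1, z4, e4]
        unfold tabw tabc
        rw [if_neg (by omega), if_neg (by omega), if_pos (by omega), if_neg (by omega), if_neg (by omega),
          if_pos (by omega), neg_smul, neg_smul, one_smul]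
        constructor
        · abel
        · rw [two_smul, two_smul]
          abel
      · obtain ⟨z1, z2⟩ := h.zero' i k (by omega)
        have e4 : tabv l s₀ (l.val - s₀) k = pre k := by
          unfold tabv
          rw [if_neg (by omega), if_neg (by omega), if_neg (by omega)]
        rw [z1, z2, e4, zero_smul, zero_smul, sub_zero]
        unfold tabw tabc
        rw [if_neg (by omega), if_neg (by omega), if_neg (by omega), if_neg (by omega), if_neg (by omega),
          if_neg (by omega)]
        exact ⟨rfl, rfl⟩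
  | succ p hp ih =>
    intro hpn k hk
    have hkl : k.val ≤ l.val := hk
    obtain ⟨e1, e2⟩ := vx_step D l s₀ (l.val - s₀ + p) k
    have hi : (ix l s₀ (l.val - s₀ + p)).val = s₀ + p := by
      simp only [ix]
      rw [if_neg (by omega)]
      omega
    generalize ix l s₀ (l.val - s₀ + p) = i at hi e1 e2
    have hil : i ≤ l := by
      show i.val ≤ l.val
      omega
    have hiv : i.val ≤ l.val := hil
    have hsi : s i.val = s₀ := hss _ (by omega) hiv
    obtain ⟨f1, f2⟩ := ih (by omega) k hk
    obtain ⟨f3, f4⟩ := ih (by omega) i hil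
    have f5 : tabw l s₀ p i = thv l s₀ - Sv l i.val := by
      unfold tabw
      rw [if_neg (by omega), if_neg (by omega), if_pos (by omega)]
    have f6 : tabc l s₀ p i = 2 • Sv l s₀ - Sv l i.val := by
      unfold tabc
      rw [if_neg (by omega), if_neg (by omega), if_pos (by omega)]
    rw [f1, f3, f5] at e1
    rw [f2, f4, f6] at e2
    rw [show l.val - s₀ + (p + 1) = l.val - s₀ + p + 1 from rfl, e2, e1]
    by_cases c1 : k.val + 1 < s₀ + p
    · obtain ⟨z1, z2⟩ := h.zero' k i (by omega)
      rw [z1, z2, zero_smul, zero_smul, sub_zero, sub_zero]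
      unfold tabw tabc
      rw [if_pos c1, if_pos (by omega), if_pos c1, if_pos (by omega)]
      exact ⟨rfl, rfl⟩
    by_cases c2 : k.val + 1 = s₀ + p
    · obtain ⟨z1, z2, z3⟩ := h.link k i (by omega) (by rw [hsi]; omega)
      have g1 : Sv l k.val = RS.al k + Sv l i.val := by
        rw [Sv_al hk, show k.val + 1 = i.val by omega]
      unfold tabw tabc
      rw [if_neg c1, if_pos c2, if_pos (by omega : k.val + 1 < s₀ + (p + 1)), if_neg c1, if_pos c2,
        if_pos (by omega : k.val + 1 < s₀ + (p + 1)), z1]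
      by_cases c3 : k.val = s₀
      · have z4 := z3 ⟨htt _ (by omega) hiv, by rw [hsi]; exact c3⟩
        have g2 : thv l s₀ = RS.al k + Sv l i.val + Sv l i.val := by
          unfold thv
          rw [← c3, g1, show k.val + 1 = i.val by omega]
        have g3 : Sv l s₀ = RS.al k + Sv l i.val := by rw [← c3, g1]
        rw [if_pos c3, if_pos c3, z4, g2, g3, neg_smul, neg_smul, one_smul, two_smul, two_smul]
        constructor <;> abel
      · have z4 := z2 (by rw [hsi]; exact fun e => c3 e.2)
        rw [if_neg c3, if_neg c3, z4, g1, neg_smul, one_smul, neg_smul, one_smul]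
        constructor <;> abel
    by_cases c3 : k.val = s₀ + p
    · have hki : k = i := Fin.ext (by omega)
      rw [hki] at c3 c2 c1 ⊢
      rw [co_al_self]
      unfold tabw tabc
      rw [if_neg c1, if_neg c2, if_pos c3, if_neg (by omega : ¬ i.val + 1 < s₀ + (p + 1)),
        if_pos (by omega : i.val + 1 = s₀ + (p + 1)), if_neg (by omega : ¬ i.val = s₀), if_neg c1, if_neg c2, if_pos c3,
        if_neg (by omega : ¬ i.val + 1 < s₀ + (p + 1)), if_pos (by omega : i.val + 1 = s₀ + (p + 1)),
        if_neg (by omega : ¬ i.val = s₀)]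
      constructor
      · rw [two_smul]
        abel
      · rw [two_smul ℤ (2 • Sv l s₀ - Sv l i.val)]
        abel
    have g0 : tabw l s₀ p k = pre k := by
      unfold tabw
      rw [if_neg c1, if_neg c2, if_neg c3]
    have g1 : tabc l s₀ p k = pre k := by
      unfold tabc
      rw [if_neg c1, if_neg c2, if_neg c3]
    rw [g0, g1]
    by_cases c4 : k.val = s₀ + (p + 1)
    · have hsk : s k.val = s₀ := hss _ (by omega) hkl
      obtain ⟨z1, z2, -⟩ := h.link i k (by omega) (by rw [hsk]; omega)
      have z4 := z2 (by rw [hsk]; omega)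
      have g2 : Sv l i.val = RS.al i + Sv l k.val := by
        rw [Sv_al hil, show i.val + 1 = k.val by omega]
      rw [z1, z4, pre_eq (k' := i) (by omega), g2]
      unfold tabw tabc
      rw [if_neg (by omega), if_neg (by omega), if_pos c4, if_neg (by omega), if_neg (by omega), if_pos c4,
        neg_smul, one_smul, neg_smul, one_smul]
      constructor <;> abel
    · obtain ⟨z1, z2⟩ := h.zero' i k (by omega)
      rw [z1, z2, zero_smul, zero_smul, sub_zero]
      unfold tabw tabc
      rw [if_neg (by omega), if_neg (by omega), if_neg c4, if_neg (by omega), if_neg (by omega), if_neg c4]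
      exact ⟨rfl, rfl⟩

theorem tab_w (h : IsAC D s t) (l : Fin r) (ht : t l.val) {p : ℕ} (hp : 1 ≤ p)
    (hp' : p ≤ l.val - s l.val + 1) {k : Fin r} (hk : k ≤ l) :
    D.rt (vx D l (s l.val) (l.val - s l.val + p))⁻¹ (RS.al k) = tabw l (s l.val) p k ∧
      D.cof (D.rt (vx D l (s l.val) (l.val - s l.val + p))⁻¹ (RS.al k)) = tabc l (s l.val) p k := by
  exact tab_w_aux h l ht p hp hp' k hk

end Pool.Agent.FLX
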