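import Pool.Agent.FLX.RCorB
import Pool.Agent.FLX.RBlkB

/-!
# FLX-RTr: the corner blocks of consecutive levels

`TT D s t l q` is the corner block `T D l g γ q`, `g = v_{m+1} s_γ`, `γ = gam s t l`. For a component which
starts at `l` and for the type C it is a scalar matrix: the root `γ` is fixed by `PW D l` and `g = 1`.
-/

set_option autoImplicit false

open scoped BigOperators

noncomputable section

namespace Pool.Agent.FLX

open Pool.Agent.FLG

variable {r : ℕ} {D : RS r} {s : ℕ → ℕ} {t : ℕ → Prop}

/-- the corner block of the level `l` -/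
def TT (D : RS r) (s : ℕ → ℕ) (t : ℕ → Prop) (l : Fin r) (q : ℕ → ℂ) :
    Matrix (PW D l.val) (PW D l.val) ℂ :=
  T D l (vx D l (s l.val) (cc s t l.val + 1) * D.refl (gam s t l)) (gam s t l) q

private theorem rt_fix {l : ℕ} {a : Fin r → ℤ}
    (h : ∀ k : Fin r, k.val < l → dotProduct (D.co (RS.al k)) a = 0) :
    ∀ w ∈ PW D l, D.rt w a = a := by
  apply pw_induction (p := fun w => D.rt w a = a)
  · exact D.rt_one a
  · intro k w hk _ hw
    rw [D.rt_mul, hw]
    show D.rt (D.refl (RS.al k)) a = a
    rw [D.rt_refl (D.al_mem k), h k hk, zero_smul, sub_zero]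

private theorem T_scalar {l : Fin r} {a : Fin r → ℤ}
    (h : ∀ k : Fin r, k.val < l.val → dotProduct (D.co (RS.al k)) a = 0) (q : ℕ → ℂ) :
    T D l 1 a q = (qp D (Function.update q l.val 1) a) • 1 := by
  funext u' u
  rw [Matrix.smul_apply, Matrix.one_apply, smul_eq_mul, mul_ite, mul_one, mul_zero]
  unfold T
  rw [rt_fix h u.1⁻¹ ((PW D l.val).inv_mem u.2), one_mul]
  by_cases e : u' = u
  · rw [if_pos e, if_pos (congrArg Subtype.val e)]
  · rw [if_neg e, if_neg fun h1 => e (Subtype.ext h1)]

private theorem Sv_top (l : Fin r) : Sv l l.val = RS.al l := by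
  funext k
  unfold Sv RS.al
  by_cases e : k = l
  · subst e
    rw [if_pos ⟨le_refl _, le_refl _⟩, Pi.single_eq_same]
  · rw [Pi.single_eq_of_ne e, if_neg]
    rintro ⟨h1, h2⟩
    exact e (Fin.ext (le_antisymm h2 h1))

private theorem Sv_over (l : Fin r) : Sv l (l.val + 1) = 0 := by
  funext k
  unfold Sv
  rw [if_neg]
  · rfl
  · rintro ⟨h1, h2⟩
    have h3 : k.val ≤ l.val := h2
    omega

private theorem qp_al (l : Fin r) (q : ℕ → ℂ) : qp D (Function.update q l.val 1) (RS.al l) = 1 := by
  unfold qp
  rw [cof_al]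
  refine Finset.prod_eq_one fun k _ => ?_
  by_cases e : k = l
  · rw [e, Function.update_self, one_pow]
  · unfold RS.al
    rw [Pi.single_eq_of_ne e, Int.toNat_zero, pow_zero]

theorem T_start (h : IsAC D s t) (l : Fin r) (hl : s l.val = l.val) (q : ℕ → ℂ) :
    TT D s t l q = 1 := by
  have hg : gam s t l = RS.al l := by
    unfold gam
    split_ifs
    · unfold thv
      rw [hl, Sv_top, Sv_over, add_zero]
    · rfl
  have hc : cc s t l.val = 0 := by
    unfold cc
    rw [hl]
    simp
  have hi : ix l l.val 0 = l := by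
    apply Fin.ext
    unfold ix
    simp
  unfold TT
  rw [hg, hc, hl]
  have h1 : vx D l l.val (0 + 1) * D.refl (RS.al l) = 1 := by
    show D.s (ix l l.val 0) * 1 * D.refl (RS.al l) = 1
    rw [hi, mul_one]
    exact RS.refl_mul_self (D.al_mem l)
  rw [h1, T_scalar, qp_al, one_smul]
  intro k hk
  rw [RS.dot_al]
  exact (h.zero k l (by rw [hl]; exact hk)).1

private theorem dot_thv (h : IsAC D s t) (l : Fin r) (ht : t l.val) (k : Fin r) (hk : k.val < l.val) :
    dotProduct (D.co (RS.al k)) (thv l (s l.val)) = 0 := by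
  have hth : ∀ j : Fin r, thv l (s l.val) j =
      (if s l.val ≤ j.val ∧ j ≤ l then 1 else 0) + if s l.val + 1 ≤ j.val ∧ j ≤ l then 1 else 0 :=
    fun j => rfl
  have hself : D.co (RS.al k) k = 2 := by
    have h1 := D.co_self _ (D.al_mem k)
    rwa [RS.dot_al] at h1
  by_cases hks : k.val < s l.val
  · unfold dotProduct
    refine Finset.sum_eq_zero fun j _ => ?_
    rw [hth]
    by_cases hj : s l.val ≤ j.val ∧ j ≤ l
    · have h2 : j.val ≤ l.val := hj.2
      have h3 := h.s_eq j.val l.val hj.1 h2
      rw [(h.zero k j (by rw [h3]; exact hks)).1, zero_mul]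
    · rw [if_neg hj, if_neg fun h4 => hj ⟨by omega, h4.2⟩]
      simp
  · push Not at hks
    have hkp : k.val + 1 < r := lt_of_le_of_lt hk l.isLt
    have hsk : s k.val = s l.val := h.s_eq k.val l.val hks hk.le
    obtain ⟨kp, hkp⟩ : ∃ kp : Fin r, kp.val = k.val + 1 := ⟨⟨k.val + 1, hkp⟩, rfl⟩
    have hsp : s kp.val = s l.val := h.s_eq kp.val l.val (by omega) (by omega)
    have hkpl : kp ≤ l := by
      show kp.val ≤ l.val
      omega
    have hkl : k ≤ l := hk.le
    have hp1 : D.co (RS.al k) kp = -1 := (h.link k kp hkp.symm (by omega)).1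
    have hkne : k ≠ kp := fun e => by
      have := congrArg Fin.val e
      omega
    have hk0 : ∀ j : Fin r, j.val + 1 < k.val ∨ kp.val < j.val → D.co (RS.al k) j = 0 := by
      intro j hj
      rcases hj with hj | hj
      · exact (h.zero' j k hj).2
      · exact (h.zero' k j (by omega)).1
    have htp : thv l (s l.val) kp = 2 := by
      rw [hth, if_pos ⟨by omega, hkpl⟩, if_pos ⟨by omega, hkpl⟩]
      norm_num
    rcases Nat.eq_or_lt_of_le hks with hks1 | hks1
    · -- `k` is the long root
      have hv : thv l (s l.val) k = 1 := by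
        rw [hth, if_pos ⟨hks, hkl⟩, if_neg (by omega)]
        norm_num
      have hsum : dotProduct (D.co (RS.al k)) (thv l (s l.val)) =
          ∑ j ∈ ({k, kp} : Finset (Fin r)), D.co (RS.al k) j * thv l (s l.val) j := by
        unfold dotProduct
        symm
        refine Finset.sum_subset (Finset.subset_univ _) fun j _ hj => ?_
        rw [Finset.mem_insert, Finset.mem_singleton, not_or] at hj
        have h1 : j.val ≠ k.val := fun e => hj.1 (Fin.ext e)
        have h2 : j.val ≠ kp.val := fun e => hj.2 (Fin.ext e)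
        rcases lt_or_ge kp.val j.val with h3 | h3
        · rw [hk0 j (Or.inr h3), zero_mul]
        · have h4 : j.val < s l.val := by omega
          rw [hth, if_neg (by omega), if_neg (by omega)]
          simp
      rw [hsum, Finset.sum_pair hkne, hself, hp1, hv, htp]
      norm_num
    · obtain ⟨km, hkm⟩ : ∃ km : Fin r, km.val + 1 = k.val :=
        ⟨⟨k.val - 1, by omega⟩, by simp only; omega⟩
      have hkml : km ≤ l := by
        show km.val ≤ l.val
        omega
      have hv : thv l (s l.val) k = 2 := by
        rw [hth, if_pos ⟨hks, hkl⟩, if_pos ⟨by omega, hkl⟩]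
        norm_num
      have hne1 : km ≠ k := fun e => by
        have := congrArg Fin.val e
        omega
      have hne2 : km ≠ kp := fun e => by
        have := congrArg Fin.val e
        omega
      have hsum : dotProduct (D.co (RS.al k)) (thv l (s l.val)) =
          ∑ j ∈ ({km, k, kp} : Finset (Fin r)), D.co (RS.al k) j * thv l (s l.val) j := by
        unfold dotProduct
        symm
        refine Finset.sum_subset (Finset.subset_univ _) fun j _ hj => ?_
        rw [Finset.mem_insert, Finset.mem_insert, Finset.mem_singleton, not_or, not_or] at hj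
        have h0 : j.val ≠ km.val := fun e => hj.1 (Fin.ext e)
        have h1 : j.val ≠ k.val := fun e => hj.2.1 (Fin.ext e)
        have h2 : j.val ≠ kp.val := fun e => hj.2.2 (Fin.ext e)
        rw [hk0 j (by omega), zero_mul]
      have hlink := h.link km k hkm (by omega)
      have htk : t k.val := (h.t_iff k.val l.val hks hk.le).2 ht
      rw [hsum, Finset.sum_insert (by
        rw [Finset.mem_insert, Finset.mem_singleton, not_or]
        exact ⟨hne1, hne2⟩), Finset.sum_pair hkne, hself, hp1, hv, htp]
      by_cases h5 : km.val = s k.val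
      · have h6 : thv l (s l.val) km = 1 := by
          rw [hth, if_pos ⟨by omega, hkml⟩, if_neg (by omega)]
          norm_num
        rw [hlink.2.2 ⟨htk, h5⟩, h6]
        norm_num
      · have h6 : thv l (s l.val) km = 2 := by
          rw [hth, if_pos ⟨by omega, hkml⟩, if_pos ⟨by omega, hkml⟩]
          norm_num
        rw [hlink.2.1 fun h7 => h5 h7.2, h6]
        norm_num

private theorem cof_thv (h : IsAC D s t) (l : Fin r) (ht : t l.val) :
    D.cof (thv l (s l.val)) = Sv l (s l.val) := by
  have hs := h.s_le l.val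
  obtain ⟨k, hk⟩ : ∃ k : Fin r, k.val = s l.val := ⟨⟨s l.val, lt_of_le_of_lt hs l.isLt⟩, rfl⟩
  have hkl : k ≤ l := by
    show k.val ≤ l.val
    omega
  rw [← tab_mid h l ht hk, tab_cof h l (Or.inl (le_refl _)) hkl]
  unfold tabv
  rw [if_neg (by omega), if_pos (by omega), hk]

private theorem qp_thv (h : IsAC D s t) (l : Fin r) (ht : t l.val) (q : ℕ → ℂ) :
    qp D (Function.update q l.val 1) (thv l (s l.val)) = ∏ k ∈ Finset.Ico (s l.val) l.val, q k := by
  unfold qp
  rw [cof_thv h l ht]
  have e : ∀ k : Fin r, Function.update q l.val 1 k.val ^ (Sv l (s l.val) k).toNat =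
      if k.val ∈ Finset.Ico (s l.val) l.val then q k.val else 1 := by
    intro k
    unfold Sv
    by_cases h1 : s l.val ≤ k.val ∧ k ≤ l
    · rw [if_pos h1, Int.toNat_one, pow_one]
      have h2 : k.val ≤ l.val := h1.2
      by_cases h3 : k.val = l.val
      · rw [h3, Function.update_self, if_neg]
        rw [Finset.mem_Ico]
        omega
      · rw [Function.update_of_ne h3, if_pos]
        rw [Finset.mem_Ico]
        omega
    · rw [if_neg h1, Int.toNat_zero, pow_zero, if_neg]
      rw [Finset.mem_Ico]
      rintro ⟨h2, h3⟩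
      exact h1 ⟨h2, h3.le⟩
  rw [Finset.prod_congr rfl fun k _ => e k,
    Fin.prod_univ_eq_prod_range (fun k => if k ∈ Finset.Ico (s l.val) l.val then q k else 1) r,
    Finset.prod_ite_mem, Finset.inter_eq_right.2]
  intro k hk
  rw [Finset.mem_Ico] at hk
  rw [Finset.mem_range]
  exact hk.2.trans l.isLt

theorem T_C (h : IsAC D s t) (l : Fin r) (ht : t l.val) (q : ℕ → ℂ) :
    TT D s t l q = (∏ k ∈ Finset.Ico (s l.val) l.val, q k) • 1 := by
  unfold TT
  have hg : gam s t l = thv l (s l.val) := by
    unfold gam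
    rw [if_pos ht]
  rw [hg, vx_C h l ht, T_scalar (dot_thv h l ht), qp_thv h l ht]

end Pool.Agent.FLX
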