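import Pool.Agent.FLX.RTr

/-!
# FLX-RTrA: the corner blocks of consecutive levels in type A
-/

set_option autoImplicit false

open scoped BigOperators

noncomputable section

namespace Pool.Agent.FLX

open Pool.Agent.FLG

variable {r : ℕ} {D : RS r} {s : ℕ → ℕ} {t : ℕ → Prop}

private theorem ix_val (l' : Fin r) {s₀ j : ℕ} (hj : j ≤ l'.val - s₀) : (ix l' s₀ j).val = l'.val - j := by
  unfold ix
  simp only [if_pos hj]

/-- `g s_k = s_{k+1} g` -/
private theorem g_s (h : IsAC D s t) (l' : Fin r) (ht : ¬ t l'.val) (k k₁ : Fin r)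
    (hk : k₁.val = k.val + 1) (h1 : s l'.val ≤ k.val) (h2 : k₁ ≤ l') :
    vx D l' (s l'.val) (l'.val - s l'.val + 1) * D.s k =
      D.s k₁ * vx D l' (s l'.val) (l'.val - s l'.val + 1) := by
  obtain ⟨g, hg⟩ : ∃ g, g = vx D l' (s l'.val) (l'.val - s l'.val + 1) := ⟨_, rfl⟩
  have h2' : k₁.val ≤ l'.val := h2
  have h3 := tab_root h l' (j := l'.val - s l'.val + 1) (Or.inr ⟨ht, le_rfl⟩) h2 (fun h4 => ht h4.1)
  rw [← hg] at h3 ⊢
  have h4 : tabv l' (s l'.val) (l'.val - s l'.val + 1) k₁ = RS.al k := by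
    unfold tabv
    rw [if_neg (by omega), if_neg (by omega), if_neg (by omega)]
    unfold pre
    congr 1
    apply Fin.ext
    show k₁.val - 1 = k.val
    omega
  rw [h4] at h3
  have h5 : D.rt g (RS.al k) = RS.al k₁ := by rw [← h3, D.rt_rt_inv]
  have h6 := D.refl_rt g (D.al_mem k)
  rw [h5] at h6
  show g * D.refl (RS.al k) = D.refl (RS.al k₁) * g
  rw [h6, inv_mul_cancel_right]

/-- `g v_{j+1} = v_j g'` -/
private theorem g_vx (h : IsAC D s t) (l' : Fin r) (ht : ¬ t l'.val) (j : ℕ)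
    (hj : j ≤ l'.val - s l'.val) :
    vx D l' (s l'.val) (l'.val - s l'.val + 1) * vx D l' (s l'.val) (j + 1) =
      vx D l' (s l'.val) j * (vx D l' (s l'.val) (l'.val - s l'.val + 1) * D.s l') := by
  induction j with
  | zero =>
    have e : ix l' (s l'.val) 0 = l' := by
      apply Fin.ext
      rw [ix_val l' (Nat.zero_le _), Nat.sub_zero]
    show _ * (D.s (ix l' (s l'.val) 0) * 1) = 1 * _
    rw [e, mul_one, one_mul]
  | succ j ih =>
    have hs := h.s_le l'.val
    have e1 : vx D l' (s l'.val) (j + 1 + 1) = D.s (ix l' (s l'.val) (j + 1)) * vx D l' (s l'.val) (j + 1) := rfl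
    have e2 : vx D l' (s l'.val) (j + 1) = D.s (ix l' (s l'.val) j) * vx D l' (s l'.val) j := rfl
    have h1 := ix_val l' hj
    have h2 := ix_val l' (s₀ := s l'.val) (j := j) (by omega)
    rw [e1, ← mul_assoc, g_s h l' ht (ix l' (s l'.val) (j + 1)) (ix l' (s l'.val) j) (by omega) (by omega)
      (Fin.le_def.2 (by omega)), mul_assoc, ih (by omega), ← mul_assoc, ← e2]

/-- `v_{j+1}⁻¹ α_l = s_{l'} α_l` -/
private theorem vx_al (h : IsAC D s t) (l' : Fin r) (l : Fin r) (hl : l.val = l'.val + 1) (j : ℕ)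
    (hj : j ≤ l'.val - s l'.val) :
    D.rt (vx D l' (s l'.val) (j + 1))⁻¹ (RS.al l) = D.rt (D.s l') (RS.al l) := by
  induction j with
  | zero =>
    have e : ix l' (s l'.val) 0 = l' := by
      apply Fin.ext
      rw [ix_val l' (Nat.zero_le _), Nat.sub_zero]
    show D.rt (D.s (ix l' (s l'.val) 0) * 1)⁻¹ _ = _
    rw [e, mul_one, D.s_inv]
  | succ j ih =>
    have h1 := ix_val l' hj
    have h3 := (h.zero' (ix l' (s l'.val) (j + 1)) l (by omega)).1
    show D.rt (D.s (ix l' (s l'.val) (j + 1)) * vx D l' (s l'.val) (j + 1))⁻¹ _ = _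
    rw [mul_inv_rev, D.s_inv, D.rt_mul, rt_rt_s, h3, zero_smul, sub_zero, ih (by omega)]

/-- the elements of `W_{l'}` fix `α_l` -/
private theorem pw_al (h : IsAC D s t) (l' : Fin r) (l : Fin r) (hl : l.val = l'.val + 1) :
    ∀ w ∈ PW D l'.val, D.rt w (RS.al l) = RS.al l := by
  refine pw_induction_right (D.rt_one _) fun k w hk _ hw => ?_
  have h3 := (h.zero' k l (by omega)).1
  rw [D.rt_mul, rt_rt_s, h3, zero_smul, sub_zero, hw]

theorem T_A (h : IsAC D s t) (l' : Fin r) (hl : l'.val + 1 < r) (ht : ¬ t (l'.val + 1))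
    (hs : s (l'.val + 1) ≤ l'.val) (q : ℕ → ℂ) (p p' : Fin (cc s t l'.val + 2) × PW D l'.val) :
    TT D s t ⟨l'.val + 1, hl⟩ q ((chain_AC h l').eqv p) ((chain_AC h l').eqv p') =
      (if p.1.val = p'.1.val + 1 then q l'.val * TT D s t l' q p.2 p'.2 else 0) +
      (if p'.1 = Fin.last (cc s t l'.val + 1) ∧ p.1 = 0 ∧ p.2 = p'.2 then 1 else 0) := by
  classical
  obtain ⟨l, hle⟩ : ∃ l : Fin r, l = ⟨l'.val + 1, hl⟩ := ⟨_, rfl⟩
  have hlv : l.val = l'.val + 1 := by rw [hle]
  have hs' : s l'.val = s (l'.val + 1) := h.s_eq l'.val (l'.val + 1) hs (Nat.le_succ _)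
  have ht' : ¬ t l'.val := fun h1 => ht ((h.t_iff l'.val (l'.val + 1) hs (Nat.le_succ _)).1 h1)
  have hcc' : cc s t l'.val = l'.val - s l'.val := by
    unfold cc
    rw [if_neg ht']
  have hcc : cc s t (l'.val + 1) = l'.val - s l'.val + 1 := by
    unfold cc
    rw [if_neg ht, ← hs']
    have := h.s_le l'.val
    omega
  have hgam' : gam s t l' = RS.al l' := by
    unfold gam
    rw [if_neg ht']
  have hgam : gam s t l = RS.al l := by
    unfold gam
    rw [hlv, if_neg ht]
  obtain ⟨g, hg⟩ : ∃ g, g = vx D l' (s l'.val) (l'.val - s l'.val + 1) := ⟨_, rfl⟩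
  -- the corner element of `l`
  have hgl : vx D l (s l.val) (cc s t l.val + 1) * D.refl (gam s t l) = g := by
    rw [hgam, hlv, hcc, ← hs', vx_pred l l' hlv.symm (by rw [hs']; exact hs) le_rfl, hg]
    show _ * D.s l * D.s l = _
    rw [mul_assoc, D.s_mul_self, mul_one]
  have hgl' : vx D l' (s l'.val) (cc s t l'.val + 1) * D.refl (gam s t l') = g * D.s l' := by
    rw [hgam', hcc', hg]
    rfl
  have hgP : g * D.s l' ∈ PW D l'.val := by
    have := (corner_AC h l').cor
    rwa [hgl'] at this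
  obtain ⟨⟨x, hx⟩, a, ha⟩ := p
  obtain ⟨⟨y, hy⟩, b, hb⟩ := p'
  have hbi : b⁻¹ ∈ PW D l'.val := (PW D l'.val).inv_mem hb
  -- the left hand side
  have hL : TT D s t ⟨l'.val + 1, hl⟩ q ((chain_AC h l').eqv (⟨x, hx⟩, ⟨a, ha⟩))
      ((chain_AC h l').eqv (⟨y, hy⟩, ⟨b, hb⟩)) =
      if vx D l' (s l'.val) (cc s t l'.val + 1 - x) * a =
          g * (vx D l' (s l'.val) (cc s t l'.val + 1 - y) * b) then
        qp D (Function.update q l.val 1)
          (D.rt (vx D l' (s l'.val) (cc s t l'.val + 1 - y) * b)⁻¹ (RS.al l)) else 0 := by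
    rw [← hgl, ← hgam]
    subst hle
    rfl
  have hR : TT D s t l' q ⟨a, ha⟩ ⟨b, hb⟩ = if a = g * D.s l' * b then
      qp D (Function.update q l'.val 1) (D.rt b⁻¹ (RS.al l')) else 0 := by
    rw [← hgl', ← hgam']
    rfl
  rw [hL, hR]
  have hm : l'.val - s l'.val + 1 = cc s t l'.val + 1 := by rw [hcc']
  have H := chain_AC h l'
  by_cases hyl : y = cc s t l'.val + 1
  · -- the last coset
    subst hyl
    have e0 : cc s t l'.val + 1 - (cc s t l'.val + 1) = 0 := Nat.sub_self _
    have e3 : ¬ ((⟨x, hx⟩ : Fin (cc s t l'.val + 2)).val =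
        (⟨cc s t l'.val + 1, hy⟩ : Fin (cc s t l'.val + 2)).val + 1) := by
      show ¬ x = cc s t l'.val + 1 + 1
      omega
    rw [e0, if_neg e3, zero_add]
    have e1 : vx D l' (s l'.val) 0 = 1 := rfl
    rw [e1, one_mul, pw_al h l' l hlv _ hbi]
    have hqp : qp D (Function.update q l.val 1) (RS.al l) = 1 := by
      unfold qp
      refine Finset.prod_eq_one fun k _ => ?_
      rw [cof_al]
      by_cases hk : k = l
      · rw [hk, Function.update_self, one_pow]
      · have : RS.al l k = 0 := Pi.single_eq_of_ne hk 1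
        rw [this]
        simp
    rw [hqp]
    refine if_congr ?_ rfl rfl
    rw [hg, hm]
    constructor
    · intro h1
      obtain ⟨h2, h3⟩ := H.coset_unique (Nat.sub_le _ _) le_rfl ha hb h1
      refine ⟨rfl, Fin.ext ?_, Subtype.ext h3⟩
      show x = 0
      omega
    · rintro ⟨_, h2, h3⟩
      have h4 : x = 0 := congrArg Fin.val h2
      have h5 : a = b := congrArg Subtype.val h3
      rw [h4, h5, Nat.sub_zero]
  · obtain ⟨j, hj⟩ : ∃ j, cc s t l'.val + 1 - y = j + 1 := ⟨cc s t l'.val - y, by omega⟩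
    have hjn : j ≤ l'.val - s l'.val := by omega
    have e1 : g * (vx D l' (s l'.val) (j + 1) * b) = vx D l' (s l'.val) j * (g * D.s l' * b) := by
      rw [← mul_assoc, hg, g_vx h l' ht' j hjn, mul_assoc]
    have e2 : ¬ ((⟨y, hy⟩ : Fin (cc s t l'.val + 2)) = Fin.last (cc s t l'.val + 1) ∧
        (⟨x, hx⟩ : Fin (cc s t l'.val + 2)) = 0 ∧ (⟨a, ha⟩ : PW D l'.val) = ⟨b, hb⟩) := by
      rintro ⟨h1, _⟩
      exact hyl (congrArg Fin.val h1)
    rw [if_neg e2, add_zero, hj, e1]
    have hgb : g * D.s l' * b ∈ PW D l'.val := (PW D l'.val).mul_mem hgP hb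
    -- the label
    have hlab : qp D (Function.update q l.val 1)
        (D.rt (vx D l' (s l'.val) (j + 1) * b)⁻¹ (RS.al l)) =
        q l'.val * qp D (Function.update q l'.val 1) (D.rt b⁻¹ (RS.al l')) := by
      rw [mul_inv_rev, D.rt_mul, vx_al h l' l hlv j hjn]
      have hco : D.co (RS.al l) l' = -1 :=
        (h.link l' l hlv.symm (by rw [hlv]; exact hs)).2.1 (fun h1 => ht (by rw [← hlv]; exact h1.1))
      obtain ⟨c, hc⟩ : ∃ c, c = D.cof (D.rt b⁻¹ (RS.al l')) := ⟨_, rfl⟩
      have hcof : D.cof (D.rt b⁻¹ (D.rt (D.s l') (RS.al l))) = RS.al l + c := by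
        rw [cof_rt_s, pw_al h l' l hlv _ hbi, cof_al, hco, neg_smul, one_smul, sub_neg_eq_add, hc]
      have hcoord : ∀ k : Fin r, l'.val ≤ k.val → D.rt b⁻¹ (RS.al l') k = RS.al l' k :=
        fun k hk => (mem_PW D).1 hbi (RS.al l') k hk
      have hal : RS.al l' l' = 1 := Pi.single_eq_same l' 1
      have hpos : D.rt b⁻¹ (RS.al l') ∈ D.Pos := rt_pos hbi (D.al_mem l') (i := l') le_rfl (by
        rw [hal]
        exact one_pos)
      have hsup : ∀ k, l' < k → D.rt b⁻¹ (RS.al l') k = 0 := by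
        intro k hk
        rw [hcoord k (le_of_lt (Fin.lt_def.1 hk))]
        exact Pi.single_eq_of_ne (ne_of_gt hk) 1
      have hc1 : c l' = 1 := by
        rw [hc]
        refine H.cof_one hpos ?_ hsup
        rw [hcoord l' le_rfl, hal]
        exact one_ne_zero
      have hcl : c l = 0 := by
        rw [hc]
        exact cof_zero (RS.mem_of_pos hpos) (hsup l (Fin.lt_def.2 (by omega)))
      have hleft : qp D (Function.update q l.val 1) (D.rt b⁻¹ (D.rt (D.s l') (RS.al l))) =
          ∏ k : Fin r, q k.val ^ (c k).toNat := by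
        unfold qp
        rw [hcof]
        refine Finset.prod_congr rfl fun k _ => ?_
        by_cases hk : k = l
        · rw [hk, Function.update_self, one_pow, hcl]
          simp
        · have h1 : RS.al l k = 0 := Pi.single_eq_of_ne hk 1
          rw [Pi.add_apply, h1, zero_add, Function.update_of_ne fun h2 => hk (Fin.ext h2)]
      have hright : q l'.val * qp D (Function.update q l'.val 1) (D.rt b⁻¹ (RS.al l')) =
          ∏ k : Fin r, q k.val ^ (c k).toNat := by
        unfold qp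
        rw [← hc, ← Finset.mul_prod_erase Finset.univ _ (Finset.mem_univ l'),
          ← Finset.mul_prod_erase Finset.univ (fun k : Fin r => q k.val ^ (c k).toNat)
            (Finset.mem_univ l'), Function.update_self, one_pow, one_mul, hc1]
        have h2 : q l'.val ^ (1 : ℤ).toNat = q l'.val := pow_one _
        rw [h2]
        congr 1
        refine Finset.prod_congr rfl fun k hk => ?_
        rw [Function.update_of_ne fun h2 => (Finset.mem_erase.1 hk).1 (Fin.ext h2)]
      rw [hleft, hright]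
    rw [hlab]
    by_cases h1 : vx D l' (s l'.val) (cc s t l'.val + 1 - x) * a = vx D l' (s l'.val) j * (g * D.s l' * b)
    · obtain ⟨h2, h3⟩ := H.coset_unique (Nat.sub_le _ _) (by omega) ha hgb h1
      rw [if_pos h1, if_pos (by
        show x = y + 1
        omega), if_pos h3]
    · rw [if_neg h1]
      by_cases h2 : (⟨x, hx⟩ : Fin (cc s t l'.val + 2)).val = (⟨y, hy⟩ : Fin (cc s t l'.val + 2)).val + 1
      · rw [if_pos h2, if_neg, mul_zero]
        intro h3
        apply h1
        have h4 : x = y + 1 := h2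
        have h5 : cc s t l'.val + 1 - x = j := by omega
        rw [h5, ← h3]
      · rw [if_neg h2]

end Pool.Agent.FLX
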